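import Pool.Agent.MP_c481b3_nt.H28K.SpecN
import Pool.Agent.MP_807c24_nt.H13.Newman

/-! The prime number theorem for a residue class. -/

namespace Pool.Agent.MP_c481b3_nt.H28K

open Filter Topology MeasureTheory Asymptotics

namespace Pnt

/-- The summatory function. -/
noncomputable def ps (w : ℕ → ℝ) (x : ℝ) : ℝ := ∑ k ∈ Finset.Icc 1 ⌊x⌋₊, w k

/-- The normalised summatory function in the logarithmic variable. -/
noncomputable def hh (w : ℕ → ℝ) (t : ℝ) : ℝ := ps w (Real.exp t) * Real.exp (-t)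

variable {w : ℕ → ℝ}

theorem ps_nonneg (h0 : ∀ n, 0 ≤ w n) (x : ℝ) : 0 ≤ ps w x := Finset.sum_nonneg fun n _ => h0 n

theorem ps_mono (h0 : ∀ n, 0 ≤ w n) : Monotone (ps w) := fun _ _ h =>
  Finset.sum_le_sum_of_subset_of_nonneg (Finset.Icc_subset_Icc_right (Nat.floor_le_floor h))
    fun n _ _ => h0 n

theorem ps_le (h1 : ∀ n, w n ≤ ArithmeticFunction.vonMangoldt n) {x : ℝ} (hx : 0 ≤ x) :
    ps w x ≤ (Real.log 4 + 4) * x :=
  le_trans (Finset.sum_le_sum fun n _ => h1 n) (Chebyshev.psi_le_const_mul_self hx)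

theorem hh_nonneg (h0 : ∀ n, 0 ≤ w n) (t : ℝ) : 0 ≤ hh w t :=
  mul_nonneg (ps_nonneg h0 _) (Real.exp_pos _).le

theorem hh_le (h1 : ∀ n, w n ≤ ArithmeticFunction.vonMangoldt n) (t : ℝ) :
    hh w t ≤ Real.log 4 + 4 := by
  have h := ps_le h1 (Real.exp_pos t).le
  have e : Real.exp t * Real.exp (-t) = 1 := by rw [← Real.exp_add]; simp
  unfold hh
  calc ps w (Real.exp t) * Real.exp (-t) ≤ (Real.log 4 + 4) * Real.exp t * Real.exp (-t) :=
        mul_le_mul_of_nonneg_right h (Real.exp_pos _).le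
    _ = Real.log 4 + 4 := by rw [mul_assoc, e, mul_one]

theorem hh_measurable (h0 : ∀ n, 0 ≤ w n) : Measurable (hh w) := by
  unfold hh
  exact ((ps_mono h0).measurable.comp Real.measurable_exp).mul
    (Real.measurable_exp.comp measurable_neg)

theorem ff_abs (h0 : ∀ n, 0 ≤ w n) (h1 : ∀ n, w n ≤ ArithmeticFunction.vonMangoldt n) (κ t : ℝ) :
    |hh w t - κ| ≤ Real.log 4 + 4 + |κ| := by
  refine (abs_sub _ _).trans ?_
  rw [abs_of_nonneg (hh_nonneg h0 t)]
  linarith [hh_le h1 t]

theorem ff_int (h0 : ∀ n, 0 ≤ w n) (h1 : ∀ n, w n ≤ ArithmeticFunction.vonMangoldt n)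
    (κ a b : ℝ) : IntervalIntegrable (fun t => hh w t - κ) volume a b := by
  refine (intervalIntegrable_const (c := Real.log 4 + 4 + |κ|)).mono_fun'
    ((hh_measurable h0).sub measurable_const).aestronglyMeasurable ?_
  exact Eventually.of_forall fun t => by simpa [Real.norm_eq_abs] using ff_abs h0 h1 κ t

theorem laplace (h0 : ∀ n, 0 ≤ w n) (h1 : ∀ n, w n ≤ ArithmeticFunction.vonMangoldt n) (z : ℂ)
    (hz : 0 < z.re) :
    (z + 1) * ∫ t in Set.Ioi (0 : ℝ), (hh w t : ℂ) * Complex.exp (-(z * t)) =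
      LSeries (fun n => (w n : ℂ)) (z + 1) := by
  have hs : (1 : ℝ) < (z + 1).re := by simp; linarith
  have hO : (fun n : ℕ => ∑ k ∈ Finset.Icc 1 n, w k) =O[atTop] fun n : ℕ => (n : ℝ) ^ (1 : ℝ) := by
    refine IsBigO.of_bound (Real.log 4 + 4) (Eventually.of_forall fun n => ?_)
    have h := ps_le h1 (x := n) (Nat.cast_nonneg n)
    have h2 := ps_nonneg h0 (n : ℝ)
    rw [ps, Nat.floor_natCast] at h h2
    rw [Real.rpow_one, Real.norm_of_nonneg h2, Real.norm_of_nonneg (Nat.cast_nonneg n)]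
    exact h
  rw [LSeries_eq_mul_integral_of_nonneg w zero_le_one hs hO h0]
  congr 1
  have sub := integral_comp_exp_Ioi (fun t : ℝ =>
    (∑ k ∈ Finset.Icc 1 ⌊t⌋₊, ((w k : ℝ) : ℂ)) * (t : ℂ) ^ (-(z + 1 + 1))) 0
  rw [Real.exp_zero] at sub
  rw [← sub]
  refine integral_congr_ae (Eventually.of_forall fun t => ?_)
  simp only
  have e1 : ((Real.exp t : ℝ) : ℂ) ^ (-(z + 1 + 1)) = Complex.exp (t * (-(z + 1 + 1))) := by
    rw [Complex.cpow_def_of_ne_zero (by exact_mod_cast (Real.exp_pos t).ne'),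
      ← Complex.ofReal_log (Real.exp_pos t).le, Real.log_exp]
  rw [e1, ← Complex.ofReal_sum, Complex.real_smul]
  unfold hh ps
  push_cast
  have e2 : Complex.exp (-(t : ℂ)) * Complex.exp (-(z * t)) =
      Complex.exp t * Complex.exp (t * (-(z + 1 + 1))) := by
    rw [← Complex.exp_add, ← Complex.exp_add]
    congr 1
    ring
  rw [mul_assoc, e2]
  ring

theorem g_eq (h0 : ∀ n, 0 ≤ w n) (h1 : ∀ n, w n ≤ ArithmeticFunction.vonMangoldt n) (κ : ℝ)
    (z : ℂ) (hz : 0 < z.re) :
    (LSeries (fun n => (w n : ℂ)) (z + 1) - κ / (z + 1 - 1) - κ) / (z + 1) =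
      ∫ t in Set.Ioi (0 : ℝ), ((hh w t - κ : ℝ) : ℂ) * Complex.exp (-(z * t)) := by
  have hz0 : z ≠ 0 := by rintro rfl; simp at hz
  have hz1 : z + 1 ≠ 0 := by
    intro h
    have := congrArg Complex.re h
    simp at this
    linarith
  have i1 : IntegrableOn (fun t : ℝ => Complex.exp (-(z * t))) (Set.Ioi 0) := by
    have := integrableOn_exp_mul_complex_Ioi (a := -z) (by simpa using hz) 0
    simpa using this
  have v1 : ∫ t in Set.Ioi (0 : ℝ), Complex.exp (-(z * t)) = 1 / z := by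
    have := integral_exp_mul_complex_Ioi (a := -z) (by simpa using hz) 0
    simp only [neg_mul] at this
    rw [this]
    simp [neg_div_neg_eq]
  have i2 : IntegrableOn (fun t : ℝ => (hh w t : ℂ) * Complex.exp (-(z * t))) (Set.Ioi 0) := by
    refine Integrable.bdd_mul (c := Real.log 4 + 4) i1
      (Complex.measurable_ofReal.comp (hh_measurable h0)).aestronglyMeasurable
      (Eventually.of_forall fun t => ?_)
    rw [Complex.norm_real, Real.norm_of_nonneg (hh_nonneg h0 t)]
    exact hh_le h1 t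
  have e : ∀ t : ℝ, ((hh w t - κ : ℝ) : ℂ) * Complex.exp (-(z * t)) =
      (hh w t : ℂ) * Complex.exp (-(z * t)) - κ * Complex.exp (-(z * t)) := by
    intro t
    push_cast
    ring
  simp only [e]
  rw [integral_sub i2 (i1.const_mul _), integral_const_mul, v1, ← laplace h0 h1 z hz,
    add_sub_cancel_right]
  field_simp
  ring

theorem hh_mono (h0 : ∀ n, 0 ≤ w n) {s t : ℝ} (h : s ≤ t) :
    hh w s * Real.exp (s - t) ≤ hh w t := by
  unfold hh
  rw [mul_assoc, ← Real.exp_add, show -s + (s - t) = -t by ring]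
  exact mul_le_mul_of_nonneg_right (ps_mono h0 (Real.exp_le_exp.mpr h)) (Real.exp_pos _).le

theorem upper_step (h0 : ∀ n, 0 ≤ w n) (h1 : ∀ n, w n ≤ ArithmeticFunction.vonMangoldt n)
    (κ T d : ℝ) (hd : 0 < d) :
    hh w T ≤ Real.exp d * (κ + (∫ t in T..(T + d), (hh w t - κ)) / d) := by
  have h : ∫ _ in T..(T + d), (hh w T * Real.exp (-d) - κ) ≤ ∫ t in T..(T + d), (hh w t - κ) := by
    refine intervalIntegral.integral_mono_on (by linarith) intervalIntegrable_const
      (ff_int h0 h1 _ _ _) fun t ht => ?_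
    have a1 := hh_mono h0 ht.1
    have a2 : Real.exp (-d) ≤ Real.exp (T - t) := Real.exp_le_exp.mpr (by linarith [ht.2])
    have a3 := mul_le_mul_of_nonneg_left a2 (hh_nonneg h0 T)
    linarith
  rw [intervalIntegral.integral_const, add_sub_cancel_left, smul_eq_mul] at h
  have h4 : hh w T * Real.exp (-d) - κ ≤ (∫ t in T..(T + d), (hh w t - κ)) / d := by
    rw [le_div_iff₀ hd]
    linarith
  have e : Real.exp d * Real.exp (-d) = 1 := by rw [← Real.exp_add]; simp
  calc hh w T = Real.exp d * (hh w T * Real.exp (-d)) := by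
        rw [mul_comm (hh w T), ← mul_assoc, e, one_mul]
    _ ≤ _ := mul_le_mul_of_nonneg_left (by linarith) (Real.exp_pos _).le

theorem lower_step (h0 : ∀ n, 0 ≤ w n) (h1 : ∀ n, w n ≤ ArithmeticFunction.vonMangoldt n)
    (κ T d : ℝ) (hd : 0 < d) :
    Real.exp (-d) * (κ + (∫ t in (T - d)..T, (hh w t - κ)) / d) ≤ hh w T := by
  have h : ∫ t in (T - d)..T, (hh w t - κ) ≤ ∫ _ in (T - d)..T, (hh w T * Real.exp d - κ) := by
    refine intervalIntegral.integral_mono_on (by linarith) (ff_int h0 h1 _ _ _)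
      intervalIntegrable_const fun t ht => ?_
    have a1 := hh_mono h0 ht.2
    have a2 : 1 ≤ Real.exp (t - T) * Real.exp d := by
      rw [← Real.exp_add]
      exact Real.one_le_exp (by linarith [ht.1])
    have a3 := mul_le_mul_of_nonneg_left a2 (hh_nonneg h0 t)
    have a4 := mul_le_mul_of_nonneg_right a1 (Real.exp_pos d).le
    nlinarith
  rw [intervalIntegral.integral_const, sub_sub_cancel, smul_eq_mul] at h
  have h4 : (∫ t in (T - d)..T, (hh w t - κ)) / d ≤ hh w T * Real.exp d - κ := by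
    rw [div_le_iff₀ hd]
    linarith
  have e : Real.exp (-d) * Real.exp d = 1 := by rw [← Real.exp_add]; simp
  calc Real.exp (-d) * (κ + (∫ t in (T - d)..T, (hh w t - κ)) / d)
      ≤ Real.exp (-d) * (hh w T * Real.exp d) :=
        mul_le_mul_of_nonneg_left (by linarith) (Real.exp_pos _).le
    _ = hh w T := by rw [mul_comm (hh w T), ← mul_assoc, e, one_mul]

theorem hh_tendsto (h0 : ∀ n, 0 ≤ w n) (h1 : ∀ n, w n ≤ ArithmeticFunction.vonMangoldt n)
    (κ c : ℝ) (hF : Tendsto (fun T : ℝ => ∫ t in (0 : ℝ)..T, (hh w t - κ)) atTop (𝓝 c)) :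
    Tendsto (hh w) atTop (𝓝 κ) := by
  have diff : ∀ a b : ℝ, ∫ t in a..b, (hh w t - κ) =
      (∫ t in (0 : ℝ)..b, (hh w t - κ)) - ∫ t in (0 : ℝ)..a, (hh w t - κ) := fun a b =>
    (intervalIntegral.integral_interval_sub_left (ff_int h0 h1 _ _ _) (ff_int h0 h1 _ _ _)).symm
  rw [tendsto_order]
  constructor
  · intro a ha
    obtain ⟨d, hd, hda⟩ : ∃ d : ℝ, 0 < d ∧ a < Real.exp (-d) * κ := by
      have a1 : Tendsto (fun d : ℝ => Real.exp (-d) * κ) (𝓝[>] 0) (𝓝 κ) := by
        have : Continuous fun d : ℝ => Real.exp (-d) * κ := by fun_prop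
        simpa using (this.tendsto 0).mono_left (nhdsWithin_le_nhds (s := Set.Ioi 0))
      exact ((eventually_mem_nhdsWithin).and (a1.eventually (lt_mem_nhds ha))).exists
    have h2 : Tendsto (fun T : ℝ => ∫ t in (0 : ℝ)..(T - d), (hh w t - κ)) atTop (𝓝 c) :=
      hF.comp (tendsto_atTop_add_const_right atTop (-d) tendsto_id)
    have h3 : Tendsto (fun T : ℝ => Real.exp (-d) * (κ + (∫ t in (T - d)..T, (hh w t - κ)) / d))
        atTop (𝓝 (Real.exp (-d) * (κ + (c - c) / d))) := by
      refine ((((hF.sub h2).div_const d).const_add κ).const_mul _).congr fun T => ?_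
      rw [diff (T - d) T]
    rw [sub_self, zero_div, add_zero] at h3
    filter_upwards [h3.eventually (lt_mem_nhds hda)] with T hT
    exact hT.trans_le (lower_step h0 h1 κ T d hd)
  · intro a ha
    obtain ⟨d, hd, hda⟩ : ∃ d : ℝ, 0 < d ∧ Real.exp d * κ < a := by
      have a1 : Tendsto (fun d : ℝ => Real.exp d * κ) (𝓝[>] 0) (𝓝 κ) := by
        have : Continuous fun d : ℝ => Real.exp d * κ := by fun_prop
        simpa using (this.tendsto 0).mono_left (nhdsWithin_le_nhds (s := Set.Ioi 0))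
      exact ((eventually_mem_nhdsWithin).and (a1.eventually (gt_mem_nhds ha))).exists
    have h2 : Tendsto (fun T : ℝ => ∫ t in (0 : ℝ)..(T + d), (hh w t - κ)) atTop (𝓝 c) :=
      hF.comp (tendsto_atTop_add_const_right atTop d tendsto_id)
    have h3 : Tendsto (fun T : ℝ => Real.exp d * (κ + (∫ t in T..(T + d), (hh w t - κ)) / d))
        atTop (𝓝 (Real.exp d * (κ + (c - c) / d))) := by
      refine ((((h2.sub hF).div_const d).const_add κ).const_mul _).congr fun T => ?_
      rw [diff T (T + d)]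
    rw [sub_self, zero_div, add_zero] at h3
    filter_upwards [h3.eventually (gt_mem_nhds hda)] with T hT
    exact (upper_step h0 h1 κ T d hd).trans_lt hT

/-- A Tauberian theorem for weights below the von Mangoldt function. -/
theorem tauber (h0 : ∀ n, 0 ≤ w n) (h1 : ∀ n, w n ≤ ArithmeticFunction.vonMangoldt n) (κ : ℝ)
    (G : ℂ → ℂ) (V : Set ℂ) (hV : IsOpen V) (hm : ∀ s : ℂ, 1 ≤ s.re → s ∈ V)
    (hG : ∀ s ∈ V, DifferentiableAt ℂ G s)
    (he : ∀ s : ℂ, 1 < s.re → G s = LSeries (fun n => (w n : ℂ)) s - κ / (s - 1)) :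
    Tendsto (fun x : ℝ => ps w x / x) atTop (𝓝 κ) := by
  have c1 : Continuous fun z : ℂ => z + 1 := by fun_prop
  have h := MP_807c24_nt.H13.newman (fun t => hh w t - κ) (fun z => (G (z + 1) - κ) / (z + 1))
    {z | z + 1 ∈ V ∧ z + 1 ≠ 0} _ ((hh_measurable h0).sub measurable_const) (ff_abs h0 h1 κ)
    ((hV.preimage c1).inter (isOpen_ne_fun c1 continuous_const))
    (fun z hz => ⟨hm _ (by simp; linarith), fun h => by
      have := congrArg Complex.re h
      simp at this
      linarith⟩)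
    (fun z hz => by
      have a1 : DifferentiableAt ℂ (fun z : ℂ => z + 1) z := by fun_prop
      have a2 : DifferentiableAt ℂ (fun z : ℂ => G (z + 1)) z := (hG _ hz.1).comp z a1
      exact ((a2.sub_const _).div a1 hz.2).differentiableWithinAt)
    (fun z hz => by
      rw [he _ (by simp; linarith)]
      exact g_eq h0 h1 κ z hz)
  have h2 := (hh_tendsto h0 h1 κ _ ((Complex.continuous_re.tendsto _).comp h)).comp
    Real.tendsto_log_atTop
  refine h2.congr' ?_
  filter_upwards [eventually_gt_atTop 0] with x hx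
  simp only [Function.comp, hh]
  rw [Real.exp_neg, Real.exp_log hx, div_eq_mul_inv]

end Pnt

open DirichletCharacter ArithmeticFunction.vonMangoldt in
theorem pntAP : PntAP := by
  intro q a hq ha
  have : NeZero q := ⟨hq⟩
  have d1 := differentiable_LFunctionTrivChar₁ q
  refine Pnt.tauber (residueClass_nonneg a) (residueClass_le a) _ (LFunctionResidueClassAux a)
    ({s | LFunctionTrivChar₁ q s ≠ 0} ∩
      ⋂ χ ∈ {χ : DirichletCharacter ℂ q | χ ≠ 1}, {s | LFunction χ s ≠ 0}) ?_ ?_ ?_ ?_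
  · exact (isOpen_ne_fun d1.continuous continuous_const).inter
      ((Set.toFinite _).isOpen_biInter fun χ hχ =>
        isOpen_ne_fun (differentiable_LFunction hχ).continuous continuous_const)
  · intro s hs
    refine ⟨?_, Set.mem_iInter₂.2 fun χ hχ => LFunction_ne_zero_of_one_le_re χ (.inl hχ) hs⟩
    rcases eq_or_ne s 1 with rfl | h
    · exact LFunctionTrivChar₁_apply_one_ne_zero q
    · change LFunctionTrivChar₁ q s ≠ 0
      rw [LFunctionTrivChar₁, Function.update_of_ne h]
      exact mul_ne_zero (sub_ne_zero_of_ne h) (LFunction_ne_zero_of_one_le_re 1 (.inr h) hs)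
  · intro s hs
    refine ((((d1.deriv s).neg).div (d1 s) hs.1).sub
      (DifferentiableAt.fun_sum fun χ hχ => ?_)).const_mul _
    have h1 : χ ≠ 1 := by simpa using hχ
    have d2 := differentiable_LFunction h1
    exact ((d2.deriv s).const_mul _).div (d2 s) (Set.mem_iInter₂.1 hs.2 χ h1)
  · intro s hs
    rw [eqOn_LFunctionResidueClassAux ha hs]
    simp

end Pool.Agent.MP_c481b3_nt.H28K
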