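import Pool.Agent.MP_c481b3_nt.H28K.SpecN

set_option autoImplicit false

namespace Pool.Agent.MP_c481b3_nt.H28K

open Filter Topology ArithmeticFunction

namespace WIN

theorem split {q : ℕ} (a : ZMod q) {σ ρ : ℝ} (y : ℕ) (h2 : σ < ρ) (hy : 1 ≤ y) (hρ : ρ ≤ y) :
    ∑ n ∈ Finset.Icc 1 ⌊σ * y⌋₊, vonMangoldt.residueClass a n ≤
      ∑ n ∈ Finset.Icc 1 ⌊(y : ℝ)⌋₊, vonMangoldt.residueClass a n +
      (Chebyshev.psi (σ * y) - Chebyshev.theta (σ * y)) +
      ((Finset.range ⌈ρ * y⌉₊).filter fun l => y < l ∧ l.Prime ∧ (l : ZMod q) = a).card *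
        (2 * Real.log y) := by
  classical
  have hy1 : (1 : ℝ) ≤ y := by exact_mod_cast hy
  have hl : 0 ≤ 2 * Real.log y := by have := Real.log_nonneg hy1; positivity
  set T := (Finset.range ⌈ρ * y⌉₊).filter fun l => y < l ∧ l.Prime ∧ (l : ZMod q) = a with hT
  have pt : ∀ n ∈ Finset.Icc 1 ⌊σ * y⌋₊, vonMangoldt.residueClass a n ≤
      (if n ∈ Finset.Icc 1 y then vonMangoldt.residueClass a n else 0) +
      (if ¬n.Prime then vonMangoldt n else 0) + (if n ∈ T then 2 * Real.log y else 0) := by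
    intro n hn
    rw [Finset.mem_Icc] at hn
    have a1 : 0 ≤ (if n ∈ Finset.Icc 1 y then vonMangoldt.residueClass a n else 0) := by
      split_ifs
      exacts [vonMangoldt.residueClass_nonneg a n, le_rfl]
    have a2 : 0 ≤ (if ¬n.Prime then vonMangoldt n else 0) := by
      split_ifs
      exacts [le_rfl, vonMangoldt_nonneg]
    have a3 : 0 ≤ (if n ∈ T then 2 * Real.log y else 0) := by
      split_ifs
      exacts [hl, le_rfl]
    by_cases b1 : n ≤ y
    · rw [if_pos (Finset.mem_Icc.2 ⟨hn.1, b1⟩)]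
      linarith
    by_cases b2 : n.Prime
    swap
    · rw [if_pos b2]
      linarith [vonMangoldt.residueClass_le a n]
    by_cases b3 : (n : ZMod q) = a
    swap
    · have : vonMangoldt.residueClass a n = 0 :=
        Set.indicator_of_notMem (s := {n : ℕ | (n : ZMod q) = a}) b3 _
      linarith
    have hn0 : (0 : ℝ) < n := by exact_mod_cast hn.1
    have c0 : 0 ≤ σ * y := by
      by_contra hc
      rw [Nat.floor_of_nonpos (not_le.1 hc).le] at hn
      omega
    have c1 : (n : ℝ) < ρ * y :=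
      ((Nat.le_floor_iff c0).1 hn.2).trans_lt (mul_lt_mul_of_pos_right h2 (by linarith))
    have c2 : n ∈ T := Finset.mem_filter.2
      ⟨Finset.mem_range.2 (Nat.lt_ceil.2 c1), not_le.1 b1, b2, b3⟩
    rw [if_pos c2]
    have c3 : Real.log n ≤ 2 * Real.log y := by
      have : Real.log ((y : ℝ) ^ 2) = 2 * Real.log y := by rw [Real.log_pow]; norm_num
      rw [← this]
      exact Real.log_le_log hn0 (by nlinarith)
    have c4 := vonMangoldt.residueClass_le a n
    rw [vonMangoldt_apply_prime b2] at c4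
    linarith
  refine (Finset.sum_le_sum pt).trans ?_
  rw [Finset.sum_add_distrib, Finset.sum_add_distrib, Nat.floor_natCast,
    Chebyshev.psi_sub_theta_eq_sum_not_prime, Finset.sum_ite_mem, Finset.sum_ite_mem,
    ← Finset.sum_filter, Finset.sum_const, nsmul_eq_mul]
  refine add_le_add (add_le_add ?_ (le_of_eq rfl)) ?_
  · exact Finset.sum_le_sum_of_subset_of_nonneg Finset.inter_subset_right
      fun n _ _ => vonMangoldt.residueClass_nonneg a n
  · exact mul_le_mul_of_nonneg_right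
      (Nat.cast_le.2 (Finset.card_le_card Finset.inter_subset_right)) hl

theorem small : Tendsto (fun x : ℝ => (Chebyshev.psi x - Chebyshev.theta x) / x) atTop (𝓝 0) := by
  obtain ⟨C, hC⟩ := Chebyshev.psi_sub_theta_le_mul_sqrt
  have h1 : Tendsto (fun x : ℝ => C * (√x)⁻¹) atTop (𝓝 (C * 0)) :=
    (Real.tendsto_sqrt_atTop.inv_tendsto_atTop).const_mul C
  rw [mul_zero] at h1
  refine squeeze_zero' ?_ ?_ h1
  · filter_upwards [eventually_ge_atTop 0] with x hx
    exact div_nonneg (sub_nonneg.2 (Chebyshev.theta_le_psi x)) hx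
  · filter_upwards [eventually_gt_atTop 0] with x hx
    have h2 : 0 < √x := Real.sqrt_pos.2 hx
    rw [div_le_iff₀ hx]
    refine (hC x).trans (le_of_eq ?_)
    rw [mul_assoc]
    congr 1
    field_simp
    exact Real.sq_sqrt hx.le

end WIN

theorem win_of (h : PntAP) : Win := by
  intro q ρ hq hρ
  have : NeZero q := ⟨hq⟩
  set σ := (1 + ρ) / 2 with hσ
  have s1 : 1 < σ := by linarith
  have s2 : σ < ρ := by linarith
  have s0 : 0 < σ := by linarith
  have hφ : (0 : ℝ) < (q.totient : ℝ)⁻¹ :=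
    inv_pos.2 (Nat.cast_pos.2 (Nat.totient_pos.2 (Nat.pos_of_ne_zero hq)))
  set δ := (σ - 1) * (q.totient : ℝ)⁻¹ with hδ
  have hδ0 : 0 < δ := mul_pos (by linarith) hφ
  refine ⟨δ / 4, by positivity, ?_⟩
  have t1 : Tendsto (fun y : ℕ => (y : ℝ)) atTop atTop := tendsto_natCast_atTop_atTop
  have t2 : Tendsto (fun y : ℕ => σ * (y : ℝ)) atTop atTop := t1.const_mul_atTop s0
  have ev : ∀ a : ZMod q, ∀ᶠ y : ℕ in atTop, IsUnit a → δ / 4 * y / Real.log y ≤
      ((Finset.range ⌈ρ * y⌉₊).filter fun l => y < l ∧ l.Prime ∧ (l : ZMod q) = a).card := by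
    intro a
    by_cases ha : IsUnit a
    swap
    · exact Eventually.of_forall fun y h => absurd h ha
    have u := ((((h q a hq ha).comp t2).const_mul σ).sub ((h q a hq ha).comp t1)).sub
      ((WIN.small.comp t2).const_mul σ)
    have e : δ / 2 < σ * (q.totient : ℝ)⁻¹ - (q.totient : ℝ)⁻¹ - σ * 0 := by
      have : σ * (q.totient : ℝ)⁻¹ - (q.totient : ℝ)⁻¹ - σ * 0 = δ := by rw [hδ]; ring
      linarith
    filter_upwards [u.eventually_const_lt e, eventually_ge_atTop 2, t1.eventually_ge_atTop ρ]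
      with y h1 h2 h3 _
    have y2 : (2 : ℝ) ≤ y := by exact_mod_cast h2
    have y0 : (0 : ℝ) < y := by linarith
    have hl : 0 < Real.log y := Real.log_pos (by linarith)
    have sp := WIN.split a y s2 (by omega) h3
    simp only [Function.comp] at h1
    set A := ∑ n ∈ Finset.Icc 1 ⌊σ * y⌋₊, vonMangoldt.residueClass a n
    set B := ∑ n ∈ Finset.Icc 1 ⌊(y : ℝ)⌋₊, vonMangoldt.residueClass a n
    set D := Chebyshev.psi (σ * y) - Chebyshev.theta (σ * y)
    have e2 : σ * (A / (σ * y)) - B / y - σ * (D / (σ * y)) = (A - B - D) / y := by field_simp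
    rw [e2, lt_div_iff₀ y0] at h1
    rw [div_le_iff₀ hl]
    linarith
  obtain ⟨N, hN⟩ := eventually_atTop.1 (eventually_all.2 ev)
  exact ⟨N, fun a y ha hy => hN y hy a ha⟩

end Pool.Agent.MP_c481b3_nt.H28K
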