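import Pool.Agent.MP_c481b3_nt.H28K.SpecG
import Pool.Agent.MP_c481b3_nt.H28.SeedC
import Pool.Agent.MP_c481b3_nt.H28.CtrGam

set_option autoImplicit false

namespace Pool.Agent.MP_c481b3_nt.H28K

open Pool.Agent.MP_c481b3_nt.H81 Pool.Agent.MP_c481b3_nt.H28 Pool.Agent.MP_c481b3_nt.H31
  Polynomial NumberField
open scoped Pointwise

namespace ALW

lemma lies {S : Type} [CommRing S] {r : ℕ} (hr : r.Prime) (Q : Ideal S) (hQ : Q ≠ ⊤)
    (h : (r : S) ∈ Q) : Q.LiesOver (Ideal.span {(r : ℤ)}) := by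
  have hm : (Ideal.span {(r : ℤ)}).IsMaximal :=
    (Ideal.isPrime_of_prime (Ideal.prime_span_singleton_iff.mpr
      (Nat.prime_iff_prime_int.mp hr))).isMaximal (by simp [hr.ne_zero])
  refine ⟨hm.eq_of_le (Ideal.comap_ne_top _ hQ) ?_⟩
  rw [Ideal.span_le, Set.singleton_subset_iff]
  simpa [Ideal.under, Ideal.mem_comap] using h

/-- a prime of degree one in a Galois number field: all residues are rational -/
lemma frob_fix {L k : Type} [Field L] [NumberField L] [IsGalois ℚ L] [Field k] {r : ℕ}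
    (hr : r.Prime) (hk : (r : k) = 0) {Q : Ideal (𝓞 L)} (hQ : Q.IsMaximal)
    (hN : Ideal.absNorm Q = r) (ψ : 𝓞 L →+* k) (y : 𝓞 L) : ψ y ^ r = ψ y := by
  have p1 : (RingHom.ker ψ).IsPrime := RingHom.ker_isPrime ψ
  have p2 := hQ.isPrime
  have l1 := lies hr (RingHom.ker ψ) p1.ne_top (by simpa [RingHom.mem_ker] using hk)
  have l2 := lies hr Q hQ.ne_top (hN ▸ Q.absNorm_mem)
  obtain ⟨σ, hσ⟩ := Ideal.exists_smul_eq_of_isGaloisGroup (Ideal.span {(r : ℤ)}) Q
    (RingHom.ker ψ) (L ≃ₐ[ℚ] L)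
  have hq : ∀ z : 𝓞 L, z ^ r - z ∈ Q := fun z => by
    have : Finite (𝓞 L ⧸ Q) := Q.finiteQuotientOfFreeOfNeBot
      (Ring.ne_bot_of_isMaximal_of_not_isField hQ (RingOfIntegers.not_isField L))
    let := Ideal.Quotient.field Q
    let := Fintype.ofFinite (𝓞 L ⧸ Q)
    have hc : Fintype.card (𝓞 L ⧸ Q) = r := by
      rw [← hN, Ideal.absNorm_apply, Submodule.cardQuot_apply, Nat.card_eq_fintype_card]
    rw [← Ideal.Quotient.eq_zero_iff_mem, map_sub, map_pow, ← hc, FiniteField.pow_card, sub_self]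
  have h1 := Ideal.smul_mem_pointwise_smul σ _ Q (hq (σ⁻¹ • y))
  rw [hσ, smul_sub, smul_pow', smul_inv_smul, RingHom.mem_ker, map_sub, map_pow,
    sub_eq_zero] at h1
  exact h1

lemma mod_four {k : Type} [Field k] {r : ℕ} (hr : r.Prime) (h5 : 5 ≤ r) (h2 : (2 : k) ≠ 0)
    {j : k} (hj : j ^ 2 = -1) (hf : j ^ r = j) : r % 4 = 1 := by
  have ho := hr.eq_two_or_odd
  by_contra hn
  obtain ⟨m, hm⟩ : ∃ m, r = 2 * (2 * m + 1) + 1 := ⟨r / 4, by omega⟩
  rw [hm, pow_succ, pow_mul, hj, Odd.neg_one_pow ⟨m, rfl⟩] at hf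
  have j0 : j = 0 := mul_left_cancel₀ h2 (by linear_combination -hf)
  rw [j0] at hj
  simp at hj

variable {K : Type} [Field K] [NumberField K]

lemma deg_one {P : Ideal (𝓞 K)} (hP : P.IsMaximal) {r n : ℕ} (hr : r.Prime) (hn : n ≠ 0)
    (hN : Ideal.absNorm P = r ^ n) (h : ∀ y : 𝓞 K, y ^ r - y ∈ P) : n = 1 := by
  classical
  have : Finite (𝓞 K ⧸ P) := P.finiteQuotientOfFreeOfNeBot
    (Ring.ne_bot_of_isMaximal_of_not_isField hP (RingOfIntegers.not_isField K))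
  let := Ideal.Quotient.field P
  let := Fintype.ofFinite (𝓞 K ⧸ P)
  have hc : Fintype.card (𝓞 K ⧸ P) = r ^ n := by
    rw [← hN, Ideal.absNorm_apply, Submodule.cardQuot_apply, Nat.card_eq_fintype_card]
  have h1 : ∀ x : (𝓞 K ⧸ P)ˣ, x ^ (r - 1) = 1 := fun x => by
    obtain ⟨y, hy⟩ := Ideal.Quotient.mk_surjective (x : 𝓞 K ⧸ P)
    have e := h y
    rw [← Ideal.Quotient.eq_zero_iff_mem, map_sub, map_pow, hy, sub_eq_zero] at e
    have e2 : x ^ r = x := Units.ext (by simpa using e)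
    have e3 : x ^ (r - 1) * x = 1 * x := by
      rw [← pow_succ, Nat.sub_add_cancel hr.one_le, e2, one_mul]
    exact mul_right_cancel e3
  have h2 := (FiniteField.forall_pow_eq_one_iff (𝓞 K ⧸ P) (r - 1)).1 h1
  rw [hc] at h2
  have r2 := hr.two_le
  have h3 := Nat.le_of_dvd (by omega) h2
  by_contra hne
  have h4 : r ^ 1 < r ^ n := Nat.pow_lt_pow_right hr.one_lt (by omega)
  rw [pow_one] at h4
  omega

/-- a finite Galois field containing the base field and two given elements -/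
lemma exists_field (a b : AlgebraicClosure K) : ∃ L : IntermediateField ℚ (AlgebraicClosure K),
    FiniteDimensional ℚ L ∧ IsGalois ℚ L ∧ a ∈ L ∧ b ∈ L ∧
      ∀ x : K, algebraMap K (AlgebraicClosure K) x ∈ L := by
  have : Algebra.IsAlgebraic ℚ (AlgebraicClosure K) := Algebra.IsAlgebraic.trans ℚ K _
  have : IsAlgClosure ℚ (AlgebraicClosure K) := ⟨inferInstance, inferInstance⟩
  have : IsGalois ℚ (AlgebraicClosure K) := {}
  obtain ⟨α, hα⟩ := Field.exists_primitive_element ℚ K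
  let s : Set (AlgebraicClosure K) := {a, b, algebraMap K _ α}
  have : Finite s := Set.toFinite s
  have hs := FiniteGaloisIntermediateField.subset_adjoin ℚ s
  refine ⟨(FiniteGaloisIntermediateField.adjoin ℚ s).toIntermediateField, inferInstance,
    (FiniteGaloisIntermediateField.adjoin ℚ s).isGalois, hs (by simp [s]), hs (by simp [s]), fun x => ?_⟩
  have h1 : IntermediateField.adjoin ℚ {α} ≤
      (FiniteGaloisIntermediateField.adjoin ℚ s).toIntermediateField.comap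
        (IsScalarTower.toAlgHom ℚ K (AlgebraicClosure K)) :=
    IntermediateField.adjoin_simple_le_iff.2 (hs (by simp [s]))
  exact h1 (hα ▸ IntermediateField.mem_top)

end ALW

open ALW in
theorem allow : Allow := by
  intro K _ _ A B _
  classical
  obtain ⟨δ, hδ⟩ := IsAlgClosed.exists_pow_nat_eq (-(4 * iK A ^ 3 + 27 * iK B ^ 2)) two_pos
  obtain ⟨ι, hι⟩ := IsAlgClosed.exists_pow_nat_eq (-1 : AlgebraicClosure K) two_pos
  obtain ⟨L, f1, f2, m1, m2, m3⟩ := exists_field δ ι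
  have nf : NumberField L := {}
  refine ⟨L, inferInstance, nf, 5, ?_⟩
  rintro r hr h5 ⟨Q, hQ, hN⟩ ⟨-, P, hP, hrP, hΔ, hd⟩
  obtain ⟨O, q, n, c⟩ := exists_loc hP hΔ
  obtain rfl : q = r := (Nat.prime_dvd_prime_iff_eq c.prime hr).1 (c.nat_mem.1 hrP)
  have := c.char
  have := Fact.mk hr
  have mem : ∀ y : 𝓞 L, ((y : L) : AlgebraicClosure K) ∈ O := fun y =>
    cg_mem_of_integral O (y.isIntegral_coe.map (L.val.toRingHom.toIntAlgHom))
  let ψ : 𝓞 L →+* IsLocalRing.ResidueField O := (resPlc O).ρ.comp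
    ((L.val.toRingHom.comp (algebraMap (𝓞 L) L)).codRestrict O.toSubring mem)
  have key : ∀ z : AlgebraicClosure K, z ∈ L → IsIntegral ℤ z →
      z ∈ O ∧ (resPlc O).ev z ^ q = (resPlc O).ev z := fun z hz hi => by
    have hi' : IsIntegral ℤ (⟨z, hz⟩ : L) :=
      (isIntegral_algHom_iff (L.val.toRingHom.toIntAlgHom) Subtype.val_injective).1 hi
    have e : (resPlc O).ev z = ψ ⟨⟨z, hz⟩, hi'⟩ := (resPlc O).ev_coe ⟨z, mem ⟨⟨z, hz⟩, hi'⟩⟩
    refine ⟨mem ⟨⟨z, hz⟩, hi'⟩, ?_⟩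
    rw [e]
    exact frob_fix hr (CharP.cast_eq_zero _ q) hQ hN ψ _
  have int : ∀ y : 𝓞 K, IsIntegral ℤ (iK y) := fun y =>
    (RingOfIntegers.isIntegral y).map (IsScalarTower.toAlgHom ℤ _ _)
  have k1 : ∀ y : 𝓞 K, rs O y ^ q = rs O y := fun y => (key (iK y) (m3 y) (int y)).2
  obtain rfl : n = 1 := deg_one hP hr c.n0 c.norm fun y => by
    by_contra hy
    refine c.rs_ne hy ((c.ev _).unique ?_)
    have e := ((c.ev y).pow q).sub (c.ev y)
    rwa [k1, sub_self, ← map_pow, ← map_sub] at e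
  have iδ : IsIntegral ℤ δ := IsIntegral.of_pow two_pos (by
    rw [hδ]
    have := int (-(4 * A ^ 3 + 27 * B ^ 2))
    simpa [map_ofNat] using this)
  have iι : IsIntegral ℤ ι := IsIntegral.of_pow two_pos (by rw [hι]; exact isIntegral_one.neg)
  obtain ⟨d1, d2⟩ := key δ m1 iδ
  obtain ⟨i1, i2⟩ := key ι m2 iι
  have e1 : (resPlc O).ev δ ^ 2 = -(4 * rs O A ^ 3 + 27 * rs O B ^ 2) := by
    have a1 := (Ev.of_mem (π := resPlc O) d1).pow 2
    rw [hδ] at a1
    exact a1.unique ((((Ev.ofNat _ 4).mul ((c.ev A).pow 3)).add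
      ((Ev.ofNat _ 27).mul ((c.ev B).pow 2))).neg)
  have e2 : (resPlc O).ev ι ^ 2 = -1 := by
    have a1 := (Ev.of_mem (π := resPlc O) i1).pow 2
    rw [hι] at a1
    exact a1.unique (Ev.one _).neg
  have h2 : (2 : IsLocalRing.ResidueField O) ≠ 0 := by
    have := c.nat_ne (m := 2) fun e => by
      have := Nat.le_of_dvd (by norm_num) (c.nat_mem.1 e); omega
    simpa using this
  have r4 := mod_four hr h5.le h2 e2 i2
  exact (seedLoc _ q h5.le _ _ _ c.good (c.fix A) (c.fix B) d2 e1 _ (c.tr h5.le)).1 r4 hd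

end Pool.Agent.MP_c481b3_nt.H28K
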