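import Pool.Agent.MP_c481b3_nt.H28K.SpecG

set_option autoImplicit false

namespace Pool.Agent.MP_c481b3_nt.H28K

open Pool.Agent.MP_c481b3_nt.H81 Pool.Agent.MP_c481b3_nt.H28 Pool.Agent.MP_c481b3_nt.H31
  Polynomial

namespace ARCH

/-- a product over conjugate pairs is nonnegative -/
lemma prod_pairs {α : Type} (S : Finset α) (σ : α → α) (f : α → ℂ) (h1 : ∀ x ∈ S, σ x ∈ S)
    (h2 : ∀ x ∈ S, σ (σ x) = x) (h3 : ∀ x ∈ S, σ x ≠ x)
    (h4 : ∀ x ∈ S, f (σ x) = starRingEnd ℂ (f x)) : ∃ r : ℝ, 0 ≤ r ∧ ∏ x ∈ S, f x = r := by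
  by_cases h0 : ∃ x ∈ S, f x = 0
  · exact ⟨0, le_rfl, Finset.prod_eq_zero_iff.2 h0⟩
  push Not at h0
  have n0 : ∀ x ∈ S, ((‖f x‖ : ℝ) : ℂ) ≠ 0 := fun x hx => by simpa using h0 x hx
  have e : ∏ x ∈ S, f x / ‖f x‖ = 1 :=
    Finset.prod_involution (fun x _ => σ x) (fun x hx => by
      have := n0 x hx
      rw [h4 x hx, Complex.norm_conj, div_mul_div_comm, Complex.mul_conj,
        Complex.normSq_eq_norm_sq]
      push_cast
      field_simp) (fun x hx _ => h3 x hx) h1 h2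
  refine ⟨∏ x ∈ S, ‖f x‖, Finset.prod_nonneg fun _ _ => norm_nonneg _, ?_⟩
  rw [Finset.prod_div_distrib, div_eq_one_iff_eq (Finset.prod_ne_zero_iff.2 n0)] at e
  rw [e]
  push_cast
  rfl

lemma even_card {m l : ℕ} (hl : l.Prime) (h0 : 0 < m) (h : m < l) : Even (m * l).divisors.card := by
  rw [Nat.Coprime.card_divisors_mul (Nat.coprime_of_lt_prime h0.ne' h hl).symm, hl.divisors,
    Finset.card_pair hl.one_lt.ne]
  exact even_two.mul_left _

/-- exactly one divisor is balanced -/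
lemma prod_neg {ρ : ℝ} {M m l : ℕ} (hM : ρ ≤ M) (hl : l.Prime) (h0 : 0 < m) (h : m < l)
    (h' : (l : ℝ) < ρ * m) (hm : ∀ c, c ∣ m → c ≠ 1 → M < c) (s : ℕ → ℝ)
    (hs : ∀ u v, u * v = m * l → Sg ρ u v (s u)) : ∏ u ∈ (m * l).divisors, s u < 0 := by
  have lm : l ∈ (m * l).divisors :=
    Nat.mem_divisors.2 ⟨dvd_mul_left _ _, mul_ne_zero h0.ne' hl.ne_zero⟩
  have k1 : 0 < s l := (hs l m (mul_comm _ _)).1 h h'
  have k2 : ∀ u ∈ (m * l).divisors.erase l, 0 < -s u := by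
    intro u hu
    obtain ⟨ul, hu⟩ := Finset.mem_erase.1 hu
    obtain ⟨v, e⟩ := Nat.dvd_of_mem_divisors hu
    refine neg_pos.2 ((hs u v e.symm).2 ?_)
    rcases (Nat.Prime.dvd_mul hl).1 (e ▸ dvd_mul_left l m) with ⟨c, rfl⟩ | ⟨c, rfl⟩
    · right
      have e1 : m = c * v := Nat.eq_of_mul_eq_mul_left hl.pos (by rw [← mul_assoc, ← e, mul_comm])
      have c1 : M < c := hm c ⟨v, e1⟩ fun c1 => ul (by rw [c1, mul_one])
      have c2 : M * v < l * c :=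
        calc M * v ≤ c * v := Nat.mul_le_mul_right _ c1.le
          _ < l := e1 ▸ h
          _ ≤ l * c := Nat.le_mul_of_pos_right _ (by omega)
      calc ρ * v ≤ M * v := mul_le_mul_of_nonneg_right hM (by positivity)
        _ < (l * c : ℕ) := by exact_mod_cast c2
    · left
      have e1 : m = u * c := Nat.eq_of_mul_eq_mul_left hl.pos (by rw [mul_comm, e]; ring)
      have c0 : 0 < c := Nat.pos_of_ne_zero fun c0 => by rw [c0, mul_zero] at e1; omega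
      calc u ≤ u * c := Nat.le_mul_of_pos_right _ c0
        _ < l := e1 ▸ h
        _ ≤ l * c := Nat.le_mul_of_pos_right _ c0
  have k3 := Finset.prod_pos k2
  rw [Finset.prod_neg, Finset.card_erase_of_mem lm,
    (Nat.Even.sub_odd (Finset.card_pos.2 ⟨l, lm⟩) (even_card hl h0 h) odd_one).neg_one_pow] at k3
  rw [← Finset.mul_prod_erase _ _ lm]
  exact mul_neg_of_pos_of_neg k1 (by linarith)

lemma cj_cj {a b : ℝ} (h : Good (a : ℂ) (b : ℂ)) (P : Pt (a : ℂ) (b : ℂ)) :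
    cj h (cj h P) = P := by
  by_cases hP : P = 0
  · simp [hP]
  exact pt_ext (Sc.map_ne _ (Sc.map_ne _ hP)) hP
    (by rw [cj, xc_ofHom, xc_ofHom, Complex.conj_conj])
    (by rw [cj, yc_ofHom, yc_ofHom, Complex.conj_conj])

lemma split {α : Type} (T : Finset α) (p : α → Prop) (f : α → ℂ) : ∃ S U : Finset α,
    (∀ x, x ∈ S ↔ x ∈ T ∧ p x) ∧ (∀ x, x ∈ U ↔ x ∈ T ∧ ¬p x) ∧
      (∏ x ∈ S, f x) * ∏ x ∈ U, f x = ∏ x ∈ T, f x := by
  classical
  exact ⟨_, _, fun _ => Finset.mem_filter, fun _ => Finset.mem_filter,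
    Finset.prod_filter_mul_prod_filter_not _ _ _⟩

end ARCH

open ARCH Classical in
theorem arch2_of (h1 : Stab) (h2 : SignD) : Arch2 := by
  intro w w0 w1
  have w0' : (w : ℂ) ≠ 0 := by exact_mod_cast w0
  obtain ⟨Δ, hΔ⟩ : ∃ Δ : ℝ, Δ = 4 * w ^ 3 + 27 * w ^ 2 := ⟨_, rfl⟩
  have Δ0 : Δ ≠ 0 := by
    rw [hΔ, show 4 * w ^ 3 + 27 * w ^ 2 = w ^ 2 * (4 * w + 27) by ring]
    positivity
  have h : Good (w : ℂ) (w : ℂ) := ⟨two_ne_zero, by rw [hΔ] at Δ0; exact_mod_cast Δ0⟩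
  obtain ⟨ρ, ρ1, hρ⟩ := h2 w w h w0
  rw [← hΔ] at hρ
  refine ⟨ρ, max 2 ⌈ρ⌉₊, ρ1, fun R l Ψ hR hl lM ml lρ hΨ => ?_⟩
  obtain ⟨m, hm⟩ : ∃ m, m = ∏ r ∈ R, r := ⟨_, rfl⟩
  have m0 : 0 < m := hm ▸ Finset.prod_pos fun r hr => (hR r hr).1.pos
  have hc : ∀ c, c ∣ m → c ≠ 1 → max 2 ⌈ρ⌉₊ < c := by
    intro c c1 c2
    obtain ⟨q, q1, q2⟩ := Nat.exists_prime_and_dvd c2
    obtain ⟨r, r1, r2⟩ := (q1.prime.dvd_finsetProd_iff _).1 (hm ▸ q2.trans c1)
    have e := (Nat.prime_dvd_prime_iff_eq q1 (hR r r1).1).1 r2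
    exact (hR r r1).2.trans_le (e ▸ Nat.le_of_dvd (Nat.pos_of_dvd_of_pos c1 m0) q2)
  have od : Odd (m * l) := by
    refine Odd.mul (Nat.not_even_iff_odd.1 fun e => ?_) (hl.odd_of_ne_two (by omega))
    have := hc 2 e.two_dvd (by norm_num)
    omega
  rw [← hm] at ml lρ hΨ
  have hM : ρ ≤ (max 2 ⌈ρ⌉₊ : ℕ) := (Nat.le_ceil ρ).trans (by exact_mod_cast le_max_right _ _)
  have n0 : m * l ≠ 0 := od.pos.ne'
  have t : Tm (w : ℂ) (w : ℂ) (m * l) := ⟨h, three_ne_zero, by exact_mod_cast n0⟩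
  obtain ⟨s1, s2⟩ := h1 w w h (m * l) od
  obtain ⟨S, U, hS, hU, sp⟩ :=
    split (subs (w : ℂ) (w : ℂ) (m * l)) (fun D => ∀ P ∈ D, cj h P ∈ D) dl
  -- the unstable subgroups
  obtain ⟨r, r0, hr⟩ := prod_pairs U (fun D => D.image (cj h)) dl (fun D hD => by
      obtain ⟨d1, d2⟩ := (hU D).1 hD
      obtain ⟨d3, d4⟩ := t.mem_subs.1 d1
      obtain ⟨e1, e2, -⟩ := map_sub_data (starRingEnd ℂ) (Complex.conj_ofReal w)
        (Complex.conj_ofReal w) h d3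
      refine (hU _).2 ⟨t.mem_subs.2 ⟨e1, e2.trans d4⟩, fun k => d2 fun P hP => ?_⟩
      have k1 : D = D.image (cj h) := Finset.eq_of_subset_of_card_le (fun Q hQ => by
        have := k _ (Finset.mem_image_of_mem _ hQ)
        rwa [cj_cj] at this) e2.le
      rw [k1]
      exact Finset.mem_image_of_mem _ (k1 ▸ hP))
    (fun D _ => by
      rw [Finset.image_image]
      exact (Finset.image_congr fun P _ => cj_cj h P).trans Finset.image_id)
    (fun D hD e => ((hU D).1 hD).2 fun P hP => e ▸ Finset.mem_image_of_mem _ hP)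
    (fun D hD => (map_sub_data (starRingEnd ℂ) (Complex.conj_ofReal w) (Complex.conj_ofReal w) h
      (t.mem_subs.1 ((hU D).1 hD).1).1).2.2)
  -- the stable subgroups
  choose! E e1 e2 using s2
  have bij : ∏ D ∈ S, dl D = ∏ u ∈ (m * l).divisors, dl (E u) := by
    refine Finset.prod_nbij' (fun D => (D.filter fun P => cj h P = P).card) E (fun D hD => ?_)
      (fun u hu => ?_) (fun D hD => ?_) (fun u hu => ?_) (fun D hD => ?_)
    · obtain ⟨d1, d2⟩ := (hS D).1 hD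
      exact Nat.mem_divisors.2 ⟨⟨_, (s1 D d1 d2).symm⟩, n0⟩
    · have := e1 u (Nat.dvd_of_mem_divisors hu)
      exact (hS _).2 ⟨this.1, this.2.1⟩
    · obtain ⟨d1, d2⟩ := (hS D).1 hD
      exact (e2 _ ⟨_, (s1 D d1 d2).symm⟩ D ⟨d1, d2, rfl⟩).symm
    · exact (e1 u (Nat.dvd_of_mem_divisors hu)).2.2
    · obtain ⟨d1, d2⟩ := (hS D).1 hD
      rw [← e2 _ ⟨_, (s1 D d1 d2).symm⟩ D ⟨d1, d2, rfl⟩]
  have data : ∀ u v, u * v = m * l → IsSub (E u) ∧ Odd (E u).card ∧ (∀ P ∈ E u, cj h P ∈ E u) ∧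
      ((E u).filter fun P => cj h P = P).card = u ∧
      ((E u).filter fun P => cj h P = -P).card = v := by
    intro u v e
    obtain ⟨d1, d2, d3⟩ := e1 u ⟨v, e.symm⟩
    obtain ⟨d4, d5⟩ := t.mem_subs.1 d1
    have d6 := s1 _ d1 d2
    rw [d3, ← e] at d6
    exact ⟨d4, d5 ▸ od, d2, d3, Nat.eq_of_mul_eq_mul_left
      (Nat.pos_of_ne_zero fun u0 => n0 (by rw [← e, u0, zero_mul])) d6⟩
  have key : (∀ u ∈ (m * l).divisors, dl (E u) = (dl (E u)).re) ∧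
      ∏ u ∈ (m * l).divisors, (dl (E u)).re * Δ < 0 := by
    rcases hρ with H | H
    · refine ⟨fun u hu => ?_, prod_neg hM hl m0 ml lρ hc _ fun u v e => ?_⟩
      · obtain ⟨d1, d2, d3, -⟩ := data u _ (Nat.mul_div_cancel' (Nat.dvd_of_mem_divisors hu))
        obtain ⟨d, k1, -⟩ := H _ d1 d2 d3
        rw [k1, Complex.ofReal_re]
      · obtain ⟨d1, d2, d3, d4, d5⟩ := data u v e
        obtain ⟨d, k1, k2⟩ := H _ d1 d2 d3
        rw [d4, d5] at k2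
        rwa [k1, Complex.ofReal_re]
    · refine ⟨fun u hu => ?_, ?_⟩
      · obtain ⟨d1, d2, d3, -⟩ := data u _ (Nat.mul_div_cancel' (Nat.dvd_of_mem_divisors hu))
        obtain ⟨d, k1, -⟩ := H _ d1 d2 d3
        rw [k1, Complex.ofReal_re]
      · rw [← Nat.prod_div_divisors (m * l) fun u => (dl (E u)).re * Δ]
        refine prod_neg hM hl m0 ml lρ hc _ fun u v e => ?_
        have u0 : 0 < u := Nat.pos_of_ne_zero fun u0 => n0 (by rw [← e, u0, zero_mul])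
        obtain ⟨d1, d2, d3, d4, d5⟩ := data v u (by rw [mul_comm, e])
        obtain ⟨d, k1, k2⟩ := H _ d1 d2 d3
        rw [d4, d5] at k2
        rwa [← e, Nat.mul_div_cancel_left _ u0, k1, Complex.ofReal_re]
  obtain ⟨k1, k2⟩ := key
  rw [Finset.prod_mul_distrib, Finset.prod_const] at k2
  have k3 : ∏ u ∈ (m * l).divisors, (dl (E u)).re < 0 :=
    neg_of_mul_neg_left k2 ((even_card hl m0 ml).pow_pos Δ0).le
  have k4 := hΨ ℂ w w h w0' w0'
  rw [div_self w0', one_pow, show (w : ℂ) ^ 3 / w ^ 2 = algebraMap ℝ ℂ w by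
    rw [Complex.coe_algebraMap]; field_simp, aeval_algebraMap_apply, Complex.coe_algebraMap] at k4
  simp only [mul_one] at k4
  rw [Finset.prod_mul_distrib, Finset.prod_const, ← sp, hr, bij, Finset.prod_congr rfl k1] at k4
  have k5 : aeval w Ψ = (((m * l : ℕ) : ℝ) ^ 6) ^ (subs (w : ℂ) (w : ℂ) (m * l)).card *
      ((∏ u ∈ (m * l).divisors, (dl (E u)).re) * r) := by exact_mod_cast k4
  rw [k5]
  exact mul_nonpos_of_nonneg_of_nonpos (by positivity) (mul_nonpos_of_nonpos_of_nonneg k3.le r0)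

end Pool.Agent.MP_c481b3_nt.H28K
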