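import Pool.Agent.MP_c481b3_nt.H28K.SignD
import Pool.Agent.MP_c481b3_nt.H28K.Arch2

set_option autoImplicit false

namespace Pool.Agent.MP_c481b3_nt.H28K

open Pool.Agent.MP_c481b3_nt.H81 Pool.Agent.MP_c481b3_nt.H28 Pool.Agent.MP_c481b3_nt.H31
  Polynomial

open SGN Classical in
theorem signE (H1 : PerRel) (H2 : DiscSign) (H3 : PerMono) (a b : ℝ) (h : Good (a : ℂ) (b : ℂ))
    (hb : b ≠ 0) :
    (∀ D : Finset (Pt (a : ℂ) (b : ℂ)), IsSub D → Odd D.card → (∀ P ∈ D, cj h P ∈ D) →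
      ∃ d : ℝ, dl D = d ∧ Sg (Lam a b ^ 2) (D.filter fun P => cj h P = P).card
        (D.filter fun P => cj h P = -P).card (d * (4 * a ^ 3 + 27 * b ^ 2))) ∨
    ∀ D : Finset (Pt (a : ℂ) (b : ℂ)), IsSub D → Odd D.card → (∀ P ∈ D, cj h P ∈ D) →
      ∃ d : ℝ, dl D = d ∧ Sg (Lam a b ^ 2) (D.filter fun P => cj h P = -P).card
        (D.filter fun P => cj h P = P).card (d * (4 * a ^ 3 + 27 * b ^ 2)) := by
  obtain ⟨-, H4, H5⟩ := H3
  have hd : 4 * a ^ 3 + 27 * b ^ 2 ≠ 0 := fun e => h.disc (by exact_mod_cast e)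
  have pos : ∀ a b : ℝ, 4 * a ^ 3 + 27 * b ^ 2 ≠ 0 → 0 < (om a b).toReal := fun a b e =>
    ENNReal.toReal_pos (H4 a b e).1.ne' (H4 a b e).2.1
  have hp := pos a b hd
  have hq := pos a (-b) (by rwa [neg_sq])
  have hL := (H4 a b hd).2.2 hb
  have main : ∀ D : Finset (Pt (a : ℂ) (b : ℂ)), IsSub D → Odd D.card →
      (∀ P ∈ D, cj h P ∈ D) → ∃ d p' q' : ℝ, dl D = d ∧ 0 < p' ∧ 0 < q' ∧
        0 < (D.filter fun P => cj h P = P).card ∧ 0 < (D.filter fun P => cj h P = -P).card ∧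
        (om a b).toReal = (D.filter fun P => cj h P = P).card * p' ∧
        (om a (-b)).toReal = (D.filter fun P => cj h P = -P).card * q' ∧
        (max (p' / q') (q' / p') < Lam a b → 0 < d * (4 * a ^ 3 + 27 * b ^ 2)) ∧
        (Lam a b < max (p' / q') (q' / p') → d * (4 * a ^ 3 + 27 * b ^ 2) < 0) := by
    intro D hD ho hs
    obtain ⟨a', b', ha', hb'⟩ := real_v h hs
    have s := H2 a b a' b' h D hD ho hs ha' hb'
    have hd' : 4 * a' ^ 3 + 27 * b' ^ 2 ≠ 0 := fun e => by rw [e, mul_zero] at s; exact s.false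
    have e1 := H1 a b a' b' h D hD ho hs ha' hb'
    have e2 := twist H1 h hD ho hs ha' hb'
    refine ⟨a' ^ 3 * b ^ 2 - a ^ 3 * b' ^ 2, (om a' b').toReal, (om a' (-b')).toReal, ?_,
      pos a' b' hd', pos a' (-b') (by rwa [neg_sq]), ?_, ?_, ?_, ?_, H5 a b a' b' s, fun hl => ?_⟩
    · rw [dl, ha', hb']; push_cast; ring
    · exact Finset.card_pos.2 ⟨0, Finset.mem_filter.2 ⟨hD.zero, map_zero _⟩⟩
    · exact Finset.card_pos.2 ⟨0, Finset.mem_filter.2 ⟨hD.zero, by simp⟩⟩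
    · rw [e1, ENNReal.toReal_mul, ENNReal.toReal_natCast]
    · rw [e2, ENNReal.toReal_mul, ENNReal.toReal_natCast]
    · have t := H5 a' b' a b (by rwa [mul_comm]) hl
      have t2 := mul_pos t s
      have t3 : 0 < (4 * a' ^ 3 + 27 * b' ^ 2) ^ 2 := by positivity
      by_contra hn
      have t4 := mul_nonneg (not_lt.1 hn) t3.le
      nlinarith
  rcases le_total ((om a (-b)).toReal / (om a b).toReal)
    ((om a b).toReal / (om a (-b)).toReal) with c | c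
  · have eL : Lam a b = (om a b).toReal / (om a (-b)).toReal := max_eq_left c
    refine Or.inl fun D hD ho hs => ?_
    obtain ⟨d, p', q', e, hp', hq', hi, hj, e1, e2, k1, k2⟩ := main D hD ho hs
    refine ⟨d, e, core hL hi hj ?_ k1 k2⟩
    have hi' : (0 : ℝ) < (D.filter fun P => cj h P = P).card := by exact_mod_cast hi
    have hj' : (0 : ℝ) < (D.filter fun P => cj h P = -P).card := by exact_mod_cast hj
    rw [eL, e1, e2]
    congr 1 <;> field_simp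
  · have eL : Lam a b = (om a (-b)).toReal / (om a b).toReal := max_eq_right c
    refine Or.inr fun D hD ho hs => ?_
    obtain ⟨d, p', q', e, hp', hq', hi, hj, e1, e2, k1, k2⟩ := main D hD ho hs
    refine ⟨d, e, core hL hj hi ?_ k1 k2⟩
    have hi' : (0 : ℝ) < (D.filter fun P => cj h P = P).card := by exact_mod_cast hi
    have hj' : (0 : ℝ) < (D.filter fun P => cj h P = -P).card := by exact_mod_cast hj
    rw [eL, e1, e2, max_comm]
    congr 1 <;> field_simp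

lemma ARCH.prod_both {ρ : ℝ} {M m l : ℕ} (hM : ρ ≤ M) (hl : l.Prime) (h0 : 0 < m) (h : m < l)
    (hm : ∀ c, c ∣ m → c ≠ 1 → M < c) (s : ℕ → ℝ)
    (hs : ∀ u v, u * v = m * l → Sg ρ u v (s u)) :
    ((l : ℝ) < ρ * m → ∏ u ∈ (m * l).divisors, s u < 0) ∧
      (ρ * m < (l : ℝ) → 0 < ∏ u ∈ (m * l).divisors, s u) := by
  refine ⟨fun h' => ARCH.prod_neg hM hl h0 h h' hm s hs, fun h' => ?_⟩
  have k2 : ∀ u ∈ (m * l).divisors, 0 < -s u := by
    intro u hu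
    obtain ⟨v, e⟩ := Nat.dvd_of_mem_divisors hu
    refine neg_pos.2 ((hs u v e.symm).2 ?_)
    rcases (Nat.Prime.dvd_mul hl).1 (e ▸ dvd_mul_left l m) with ⟨c, rfl⟩ | ⟨c, rfl⟩
    · right
      have e1 : m = c * v := Nat.eq_of_mul_eq_mul_left hl.pos (by rw [← mul_assoc, ← e, mul_comm])
      have c0 : 0 < c := Nat.pos_of_ne_zero fun c0 => by rw [c0, zero_mul] at e1; omega
      have c1 : (1 : ℝ) ≤ c := by exact_mod_cast c0
      have l0 : (0 : ℝ) < l := by exact_mod_cast hl.pos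
      rw [e1] at h'
      push_cast at h' ⊢
      refine lt_of_mul_lt_mul_left (a := (c : ℝ)) ?_ (by linarith)
      nlinarith [mul_le_mul c1 c1 zero_le_one (by linarith : (0 : ℝ) ≤ c)]
    · left
      have e1 : m = u * c := Nat.eq_of_mul_eq_mul_left hl.pos (by rw [mul_comm, e]; ring)
      have c0 : 0 < c := Nat.pos_of_ne_zero fun c0 => by rw [c0, mul_zero] at e1; omega
      calc u ≤ u * c := Nat.le_mul_of_pos_right _ c0
        _ < l := e1 ▸ h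
        _ ≤ l * c := Nat.le_mul_of_pos_right _ c0
  have k3 := Finset.prod_pos k2
  rwa [Finset.prod_neg, (ARCH.even_card hl h0 h).neg_one_pow, one_mul] at k3

open ARCH Classical in
theorem arch3 (h1 : Stab) (H1 : PerRel) (H2 : DiscSign) (H3 : PerMono) (w : ℝ) (w0 : w ≠ 0)
    (w1 : 4 * w + 27 ≠ 0) : ∃ M : ℕ, ∀ (R : Finset ℕ) (l : ℕ) (Ψ : ℤ[X]),
      (∀ r ∈ R, r.Prime ∧ M < r) → l.Prime → M < l → ∏ r ∈ R, r < l →
      IsUnivPsi ((∏ r ∈ R, r) * l) Ψ →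
      ((l : ℝ) < Lam w w ^ 2 * (∏ r ∈ R, r : ℕ) → aeval w Ψ ≤ 0) ∧
      (Lam w w ^ 2 * (∏ r ∈ R, r : ℕ) < (l : ℝ) → 0 ≤ aeval w Ψ) := by
  have w0' : (w : ℂ) ≠ 0 := by exact_mod_cast w0
  obtain ⟨Δ, hΔ⟩ : ∃ Δ : ℝ, Δ = 4 * w ^ 3 + 27 * w ^ 2 := ⟨_, rfl⟩
  have Δ0 : Δ ≠ 0 := by
    rw [hΔ, show 4 * w ^ 3 + 27 * w ^ 2 = w ^ 2 * (4 * w + 27) by ring]
    positivity
  have h : Good (w : ℂ) (w : ℂ) := ⟨two_ne_zero, by rw [hΔ] at Δ0; exact_mod_cast Δ0⟩
  have hρ := signE H1 H2 H3 w w h w0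
  rw [← hΔ] at hρ
  generalize Lam w w ^ 2 = ρ at hρ ⊢
  refine ⟨max 2 ⌈ρ⌉₊, fun R l Ψ hR hl lM ml hΨ => ?_⟩
  obtain ⟨m, hm⟩ : ∃ m, m = ∏ r ∈ R, r := ⟨_, rfl⟩
  have m0 : 0 < m := hm ▸ Finset.prod_pos fun r hr => (hR r hr).1.pos
  have hc : ∀ c, c ∣ m → c ≠ 1 → max 2 ⌈ρ⌉₊ < c := by
    intro c c1 c2
    obtain ⟨q, q1, q2⟩ := Nat.exists_prime_and_dvd c2
    obtain ⟨r, r1, r2⟩ := (q1.prime.dvd_finsetProd_iff _).1 (hm ▸ q2.trans c1)
    have e := (Nat.prime_dvd_prime_iff_eq q1 (hR r r1).1).1 r2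
    exact (hR r r1).2.trans_le (e ▸ Nat.le_of_dvd (Nat.pos_of_dvd_of_pos c1 m0) q2)
  have od : Odd (m * l) := by
    refine Odd.mul (Nat.not_even_iff_odd.1 fun e => ?_) (hl.odd_of_ne_two (by omega))
    have := hc 2 e.two_dvd (by norm_num)
    omega
  rw [← hm] at ml hΨ ⊢
  have hM : ρ ≤ (max 2 ⌈ρ⌉₊ : ℕ) := (Nat.le_ceil ρ).trans (by exact_mod_cast le_max_right _ _)
  have n0 : m * l ≠ 0 := od.pos.ne'
  have t : Tm (w : ℂ) (w : ℂ) (m * l) := ⟨h, three_ne_zero, by exact_mod_cast n0⟩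
  obtain ⟨s1, s2⟩ := h1 w w h (m * l) od
  obtain ⟨S, U, hS, hU, sp⟩ :=
    split (subs (w : ℂ) (w : ℂ) (m * l)) (fun D => ∀ P ∈ D, cj h P ∈ D) dl
  -- the unstable subgroups
  obtain ⟨r, r0, hr⟩ := prod_pairs U (fun D => D.image (cj h)) dl (fun D hD => by
      obtain ⟨d1, d2⟩ := (hU D).1 hD
      obtain ⟨d3, d4⟩ := t.mem_subs.1 d1
      obtain ⟨e1, e2, -⟩ := map_sub_data (starRingEnd ℂ) (Complex.conj_ofReal w)
        (Complex.conj_ofReal w) h d3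
      refine (hU _).2 ⟨t.mem_subs.2 ⟨e1, e2.trans d4⟩, fun k => d2 fun P hP => ?_⟩
      have k1 : D = D.image (cj h) := Finset.eq_of_subset_of_card_le (fun Q hQ => by
        have := k _ (Finset.mem_image_of_mem _ hQ)
        rwa [cj_cj] at this) e2.le
      rw [k1]
      exact Finset.mem_image_of_mem _ (k1 ▸ hP))
    (fun D _ => by
      rw [Finset.image_image]
      exact (Finset.image_congr fun P _ => cj_cj h P).trans Finset.image_id)
    (fun D hD e => ((hU D).1 hD).2 fun P hP => e ▸ Finset.mem_image_of_mem _ hP)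
    (fun D hD => (map_sub_data (starRingEnd ℂ) (Complex.conj_ofReal w) (Complex.conj_ofReal w) h
      (t.mem_subs.1 ((hU D).1 hD).1).1).2.2)
  -- the stable subgroups
  choose! E e1 e2 using s2
  have bij : ∏ D ∈ S, dl D = ∏ u ∈ (m * l).divisors, dl (E u) := by
    refine Finset.prod_nbij' (fun D => (D.filter fun P => cj h P = P).card) E (fun D hD => ?_)
      (fun u hu => ?_) (fun D hD => ?_) (fun u hu => ?_) (fun D hD => ?_)
    · obtain ⟨d1, d2⟩ := (hS D).1 hD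
      exact Nat.mem_divisors.2 ⟨⟨_, (s1 D d1 d2).symm⟩, n0⟩
    · have := e1 u (Nat.dvd_of_mem_divisors hu)
      exact (hS _).2 ⟨this.1, this.2.1⟩
    · obtain ⟨d1, d2⟩ := (hS D).1 hD
      exact (e2 _ ⟨_, (s1 D d1 d2).symm⟩ D ⟨d1, d2, rfl⟩).symm
    · exact (e1 u (Nat.dvd_of_mem_divisors hu)).2.2
    · obtain ⟨d1, d2⟩ := (hS D).1 hD
      rw [← e2 _ ⟨_, (s1 D d1 d2).symm⟩ D ⟨d1, d2, rfl⟩]
  have data : ∀ u v, u * v = m * l → IsSub (E u) ∧ Odd (E u).card ∧ (∀ P ∈ E u, cj h P ∈ E u) ∧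
      ((E u).filter fun P => cj h P = P).card = u ∧
      ((E u).filter fun P => cj h P = -P).card = v := by
    intro u v e
    obtain ⟨d1, d2, d3⟩ := e1 u ⟨v, e.symm⟩
    obtain ⟨d4, d5⟩ := t.mem_subs.1 d1
    have d6 := s1 _ d1 d2
    rw [d3, ← e] at d6
    exact ⟨d4, d5 ▸ od, d2, d3, Nat.eq_of_mul_eq_mul_left
      (Nat.pos_of_ne_zero fun u0 => n0 (by rw [← e, u0, zero_mul])) d6⟩
  have key : (∀ u ∈ (m * l).divisors, dl (E u) = (dl (E u)).re) ∧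
      ((l : ℝ) < ρ * m → ∏ u ∈ (m * l).divisors, (dl (E u)).re * Δ < 0) ∧
      (ρ * m < (l : ℝ) → 0 < ∏ u ∈ (m * l).divisors, (dl (E u)).re * Δ) := by
    rcases hρ with H | H
    · refine ⟨fun u hu => ?_, prod_both hM hl m0 ml hc _ fun u v e => ?_⟩
      · obtain ⟨d1, d2, d3, -⟩ := data u _ (Nat.mul_div_cancel' (Nat.dvd_of_mem_divisors hu))
        obtain ⟨d, k1, -⟩ := H _ d1 d2 d3
        rw [k1, Complex.ofReal_re]
      · obtain ⟨d1, d2, d3, d4, d5⟩ := data u v e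
        obtain ⟨d, k1, k2⟩ := H _ d1 d2 d3
        rw [d4, d5] at k2
        rwa [k1, Complex.ofReal_re]
    · refine ⟨fun u hu => ?_, ?_⟩
      · obtain ⟨d1, d2, d3, -⟩ := data u _ (Nat.mul_div_cancel' (Nat.dvd_of_mem_divisors hu))
        obtain ⟨d, k1, -⟩ := H _ d1 d2 d3
        rw [k1, Complex.ofReal_re]
      · rw [← Nat.prod_div_divisors (m * l) fun u => (dl (E u)).re * Δ]
        refine prod_both hM hl m0 ml hc _ fun u v e => ?_
        have u0 : 0 < u := Nat.pos_of_ne_zero fun u0 => n0 (by rw [← e, u0, zero_mul])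
        obtain ⟨d1, d2, d3, d4, d5⟩ := data v u (by rw [mul_comm, e])
        obtain ⟨d, k1, k2⟩ := H _ d1 d2 d3
        rw [d4, d5] at k2
        rwa [← e, Nat.mul_div_cancel_left _ u0, k1, Complex.ofReal_re]
  obtain ⟨k1, k2⟩ := key
  rw [Finset.prod_mul_distrib, Finset.prod_const] at k2
  have k3 := (even_card hl m0 ml).pow_pos Δ0
  have k4 := hΨ ℂ w w h w0' w0'
  rw [div_self w0', one_pow, show (w : ℂ) ^ 3 / w ^ 2 = algebraMap ℝ ℂ w by
    rw [Complex.coe_algebraMap]; field_simp, aeval_algebraMap_apply, Complex.coe_algebraMap] at k4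
  simp only [mul_one] at k4
  rw [Finset.prod_mul_distrib, Finset.prod_const, ← sp, hr, bij, Finset.prod_congr rfl k1] at k4
  have k5 : aeval w Ψ = (((m * l : ℕ) : ℝ) ^ 6) ^ (subs (w : ℂ) (w : ℂ) (m * l)).card *
      ((∏ u ∈ (m * l).divisors, (dl (E u)).re) * r) := by exact_mod_cast k4
  rw [k5]
  exact ⟨fun g => mul_nonpos_of_nonneg_of_nonpos (by positivity)
    (mul_nonpos_of_nonpos_of_nonneg (neg_of_mul_neg_left (k2.1 g) k3.le).le r0),
    fun g => mul_nonneg (by positivity) (mul_nonneg (pos_of_mul_pos_left (k2.2 g) k3.le).le r0)⟩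

end Pool.Agent.MP_c481b3_nt.H28K
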