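import Pool.Agent.MP_c481b3_nt.H28K.SpecG

set_option autoImplicit false

namespace Pool.Agent.MP_c481b3_nt.H28K

open MeasureTheory Set Filter Topology

namespace AreaAux

theorem pieces (s : Set ℝ) (φ φ' : ℝ → ℝ) (hs : MeasurableSet s)
    (h : ∀ x ∈ s, HasStrictDerivAt φ (φ' x) x ∧ φ' x ≠ 0) :
    ∃ u : ℕ → Set ℝ, (∀ i, MeasurableSet (u i)) ∧ Pairwise (Function.onFun Disjoint u) ∧
      (⋃ i, u i) = s ∧ ∀ i, InjOn φ (u i) := by
  have key : ∀ x : ℝ, ∃ U : Set ℝ, IsOpen U ∧ InjOn φ U ∧ (x ∈ s → x ∈ U) := by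
    intro x
    by_cases hx : x ∈ s
    · obtain ⟨h1, h2⟩ := h x hx
      have h3 := (h1.hasStrictFDerivAt_equiv h2).eventually_left_inverse
      obtain ⟨U, hU, hUo, hxU⟩ := eventually_nhds_iff.1 h3
      refine ⟨U, hUo, ?_, fun _ => hxU⟩
      intro a ha b hb hab
      rw [← hU a ha, ← hU b hb, hab]
    · exact ⟨∅, isOpen_empty, injOn_empty _, fun h' => (hx h').elim⟩
  choose U hUo hUi hUx using key
  obtain ⟨c, -, hc, hcov⟩ := TopologicalSpace.countable_cover_nhdsWithin (f := U) (s := s)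
    (fun x hx => mem_nhdsWithin_of_mem_nhds ((hUo x).mem_nhds (hUx x hx)))
  obtain ⟨f, hf⟩ := Set.countable_iff_exists_subset_range.1 hc
  refine ⟨fun i => s ∩ disjointed (fun j => U (f j)) i, ?_, ?_, ?_, ?_⟩
  · intro i
    exact hs.inter (MeasurableSet.disjointed (fun j => (hUo _).measurableSet) i)
  · intro i j hij
    exact Disjoint.mono inter_subset_right inter_subset_right (disjoint_disjointed _ hij)
  · rw [← inter_iUnion, iUnion_disjointed]
    refine inter_eq_left.2 fun x hx => ?_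
    obtain ⟨y, hy, hxy⟩ := mem_iUnion₂.1 (hcov hx)
    obtain ⟨j, rfl⟩ := hf hy
    exact mem_iUnion.2 ⟨j, hxy⟩
  · intro i
    exact (hUi (f i)).mono (inter_subset_right.trans (disjointed_subset _ i))

theorem fibre (φ : ℝ → ℝ) (u : ℕ → Set ℝ) (hd : Pairwise (Function.onFun Disjoint u))
    (hi : ∀ i, InjOn φ (u i)) (g : ℝ → ENNReal) (y : ℝ) :
    ∑' i, (φ '' u i).indicator g y = (((⋃ i, u i) ∩ φ ⁻¹' {y}).encard : ENNReal) * g y := by
  have hsub : ∀ i, (u i ∩ φ ⁻¹' {y}).Subsingleton := by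
    intro i a ha b hb
    exact hi i ha.1 hb.1 (by rw [show φ a = y from ha.2, show φ b = y from hb.2])
  have hm : ∀ i, MeasurableSet (u i ∩ φ ⁻¹' {y}) := fun i => (hsub i).measurableSet
  have h1 : (((⋃ i, u i) ∩ φ ⁻¹' {y}).encard : ENNReal)
      = ∑' i, Measure.count (u i ∩ φ ⁻¹' {y}) := by
    rw [iUnion_inter, ← Measure.count_apply (MeasurableSet.iUnion hm), measure_iUnion _ hm]
    intro i j hij
    exact Disjoint.mono inter_subset_left inter_subset_left (hd hij)
  rw [h1, ← ENNReal.tsum_mul_right]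
  refine tsum_congr fun i => ?_
  by_cases hy : y ∈ φ '' u i
  · obtain ⟨x, hx, hxy⟩ := id hy
    have : u i ∩ φ ⁻¹' {y} = {x} := (hsub i).eq_singleton_of_mem ⟨hx, hxy⟩
    rw [indicator_of_mem hy, this, Measure.count_singleton, one_mul]
  · have : u i ∩ φ ⁻¹' {y} = ∅ := by
      refine eq_empty_of_forall_notMem fun x hx => hy ⟨x, hx.1, hx.2⟩
    rw [indicator_of_notMem hy, this, measure_empty, zero_mul]

end AreaAux

/-- the formula for the area for a map with fibres of constant size -/
theorem area : Area := by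
  intro s t φ φ' g k hs ht hg h hk
  obtain ⟨u, hum, hud, hus, hui⟩ := AreaAux.pieces s φ φ' hs fun x hx => ⟨(h x hx).1, (h x hx).2.1⟩
  have hsub : ∀ i, u i ⊆ s := fun i => hus ▸ subset_iUnion u i
  have hder : ∀ i, ∀ x ∈ u i, HasDerivWithinAt φ (φ' x) (u i) x := fun i x hx =>
    (h x (hsub i hx)).1.hasDerivAt.hasDerivWithinAt
  have him : ∀ i, MeasurableSet (φ '' u i) := fun i =>
    (hum i).image_of_continuousOn_injOn (fun x hx => (hder i x hx).continuousWithinAt) (hui i)
  calc ∫⁻ x in s, ENNReal.ofReal |φ' x| * g (φ x)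
      = ∑' i, ∫⁻ x in u i, ENNReal.ofReal |φ' x| * g (φ x) := by
        rw [← hus, lintegral_iUnion hum hud]
    _ = ∑' i, ∫⁻ y, (φ '' u i).indicator g y := by
        refine tsum_congr fun i => ?_
        rw [← lintegral_image_eq_lintegral_abs_deriv_mul (hum i) (hder i) (hui i) g,
          lintegral_indicator (him i)]
    _ = ∫⁻ y, ∑' i, (φ '' u i).indicator g y :=
        (lintegral_tsum fun i => (hg.indicator (him i)).aemeasurable).symm
    _ = ∫⁻ y, t.indicator (fun y => k * g y) y := by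
        refine lintegral_congr fun y => ?_
        rw [AreaAux.fibre φ u hud hui g y, hus]
        by_cases hy : y ∈ t
        · rw [indicator_of_mem hy, hk y hy]
          simp
        · have : s ∩ φ ⁻¹' {y} = ∅ := by
            refine eq_empty_of_forall_notMem fun x hx => hy ?_
            have h2 := (h x hx.1).2.2
            rwa [show φ x = y from hx.2] at h2
          rw [indicator_of_notMem hy, this]
          simp
    _ = k * ∫⁻ y in t, g y := by
        rw [lintegral_indicator ht, lintegral_const_mul _ hg]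

end Pool.Agent.MP_c481b3_nt.H28K
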