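import Pool.Agent.MP_c481b3_nt.H28K.SpecG

set_option autoImplicit false

namespace Pool.Agent.MP_c481b3_nt.H28K

open Pool.Agent.MP_c481b3_nt.H81 Pool.Agent.MP_c481b3_nt.H28 Pool.Agent.MP_c481b3_nt.H31
  Polynomial NumberField

namespace SSL

open KrA

/-- an endomorphism of square `-(l m)` forces supersingular reduction above `l` -/
theorem ssl2 {L κ : Type} [Field L] [Field κ] [DecidableEq L] [DecidableEq κ] [IsAlgClosed L]
    [IsAlgClosed κ] [CharZero L] {π : Plc L κ} {A B : L} {A' B' : κ} (r : Rd π A B A' B')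
    (hs : Function.Surjective π.ρ) {l m : ℕ} (hl : l.Prime) (h5 : 5 ≤ l) (l0 : (l : κ) = 0)
    (lm : ¬l ∣ m) (mo : Odd m) {D : Finset (Pt A B)} {u : L} (d : VD D u A B)
    (hc : D.card = l * m) (hu : u ^ 2 = -((l * m : ℕ) : L)) (Q' : Pt A' B') (hQ' : l • Q' = 0) :
    Q' = 0 := by
  have := Fact.mk hl
  have : CharP κ l := (CharP.charP_iff_prime_eq_zero hl).2 l0
  have t : Tm A B l := tm r
  have lo : Odd l := hl.odd_of_ne_two (by omega)
  have z : Ev π l 0 := l0 ▸ Ev.nat π l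
  have zm := Ev.nat π m
  have m0 : (m : κ) ≠ 0 := fun e => lm ((CharP.cast_eq_zero_iff κ l m).1 e)
  obtain ⟨e₁, e₂, e₃, h⟩ := exists_rt A B
  obtain ⟨i, c, hi, hk, c0, c1, -, -⟩ := tors_main r h5 h
  have vA' : vA D = (l * m) ^ 2 * A := by
    rw [d.hA, show u ^ 4 = (u ^ 2) ^ 2 by ring, hu]; push_cast; ring
  have vB' : vB D = -((l * m) ^ 3 * B) := by
    rw [d.hB, show u ^ 6 = (u ^ 2) ^ 3 by ring, hu]; push_cast; ring
  have kT : Kr r (tors A B l) = tors A B l := by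
    rcases hi with rfl | rfl
    swap
    · exact Finset.eq_of_subset_of_card_le (Kr_subset r _) (by rw [hk, t.card])
    exfalso
    rw [pow_one] at hk
    have sb : Kr r D ⊆ Kr r (tors A B l) := fun P hP => by
      obtain ⟨p1, p2⟩ := (mem_Kr r).1 hP
      refine (mem_Kr r).2 ⟨t.mem.2 (by_contra fun p0 => red_tors_ne r m0 p0 ?_ ?_), p2⟩
      · rw [← mul_nsmul, ← hc, d.sub.nsmul_card p1]
      · rw [map_nsmul, p2, nsmul_zero]
    have hd := card_dvd (Kr_sub r d.sub) (Kr_sub r t.sub) sb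
    rw [hk, Nat.dvd_prime hl] at hd
    rcases hd with hd | hd
    · obtain ⟨a1, a2, a3⟩ := ev_main r (l := l) (three_ne hl h5) h d.sub (hc ▸ lo.mul mo) (i := 0)
        (by simpa using hd)
      rw [Dn_one (Kr_sub r d.sub) hd, vA'] at a1
      rw [Dn_one (Kr_sub r d.sub) hd, vB'] at a2
      have b1 := a1.unique ((((z.mul zm).pow 2).mul (rdA r)).mul ((Ev.one π).pow 2))
      have b2 := a2.unique ((((z.mul zm).pow 3).mul (rdB r)).neg.mul ((Ev.one π).pow 3))
      refine absurd ?_ a3.disc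
      rw [b1, b2]; simp
    · have e : Kr r D = Kr r (tors A B l) := Finset.eq_of_subset_of_card_le sb (by rw [hk, hd])
      obtain ⟨a1, a2, -⟩ := ev_main r (l := l) (three_ne hl h5) h d.sub (hc ▸ lo.mul mo) (i := 1)
        (by rw [hd, pow_one])
      rw [e, vA'] at a1
      rw [e, vB'] at a2
      have b1 := (((zm.mul c1).pow 2).mul (rdA r)).unique (((z.pow 2).mul a1).congr (by ring) rfl)
      have b2 := (((zm.mul c1).pow 3).mul (rdB r)).unique
        (((z.pow 3).mul a2).neg.congr (by ring) rfl)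
      have b3 : A' = 0 := by simpa [c0, m0] using b1
      have b4 : B' = 0 := by simpa [c0, m0] using b2
      refine absurd ?_ r.good.disc
      rw [b3, b4]; simp
  by_contra q0
  obtain ⟨Q, hQ, q1⟩ : ∃ Q : Pt A B, l • r.red Q = 0 ∧ r.red Q ≠ 0 := by
    obtain ⟨ξ, hξ⟩ := hs (xc Q')
    obtain ⟨P, p0, p1⟩ := exists_pt (rd_good r) (ξ : L)
    have p2 : r.red P ≠ 0 := r.red_ne p0 (p1 ▸ ξ.2)
    have p3 : xc (r.red P) = xc Q' := by rw [← (ev_xc r p2).ev, p1, π.ev_coe, hξ]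
    refine ⟨P, ?_, p2⟩
    rcases eq_or_neg p2 q0 p3 with e | e
    · rw [e, hQ']
    · rw [e, smul_neg, hQ', neg_zero]
  rw [kT] at c1
  have z0 : ∀ P ∈ tors A B l, r.red P = 0 := fun P hP => ((mem_Kr r).1 (kT.symm ▸ hP)).2
  have nm : ∀ P ∈ (tors A B l).erase 0, xc P ∉ π.O := fun P hP e =>
    r.red_ne (Finset.mem_erase.1 hP).1 e (z0 P (Finset.mem_erase.1 hP).2)
  have x1 := ev_xc r q1
  obtain ⟨b1, b2, b3⟩ := h.rot.two (rd_good r)
  have tn : pt A B e₂ 0 ∉ tors A B l := two_not_mem t.sub (by rw [t.card]; exact lo.pow) b1 b3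
  have pf := prod_formula (rd_good r) t.three t.sub tn (ξ := xc Q)
    fun P hP e => nm P hP (e ▸ x1.mem)
  have w1 : Ev π (∏ P ∈ (tors A B l).erase 0, ((xc Q - xc P) / (e₁ - xc P)))
      (∏ _P ∈ (tors A B l).erase 0, 1) := Ev.prod _ fun P hP => by
    have n1 : e₁ - xc P ∉ π.O := fun e =>
      nm P hP (by simpa using sub_mem (ev_root r h).mem e)
    have n2 : e₁ - xc P ≠ 0 := fun e => n1 (e ▸ zero_mem _)
    refine ((Ev.one π).add ((x1.sub (ev_root r h)).mul (Ev.inv_of_not n1))).congr ?_ (by simp)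
    field_simp
    ring
  have d0 : Dn (tors A B l) e₁ ≠ 0 := right_ne_zero_of_mul (c1.ne_zero c0)
  have w2 : Ev π ((l : L) ^ 2 * ∏ P ∈ (tors A B l).erase 0, (xc Q - xc P)) c := by
    refine (c1.mul w1).congr ?_ (by simp)
    rw [Dn] at d0
    rw [Finset.prod_div_distrib, Dn, mul_assoc, mul_div_cancel₀ _ d0]
  have w3 : ∏ P ∈ tors A B l, (xc Q - xc (pt A B e₂ 0 + P)) ∈ π.O :=
    prod_mem fun P hP => sub_mem x1.mem (ev_xc r (by
      rw [map_add, z0 P hP, add_zero, red_pt r h.rot]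
      exact ((rt_red r h.rot).two r.good).1)).mem
  have w4 := ((Ev.of_mem w3).div w2 c0).mem
  have w0 := right_ne_zero_of_mul (w2.ne_zero c0)
  have l1 := t.ne
  obtain ⟨s1, s2, -⟩ := t.vd.spec (P := Q) fun e => q1 (z0 Q e)
  obtain ⟨-, s3, -⟩ := t.vd.spec tn
  rw [t.vm_eq] at s1 s2 s3
  have s4 : l • pt A B e₂ 0 = pt A B e₂ 0 := by
    obtain ⟨j, hm⟩ := lo
    rw [hm, add_nsmul, mul_nsmul, b3, nsmul_zero, zero_add, one_nsmul]
  rw [s4] at s3
  refine r.red_ne s1 ?_ (by rw [map_nsmul, hQ])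
  have := add_mem w4 (show xc (pt A B e₂ 0) ∈ π.O by rw [b2]; exact (ev_root r h.rot).mem)
  rw [← pf] at this
  nth_rewrite 2 [s3] at this
  rw [s2]
  refine (congrArg (· ∈ π.O) ?_).mp this
  field_simp
  ring

end SSL

theorem atL2_of : RootSD2 → AtL2 := by
  classical
  intro hR K _ _ A B x P l m k Ψ F G a hm hl h5 hp lm mo hA hB hΔ hΨ a0 e G0 F0 sq hx xP
  obtain ⟨O, q, n, c⟩ := exists_loc hm hΔ
  obtain rfl := (Nat.prime_dvd_prime_iff_eq c.prime hl).1 (c.nat_mem.1 hp)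
  have := Fact.mk hl
  have := c.char
  have t := c.ev_t hB
  have h : O.valuation (az (iK A ^ 3 / iK B ^ 2) F) < 1 := by
    have h1 := (c.lt x).2 xP
    rwa [hx, map_mul, map_pow, c.v_one hB, one_pow, one_mul] at h1
  obtain ⟨i, hi⟩ : ∃ i, ((F.coeff i : ℤ) : ZMod q) ≠ 0 := by
    by_contra hc
    push Not at hc
    exact F0 (Polynomial.ext fun i => by simpa using hc i)
  obtain ⟨w, w1, w2⟩ := exists_root_near O t.mem (F.map (Int.castRingHom _)) (i := i) (by
    rw [az_map, coeff_map, eq_intCast]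
    refine h.trans_eq ((Ev.int (resPlc O) _).v_one ?_).symm
    rwa [Ne, CharP.intCast_eq_zero_iff _ q, ← ZMod.intCast_zmod_eq_zero_iff_dvd])
  rw [az_map] at w1
  have tw : Ev (resPlc O) w (rs O A ^ 3 / rs O B ^ 2) := by
    simpa using (Ev.of_lt (π := resPlc O) w2).add t
  obtain ⟨s, -, -⟩ := exists_sc c.good (c.rs_ne hA) (c.rs_ne hB)
  have r := rd_of tw tw s.good
  have no : Odd (q * m) := (hl.odd_of_ne_two (by omega)).mul mo
  obtain ⟨D, hD, u, d, hu, -⟩ := hR _ (q * m) Ψ F G a w no (by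
      rintro ⟨y, hy⟩
      obtain ⟨y', rfl⟩ : q ∣ y := (hl.dvd_mul.1 (hy ▸ dvd_mul_right q m)).elim id id
      exact lm ⟨y' * y', Nat.eq_of_mul_eq_mul_left hl.pos (by rw [hy]; ring)⟩) hΨ a0 e G0
    (fun e => F0 (by rw [e, Polynomial.map_zero])) sq (rd_good r) w1
  have tm : Tm w w (q * m) := ⟨d.good, three_ne_zero, Nat.cast_ne_zero.2 no.pos.ne'⟩
  have ss := SSL.ssl2 r IsLocalRing.residue_surjective hl h5 (CharP.cast_eq_zero _ q) lm mo d
    (tm.mem_subs.1 hD).2 hu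
  have sp : ∀ (j : ℕ) (Q : Pt (rs O A) (rs O B)), q ^ j • Q = 0 → Q = 0 := by
    intro j
    induction j with
    | zero => simp
    | succ j ih =>
      intro Q hQ
      rw [pow_succ, mul_nsmul] at hQ
      exact ih Q (by_contra fun q0 => s.map_ne q0 (ss _ (by rw [← map_nsmul, hQ, map_zero])))
  have h3 := c.three h5
  have cr := compRing h3 c.good
  set π := frE c.good q n (c.fix A) (c.fix B) with hπ
  have tr : pol NE π 1 = aP A B P := c.tr h5
  have nπ : NE π = q ^ n := by rw [hπ, NE_frE]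
  by_contra hc
  obtain ⟨E, d', e1, -⟩ := exists_vd h3 (π - ((aP A B P : ℤ) : EE c.good)) (by
    rw [map_sub, cE_frE _ _ _ _ _ c.n0, map_intCast, zero_sub, neg_ne_zero, Ne,
      CharP.intCast_eq_zero_iff _ q]
    exact hc)
  rw [cr.sub, nπ, ← mul_one (aP A B P : EE c.good), cr.pol_int', tr, mul_one, cr.int] at e1
  have e2 : E.card = q ^ n := by
    have : (E.card : ℤ) = q ^ n := by rw [e1]; ring
    exact_mod_cast this
  obtain ⟨Q, hQ⟩ : (E.erase 0).Nonempty := Finset.card_pos.1 (by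
    have := Nat.one_lt_pow c.n0 hl.one_lt
    rw [Finset.card_erase_of_mem d'.sub.zero, e2]; omega)
  obtain ⟨q0, q1⟩ := Finset.mem_erase.1 hQ
  exact q0 (sp n Q (by rw [← e2, d'.sub.nsmul_card q1]))

end Pool.Agent.MP_c481b3_nt.H28K
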