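import Pool.Agent.MP_c481b3_nt.H28K.SpecN

/-! The counting step. -/

set_option autoImplicit false

namespace Pool.Agent.MP_c481b3_nt.H28K

open Filter Topology

namespace CNT

theorem big {A : Set ℕ} (h : Dense A) :
    ∃ C : ℝ, 1 ≤ C ∧ ∀ y : ℝ, C ≤ y → ∃ r ∈ A, y < r ∧ Real.log r ≤ C * Real.log y := by
  obtain ⟨C, hC, h⟩ := h
  refine ⟨4 * C, by linarith, fun y hy => ?_⟩
  have hy1 : 4 ≤ y := by linarith
  have hy4 : y ≤ y ^ 4 := le_self_pow₀ (by linarith) (by norm_num)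
  obtain ⟨z, F, h1, h2, h3, h4⟩ := h (y ^ 4) (by linarith)
  have hz : (1 : ℝ) < z := by linarith
  have hex : ∃ r ∈ F, y < r := by
    by_contra hn
    push Not at hn
    have h5 : (F.card : ℝ) ≤ y + 1 := by
      have h6 : F ⊆ Finset.range (⌊y⌋₊ + 1) := fun r hr =>
        Finset.mem_range.2 (Nat.lt_succ_of_le (Nat.le_floor (hn r hr)))
      have h7 : (F.card : ℝ) ≤ (⌊y⌋₊ + 1 : ℕ) := by
        exact_mod_cast (Finset.card_le_card h6).trans_eq (Finset.card_range _)
      push_cast at h7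
      linarith [Nat.floor_le (show 0 ≤ y by linarith)]
    have h6 : Real.log z ≤ 2 * √z := by
      have := Real.log_sqrt (show (0 : ℝ) ≤ z by linarith)
      have h7 := Real.log_le_self (Real.sqrt_nonneg (z : ℝ))
      linarith
    have h7 : y ^ 2 ≤ √z := Real.le_sqrt_of_sq_le (by nlinarith)
    have h8 : √z * √z = (z : ℝ) := Real.mul_self_sqrt (by linarith)
    have hl : 0 < Real.log z := Real.log_pos hz
    have h9 := h4.trans h5
    rw [div_le_iff₀ (by positivity)] at h9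
    have h10 : (y + 1) * (C * Real.log z) ≤ (y + 1) * (C * (2 * √z)) := by gcongr
    have h11 : 0 < √(z : ℝ) := by positivity
    have h12 : √(z : ℝ) ≤ (y + 1) * (C * 2) := by
      refine le_of_mul_le_mul_right ?_ h11
      linarith
    nlinarith
  obtain ⟨r, hr, hyr⟩ := hex
  refine ⟨r, (h3 r hr).1, hyr, ?_⟩
  have h5 : (r : ℝ) ≤ (y ^ 4) ^ C := le_trans (by exact_mod_cast (h3 r hr).2) h2
  have h6 := Real.log_le_log (by linarith) h5
  rw [Real.log_rpow (by positivity), Real.log_pow] at h6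
  push_cast at h6
  linarith

theorem two_pow_le {K : ℝ} (hK : 1 ≤ K) {n : ℕ} (h : (n : ℝ) ≤ 20 * Real.log K + 1) :
    (2 : ℝ) ^ n ≤ 3 * K ^ 14 := by
  have h0 := Real.log_nonneg hK
  have h1 : (2 : ℝ) ^ n = Real.exp (n * Real.log 2) := by
    rw [Real.exp_nat_mul, Real.exp_log two_pos]
  have h2 : K ^ 14 = Real.exp ((14 : ℕ) * Real.log K) := by
    rw [Real.exp_nat_mul, Real.exp_log (by linarith)]
  have h3 : n * Real.log 2 ≤ 1 + (14 : ℕ) * Real.log K := by
    have h4 : n * Real.log 2 ≤ (20 * Real.log K + 1) * 0.7 :=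
      mul_le_mul h (by linarith [Real.log_two_lt_d9]) (Real.log_nonneg one_le_two) (by positivity)
    push_cast
    linarith
  rw [h1, h2]
  refine (Real.exp_le_exp.2 h3).trans ?_
  rw [Real.exp_add]
  exact mul_le_mul_of_nonneg_right (by linarith [Real.exp_one_lt_d9]) (Real.exp_pos _).le

open Classical in
/-- the primes of the window that are covered by one large prime -/
theorem one_prime (hc : Cover2) (W R : Finset ℕ) (n p : ℕ) (Y : ℝ) (P : ℕ → Prop)
    (col : ℕ → Finset ℕ) (hY : 0 < Y) (hYn : Y ≤ n) (hp : Y ^ 2 ≤ p)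
    (hW : ∀ l ∈ W, l.Prime ∧ n < l ∧ l ≤ 2 * n) (hcol : ∀ l, col l ⊆ R)
    (h : ∀ l ∈ W, ∀ l' ∈ W, P l → P l' → col l = col l' →
      ∃ a b : ℤ, 4 * (l : ℤ) * l' = a ^ 2 + p * b ^ 2) :
    ((W.filter P).card : ℝ) ≤ 2 ^ R.card * (300 * n / Y) := by
  have hp0 : 0 < p := by
    have : (0 : ℝ) < p := lt_of_lt_of_le (by positivity) hp
    exact_mod_cast this
  have h1 : ∀ c ∈ R.powerset, (((W.filter P).filter fun l => col l = c).card : ℝ) ≤
      300 * n / Y := by
    intro c _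
    rcases ((W.filter P).filter fun l => col l = c).eq_empty_or_nonempty with h0 | ⟨l₀, h0⟩
    · rw [h0, Finset.card_empty, Nat.cast_zero]
      positivity
    simp only [Finset.mem_filter] at h0
    obtain ⟨hl1, hl2, hl3⟩ := hW l₀ h0.1.1
    refine (hc p l₀ _ hl1 hp0 fun l hl => ?_).trans ?_
    · simp only [Finset.mem_filter] at hl
      exact ⟨by have := (hW l hl.1.1).2.2; omega,
        h l₀ h0.1.1 l hl.1.1 h0.1.2 hl.1.2 (h0.2.trans hl.2.symm)⟩
    · have h2 : Y ≤ √p := Real.le_sqrt_of_sq_le hp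
      have h3 : (l₀ : ℝ) ≤ 2 * n := by exact_mod_cast hl3
      have h4 : (l₀ : ℝ) / √p ≤ 2 * n / Y := by gcongr
      have h5 : 1 ≤ n / Y := (one_le_div hY).2 hYn
      rw [mul_div_assoc] at h4 ⊢
      linarith
  rw [Finset.card_eq_sum_card_fiberwise (f := col) (t := R.powerset)
    fun l _ => Finset.mem_coe.2 (Finset.mem_powerset.2 (hcol l))]
  push_cast
  refine (Finset.sum_le_card_nsmul _ _ _ h1).trans_eq ?_
  rw [Finset.card_powerset, nsmul_eq_mul]
  push_cast
  rfl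

theorem numer {K n c D C g L w : ℝ} (hK : 1 ≤ K) (hc : 0 < c) (hD : 0 ≤ D) (hC : 0 < C)
    (hn : K ^ 20 ≤ n) (hL : 0 < L) (hLK : L ≤ C * K ^ 3) (hg : g ≤ 3 * K ^ 14)
    (h1 : c * n / L ≤ w) (h2 : w ≤ K + K * (D * (g * (300 * n / K ^ 20)))) :
    c * K ≤ C * (1 + 900 * D) := by
  have hK0 : 0 < K := by linarith
  have hn0 : 0 < n := lt_of_lt_of_le (by positivity) hn
  have h3 : c * n / (C * K ^ 3) ≤ c * n / L := by gcongr
  have h4 : K ≤ n / K ^ 5 := by
    rw [le_div_iff₀ (by positivity), ← pow_succ']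
    exact (pow_le_pow_right₀ hK (by norm_num)).trans hn
  have h5 : K * (D * (g * (300 * n / K ^ 20))) ≤ K * (D * (3 * K ^ 14 * (300 * n / K ^ 20))) := by
    gcongr
  have h6 : K * (D * (3 * K ^ 14 * (300 * n / K ^ 20))) = 900 * D * (n / K ^ 5) := by
    field_simp
    ring
  have h7 : c * n / (C * K ^ 3) ≤ (1 + 900 * D) * n / K ^ 5 := by
    rw [mul_div_assoc (1 + 900 * D)]
    linarith
  rw [div_le_div_iff₀ (by positivity) (by positivity)] at h7
  have h8 : c * K ^ 2 ≤ C * (1 + 900 * D) := by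
    refine le_of_mul_le_mul_right ?_ (show 0 < n * K ^ 3 by positivity)
    calc c * K ^ 2 * (n * K ^ 3) = c * n * K ^ 5 := by ring
      _ ≤ _ := h7
      _ = _ := by ring
  exact le_trans (mul_le_mul_of_nonneg_left (le_self_pow₀ hK (by norm_num)) hc.le) h8

theorem asym {C : ℝ} (hC : 1 ≤ C) (K₀ : ℝ) : ∀ᶠ x : ℕ in atTop, ∀ K : ℝ,
    K = Real.exp (C⁻¹ * Real.log (Real.log x) / Real.log (Real.log (Real.log x)) ^ 2) →
    K₀ ≤ K ∧ 1 ≤ Real.log (Real.log K) ∧
      Real.exp (C * (Real.log K * Real.log (Real.log K) ^ 2)) ≤ Real.log x := by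
  have hC0 : 0 < C := by linarith
  have t1 : Tendsto (fun x : ℕ => Real.log x) atTop atTop :=
    Real.tendsto_log_atTop.comp tendsto_natCast_atTop_atTop
  have t2 : Tendsto (fun x : ℕ => Real.log (Real.log x)) atTop atTop :=
    Real.tendsto_log_atTop.comp t1
  have t3 : Tendsto (fun v : ℝ => C⁻¹ * (Real.exp v / v ^ 2)) atTop atTop :=
    (Real.tendsto_exp_div_pow_atTop 2).const_mul_atTop (inv_pos.2 hC0)
  have t4 := Real.tendsto_log_atTop.comp t2
  have t5 := t3.comp t4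
  filter_upwards [t1.eventually_gt_atTop 0, t2.eventually_gt_atTop 0, t4.eventually_ge_atTop 1,
    t5.eventually_ge_atTop K₀, t5.eventually_ge_atTop (Real.exp 1)] with x h1 h2 h3 h4 h5 K hK
  simp only [Function.comp] at h3 h4 h5
  rw [Real.exp_log h2, ← mul_div_assoc] at h4 h5
  set u := Real.log (Real.log x)
  set k := C⁻¹ * u / Real.log u ^ 2 with hk
  have hk0 : 0 < k := (Real.exp_pos 1).trans_le h5
  have h6 : 1 ≤ Real.log k := (Real.le_log_iff_exp_le hk0).2 h5
  have h7 : k ≤ u := by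
    refine (div_le_self (by positivity) (one_le_pow₀ h3)).trans ?_
    exact mul_le_of_le_one_left h2.le (inv_le_one_of_one_le₀ hC)
  have h8 : Real.log k ^ 2 ≤ Real.log u ^ 2 :=
    pow_le_pow_left₀ (by linarith) (Real.log_le_log hk0 h7) 2
  rw [hK, Real.log_exp]
  refine ⟨by linarith [Real.add_one_le_exp k], h6, ?_⟩
  rw [← Real.le_log_iff_exp_le h1]
  calc C * (k * Real.log k ^ 2) ≤ C * (k * Real.log u ^ 2) := by gcongr
    _ = u := by
      rw [hk]
      field_simp

end CNT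

open CNT Classical in
theorem countK_of : Win → Kill → Cover2 → CountK := by
  intro hwin hkill hc S A M D ρ H Cov hS hA hdense hM hρ hcov hcol
  obtain ⟨C₁, hC₁, hk⟩ := hkill A 40
    (fun r hr => ⟨(hA r hr).1, by have := (hA r hr).2.1; omega⟩) hdense
  obtain ⟨C₂, hC₂, hb⟩ := big hdense
  have hq : 8 * M.factorial ≠ 0 := Nat.mul_ne_zero (by norm_num) M.factorial_ne_zero
  obtain ⟨c, hc0, N, hw⟩ := hwin (8 * M.factorial) (min ρ 2) hq (lt_min hρ one_lt_two)
  set C₃ := C₁ + 20 * C₂ with hC₃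
  have hH : 0 ≤ |H| := abs_nonneg H
  set C := 16 * (|H| + 1) + 8 * C₃ with hC
  have hC1 : 1 ≤ C := by linarith
  refine ⟨C⁻¹, by positivity, ?_⟩
  filter_upwards [asym hC1 (C₁ + C₂ + M + N + C₃ * (1 + 900 * D) / c)] with x hx
  obtain ⟨hK0, hK1, hK2⟩ := hx _ rfl
  generalize Real.exp (C⁻¹ * Real.log (Real.log x) / Real.log (Real.log (Real.log x)) ^ 2) = K at *
  have hpos : 0 ≤ C₃ * (1 + 900 * D) / c := by positivity
  have hM0 : (0 : ℝ) ≤ M := M.cast_nonneg
  have hN0 : (0 : ℝ) ≤ N := N.cast_nonneg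
  have hK : 1 ≤ K := by linarith
  have hKp : K ≤ K ^ 20 := le_self_pow₀ hK (by norm_num)
  set B := (Finset.range (x + 1)).filter (· ∈ S) with hB
  have hmem : ∀ p, p ∈ B ↔ p ∈ S ∧ p ≤ x := fun p => by
    rw [hB, Finset.mem_filter, Finset.mem_range, Nat.lt_succ_iff, and_comm]
  have hBe : ({p ∈ S | p ≤ x} : Set ℕ) = (B : Set ℕ) := by
    ext p
    rw [Finset.mem_coe, hmem]
    rfl
  rw [hBe, Set.ncard_coe_finset]
  by_contra hlt
  have hBK : (B.card : ℝ) ≤ K := (not_le.1 hlt).le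
  obtain ⟨R₀, hR1, hR2, hR3, hR4⟩ := hk K (B.filter fun p => p ≠ 2 ∧ (p : ℝ) ≤ K ^ 40) B
    (by linarith) (le_trans (by exact_mod_cast Finset.card_filter_le _ _) hBK) hBK (by
      intro p hp
      obtain ⟨h1, h2, h3⟩ := Finset.mem_filter.1 hp
      have h4 := ((hmem p).1 h1).1
      exact ⟨hS p h4, h2, fun h => (hA p h).2.2 h4, h3⟩)
  obtain ⟨r₀, hr1, hr2, hr3⟩ := hb (K ^ 20) (by linarith)
  set R := insert r₀ R₀ with hR
  have hprime : ∀ r ∈ R, r.Prime := fun r hr => by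
    rcases Finset.mem_insert.1 hr with rfl | h
    exacts [(hA _ hr1).1, (hR1 r h).1]
  set n := ∏ r ∈ R, r with hn
  have hn0 : 0 < n := Finset.prod_pos fun r hr => (hprime r hr).pos
  have hrn : ∀ r ∈ R, r ≤ n := fun r hr => Nat.le_of_dvd hn0 (Finset.dvd_prod_of_mem _ hr)
  have hKn : K ^ 20 < n :=
    hr2.trans_le (by exact_mod_cast hrn r₀ (Finset.mem_insert_self _ _))
  have hn1 : (1 : ℝ) < n := by linarith
  have hlK : 0 ≤ Real.log K := Real.log_nonneg hK
  have hlK1 : 1 ≤ Real.log K := hK1.trans (Real.log_le_self hlK)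
  set G := Real.log K * Real.log (Real.log K) ^ 2 with hG
  have hG1 : Real.log K ≤ G := le_mul_of_one_le_right hlK (one_le_pow₀ hK1)
  have hlog : Real.log n ≤ C₃ * G := by
    have h1 : Real.log n = ∑ r ∈ R, Real.log r := by
      rw [hn, Nat.cast_prod, Real.log_prod fun r hr => Nat.cast_ne_zero.2 (hprime r hr).ne_zero]
    have h2 : ∑ r ∈ R, Real.log r ≤ Real.log r₀ + ∑ r ∈ R₀, Real.log r := by
      by_cases h : r₀ ∈ R₀
      · rw [hR, Finset.insert_eq_of_mem h]
        linarith [Real.log_natCast_nonneg r₀]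
      · rw [hR, Finset.sum_insert h]
    rw [Real.log_pow] at hr3
    rw [mul_assoc] at hR3
    push_cast at hr3
    have h3 : C₂ * (20 * Real.log K) ≤ C₂ * (20 * G) := by gcongr
    rw [hC₃]
    linarith
  have hGK : G ≤ K ^ 3 := by
    have h1 := Real.log_le_self (show 0 ≤ K by linarith)
    have h2 := (Real.log_le_self hlK).trans h1
    calc G ≤ K * K ^ 2 := by
          rw [hG]
          gcongr
      _ = K ^ 3 := by ring
  have hx1 : 16 * (|H| + 1) * (n : ℝ) ^ 8 ≤ Real.log x := by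
    refine le_trans ?_ hK2
    have h1 : (n : ℝ) ^ 8 = Real.exp ((8 : ℕ) * Real.log n) := by
      rw [Real.exp_nat_mul, Real.exp_log (by linarith)]
    rw [h1, hC, add_mul, Real.exp_add]
    refine mul_le_mul ?_ (Real.exp_le_exp.2 ?_) (Real.exp_pos _).le (Real.exp_pos _).le
    · have h2 : 16 * (|H| + 1) ≤ 16 * (|H| + 1) * G :=
        le_mul_of_one_le_right (by positivity) (by linarith)
      linarith [Real.add_one_le_exp (16 * (|H| + 1) * G)]
    · push_cast
      linarith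
  have hx2 : 2 * n ≤ x := by
    have h1 : (n : ℝ) ≤ (n : ℝ) ^ 8 := le_self_pow₀ hn1.le (by norm_num)
    have h2 := Real.log_le_self (x := x) x.cast_nonneg
    have h3 : (2 * n : ℝ) ≤ x := by nlinarith
    exact_mod_cast h3
  have hRall : ∀ r ∈ R, r.Prime ∧ M < r ∧ r ∉ S := by
    intro r hr
    rcases Finset.mem_insert.1 hr with rfl | h
    · exact hA _ hr1
    rcases (hR1 r h).2 with h1 | ⟨h1, h2⟩
    · exact hA r h1
    · refine ⟨hprime r hr, ?_, fun h3 => h2 ((hmem r).2 ⟨h3, by have := hrn r hr; omega⟩)⟩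
      have : (M : ℝ) < r := by linarith
      exact_mod_cast this
  have hunit : IsUnit ((n : ℕ) : ZMod (8 * M.factorial)) := by
    rw [ZMod.isUnit_iff_coprime, hn]
    refine Nat.Coprime.prod_left fun r hr => ?_
    obtain ⟨h1, h2, -⟩ := hRall r hr
    refine Nat.Coprime.mul_right ?_ (h1.coprime_iff_not_dvd.2 fun h => ?_)
    · exact Nat.Coprime.pow_right 3 ((Nat.coprime_primes h1 Nat.prime_two).2 (by omega))
    · have := h1.dvd_factorial.1 h
      omega
  obtain ⟨un, hun⟩ := hunit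
  have hNn : N ≤ n := by
    have : (N : ℝ) ≤ n := by linarith
    exact_mod_cast this
  have hw1 := hw (-(un⁻¹ : (ZMod (8 * M.factorial))ˣ)) n (Units.isUnit _).neg hNn
  set W := (Finset.range ⌈min ρ 2 * n⌉₊).filter fun l => n < l ∧ l.Prime ∧
    (l : ZMod (8 * M.factorial)) = -(un⁻¹ : (ZMod (8 * M.factorial))ˣ) with hW
  have hW1 : ∀ l ∈ W, l.Prime ∧ n < l ∧ l ≤ 2 * n := by
    intro l hl
    obtain ⟨h1, h2, h3, -⟩ := Finset.mem_filter.1 hl
    have h4 := Nat.lt_ceil.1 (Finset.mem_range.1 h1)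
    have h5 : min ρ 2 * n ≤ 2 * n := mul_le_mul_of_nonneg_right (min_le_right _ _) (by linarith)
    have h6 : (l : ℝ) ≤ 2 * n := by linarith
    exact ⟨h3, h2, by exact_mod_cast h6⟩
  have hcop : ∀ l ∈ W, n.Coprime l := fun l hl =>
    (Nat.coprime_of_lt_prime hn0.ne' (hW1 l hl).2.1 (hW1 l hl).1).symm
  set B' := B.filter fun p : ℕ => K ^ 40 < (p : ℝ) with hB'
  have hR5 : ∀ p ∈ S, ∀ r ∈ R, r.Prime ∧ r ≠ 2 ∧ r ≠ p := fun p hp r hr =>
    ⟨hprime r hr, by have := (hRall r hr).2.1; omega, fun h => (hRall r hr).2.2 (h ▸ hp)⟩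
  have hsub : W ⊆ B ∪ B'.biUnion fun p => (Finset.range D).biUnion fun i =>
      W.filter fun l => Cov p i (n * l) := by
    intro l hl
    obtain ⟨h1, h2, h3⟩ := hW1 l hl
    by_cases hlS : l ∈ S
    · exact Finset.mem_union_left _ ((hmem l).2 ⟨hlS, by omega⟩)
    obtain ⟨h4, -, -, h5⟩ := Finset.mem_filter.1 hl
    have h6 := Nat.lt_ceil.1 (Finset.mem_range.1 h4)
    have h7 : min ρ 2 * n ≤ ρ * n := mul_le_mul_of_nonneg_right (min_le_left _ _) (by linarith)
    have h8 : M < l := by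
      have : (M : ℝ) < n := by linarith
      exact lt_trans (by exact_mod_cast this) h2
    obtain ⟨p, hp, i, hi, hp2, hcv, hlp⟩ := hcov R l (Finset.insert_nonempty _ _) hRall h1 h8 hlS h2
      (h6.trans_le h7) (by
        rw [← ZMod.natCast_eq_zero_iff, ← hn, Nat.cast_add, Nat.cast_mul, h5, ← hun]
        simp)
    have hpx : p ≤ x := by
      have h9 : ((n * l : ℕ) : ℝ) ≤ n * (2 * n) := by exact_mod_cast Nat.mul_le_mul_left n h3
      have h10 : H * ((n * l : ℕ) : ℝ) ^ 4 ≤ (|H| + 1) * (n * (2 * n)) ^ 4 :=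
        mul_le_mul (by linarith [le_abs_self H]) (pow_le_pow_left₀ (by positivity) h9 4)
          (by positivity) (by positivity)
      have h11 : Real.log p ≤ Real.log x := by
        calc Real.log p ≤ (|H| + 1) * (n * (2 * n)) ^ 4 := hlp.trans h10
          _ = 16 * (|H| + 1) * (n : ℝ) ^ 8 := by ring
          _ ≤ _ := hx1
      exact_mod_cast (Real.log_le_log_iff (by exact_mod_cast (hS p hp).pos)
        (by exact_mod_cast (by omega : 0 < x))).1 h11
    have hpB := (hmem p).2 ⟨hp, hpx⟩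
    refine Finset.mem_union_right _ (Finset.mem_biUnion.2 ⟨p, Finset.mem_filter.2 ⟨hpB, ?_⟩,
      Finset.mem_biUnion.2 ⟨i, Finset.mem_range.2 hi, Finset.mem_filter.2 ⟨hl, hcv⟩⟩⟩)
    by_contra hle
    obtain ⟨r, hr, hj⟩ := hR4 p (Finset.mem_filter.2 ⟨hpB, hp2, not_lt.1 hle⟩)
    obtain ⟨col, -, h9, -⟩ := hcol p i R (hR5 p hp)
    have := h9 l (hcop l hl) hcv r (Finset.mem_insert_of_mem hr)
    omega
  have hone : ∀ p ∈ B', ∀ i ∈ Finset.range D,
      ((W.filter fun l => Cov p i (n * l)).card : ℝ) ≤ 2 ^ R.card * (300 * n / K ^ 20) := by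
    intro p hp i _
    obtain ⟨h1, h2⟩ := Finset.mem_filter.1 hp
    obtain ⟨col, h3, -, h4⟩ := hcol p i R (hR5 p ((hmem p).1 h1).1)
    exact one_prime hc W R n p (K ^ 20) _ col (by positivity) hKn.le
      (by rw [← pow_mul]; exact h2.le) hW1 h3
      fun l hl l' hl' => h4 l l' (hcop l hl) (hcop l' hl')
  have hcard : (W.card : ℝ) ≤ K + K * (D * (2 ^ R.card * (300 * n / K ^ 20))) := by
    have h1 := (Finset.card_le_card hsub).trans ((Finset.card_union_le _ _).trans
      (Nat.add_le_add_left (Finset.card_biUnion_le.trans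
        (Finset.sum_le_sum fun p _ => Finset.card_biUnion_le)) _))
    have h2 : (W.card : ℝ) ≤ B.card + ∑ p ∈ B', ∑ i ∈ Finset.range D,
        ((W.filter fun l => Cov p i (n * l)).card : ℝ) := by exact_mod_cast h1
    have h3 := Finset.sum_le_card_nsmul B' _ _ fun p hp =>
      Finset.sum_le_card_nsmul (Finset.range D) _ _ (hone p hp)
    rw [Finset.card_range, nsmul_eq_mul, nsmul_eq_mul] at h3
    have h4 : (B'.card : ℝ) ≤ K := le_trans (by exact_mod_cast Finset.card_filter_le _ _) hBK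
    have h5 := mul_le_mul_of_nonneg_right h4
      (show 0 ≤ (D : ℝ) * (2 ^ R.card * (300 * n / K ^ 20)) by positivity)
    linarith
  have hRc : (R.card : ℝ) ≤ 20 * Real.log K + 1 := by
    have : (R.card : ℝ) ≤ R₀.card + 1 := by exact_mod_cast Finset.card_insert_le _ _
    linarith
  have hC3 : 0 < C₃ := by linarith
  have hfin := numer hK hc0 D.cast_nonneg hC3 hKn.le (Real.log_pos hn1)
    (hlog.trans (by gcongr)) (two_pow_le hK hRc) hw1 hcard
  have h1 : C₃ * (1 + 900 * D) / c < K := by linarith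
  rw [div_lt_iff₀' hc0] at h1
  linarith

end Pool.Agent.MP_c481b3_nt.H28K
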