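import Pool.Agent.MP_c481b3_nt.H28K.CountK

set_option autoImplicit false

namespace Pool.Agent.MP_c481b3_nt.H28K

open Filter Topology

/-- the lower bound for all large `x`, for a general window -/
def CountK3 : Prop :=
  ∀ (S A : Set ℕ) (M D : ℕ) (ρ₁ ρ₂ H : ℝ) (Cov : ℕ → ℕ → ℕ → Prop), (∀ p ∈ S, p.Prime) →
    (∀ r ∈ A, r.Prime ∧ M < r ∧ r ∉ S) → Dense A → 2 ≤ M → 1 ≤ ρ₁ → ρ₁ < ρ₂ →
    (∀ (R : Finset ℕ) (l : ℕ), R.Nonempty → (∀ r ∈ R, r.Prime ∧ M < r ∧ r ∉ S) → l.Prime → M < l →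
      l ∉ S → ρ₁ * (∏ r ∈ R, r : ℕ) < (l : ℝ) → (l : ℝ) < ρ₂ * (∏ r ∈ R, r : ℕ) →
      8 * M.factorial ∣ (∏ r ∈ R, r) * l + 1 → ∃ p ∈ S, ∃ i < D, p ≠ 2 ∧
        Cov p i ((∏ r ∈ R, r) * l) ∧ Real.log p ≤ H * (((∏ r ∈ R, r) * l : ℕ) : ℝ) ^ 4) →
    (∀ (p i : ℕ) (R : Finset ℕ), (∀ r ∈ R, r.Prime ∧ r ≠ 2 ∧ r ≠ p) →
      ∃ col : ℕ → Finset ℕ, (∀ l, col l ⊆ R) ∧
        (∀ l, (∏ r ∈ R, r).Coprime l → Cov p i ((∏ r ∈ R, r) * l) →
          ∀ r ∈ R, jacobiSym (-(p : ℤ)) r = 1) ∧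
        ∀ l l', (∏ r ∈ R, r).Coprime l → (∏ r ∈ R, r).Coprime l' → Cov p i ((∏ r ∈ R, r) * l) →
          Cov p i ((∏ r ∈ R, r) * l') → col l = col l' →
          ∃ a b : ℤ, 4 * (l : ℤ) * l' = a ^ 2 + p * b ^ 2) →
    ∃ c : ℝ, 0 < c ∧ ∀ᶠ x : ℕ in atTop,
      Real.exp (c * Real.log (Real.log x) / Real.log (Real.log (Real.log x)) ^ 2)
        ≤ ({p ∈ S | p ≤ x} : Set ℕ).ncard

open CNT Classical in
theorem countK3_of : Win → Kill → Cover2 → CountK3 := by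
  intro hwin hkill hc S A M D ρ₁ ρ₂ H Cov hS hA hdense hM hρ₁ hρ₂ hcov hcol
  obtain ⟨ρ, hρ, hρ'⟩ : ∃ ρ : ℝ, 1 < ρ ∧ ρ * ρ₁ < ρ₂ :=
    ⟨(1 + ρ₂ / ρ₁) / 2, by linarith [(one_lt_div (by linarith)).2 hρ₂], by
      field_simp
      linarith⟩
  have hE : 0 ≤ ρ / (ρ₂ - ρ * ρ₁) := div_nonneg (by linarith) (by linarith)
  obtain ⟨C₁, hC₁, hk⟩ := hkill A 40
    (fun r hr => ⟨(hA r hr).1, by have := (hA r hr).2.1; omega⟩) hdense
  obtain ⟨C₂, hC₂, hb⟩ := big hdense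
  have hq : 8 * M.factorial ≠ 0 := Nat.mul_ne_zero (by norm_num) M.factorial_ne_zero
  obtain ⟨c, hc0, N, hw⟩ := hwin (8 * M.factorial) (min ρ 2) hq (lt_min hρ one_lt_two)
  set C₃ := C₁ + 20 * C₂ + (ρ₁ + 1) with hC₃
  have hH : 0 ≤ |H| := abs_nonneg H
  set C := 16 * (|H| + 1) + 8 * C₃ with hC
  have hC1 : 1 ≤ C := by linarith
  refine ⟨C⁻¹, by positivity, ?_⟩
  filter_upwards [asym hC1 (C₁ + C₂ + M + N + C₃ * (1 + 900 * D) / c + ρ / (ρ₂ - ρ * ρ₁))] with x hx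
  obtain ⟨hK0, hK1, hK2⟩ := hx _ rfl
  generalize Real.exp (C⁻¹ * Real.log (Real.log x) / Real.log (Real.log (Real.log x)) ^ 2) = K at *
  have hpos : 0 ≤ C₃ * (1 + 900 * D) / c := by positivity
  have hM0 : (0 : ℝ) ≤ M := M.cast_nonneg
  have hN0 : (0 : ℝ) ≤ N := N.cast_nonneg
  have hK : 1 ≤ K := by linarith
  have hKp : K ≤ K ^ 20 := le_self_pow₀ hK (by norm_num)
  set B := (Finset.range (x + 1)).filter (· ∈ S) with hB
  have hmem : ∀ p, p ∈ B ↔ p ∈ S ∧ p ≤ x := fun p => by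
    rw [hB, Finset.mem_filter, Finset.mem_range, Nat.lt_succ_iff, and_comm]
  have hBe : ({p ∈ S | p ≤ x} : Set ℕ) = (B : Set ℕ) := by
    ext p
    rw [Finset.mem_coe, hmem]
    rfl
  rw [hBe, Set.ncard_coe_finset]
  by_contra hlt
  have hBK : (B.card : ℝ) ≤ K := (not_le.1 hlt).le
  obtain ⟨R₀, hR1, hR2, hR3, hR4⟩ := hk K (B.filter fun p => p ≠ 2 ∧ (p : ℝ) ≤ K ^ 40) B
    (by linarith) (le_trans (by exact_mod_cast Finset.card_filter_le _ _) hBK) hBK (by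
      intro p hp
      obtain ⟨h1, h2, h3⟩ := Finset.mem_filter.1 hp
      have h4 := ((hmem p).1 h1).1
      exact ⟨hS p h4, h2, fun h => (hA p h).2.2 h4, h3⟩)
  obtain ⟨r₀, hr1, hr2, hr3⟩ := hb (K ^ 20) (by linarith)
  set R := insert r₀ R₀ with hR
  have hprime : ∀ r ∈ R, r.Prime := fun r hr => by
    rcases Finset.mem_insert.1 hr with rfl | h
    exacts [(hA _ hr1).1, (hR1 r h).1]
  set n := ∏ r ∈ R, r with hn
  have hn0 : 0 < n := Finset.prod_pos fun r hr => (hprime r hr).pos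
  have hrn : ∀ r ∈ R, r ≤ n := fun r hr => Nat.le_of_dvd hn0 (Finset.dvd_prod_of_mem _ hr)
  have hKn : K ^ 20 < n :=
    hr2.trans_le (by exact_mod_cast hrn r₀ (Finset.mem_insert_self _ _))
  have hn1 : (1 : ℝ) < n := by linarith
  have hlK : 0 ≤ Real.log K := Real.log_nonneg hK
  have hlK1 : 1 ≤ Real.log K := hK1.trans (Real.log_le_self hlK)
  set G := Real.log K * Real.log (Real.log K) ^ 2 with hG
  have hG1 : Real.log K ≤ G := le_mul_of_one_le_right hlK (one_le_pow₀ hK1)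
  have hlog0 : Real.log n ≤ (C₁ + 20 * C₂) * G := by
    have h1 : Real.log n = ∑ r ∈ R, Real.log r := by
      rw [hn, Nat.cast_prod, Real.log_prod fun r hr => Nat.cast_ne_zero.2 (hprime r hr).ne_zero]
    have h2 : ∑ r ∈ R, Real.log r ≤ Real.log r₀ + ∑ r ∈ R₀, Real.log r := by
      by_cases h : r₀ ∈ R₀
      · rw [hR, Finset.insert_eq_of_mem h]
        linarith [Real.log_natCast_nonneg r₀]
      · rw [hR, Finset.sum_insert h]
    rw [Real.log_pow] at hr3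
    rw [mul_assoc] at hR3
    push_cast at hr3
    have h3 : C₂ * (20 * Real.log K) ≤ C₂ * (20 * G) := by gcongr
    linarith
  obtain ⟨y, hy⟩ : ∃ y, y = ⌈ρ₁ * n⌉₊ := ⟨_, rfl⟩
  have hy1 : ρ₁ * n ≤ y := hy ▸ Nat.le_ceil _
  have hy2 : (y : ℝ) < ρ₁ * n + 1 := hy ▸ Nat.ceil_lt_add_one (by positivity)
  have hy3 : (n : ℝ) ≤ y := le_trans (by nlinarith) hy1
  have hny : n ≤ y := by exact_mod_cast hy3
  have hy4 : ρ * y ≤ ρ₂ * n := by
    have h1 : ρ / (ρ₂ - ρ * ρ₁) ≤ n := by linarith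
    rw [div_le_iff₀ (by linarith)] at h1
    nlinarith
  have hlog : Real.log y ≤ C₃ * G := by
    have h1 : Real.log y ≤ Real.log ((ρ₁ + 1) * n) := Real.log_le_log (by linarith) (by nlinarith)
    rw [Real.log_mul (by linarith) (by linarith)] at h1
    have h2 := Real.log_le_self (x := ρ₁ + 1) (by linarith)
    have h3 : ρ₁ + 1 ≤ (ρ₁ + 1) * G := le_mul_of_one_le_right (by linarith) (by linarith)
    rw [hC₃]
    linarith
  have hGK : G ≤ K ^ 3 := by
    have h1 := Real.log_le_self (show 0 ≤ K by linarith)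
    have h2 := (Real.log_le_self hlK).trans h1
    calc G ≤ K * K ^ 2 := by
          rw [hG]
          gcongr
      _ = K ^ 3 := by ring
  have hx1 : 16 * (|H| + 1) * (y : ℝ) ^ 8 ≤ Real.log x := by
    refine le_trans ?_ hK2
    have h1 : (y : ℝ) ^ 8 = Real.exp ((8 : ℕ) * Real.log y) := by
      rw [Real.exp_nat_mul, Real.exp_log (by linarith)]
    rw [h1, hC, add_mul, Real.exp_add]
    refine mul_le_mul ?_ (Real.exp_le_exp.2 ?_) (Real.exp_pos _).le (Real.exp_pos _).le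
    · have h2 : 16 * (|H| + 1) ≤ 16 * (|H| + 1) * G :=
        le_mul_of_one_le_right (by positivity) (by linarith)
      linarith [Real.add_one_le_exp (16 * (|H| + 1) * G)]
    · push_cast
      linarith
  have hx2 : 2 * y ≤ x := by
    have h1 : (y : ℝ) ≤ (y : ℝ) ^ 8 := le_self_pow₀ (by linarith) (by norm_num)
    have h2 := Real.log_le_self (x := x) x.cast_nonneg
    have h3 : (2 * y : ℝ) ≤ x := by nlinarith
    exact_mod_cast h3
  have hRall : ∀ r ∈ R, r.Prime ∧ M < r ∧ r ∉ S := by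
    intro r hr
    rcases Finset.mem_insert.1 hr with rfl | h
    · exact hA _ hr1
    rcases (hR1 r h).2 with h1 | ⟨h1, h2⟩
    · exact hA r h1
    · refine ⟨hprime r hr, ?_, fun h3 => h2 ((hmem r).2 ⟨h3, by have := hrn r hr; omega⟩)⟩
      have : (M : ℝ) < r := by linarith
      exact_mod_cast this
  have hunit : IsUnit ((n : ℕ) : ZMod (8 * M.factorial)) := by
    rw [ZMod.isUnit_iff_coprime, hn]
    refine Nat.Coprime.prod_left fun r hr => ?_
    obtain ⟨h1, h2, -⟩ := hRall r hr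
    refine Nat.Coprime.mul_right ?_ (h1.coprime_iff_not_dvd.2 fun h => ?_)
    · exact Nat.Coprime.pow_right 3 ((Nat.coprime_primes h1 Nat.prime_two).2 (by omega))
    · have := h1.dvd_factorial.1 h
      omega
  obtain ⟨un, hun⟩ := hunit
  have hNn : N ≤ y := by
    have : (N : ℝ) ≤ y := by linarith
    exact_mod_cast this
  have hw1 := hw (-(un⁻¹ : (ZMod (8 * M.factorial))ˣ)) y (Units.isUnit _).neg hNn
  set W := (Finset.range ⌈min ρ 2 * y⌉₊).filter fun l => y < l ∧ l.Prime ∧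
    (l : ZMod (8 * M.factorial)) = -(un⁻¹ : (ZMod (8 * M.factorial))ˣ) with hW
  have hW1 : ∀ l ∈ W, l.Prime ∧ y < l ∧ l ≤ 2 * y := by
    intro l hl
    obtain ⟨h1, h2, h3, -⟩ := Finset.mem_filter.1 hl
    have h4 := Nat.lt_ceil.1 (Finset.mem_range.1 h1)
    have h5 : min ρ 2 * y ≤ 2 * y := mul_le_mul_of_nonneg_right (min_le_right _ _) (by linarith)
    have h6 : (l : ℝ) ≤ 2 * y := by linarith
    exact ⟨h3, h2, by exact_mod_cast h6⟩
  have hcop : ∀ l ∈ W, n.Coprime l := fun l hl =>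
    (Nat.coprime_of_lt_prime hn0.ne' (hny.trans_lt (hW1 l hl).2.1) (hW1 l hl).1).symm
  set B' := B.filter fun p : ℕ => K ^ 40 < (p : ℝ) with hB'
  have hR5 : ∀ p ∈ S, ∀ r ∈ R, r.Prime ∧ r ≠ 2 ∧ r ≠ p := fun p hp r hr =>
    ⟨hprime r hr, by have := (hRall r hr).2.1; omega, fun h => (hRall r hr).2.2 (h ▸ hp)⟩
  have hsub : W ⊆ B ∪ B'.biUnion fun p => (Finset.range D).biUnion fun i =>
      W.filter fun l => Cov p i (n * l) := by
    intro l hl
    obtain ⟨h1, h2, h3⟩ := hW1 l hl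
    by_cases hlS : l ∈ S
    · exact Finset.mem_union_left _ ((hmem l).2 ⟨hlS, by omega⟩)
    obtain ⟨h4, -, -, h5⟩ := Finset.mem_filter.1 hl
    have h6 := Nat.lt_ceil.1 (Finset.mem_range.1 h4)
    have h7 : min ρ 2 * y ≤ ρ * y := mul_le_mul_of_nonneg_right (min_le_left _ _) (by linarith)
    have h8 : M < l := by
      have : (M : ℝ) < n := by linarith
      exact lt_trans (by exact_mod_cast this) (hny.trans_lt h2)
    obtain ⟨p, hp, i, hi, hp2, hcv, hlp⟩ := hcov R l (Finset.insert_nonempty _ _) hRall h1 h8 hlS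
      (hy1.trans_lt (by exact_mod_cast h2)) (h6.trans_le (h7.trans hy4)) (by
        rw [← ZMod.natCast_eq_zero_iff, ← hn, Nat.cast_add, Nat.cast_mul, h5, ← hun]
        simp)
    have hpx : p ≤ x := by
      have h9 : ((n * l : ℕ) : ℝ) ≤ y * (2 * y) := by exact_mod_cast Nat.mul_le_mul hny h3
      have h10 : H * ((n * l : ℕ) : ℝ) ^ 4 ≤ (|H| + 1) * (y * (2 * y)) ^ 4 :=
        mul_le_mul (by linarith [le_abs_self H]) (pow_le_pow_left₀ (by positivity) h9 4)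
          (by positivity) (by positivity)
      have h11 : Real.log p ≤ Real.log x := by
        calc Real.log p ≤ (|H| + 1) * (y * (2 * y)) ^ 4 := hlp.trans h10
          _ = 16 * (|H| + 1) * (y : ℝ) ^ 8 := by ring
          _ ≤ _ := hx1
      exact_mod_cast (Real.log_le_log_iff (by exact_mod_cast (hS p hp).pos)
        (by exact_mod_cast (by omega : 0 < x))).1 h11
    have hpB := (hmem p).2 ⟨hp, hpx⟩
    refine Finset.mem_union_right _ (Finset.mem_biUnion.2 ⟨p, Finset.mem_filter.2 ⟨hpB, ?_⟩,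
      Finset.mem_biUnion.2 ⟨i, Finset.mem_range.2 hi, Finset.mem_filter.2 ⟨hl, hcv⟩⟩⟩)
    by_contra hle
    obtain ⟨r, hr, hj⟩ := hR4 p (Finset.mem_filter.2 ⟨hpB, hp2, not_lt.1 hle⟩)
    obtain ⟨col, -, h9, -⟩ := hcol p i R (hR5 p hp)
    have := h9 l (hcop l hl) hcv r (Finset.mem_insert_of_mem hr)
    omega
  have hone : ∀ p ∈ B', ∀ i ∈ Finset.range D,
      ((W.filter fun l => Cov p i (n * l)).card : ℝ) ≤ 2 ^ R.card * (300 * y / K ^ 20) := by
    intro p hp i _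
    obtain ⟨h1, h2⟩ := Finset.mem_filter.1 hp
    obtain ⟨col, h3, -, h4⟩ := hcol p i R (hR5 p ((hmem p).1 h1).1)
    exact one_prime hc W R y p (K ^ 20) _ col (by positivity) (hKn.le.trans hy3)
      (by rw [← pow_mul]; exact h2.le) hW1 h3
      fun l hl l' hl' => h4 l l' (hcop l hl) (hcop l' hl')
  have hcard : (W.card : ℝ) ≤ K + K * (D * (2 ^ R.card * (300 * y / K ^ 20))) := by
    have h1 := (Finset.card_le_card hsub).trans ((Finset.card_union_le _ _).trans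
      (Nat.add_le_add_left (Finset.card_biUnion_le.trans
        (Finset.sum_le_sum fun p _ => Finset.card_biUnion_le)) _))
    have h2 : (W.card : ℝ) ≤ B.card + ∑ p ∈ B', ∑ i ∈ Finset.range D,
        ((W.filter fun l => Cov p i (n * l)).card : ℝ) := by exact_mod_cast h1
    have h3 := Finset.sum_le_card_nsmul B' _ _ fun p hp =>
      Finset.sum_le_card_nsmul (Finset.range D) _ _ (hone p hp)
    rw [Finset.card_range, nsmul_eq_mul, nsmul_eq_mul] at h3
    have h4 : (B'.card : ℝ) ≤ K := le_trans (by exact_mod_cast Finset.card_filter_le _ _) hBK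
    have h5 := mul_le_mul_of_nonneg_right h4
      (show 0 ≤ (D : ℝ) * (2 ^ R.card * (300 * y / K ^ 20)) by positivity)
    linarith
  have hRc : (R.card : ℝ) ≤ 20 * Real.log K + 1 := by
    have : (R.card : ℝ) ≤ R₀.card + 1 := by exact_mod_cast Finset.card_insert_le _ _
    linarith
  have hC3 : 0 < C₃ := by linarith
  have hfin := numer hK hc0 D.cast_nonneg hC3 (hKn.le.trans hy3) (Real.log_pos (by linarith))
    (hlog.trans (by gcongr)) (two_pow_le hK hRc) hw1 hcard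
  have h1 : C₃ * (1 + 900 * D) / c < K := by linarith
  rw [div_lt_iff₀' hc0] at h1
  linarith

end Pool.Agent.MP_c481b3_nt.H28K
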