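import Pool.Agent.MP_c481b3_nt.H28K.SpecG
import Pool.Agent.MP_c481b3_nt.H31.Loc2

set_option autoImplicit false

namespace Pool.Agent.MP_c481b3_nt.H28K

open Pool.Agent.MP_c481b3_nt.H81 Pool.Agent.MP_c481b3_nt.H28 Pool.Agent.MP_c481b3_nt.H31
  Polynomial NumberField

namespace Cov3

variable {R : Type*} [Ring R]

lemma bezout {x y : R} {a r : ℤ} (h : IsCoprime a r) (e : a * x = r * y) : ∃ z, x = r * z := by
  obtain ⟨u, v, huv⟩ := h
  refine ⟨u * y + v * x, ?_⟩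
  have e1 : ((u * a + v * r : ℤ) : R) * x = x := by rw [huv]; simp
  rw [mul_add, ← mul_assoc, ← mul_assoc, ← Int.cast_comm u, ← Int.cast_comm v, mul_assoc (u : R),
    ← e, ← mul_assoc, ← add_mul, ← Int.cast_mul, ← Int.cast_mul, ← Int.cast_add, e1]

lemma prod_div {x : R} (S : Finset ℕ) (hS : ∀ r ∈ S, r.Prime) (h : ∀ r ∈ S, ∃ y, x = (r : ℤ) * y) :
    ∃ y, x = ((∏ r ∈ S, r : ℕ) : ℤ) * y := by
  induction S using Finset.induction_on with
  | empty => exact ⟨x, by simp⟩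
  | insert a s ha ih =>
    obtain ⟨y, hy⟩ := ih (fun r hr => hS r (Finset.mem_insert_of_mem hr))
      fun r hr => h r (Finset.mem_insert_of_mem hr)
    obtain ⟨z, hz⟩ := h a (Finset.mem_insert_self _ _)
    have co : (∏ r ∈ s, r).Coprime a := Nat.Coprime.prod_left fun r hr =>
      (Nat.coprime_primes (hS r (Finset.mem_insert_of_mem hr))
        (hS a (Finset.mem_insert_self _ _))).2 fun e => ha (e ▸ hr)
    obtain ⟨w, rfl⟩ := bezout (Nat.isCoprime_iff_coprime.2 co) (hy.symm.trans hz)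
    exact ⟨w, by rw [hy, Finset.prod_insert ha, ← mul_assoc, ← Int.cast_mul, ← Nat.cast_mul,
      mul_comm a]⟩

lemma shift {π φ ψ : R} {m m' r : ℤ} (e : (π - m) * φ = r * ψ) (d : r ∣ m - m') :
    ∃ ψ', (π - m') * φ = r * ψ' := by
  obtain ⟨c, hc⟩ := d
  refine ⟨ψ + c * φ, ?_⟩
  rw [mul_add, ← e, ← mul_assoc, ← Int.cast_mul, ← hc, ← add_mul, Int.cast_sub, sub_add_sub_cancel]

lemma both {π φ φ' ψ ψ' : R} {m r : ℤ} (a : φ * π = -(π * φ)) (e : (π - m) * φ = r * ψ)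
    (e' : (π - m) * φ' = r * ψ') (co : IsCoprime (2 * m) r) : ∃ z, φ * φ' = r * z := by
  refine bezout (y := -(φ * ψ') - ψ * φ') co ?_
  have c1 : (r : R) * (φ * ψ') = φ * ((π - m) * φ') := by
    rw [e', ← mul_assoc, Int.cast_comm, mul_assoc]
  have c2 : φ * (m * φ') = m * (φ * φ') := by rw [← mul_assoc, ← Int.cast_comm, mul_assoc]
  rw [mul_sub, mul_neg, c1, ← mul_assoc (r : R), ← e, sub_mul, sub_mul, sub_mul, mul_sub, c2,
    ← mul_assoc φ, a, Int.cast_mul, Int.cast_two, two_mul, add_mul]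
  simp only [neg_mul, mul_assoc]
  abel

variable {N : R → ℤ} (h : CompRing R N)
include h

lemma alg {π x : R} (t : pol N π 1 = 0) (c : x * π = π * x) :
    ∃ s u : ℤ, s ^ 2 = 4 * N π * (4 * N x - u ^ 2) := by
  have t1 : pol N ((2 : ℤ) * x - pol N x 1) 1 = 0 := by
    rw [h.pol_sub, h.pol_int, ← mul_one (pol N x 1 : R), h.pol_int, h.pol_self, h.one]; ring
  have n1 : N ((2 : ℤ) * x - pol N x 1) = 4 * N x - pol N x 1 ^ 2 := by
    rw [h.sub, h.int_mul, h.int, h.pol_int, ← mul_one (pol N x 1 : R), h.pol_int']; ring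
  have c1 : π * ((2 : ℤ) * x - pol N x 1) = ((2 : ℤ) * x - pol N x 1) * π := by
    rw [mul_sub, sub_mul, ← Int.cast_comm, mul_assoc, c, ← mul_assoc, ← mul_assoc, Int.cast_comm 2]
  have e := h.anticomm t1 t
  rw [c1, ← two_mul, show (2 : R) = (2 : ℤ) by simp] at e
  have e1 := congrArg N e
  rw [h.neg, h.int, h.int_mul, h.mul, n1] at e1
  exact ⟨_, pol N x 1, by rw [← e1]; ring⟩

lemma rep {π x : R} {p k : ℕ} (pp : p.Prime) (t : pol N π 1 = 0) (nπ : N π = p ^ (2 * k + 1))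
    (c : x * π = π * x) : ∃ a b : ℤ, 4 * N x = a ^ 2 + p * b ^ 2 := by
  obtain ⟨s, u, e⟩ := alg h t c
  rw [nπ] at e
  have q0 : (p : ℤ) ≠ 0 := Int.natCast_ne_zero.2 pp.ne_zero
  obtain ⟨s1, rfl⟩ : 2 * (p : ℤ) ^ k ∣ s := (Int.pow_dvd_pow_iff two_ne_zero).1
    ⟨p * (4 * N x - u ^ 2), by rw [e]; ring⟩
  have e1 : s1 ^ 2 = p * (4 * N x - u ^ 2) :=
    mul_left_cancel₀ (a := (2 * (p : ℤ) ^ k) ^ 2) (by positivity) (by linear_combination e)
  obtain ⟨b, rfl⟩ : (p : ℤ) ∣ s1 :=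
    (Nat.prime_iff_prime_int.1 pp).dvd_of_dvd_pow (n := 2) ⟨_, e1⟩
  exact ⟨u, b, mul_left_cancel₀ q0 (by linear_combination -e1)⟩

omit h in
lemma not_dvd {p k r : ℕ} {m : ℤ} (pp : p.Prime) (hr : r.Prime) (ne : r ≠ p)
    (d : (r : ℤ) ∣ m ^ 2 + p ^ k) : ¬(r : ℤ) ∣ m := fun e => by
  have e1 : (r : ℤ) ∣ (p : ℤ) ^ k := (dvd_add_right (dvd_pow e two_ne_zero)).1 d
  have e2 : r ∣ p ^ k := by exact_mod_cast e1
  exact ne ((Nat.prime_dvd_prime_iff_eq hr pp).1 (hr.dvd_of_dvd_pow e2))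

omit h in
lemma jac {p k r : ℕ} {m : ℤ} (pp : p.Prime) (hr : r.Prime) (ne : r ≠ p)
    (d : (r : ℤ) ∣ m ^ 2 + p ^ (2 * k + 1)) : jacobiSym (-(p : ℤ)) r = 1 := by
  have e1 : jacobiSym (-(p : ℤ) * (p ^ k) ^ 2) r = jacobiSym (m ^ 2) r :=
    jacobiSym.mod_left' (Int.modEq_iff_dvd.2 (by convert d using 1; ring))
  have g1 : m.gcd r = 1 := by
    rw [Int.gcd_comm, ← Int.isCoprime_iff_gcd_eq_one]
    exact (Nat.prime_iff_prime_int.1 hr).irreducible.coprime_iff_not_dvd.2 (not_dvd pp hr ne d)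
  have g2 : ((p : ℤ) ^ k).gcd r = 1 := by
    rw [← Int.isCoprime_iff_gcd_eq_one]
    exact (Nat.isCoprime_iff_coprime.2 ((Nat.coprime_primes pp hr).2 ne.symm)).pow_left
  rwa [jacobiSym.mul_left, jacobiSym.sq_one' g1, jacobiSym.sq_one' g2, mul_one] at e1

lemma core {π : R} {p k : ℕ} (pp : p.Prime) (t : pol N π 1 = 0) (nπ : N π = p ^ (2 * k + 1))
    (S : Finset ℕ) (hS : ∀ r ∈ S, r.Prime ∧ r ≠ 2 ∧ r ≠ p)
    (desc : ∀ r ∈ S, ∀ φ : R, φ * π = -(π * φ) → (r : ℤ) ∣ N φ → (∃ ψ, φ = r * ψ) ∨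
      ∃ (m : ℤ) (ψ : R), (r : ℤ) ∣ m ^ 2 + p ^ (2 * k + 1) ∧ (π - m) * φ = r * ψ)
    (V : ℕ → Prop) (hV : ∀ l, V l → ∃ φ : R, N φ = ((∏ r ∈ S, r) * l : ℕ) ∧ φ * π = -(π * φ)) :
    ∃ col : ℕ → Finset ℕ, (∀ l, col l ⊆ S) ∧
      (∀ l, (∏ r ∈ S, r).Coprime l → V l → ∀ r ∈ S, jacobiSym (-(p : ℤ)) r = 1) ∧
      ∀ l l', (∏ r ∈ S, r).Coprime l → (∏ r ∈ S, r).Coprime l' → V l → V l' → col l = col l' →
        ∃ a b : ℤ, 4 * (l : ℤ) * l' = a ^ 2 + p * b ^ 2 := by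
  classical
  choose! φ f1 f2 using hV
  have key : ∀ l, (∏ r ∈ S, r).Coprime l → V l → ∀ r ∈ S, ∃ (m : ℤ) (ψ : R),
      (r : ℤ) ∣ m ^ 2 + p ^ (2 * k + 1) ∧ (π - m) * φ l = (r : ℤ) * ψ := by
    intro l co v r hr
    have pr := (hS r hr).1
    have d := Finset.dvd_prod_of_mem (fun r : ℕ => r) hr
    rw [Int.cast_natCast]
    refine (desc r hr _ (f2 l v) (by
      rw [f1 l v]; exact Int.natCast_dvd_natCast.2 (d.mul_right l))).resolve_left ?_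
    rintro ⟨ψ, e⟩
    have e1 := f1 l v
    rw [e, h.mul, h.nat, ← Finset.mul_prod_erase S (fun r : ℕ => r) hr, mul_assoc, sq, mul_assoc,
      Nat.cast_mul] at e1
    have e2 : r ∣ (∏ r ∈ S.erase r, r) * l := Int.natCast_dvd_natCast.1
      ⟨_, (mul_left_cancel₀ (Int.natCast_ne_zero.2 pr.ne_zero) e1).symm⟩
    rcases pr.dvd_mul.1 e2 with e3 | e3
    · obtain ⟨s, s1, s2⟩ := (Prime.dvd_finsetProd_iff pr.prime _).1 e3
      obtain ⟨s3, s4⟩ := Finset.mem_erase.1 s1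
      exact s3 ((Nat.prime_dvd_prime_iff_eq pr (hS s s4).1).1 s2).symm
    · exact pr.one_lt.ne' (Nat.eq_one_of_dvd_coprimes co d e3)
  have ex : ∀ r : ℕ, ∃ ρ : ℤ, ∀ m : ℤ, (r : ℤ) ∣ m ^ 2 + p ^ (2 * k + 1) →
      (r : ℤ) ∣ ρ ^ 2 + p ^ (2 * k + 1) := fun r => by
    by_cases e : ∃ m : ℤ, (r : ℤ) ∣ m ^ 2 + p ^ (2 * k + 1)
    · obtain ⟨m, hm⟩ := e
      exact ⟨m, fun _ _ => hm⟩
    · exact ⟨0, fun m hm => (e ⟨m, hm⟩).elim⟩
  choose ρ hρ using ex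
  refine ⟨fun l => S.filter fun r => ∃ ψ, (π - ρ r) * φ l = (r : ℤ) * ψ,
    fun l => Finset.filter_subset _ _, fun l co v r hr => ?_, fun l l' co co' v v' e => ?_⟩
  · obtain ⟨m, -, hm, -⟩ := key l co v r hr
    exact jac pp (hS r hr).1 (hS r hr).2.2 hm
  have alt : ∀ l, (∏ r ∈ S, r).Coprime l → V l → ∀ r ∈ S,
      (¬∃ ψ, (π - ρ r) * φ l = (r : ℤ) * ψ) → ∃ ψ, (π - (-ρ r : ℤ)) * φ l = (r : ℤ) * ψ := by
    intro l co v r hr n
    obtain ⟨m, ψ, hm, e⟩ := key l co v r hr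
    have d : (r : ℤ) ∣ (m - ρ r) * (m - -ρ r) := by
      exact (dvd_sub hm (hρ r m hm)).trans (dvd_of_eq (by ring))
    rcases (Nat.prime_iff_prime_int.1 (hS r hr).1).dvd_or_dvd d with d | d
    · exact (n (shift e d)).elim
    · exact shift e d
  obtain ⟨χ, hχ⟩ := prod_div (x := φ l * φ l') S (fun r hr => (hS r hr).1) fun r hr => by
    obtain ⟨pr, r2, rp⟩ := hS r hr
    obtain ⟨m, -, hm, -⟩ := key l co v r hr
    have pz := Nat.prime_iff_prime_int.1 pr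
    have cp : IsCoprime (2 * ρ r) r := by
      refine (pz.irreducible.coprime_iff_not_dvd.2 fun d => ?_).symm
      rcases pz.dvd_or_dvd d with d | d
      · exact r2 ((Nat.prime_dvd_prime_iff_eq pr Nat.prime_two).1 (by exact_mod_cast d))
      · exact not_dvd pp pr rp (hρ r m hm) d
    have i := Finset.ext_iff.1 e r
    simp only [Finset.mem_filter, hr, true_and] at i
    by_cases a : ∃ ψ, (π - ρ r) * φ l = (r : ℤ) * ψ
    · obtain ⟨ψ', a'⟩ := i.1 a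
      obtain ⟨ψ, a⟩ := a
      exact both (f2 l v) a a' cp
    · obtain ⟨ψ', a'⟩ := alt l' co' v' r hr (mt i.2 a)
      obtain ⟨ψ, a⟩ := alt l co v r hr a
      exact both (f2 l v) a a' (by rw [mul_neg]; exact cp.neg_left)
  have n0 : ((∏ r ∈ S, r : ℕ) : ℤ) ≠ 0 :=
    Int.natCast_ne_zero.2 (Finset.prod_ne_zero_iff.2 fun r hr => (hS r hr).1.ne_zero)
  have c : φ l * φ l' * π = π * (φ l * φ l') := by
    rw [mul_assoc, f2 l' v', mul_neg, ← mul_assoc, f2 l v, neg_mul, neg_neg, mul_assoc]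
  have nχ : N χ = l * l' := by
    have e1 := congrArg N hχ
    rw [h.mul, h.int_mul, f1 l v, f1 l' v', Nat.cast_mul, Nat.cast_mul] at e1
    exact mul_left_cancel₀ (pow_ne_zero 2 n0) (by rw [← e1]; ring)
  rw [hχ, mul_assoc, ← mul_assoc π, ← Int.cast_comm, mul_assoc] at c
  obtain ⟨a, b, e⟩ := rep h pp t nπ (h.cancel (h.int_ne n0) c)
  exact ⟨a, b, by rw [← e, nχ, mul_assoc]⟩

end Cov3

theorem cov3 : Cov3 := by
  classical
  intro K _ _ A B P p S hS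
  by_cases ex : ∃ l, Cv A B P p l
  swap
  · exact ⟨fun _ => ∅, fun _ => Finset.empty_subset _, fun l _ v => (ex ⟨_, v⟩).elim,
      fun l _ _ _ v => (ex ⟨_, v⟩).elim⟩
  obtain ⟨l0, v⟩ := ex
  obtain ⟨O, q, n, c⟩ := exists_loc v.max v.good
  obtain rfl := (Nat.prime_dvd_prime_iff_eq c.prime v.prime).1 (c.nat_mem.1 v.mem)
  have := Fact.mk c.prime
  have := c.char
  obtain ⟨m, ⟨k, rfl⟩, hm⟩ := v.odd
  obtain rfl := Nat.pow_right_injective c.prime.two_le (hm.symm.trans c.norm)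
  have h3 := c.three v.five
  have t := (c.tr v.five).trans v.zero
  refine Cov3.core (compRing h3 c.good) (k := k) c.prime t (NE_frE _ _ _ _ _) S hS
    (fun r hr φ a d => ?_) (fun l => Cv A B P q ((∏ r ∈ S, r) * l)) fun l w => w.anti O q _ c
  obtain ⟨pr, -, rp⟩ := hS r hr
  have e := Loc2.sq_of_tr c.good h3 q _ _ t
  rw [← Nat.cast_pow, Int.cast_natCast] at e
  have r0 := c.nat_ne (m := r) fun e =>
    rp ((Nat.prime_dvd_prime_iff_eq c.prime pr).1 (c.nat_mem.1 e)).symm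
  simpa only [Nat.cast_pow] using descend c.good h3 e (frE_ne c.good h3 q _ _ _) pr r0 a d

end Pool.Agent.MP_c481b3_nt.H28K
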