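import Mathlib

set_option autoImplicit false

namespace Pool.Agent.MP_c481b3_nt.H28K

open Filter Topology NumberField

/-- the prime number theorem for a residue class -/
def PntAP : Prop :=
  ∀ (q : ℕ) (a : ZMod q), q ≠ 0 → IsUnit a → Tendsto (fun x : ℝ =>
    (∑ n ∈ Finset.Icc 1 ⌊x⌋₊, ArithmeticFunction.vonMangoldt.residueClass a n) / x) atTop
      (𝓝 (q.totient : ℝ)⁻¹)

/-- many primes of each residue class in a window -/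
def Win : Prop :=
  ∀ (q : ℕ) (ρ : ℝ), q ≠ 0 → 1 < ρ → ∃ c : ℝ, 0 < c ∧ ∃ N : ℕ, ∀ (a : ZMod q) (y : ℕ), IsUnit a →
    N ≤ y → c * y / Real.log y ≤
      ((Finset.range ⌈ρ * y⌉₊).filter fun l => y < l ∧ l.Prime ∧ (l : ZMod q) = a).card

open Classical in
/-- the greedy choice of a cover -/
def Greedy : Prop :=
  ∀ (T A : Finset ℕ) (w : ℕ → ℝ) (θ : ℝ) (k : ℕ → ℕ → Prop), 0 < θ → (∀ r ∈ A, 0 ≤ w r) →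
    0 < ∑ r ∈ A, w r → (∀ p ∈ T, θ * ∑ r ∈ A, w r ≤ ∑ r ∈ A.filter (k p), w r) →
    ∃ R ⊆ A, (R.card : ℝ) ≤ Real.log T.card / θ + 1 ∧ ∀ p ∈ T, ∃ r ∈ R, k p r

/-- a weight on large primes for which each small prime is often inert -/
def Wt : Prop :=
  ∃ C : ℝ, 1 ≤ C ∧ ∀ (y : ℝ) (B : Finset ℕ), C ≤ y → (B.card : ℝ) ≤ y →
    ∃ (A : Finset ℕ) (w : ℕ → ℝ),
      (∀ r ∈ A, r.Prime ∧ y < r ∧ (r : ℝ) ≤ y ^ C ∧ r ∉ B ∧ 0 ≤ w r) ∧ 0 < ∑ r ∈ A, w r ∧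
      ∀ p : ℕ, p.Prime → p ≠ 2 → (p : ℝ) ≤ y →
        1 / 8 * ∑ r ∈ A, w r ≤ ∑ r ∈ A.filter (fun r => jacobiSym (-(p : ℤ)) r = -1), w r

/-- few primes split at most members of a dense set of small primes -/
def Exc : Prop :=
  ∀ (A E : Finset ℕ) (z y k : ℕ), (∀ r ∈ A, r.Prime ∧ r ≠ 2 ∧ r ≤ z) → A.Nonempty →
    (∀ p ∈ E, p.Prime ∧ p ≠ 2 ∧ p ≤ y ∧ (A.card : ℤ) ≤ 2 * ∑ r ∈ A, jacobiSym (-(p : ℤ)) r) →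
    8 * y ^ 3 ≤ z ^ k → (E.card : ℝ) ≤ 2 * (4 * k * z / A.card) ^ k

/-- the set has many elements at many scales -/
def Dense (A : Set ℕ) : Prop :=
  ∃ C : ℝ, 1 ≤ C ∧ ∀ y : ℝ, C ≤ y → ∃ (z : ℕ) (F : Finset ℕ), y ≤ z ∧ (z : ℝ) ≤ y ^ C ∧
    (∀ r ∈ F, r ∈ A ∧ r ≤ z) ∧ z / (C * Real.log z) ≤ F.card

/-- a small set of primes such that each given prime is inert at one of them -/
def Kill : Prop :=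
  ∀ (A : Set ℕ) (a : ℕ), (∀ r ∈ A, r.Prime ∧ r ≠ 2) → Dense A → ∃ C : ℝ, 1 ≤ C ∧
    ∀ (K : ℝ) (T B : Finset ℕ), C ≤ K → (T.card : ℝ) ≤ K → (B.card : ℝ) ≤ K →
      (∀ p ∈ T, p.Prime ∧ p ≠ 2 ∧ p ∉ A ∧ (p : ℝ) ≤ K ^ a) →
      ∃ R : Finset ℕ, (∀ r ∈ R, r.Prime ∧ (r ∈ A ∨ (K < r ∧ r ∉ B))) ∧
        (R.card : ℝ) ≤ 20 * Real.log K ∧
        ∑ r ∈ R, Real.log r ≤ C * Real.log K * Real.log (Real.log K) ^ 2 ∧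
        ∀ p ∈ T, ∃ r ∈ R, jacobiSym (-(p : ℤ)) r = -1

/-- the primes with a factor of degree one are dense -/
def DensL : Prop :=
  ∀ (L : Type) [Field L] [NumberField L] (M : ℕ),
    Dense {r | r.Prime ∧ M < r ∧ ∃ Q : Ideal (𝓞 L), Q.IsMaximal ∧ Ideal.absNorm Q = r}

/-- the numbers in one colour -/
def Cover2 : Prop :=
  ∀ (p l₀ : ℕ) (T : Finset ℕ), l₀.Prime → 0 < p →
    (∀ l ∈ T, l ≤ 2 * l₀ ∧ ∃ a b : ℤ, 4 * (l₀ : ℤ) * l = a ^ 2 + p * b ^ 2) →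
    (T.card : ℝ) ≤ 100 * (l₀ / √p + 1)

/-- the lower bound for all large `x` -/
def CountK : Prop :=
  ∀ (S A : Set ℕ) (M D : ℕ) (ρ H : ℝ) (Cov : ℕ → ℕ → ℕ → Prop), (∀ p ∈ S, p.Prime) →
    (∀ r ∈ A, r.Prime ∧ M < r ∧ r ∉ S) → Dense A → 2 ≤ M → 1 < ρ →
    (∀ (R : Finset ℕ) (l : ℕ), R.Nonempty → (∀ r ∈ R, r.Prime ∧ M < r ∧ r ∉ S) → l.Prime → M < l →
      l ∉ S → ∏ r ∈ R, r < l → (l : ℝ) < ρ * (∏ r ∈ R, r : ℕ) →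
      8 * M.factorial ∣ (∏ r ∈ R, r) * l + 1 → ∃ p ∈ S, ∃ i < D, p ≠ 2 ∧
        Cov p i ((∏ r ∈ R, r) * l) ∧ Real.log p ≤ H * (((∏ r ∈ R, r) * l : ℕ) : ℝ) ^ 4) →
    (∀ (p i : ℕ) (R : Finset ℕ), (∀ r ∈ R, r.Prime ∧ r ≠ 2 ∧ r ≠ p) →
      ∃ col : ℕ → Finset ℕ, (∀ l, col l ⊆ R) ∧
        (∀ l, (∏ r ∈ R, r).Coprime l → Cov p i ((∏ r ∈ R, r) * l) →
          ∀ r ∈ R, jacobiSym (-(p : ℤ)) r = 1) ∧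
        ∀ l l', (∏ r ∈ R, r).Coprime l → (∏ r ∈ R, r).Coprime l' → Cov p i ((∏ r ∈ R, r) * l) →
          Cov p i ((∏ r ∈ R, r) * l') → col l = col l' →
          ∃ a b : ℤ, 4 * (l : ℤ) * l' = a ^ 2 + p * b ^ 2) →
    ∃ c : ℝ, 0 < c ∧ ∀ᶠ x : ℕ in atTop,
      Real.exp (c * Real.log (Real.log x) / Real.log (Real.log (Real.log x)) ^ 2)
        ≤ ({p ∈ S | p ≤ x} : Set ℕ).ncard

end Pool.Agent.MP_c481b3_nt.H28K
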