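import Pool.Agent.MP_c481b3_nt.H28.DensK
import Pool.Agent.MP_c481b3_nt.H28K.SpecN

set_option autoImplicit false

namespace Pool.Agent.MP_c481b3_nt.H28K

open NumberField Filter Topology Finset

namespace DEN

theorem abel {c : ℝ} (G : Finset ℕ) :
    (∀ r ∈ G, 0 < r ∧ ((G.filter fun s => s ≤ r).card : ℝ) ≤ c * r) →
    ∑ r ∈ G, (r : ℝ)⁻¹ ≤ c * (harmonic G.card : ℚ) := by
  induction G using Finset.induction_on_max with
  | empty => simp
  | insert a s ha ih =>
    intro h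
    have hn : a ∉ s := fun c => lt_irrefl _ (ha a c)
    have h1 := ih fun r hr => ⟨(h r (mem_insert_of_mem hr)).1, le_trans (Nat.cast_le.2
      (card_le_card (filter_subset_filter _ (subset_insert a s)))) (h r (mem_insert_of_mem hr)).2⟩
    obtain ⟨h2, h3⟩ := h a (mem_insert_self a s)
    rw [filter_true_of_mem (fun x hx => by
      rcases mem_insert.1 hx with rfl | hx
      · exact le_rfl
      · exact (ha x hx).le), card_insert_of_notMem hn] at h3
    have h4 : (0 : ℝ) < a := by exact_mod_cast h2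
    have h5 : (a : ℝ)⁻¹ ≤ c * ((s.card + 1 : ℕ) : ℝ)⁻¹ := by
      rw [← div_eq_mul_inv, inv_eq_one_div, div_le_div_iff₀ h4 (by positivity)]
      linarith
    rw [sum_insert hn, card_insert_of_notMem hn, harmonic_succ]
    push_cast at h5 ⊢
    linarith

theorem pw {n : ℕ} (hn : 0 < n) (d : ℝ) :
    (n : ℝ) ^ (-(1 + d)) = (n : ℝ)⁻¹ * Real.exp (-(d * Real.log n)) := by
  have h0 : (0 : ℝ) < n := by exact_mod_cast hn
  rw [neg_add, Real.rpow_add h0, Real.rpow_neg_one, Real.rpow_def_of_pos h0]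
  congr 2
  ring

theorem pt {a b t : ℝ} (ha : 0 ≤ a) (hb : 0 ≤ b) (ht : 0 ≤ t) :
    Real.exp (-(2 * b * t)) - Real.exp (-(a * t)) ≤
      3 * (Real.exp (-(a * t)) - Real.exp (-(2 * a * t))) +
      2 * (Real.exp (-(b * t)) - Real.exp (-(2 * b * t))) +
      if 1 < a * t ∧ 2 * b * t ≤ 1 then 1 else 0 := by
  have e : ∀ c : ℝ, Real.exp (-(2 * c * t)) = Real.exp (-(c * t)) ^ 2 := fun c => by
    rw [sq, ← Real.exp_add]
    congr 1
    ring
  rw [e, e]
  have u0 := Real.exp_pos (-(a * t))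
  have v0 := Real.exp_pos (-(b * t))
  have u1 : Real.exp (-(a * t)) ≤ 1 := Real.exp_le_one_iff.2 (neg_nonpos.2 (mul_nonneg ha ht))
  have v1 : Real.exp (-(b * t)) ≤ 1 := Real.exp_le_one_iff.2 (neg_nonpos.2 (mul_nonneg hb ht))
  have u2 : a * t ≤ 1 → 1 / 3 ≤ Real.exp (-(a * t)) := fun h => by
    refine le_trans ?_ (Real.exp_le_exp.2 (neg_le_neg h))
    rw [Real.exp_neg, one_div]
    exact inv_anti₀ (Real.exp_pos 1) (by linarith [Real.exp_one_lt_d9])
  have v2 : 1 < 2 * b * t → Real.exp (-(b * t)) ≤ 2 / 3 := fun h => by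
    rw [Real.exp_neg, ← inv_div 3 2]
    exact inv_anti₀ (by norm_num) (by linarith [Real.add_one_le_exp (b * t)])
  generalize Real.exp (-(a * t)) = u at *
  generalize Real.exp (-(b * t)) = v at *
  have p1 : 0 ≤ u - u ^ 2 := by nlinarith
  have p2 : 0 ≤ v - v ^ 2 := by nlinarith
  have p3 : v ^ 2 ≤ 1 := by nlinarith
  split_ifs with h
  · linarith
  · rcases not_and_or.1 h with h | h
    · have := u2 (not_lt.1 h)
      nlinarith
    · have := v2 (not_le.1 h)
      nlinarith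

variable (L : Type) [Field L] [NumberField L]

theorem mid : ∃ T δ : ℝ, 1 ≤ T ∧ 0 < δ ∧ ∀ l : ℝ, 0 < l → 2 < δ * l →
    ∃ S : Finset (Ideal (𝓞 L)), (∀ P ∈ S, P.IsMaximal ∧ (Ideal.absNorm P).Prime ∧
      l < Real.log (Ideal.absNorm P) ∧ Real.log (Ideal.absNorm P) ≤ T * l) ∧
      1 ≤ ∑ P ∈ S, (Ideal.absNorm P : ℝ)⁻¹ := by
  classical
  obtain ⟨C1, h1⟩ := H28.densK L
  obtain ⟨C2, h2⟩ := H28.densUp L
  obtain ⟨w, hw, hs⟩ := mem_nhdsGT_iff_exists_Ioo_subset.1 (h1.and h2)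
  have hw' : (1 : ℝ) < w := hw
  set T : ℝ := Real.exp (6 * |C1 + C2| + 6) with hT
  have hT1 : 1 ≤ T := Real.one_le_exp (by positivity)
  refine ⟨T, w - 1, hT1, by linarith, fun l hl hl2 => ?_⟩
  set a : ℝ := 1 / l with ha
  set b : ℝ := a / (2 * T) with hb
  have a0 : 0 < a := by positivity
  have b0 : 0 < b := by positivity
  have al : a * l = 1 := by rw [ha]; field_simp
  have bT : 2 * b * T = a := by rw [hb]; field_simp
  have ba : 2 * b ≤ a := by nlinarith
  have aw : 2 * a < w - 1 := by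
    rw [ha, mul_one_div, div_lt_iff₀ hl]
    exact hl2
  obtain ⟨S1, s1, t1⟩ := (hs (show 1 + 2 * b ∈ Set.Ioo 1 w from ⟨by linarith, by linarith⟩)).1
  obtain ⟨S2, s2, t2⟩ := (hs (show 1 + 2 * a ∈ Set.Ioo 1 w from ⟨by linarith, by linarith⟩)).1
  have s3 : ∀ P ∈ S1 ∪ S2, P.IsMaximal ∧ (Ideal.absNorm P).Prime := fun P hP =>
    (mem_union.1 hP).elim (s1 P) (s2 P)
  have t3 := (hs (show 1 + a ∈ Set.Ioo 1 w from ⟨by linarith, by linarith⟩)).2 (S1 ∪ S2)
    fun P hP => (s3 P hP).1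
  have t4 := (hs (show 1 + b ∈ Set.Ioo 1 w from ⟨by linarith, by linarith⟩)).2 (S1 ∪ S2)
    fun P hP => (s3 P hP).1
  replace t1 := t1.trans (sum_le_sum_of_subset_of_nonneg (subset_union_left (s₂ := S2))
    fun _ _ _ => by positivity)
  replace t2 := t2.trans (sum_le_sum_of_subset_of_nonneg (subset_union_right (s₁ := S1))
    fun _ _ _ => by positivity)
  rw [add_sub_cancel_left] at t1 t2 t3 t4
  refine ⟨(S1 ∪ S2).filter fun P => 1 < a * Real.log (Ideal.absNorm P) ∧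
    2 * b * Real.log (Ideal.absNorm P) ≤ 1, fun P hP => ?_, ?_⟩
  · obtain ⟨h3, h4, h5⟩ := mem_filter.1 hP
    refine ⟨(s3 P h3).1, (s3 P h3).2, ?_, ?_⟩
    · have := mul_lt_mul_of_pos_left h4 hl
      rwa [mul_one, ← mul_assoc, mul_comm l a, al, one_mul] at this
    · have := mul_le_mul_of_nonneg_left h5 (show 0 ≤ T * l by positivity)
      rwa [mul_one, show T * l * (2 * b * Real.log (Ideal.absNorm P)) =
        2 * b * T * l * Real.log (Ideal.absNorm P) by ring, bT, al, one_mul] at this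
  · have key : ∀ P ∈ S1 ∪ S2, (Ideal.absNorm P : ℝ) ^ (-(1 + 2 * b)) -
        (Ideal.absNorm P : ℝ) ^ (-(1 + a)) ≤ 3 * ((Ideal.absNorm P : ℝ) ^ (-(1 + a)) -
        (Ideal.absNorm P : ℝ) ^ (-(1 + 2 * a))) + 2 * ((Ideal.absNorm P : ℝ) ^ (-(1 + b)) -
        (Ideal.absNorm P : ℝ) ^ (-(1 + 2 * b))) + if 1 < a * Real.log (Ideal.absNorm P) ∧
        2 * b * Real.log (Ideal.absNorm P) ≤ 1 then (Ideal.absNorm P : ℝ)⁻¹ else 0 := by
      intro P hP
      have h3 := (s3 P hP).2.pos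
      have h4 := mul_le_mul_of_nonneg_left
        (pt a0.le b0.le (Real.log_natCast_nonneg (Ideal.absNorm P)))
        (show 0 ≤ (Ideal.absNorm P : ℝ)⁻¹ by positivity)
      rw [pw h3, pw h3, pw h3, pw h3]
      split_ifs at h4 ⊢ <;> linarith
    have h3 := sum_le_sum key
    rw [sum_add_distrib, sum_add_distrib, ← mul_sum, ← mul_sum, sum_sub_distrib, sum_sub_distrib,
      sum_sub_distrib, ← sum_filter] at h3
    have e1 : Real.log a = Real.log (2 * b) + (6 * |C1 + C2| + 6) := by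
      rw [← bT, Real.log_mul (by positivity) (by positivity), hT, Real.log_exp]
    have e2 : Real.log (2 * a) = Real.log 2 + Real.log a :=
      Real.log_mul two_ne_zero a0.ne'
    have e3 : Real.log (2 * b) = Real.log 2 + Real.log b :=
      Real.log_mul two_ne_zero b0.ne'
    have e4 := Real.log_two_lt_d9
    have e5 := le_abs_self (C1 + C2)
    linarith

theorem fib (S : Finset (Ideal (𝓞 L))) (hS : ∀ P ∈ S, P.IsMaximal ∧ (Ideal.absNorm P).Prime) :
    ∑ P ∈ S, (Ideal.absNorm P : ℝ)⁻¹ ≤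
      Module.finrank ℤ (𝓞 L) * ∑ r ∈ S.image fun P => Ideal.absNorm P, (r : ℝ)⁻¹ := by
  rw [← sum_fiberwise_of_maps_to (g := fun P => Ideal.absNorm P)
    (fun I hI => mem_image_of_mem _ hI), mul_sum]
  refine sum_le_sum fun r hr => ?_
  obtain ⟨Q, hQ, rfl⟩ := mem_image.1 hr
  rw [sum_congr rfl (g := fun _ => (Ideal.absNorm Q : ℝ)⁻¹)
    (fun J hJ => by rw [(mem_filter.1 hJ).2]), sum_const, nsmul_eq_mul]
  refine mul_le_mul_of_nonneg_right (Nat.cast_le.2 (H28.DensK.card_le L (hS Q hQ).2 _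
    fun P hP => ?_)) (by positivity)
  obtain ⟨hP, e⟩ := mem_filter.1 hP
  exact ⟨(hS P hP).1, e ▸ Ideal.absNorm_mem P, e.ge⟩

end DEN

open DEN in
theorem densL : DensL := by
  classical
  intro L _ _ M
  obtain ⟨T, δ, hT, hδ, h⟩ := mid L
  set d : ℝ := (Module.finrank ℤ (𝓞 L) : ℝ) with hd
  have d0 : 0 ≤ d := Nat.cast_nonneg _
  have E0 := Real.exp_pos (2 / δ + 1)
  have M0 : (0 : ℝ) ≤ M := Nat.cast_nonneg _
  have dT : 0 ≤ d * (T + 1) := by positivity
  set C : ℝ := T + d * (T + 1) + Real.exp (2 / δ + 1) + M with hC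
  have C0 : 0 < C := by linarith
  refine ⟨C, by linarith, fun y hy => ?_⟩
  have y1 : 1 ≤ y := by linarith
  have y0 : 0 < y := by linarith
  have l1 : 2 / δ + 1 ≤ Real.log y := (Real.le_log_iff_exp_le y0).2 (by linarith)
  have l2 : 0 < 2 / δ := by positivity
  obtain ⟨S, hS, h1⟩ := h (Real.log y) (by linarith) (by
    have := (div_lt_iff₀ hδ).1 (show 2 / δ < Real.log y by linarith)
    linarith)
  replace h1 := h1.trans (fib L S fun P hP => ⟨(hS P hP).1, (hS P hP).2.1⟩)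
  set G := S.image fun P => Ideal.absNorm P with hG
  have hG1 : ∀ r ∈ G, r.Prime ∧ y < r ∧ (r : ℝ) ≤ Real.exp (T * Real.log y) ∧
      ∃ Q : Ideal (𝓞 L), Q.IsMaximal ∧ Ideal.absNorm Q = r := fun r hr => by
    obtain ⟨Q, hQ, rfl⟩ := mem_image.1 hr
    obtain ⟨h2, h3, h4, h5⟩ := hS Q hQ
    have h6 : (0 : ℝ) < Ideal.absNorm Q := by exact_mod_cast h3.pos
    exact ⟨h3, (Real.log_lt_log_iff y0 h6).1 h4, (Real.log_le_iff_le_exp h6).1 h5, Q, h2, rfl⟩
  have key : ∃ r ∈ G, 1 / (C * Real.log y) * r < ((G.filter fun s => s ≤ r).card : ℝ) := by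
    by_contra c
    push Not at c
    have h2 := abel G fun r hr => ⟨(hG1 r hr).1.pos, c r hr⟩
    have h3 : (G.card : ℝ) ≤ Real.exp (T * Real.log y) := by
      refine le_trans ?_ (Nat.floor_le (Real.exp_pos _).le)
      have h4 : G ⊆ Icc 1 ⌊Real.exp (T * Real.log y)⌋₊ := fun r hr =>
        mem_Icc.2 ⟨(hG1 r hr).1.pos, Nat.le_floor (hG1 r hr).2.2.1⟩
      have h5 := card_le_card h4
      rw [Nat.card_Icc, Nat.add_sub_cancel] at h5
      exact_mod_cast h5
    have h4 : Real.log G.card ≤ T * Real.log y := by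
      rcases Nat.eq_zero_or_pos G.card with h0 | h0
      · rw [h0, Nat.cast_zero, Real.log_zero]
        exact mul_nonneg (by linarith) (by linarith)
      · exact (Real.log_le_iff_le_exp (by exact_mod_cast h0)).2 h3
    have h5 : ((harmonic G.card : ℚ) : ℝ) ≤ (T + 1) * Real.log y := by
      linarith [harmonic_le_one_add_log G.card]
    have l0 : 0 < Real.log y := by linarith
    have h6 := h2.trans (mul_le_mul_of_nonneg_left h5 (by positivity))
    have e : 1 / (C * Real.log y) * ((T + 1) * Real.log y) = (T + 1) / C := by field_simp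
    rw [e] at h6
    have h7 := h1.trans (mul_le_mul_of_nonneg_left h6 d0)
    rw [← mul_div_assoc, le_div_iff₀ C0] at h7
    linarith
  obtain ⟨r, hr, h2⟩ := key
  obtain ⟨h3, h4, h5, -⟩ := hG1 r hr
  refine ⟨r, G.filter fun s => s ≤ r, h4.le, h5.trans ?_, fun s hs => ?_, le_trans ?_ h2.le⟩
  · rw [Real.rpow_def_of_pos y0, mul_comm]
    exact Real.exp_le_exp.2 (mul_le_mul_of_nonneg_left (by linarith) (by linarith))
  · obtain ⟨h6, h7⟩ := mem_filter.1 hs
    obtain ⟨h8, h9, -, h10⟩ := hG1 s h6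
    exact ⟨⟨h8, by exact_mod_cast (show (M : ℝ) < s by linarith), h10⟩, h7⟩
  · rw [one_div, ← div_eq_inv_mul]
    exact div_le_div_of_nonneg_left (Nat.cast_nonneg _) (mul_pos C0 (by linarith))
      (mul_le_mul_of_nonneg_left (Real.log_le_log y0 h4.le) C0.le)

end Pool.Agent.MP_c481b3_nt.H28K
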