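import Pool.Agent.MP_c481b3_nt.H28K.SpecG

set_option autoImplicit false

namespace Pool.Agent.MP_c481b3_nt.H28K

open Pool.Agent.MP_c481b3_nt.H81 Pool.Agent.MP_c481b3_nt.H28 Polynomial

namespace DSG

lemma rt_img {k : Type*} [Field k] [DecidableEq k] [IsAlgClosed k] {A B e₁ e₂ e₃ : k}
    (hG : Good A B) (h3 : (3 : k) ≠ 0) (h : Rt A B e₁ e₂ e₃) {D : Finset (Pt A B)}
    (hD : IsSub D) (ho : Odd D.card) : Rt (vA D) (vB D) (X1 D e₁) (X1 D e₂) (X1 D e₃) := by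
  have key : ∀ {a b c : k}, Rt A B a b c → (∀ P ∈ D.erase 0, a ≠ xc P) ∧
      X1 D a ^ 3 + vA D * X1 D a + vB D = 0 := by
    intro a b c r
    obtain ⟨a1, a2, a3⟩ := r.two hG
    have := (off1 hD (two_not_mem hD ho a1 a3)).2
    rw [a2] at this
    refine ⟨this, ?_⟩
    rw [← velu_eq hG hD this, ← r.root]; simp
  have key2 : ∀ {a b c a' b' c' : k}, Rt A B a b c → Rt A B a' b' c' → a ≠ a' →
      X1 D a ≠ X1 D a' := by
    intro a b c a' b' c' r r' hne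
    obtain ⟨a1, a2, a3⟩ := r.two hG
    obtain ⟨b1, b2, b3⟩ := r'.two hG
    have := prod_formula hG h3 hD (two_not_mem hD ho b1 b3) (key r).1
    rw [b2] at this
    intro e
    rw [e, sub_self, zero_mul] at this
    obtain ⟨P, hP, e⟩ := Finset.prod_eq_zero_iff.1 this.symm
    exact (two_add_ne hD ho a1 a3 b1 b3 (by rwa [a2, b2]) hP).2 (by rw [a2]; exact sub_eq_zero.1 e)
  obtain ⟨n1, n2, n3⟩ := h.ne hG
  exact rt_of_roots (key h).2 (key h.rot).2 (key h.rot.rot).2 (key2 h h.rot n1)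
    (key2 h h.rot.rot n2) (key2 h.rot h.rot.rot n3)

lemma root_cases {k : Type*} [Field k] {A B e₁ e₂ e₃ x : k} (h : Rt A B e₁ e₂ e₃)
    (hx : (0 : k) ^ 2 = x ^ 3 + A * x + B) : x = e₁ ∨ x = e₂ ∨ x = e₃ := by
  have : (x - e₁) * ((x - e₂) * (x - e₃)) = 0 := by
    rw [h.s2, h.s3] at hx
    linear_combination -hx - x ^ 2 * h.s1
  simpa [sub_eq_zero] using this

lemma fix_prod {k : Type*} [Field k] (σ : k →+* k) (g : k → k) (hg : ∀ x, σ (g x) = g (σ x))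
    {e₁ e₂ e₃ : k} (n1 : e₁ ≠ e₂) (n2 : e₁ ≠ e₃) (n3 : e₂ ≠ e₃)
    (c1 : σ e₁ = e₁ ∨ σ e₁ = e₂ ∨ σ e₁ = e₃) (c2 : σ e₂ = e₁ ∨ σ e₂ = e₂ ∨ σ e₂ = e₃)
    (c3 : σ e₃ = e₁ ∨ σ e₃ = e₂ ∨ σ e₃ = e₃) :
    σ (((e₁ - e₂) * (e₁ - e₃) * (e₂ - e₃)) * ((g e₁ - g e₂) * (g e₁ - g e₃) * (g e₂ - g e₃)))
      = ((e₁ - e₂) * (e₁ - e₃) * (e₂ - e₃)) * ((g e₁ - g e₂) * (g e₁ - g e₃) * (g e₂ - g e₃)) := by
  have m1 : σ e₁ ≠ σ e₂ := fun e => n1 (σ.injective e)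
  have m2 : σ e₁ ≠ σ e₃ := fun e => n2 (σ.injective e)
  have m3 : σ e₂ ≠ σ e₃ := fun e => n3 (σ.injective e)
  simp only [map_mul, map_sub, hg]
  rcases c1 with c1 | c1 | c1 <;> rcases c2 with c2 | c2 | c2 <;> rcases c3 with c3 | c3 | c3 <;>
    rw [c1] at m1 m2 <;> rw [c2] at m1 m3 <;> rw [c3] at m2 m3 <;>
    first
    | exact absurd rfl m1
    | exact absurd rfl m2
    | exact absurd rfl m3
    | (rw [c1, c2, c3]; try ring)

end DSG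

theorem discSign : DiscSign := by
  intro a b a' b' h D hD ho hs ha hb
  obtain ⟨e₁, e₂, e₃, r⟩ := exists_rt (a : ℂ) (b : ℂ)
  have r' := DSG.rt_img h three_ne_zero r hD ho
  have g' := good_velu h three_ne_zero hD ho
  rw [ha, hb] at r' g'
  have e : D.image (cj h) = D :=
    Finset.eq_of_subset_of_card_le (Finset.image_subset_iff.2 hs)
      (Finset.card_image_of_injective _ (Sc.injective _)).ge
  have hg : ∀ x, starRingEnd ℂ (X1 D x) = X1 D (starRingEnd ℂ x) := fun x => by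
    have := (vX_image (starRingEnd ℂ) (Complex.conj_ofReal a) (Complex.conj_ofReal b) h D
      (starRingEnd ℂ x)).1
    change X1 (D.image (cj h)) _ = _ at this
    rw [e] at this
    rw [this, map_vX, RingHom.comp_id]
  have rc : ∀ {x y z : ℂ}, Rt (a : ℂ) (b : ℂ) x y z →
      (0 : ℂ) ^ 2 = starRingEnd ℂ x ^ 3 + a * starRingEnd ℂ x + b := fun q => by
    simpa using congrArg (starRingEnd ℂ) q.root
  obtain ⟨n1, n2, n3⟩ := r.ne h
  obtain ⟨t, ht⟩ := Complex.conj_eq_iff_real.1 (DSG.fix_prod (starRingEnd ℂ) (X1 D) hg n1 n2 n3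
    (DSG.root_cases r (rc r)) (DSG.root_cases r (rc r.rot)) (DSG.root_cases r (rc r.rot.rot)))
  have q : (4 * (a : ℂ) ^ 3 + 27 * b ^ 2) * (4 * (a' : ℂ) ^ 3 + 27 * b' ^ 2) = t ^ 2 := by
    rw [r.disc, r'.disc, ← ht]; ring
  have q0 : (t : ℂ) ^ 2 ≠ 0 := q ▸ mul_ne_zero h.disc g'.disc
  have q1 : (4 * a ^ 3 + 27 * b ^ 2) * (4 * a' ^ 3 + 27 * b' ^ 2) = t ^ 2 := by exact_mod_cast q
  rw [q1]
  exact lt_of_le_of_ne (sq_nonneg t) fun z => q0 (by exact_mod_cast z.symm)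

end Pool.Agent.MP_c481b3_nt.H28K
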