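import Pool.Agent.MP_c481b3_nt.H28K.SpecG
import Pool.Agent.MP_c481b3_nt.H28.Ord
import Pool.Agent.MP_c481b3_nt.H28.WkB

set_option autoImplicit false

namespace Pool.Agent.MP_c481b3_nt.H28K

open Pool.Agent.MP_c481b3_nt.H81 Pool.Agent.MP_c481b3_nt.H28

namespace DJ

variable {k : Type*} [Field k] [DecidableEq k] [IsAlgClosed k] [CharZero k] {A B : k}

/-- without complex multiplication an isogeny of the curve to itself is an integer -/
lemma is_int (H : NoCM A B) (hG : Good A B) {N : ℕ} {f : Pt A B →+ Pt A B} (a : Is N f) :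
    ∃ n : ℤ, n ^ 2 = N ∧ ∀ P, f P = n • P := by
  classical
  obtain ⟨φ, f1, f2, f3⟩ := a.toE three_ne_zero hG
  have φ0 : φ ≠ 0 := fun h => f3 (by rw [h, map_zero])
  obtain ⟨n, hn⟩ := H.eq hG (hOf_spec φ).1 (hOf_ne φ0)
  have h1 : hOf (n : EE hG) = n • g1 A B := by
    have := map_zsmul (AddMonoidHom.mk' (hOf (hG := hG)) hOf_add) n 1
    rwa [zsmul_one, AddMonoidHom.mk'_apply, hOf_one] at this
  have h2 : φ = n := by
    by_contra h
    exact hOf_ne (sub_ne_zero.2 h) (by rw [hOf_sub, hn, h1, sub_self])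
  refine ⟨n, ?_, fun P => by rw [← f1, h2, EE_int]⟩
  rw [← f2, NE, hn, dg_zsmul hG]

end DJ

theorem distinctJ : DistinctJ := by
  intro L _ _ _ _ A B m hG H hm
  have h3 : (3 : L) ≠ 0 := three_ne_zero
  have t : Tm A B m := ⟨hG, h3, Nat.cast_ne_zero.2 hm.pos.ne'⟩
  refine ⟨fun D hD E hE e => ?_, fun hs D hD e => ?_⟩
  · obtain ⟨d1, d2⟩ := t.mem_subs.1 hD
    obtain ⟨e1, e2⟩ := t.mem_subs.1 hE
    have dD := vd_one hG h3 d1 (d2 ▸ hm)
    have dE := vd_one hG h3 e1 (e2 ▸ hm)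
    obtain ⟨f, hf⟩ := is_iso h3 dE.good' dD.good' (jj_eq h3 dE.good' dD.good' e.symm)
    have i1 : Is m (dD.hom h3) := d2 ▸ dD.is h3
    have i2 : Is m (dE.hom h3) := e2 ▸ dE.is h3
    obtain ⟨g, ig, g1, -⟩ := i1.dual h3 t.ne
    obtain ⟨n, n1, n2⟩ := DJ.is_int H hG ((i2.comp h3 hf).comp h3 ig)
    refine (Finset.eq_of_subset_of_card_le (fun P hP => ?_) (d2.trans e2.symm).le).symm
    obtain ⟨Q, rfl⟩ := t.nsmul_surj P
    have p0 : m • f (dE.hom h3 Q) = 0 := by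
      rw [← map_nsmul, ← map_nsmul, (dE.hom_eq_zero h3).2 hP, map_zero]
    have q : g (f (dE.hom h3 Q)) = n • Q := n2 Q
    rw [← dD.hom_eq_zero h3, map_nsmul]
    have n3 : n ^ 2 = (m : ℤ) ^ 2 := by
      rw [n1]
      push_cast
      ring
    rcases sq_eq_sq_iff_eq_or_eq_neg.1 n3 with h | h
    · have := ig.ker (P := f (dE.hom h3 Q) - dD.hom h3 Q)
        (by rw [map_sub, q, g1, h, natCast_zsmul, sub_self])
      rwa [nsmul_sub, p0, zero_sub, neg_eq_zero] at this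
    · have := ig.ker (P := f (dE.hom h3 Q) + dD.hom h3 Q)
        (by rw [map_add, q, g1, h, neg_zsmul, natCast_zsmul, neg_add_cancel])
      rwa [nsmul_add, p0, zero_add] at this
  · obtain ⟨d1, d2⟩ := t.mem_subs.1 hD
    have hV := good_velu hG h3 d1 (d2 ▸ hm)
    refine H.dl_ne hG d1 (d2 ▸ hs) (fun h => ?_) (sub_eq_zero.2 (jj_eq h3 hV hG e))
    have := hV.disc
    simp [h.1, h.2] at this

end Pool.Agent.MP_c481b3_nt.H28K
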