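import Pool.Agent.MP_c481b3_nt.H28K.SpecG
import Pool.Agent.MP_c481b3_nt.H31.Elk

set_option autoImplicit false

namespace Pool.Agent.MP_c481b3_nt.H28K

open Pool.Agent.MP_c481b3_nt.H81 Pool.Agent.MP_c481b3_nt.H28 Pool.Agent.MP_c481b3_nt.H31
  Polynomial NumberField

namespace Elq

lemma not_dvd {Q : Finset ℕ} (h : ∀ r ∈ Q, r.Prime) {l : ℕ} (hl : l.Prime) (hQ : l ∉ Q) :
    ¬l ∣ ∏ r ∈ Q, r := fun e => by
  obtain ⟨r, hr, e⟩ := (hl.prime.dvd_finsetProd_iff _).1 e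
  exact hQ ((Nat.prime_dvd_prime_iff_eq hl (h r hr)).1 e ▸ hr)

lemma odd {Q : Finset ℕ} (h : ∀ r ∈ Q, r.Prime ∧ 2 < r) : Odd (∏ r ∈ Q, r) :=
  Nat.coprime_two_left.1 ((Nat.Prime.coprime_iff_not_dvd Nat.prime_two).2
    (not_dvd (fun r hr => (h r hr).1) Nat.prime_two fun e => (h 2 e).2.false))

lemma not_sq {l m : ℕ} (hl : l.Prime) (h : ¬l ∣ m) : ¬IsSquare (l * m) := by
  rintro ⟨c, e⟩
  obtain ⟨d, rfl⟩ : l ∣ c := (hl.dvd_mul.1 ⟨m, e.symm⟩).elim id id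
  exact h ⟨d * d, Nat.eq_of_mul_eq_mul_left hl.pos (by rw [e]; ring)⟩

lemma not_sq_prod {Q : Finset ℕ} (h : ∀ r ∈ Q, r.Prime) (h0 : Q.Nonempty) :
    ¬IsSquare (∏ r ∈ Q, r) := by
  obtain ⟨r, hr⟩ := h0
  rw [← Finset.mul_prod_erase _ _ hr]
  exact not_sq (h r hr) (not_dvd (fun q hq => h q (Finset.mem_of_mem_erase hq)) (h r hr)
    (Finset.notMem_erase _ _))

lemma exists_sqfree2 (f : ℤ[X]) (hf : f ≠ 0) : ∃ F G : ℤ[X], f = G ^ 2 * F ∧
    (∀ m : ℚ[X], 0 < m.natDegree → ¬m ^ 2 ∣ F.map (algebraMap ℤ ℚ)) ∧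
    ∀ l : ℕ, l.Prime → ¬C (l : ℤ) ^ 2 ∣ F := by
  classical
  have ex : ∃ k, ∃ F G : ℤ[X], f = G ^ 2 * F ∧
      (∀ m : ℚ[X], 0 < m.natDegree → ¬m ^ 2 ∣ F.map (algebraMap ℤ ℚ)) ∧
      F.leadingCoeff.natAbs = k := by
    obtain ⟨F, G, e, s⟩ := exists_sqfree f hf
    exact ⟨_, F, G, e, s, rfl⟩
  obtain ⟨F, G, e, s, k⟩ := Nat.find_spec ex
  refine ⟨F, G, e, s, fun l hl ⟨F', e'⟩ => ?_⟩
  refine Nat.find_min ex ?_ ⟨F', G * C (l : ℤ), by rw [e, e']; ring, fun m m0 hm => s m m0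
    (by rw [e', Polynomial.map_mul]; exact hm.mul_left _), rfl⟩
  have f0 : F'.leadingCoeff.natAbs ≠ 0 := fun z => hf (by
    rw [e, e', leadingCoeff_eq_zero.1 (Int.natAbs_eq_zero.1 z), mul_zero, mul_zero])
  rw [← k, e', leadingCoeff_mul, leadingCoeff_pow, leadingCoeff_C, Int.natAbs_mul, Int.natAbs_pow,
    Int.natAbs_natCast]
  exact lt_mul_of_one_lt_left (Nat.pos_of_ne_zero f0) (one_lt_pow₀ hl.one_lt two_ne_zero)

lemma strip {l : ℕ} (hl : l.Prime) {F Ψ₁ : ℤ[X]} (h : ¬C (l : ℤ) ^ 2 ∣ F) (a : ℕ) :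
    ∀ G : ℤ[X], G ^ 2 * F = C ((l : ℤ) ^ (2 * a)) * Ψ₁ → ∃ G' : ℤ[X], G' ^ 2 * F = Ψ₁ := by
  have hp : Prime (C (l : ℤ)) := prime_C_iff.2 (Nat.prime_iff_prime_int.1 hl)
  induction a with
  | zero => exact fun G e => ⟨G, by simpa using e⟩
  | succ a ih =>
    intro G e
    rw [mul_add, pow_add, C_mul, mul_one, map_pow C _ 2] at e
    by_cases hG : C (l : ℤ) ∣ G
    · obtain ⟨G₁, rfl⟩ := hG
      exact ih G₁ (mul_left_cancel₀ (pow_ne_zero 2 hp.ne_zero) (by linear_combination e))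
    · exact absurd (hp.pow_dvd_of_dvd_mul_left 2 (fun d => hG (hp.dvd_of_dvd_pow (n := 2) d))
        ⟨C ((l : ℤ) ^ (2 * a)) * Ψ₁, by linear_combination e⟩) h

end Elq

theorem elk2_of (hSy : SymJ) (hKr : Kron2) (hArch : Arch2) (hGO : GlobalOdd2) (hAt : AtL2)
    (hOC : OddCov2) : Elk2 := by
  classical
  intro K _ _ A B hK hΔ H
  have gd : Good (iK A) (iK B) := good_of_ne (by
    rw [show Wc (iK A) (iK B) = (Wc A B).map iK by ext <;> simp [Wc], WeierstrassCurve.map_Δ]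
    exact (map_ne_zero_iff _ iK_inj).2 hΔ)
  obtain ⟨a0, b0⟩ := H.ne gd
  have A0 : A ≠ 0 := fun e => a0 (by rw [e, map_zero])
  have B0 : B ≠ 0 := fun e => b0 (by rw [e, map_zero])
  have tne : ∀ (τ : K →+* ℝ) {r : 𝓞 K}, r ≠ 0 → τ r ≠ 0 := fun τ _ h =>
    (_root_.map_ne_zero τ).2 (RingOfIntegers.coe_ne_zero_iff.2 h)
  choose ρτ Mτ r1 hτ using fun τ : K →+* ℝ => hArch (τ (A ^ 3 : 𝓞 K) / τ (B ^ 2 : 𝓞 K))
    (div_ne_zero (tne τ (pow_ne_zero 3 A0)) (tne τ (pow_ne_zero 2 B0))) (by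
      have h1 := tne τ (r := 4 * A ^ 3 + 27 * B ^ 2) fun e => gd.disc (by
        simpa [map_ofNat] using congrArg iK e)
      have h2 := tne τ (pow_ne_zero 2 B0)
      intro e
      apply h1
      field_simp at e
      simpa [map_ofNat, add_comm, mul_comm] using e)
  obtain ⟨ρ, ρ1, ρ2⟩ := Finset.exists_min_image (insert 2 (Finset.univ.image ρτ)) id
    (Finset.insert_nonempty _ _)
  obtain ⟨M, M2, M4, M3⟩ : ∃ M, 5 ≤ M ∧ (∀ τ, Mτ τ ≤ M) ∧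
      ∀ (P : Ideal (𝓞 K)) (q : ℕ), P.IsMaximal → q.Prime → (q : 𝓞 K) ∈ P → M < q →
        A ∉ P ∧ B ∉ P ∧ (Wc A B).Δ ∉ P := by
    refine ⟨Finset.univ.sup Mτ + Ideal.absNorm (Ideal.span {A * B * (Wc A B).Δ}) + 5,
      by omega, fun τ => ?_, fun P q h1 h2 h3 h4 => ?_⟩
    · have := Finset.le_sup (f := Mτ) (Finset.mem_univ τ)
      omega
    have h5 : A * B * (Wc A B).Δ ∉ P := fun h => by
      have := le_norm h1 h2 h3 (Ideal.span_singleton_eq_bot.not.2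
        (mul_ne_zero (mul_ne_zero A0 B0) hΔ)) ((Ideal.span_singleton_le_iff_mem P).2 h)
      omega
    exact ⟨fun h => h5 (P.mul_mem_right _ (P.mul_mem_right _ h)),
      fun h => h5 (P.mul_mem_right _ (P.mul_mem_left _ h)), fun h => h5 (P.mul_mem_left _ h)⟩
  refine ⟨M, ρ, by omega, ?_, fun R l R0 hR hl lM lS l1 l2 hq => ?_⟩
  · rcases Finset.mem_insert.1 ρ1 with rfl | h
    · exact one_lt_two
    · obtain ⟨τ, -, rfl⟩ := Finset.mem_image.1 h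
      exact r1 τ
  have lR : l ∉ R := fun h => (Nat.le_of_dvd (Finset.prod_pos fun r hr => (hR r hr).1.pos)
    (Finset.dvd_prod_of_mem _ h)).not_gt l1
  have hQ : ∀ r ∈ insert l R, r.Prime ∧ M < r ∧ ¬SSp A B r := fun r hr =>
    (Finset.mem_insert.1 hr).elim (fun e => e ▸ ⟨hl, lM, lS⟩) (hR r)
  have eQ : (∏ r ∈ R, r) * l = ∏ r ∈ insert l R, r := by rw [Finset.prod_insert lR, mul_comm]
  have arch := fun τ Ψ => hτ τ R l Ψ (fun r hr => ⟨(hR r hr).1, (M4 τ).trans_lt (hR r hr).2.1⟩) hl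
    ((M4 τ).trans_lt lM) l1 (l2.trans_le (mul_le_mul_of_nonneg_right
      (ρ2 _ (Finset.mem_insert_of_mem (Finset.mem_image_of_mem _ (Finset.mem_univ τ))))
      (Nat.cast_nonneg _)))
  have c2 : 1 < (insert l R).card := by
    rw [Finset.card_insert_of_notMem lR]
    exact Nat.lt_add_of_pos_left R0.card_pos
  rw [eQ] at hq arch ⊢
  generalize insert l R = Q at hQ hq arch c2
  have mQ : ∀ r : ℕ, r.Prime → r ∣ ∏ r ∈ Q, r → r ∈ Q := fun r h1 h2 =>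
    by_contra fun h => Elq.not_dvd (fun r hr => (hQ r hr).1) h1 h h2
  have fac : ∀ r ∈ Q, ∃ m, ∏ r ∈ Q, r = r * m ∧ ¬r ∣ m ∧ Odd m ∧ ¬IsSquare m := fun r hr => by
    have h1 := fun q (hq : q ∈ Q.erase r) => hQ q (Finset.mem_of_mem_erase hq)
    refine ⟨_, (Finset.mul_prod_erase _ _ hr).symm, Elq.not_dvd (fun q hq => (h1 q hq).1) (hQ r hr).1
      (Finset.notMem_erase _ _), Elq.odd fun q hq => ⟨(h1 q hq).1, by have := (h1 q hq).2.1; omega⟩,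
      Elq.not_sq_prod (fun q hq => (h1 q hq).1) (Finset.card_pos.1 ?_)⟩
    rw [Finset.card_erase_of_mem hr]
    omega
  have no : Odd (∏ r ∈ Q, r) := Elq.odd fun q hq => ⟨(hQ q hq).1, by have := (hQ q hq).2.1; omega⟩
  have ns : ¬IsSquare (∏ r ∈ Q, r) :=
    Elq.not_sq_prod (fun q hq => (hQ q hq).1) (Finset.card_pos.1 (by omega))
  generalize ∏ r ∈ Q, r = n at *
  have t : Tm (iK A) (iK B) n := tm_char gd no.pos.ne'
  have dn : ∀ D ∈ subs (iK A) (iK B) n, dl D ≠ 0 := fun D hD => by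
    obtain ⟨c1, c2⟩ := t.mem_subs.1 hD
    refine H.dl_ne gd c1 (c2 ▸ ns) fun h => ?_
    have := (good_velu gd three_ne_zero c1 (c2 ▸ no)).disc
    simp [h.1, h.2] at this
  obtain ⟨-, Ψ, hΨ⟩ := univ n no.pos.ne'
  have e7 := hΨ.az gd a0 b0
  have Ψ0 : Ψ ≠ 0 := by
    rintro rfl
    rw [map_zero] at e7
    exact Finset.prod_ne_zero_iff.2 (fun D hD => mul_ne_zero (mul_ne_zero (pow_ne_zero _ t.ne)
      (dn D hD)) (pow_ne_zero _ (div_ne_zero a0 b0))) e7.symm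
  obtain ⟨F, G, e5, sq, sq'⟩ := Elq.exists_sqfree2 Ψ Ψ0
  have G0 : G ≠ 0 := by rintro rfl; simp [e5] at Ψ0
  have loc : ∀ r ∈ Q, F.map (Int.castRingHom (ZMod r)) ≠ 0 ∧
      ∃ R Z : ℤ[X], F = R ^ 2 + C (r : ℤ) * Z := fun r hr => by
    obtain ⟨m, rfl, m1, m2, m3⟩ := fac r hr
    obtain ⟨a, Ψ₁, S, k1, k2, k3⟩ := hKr r m Ψ (hQ r hr).1 (by have := (hQ r hr).2.1; omega) m1 m2
      (hSy _ _ _ gd H m m2 m3) hΨ
    obtain ⟨G', rfl⟩ := Elq.strip (hQ r hr).1 (sq' r (hQ r hr).1) a G (e5.symm.trans k1)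
    have := Fact.mk (hQ r hr).1
    exact ⟨fun e => pow_ne_zero 2 k2 (by rw [← k3, Polynomial.map_mul, e, mul_zero]),
      square_mod (hQ r hr).1 k2 k3⟩
  choose! F0 Rr Zr e6 using loc
  obtain ⟨D, D1, D2, D4⟩ : ∃ D, F.natDegree ≤ 2 * D ∧
      (∀ r ∈ Q, (Rr r).natDegree ≤ D ∧ (Zr r).natDegree ≤ 2 * D) ∧ G.natDegree ≤ D := by
    refine ⟨F.natDegree + G.natDegree + Q.sup fun r => (Rr r).natDegree + (Zr r).natDegree,
      by omega, fun r hr => ?_, by omega⟩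
    have := Finset.le_sup (f := fun r => (Rr r).natDegree + (Zr r).natDegree) hr
    beta_reduce at this
    omega
  have b2 := pow_ne_zero 2 B0
  obtain ⟨x, hx, tx⟩ := Elkies.homog2 (A ^ 3) (B ^ 2) b2 F D1
  obtain ⟨g, hg, tg⟩ := Elkies.homog2 (A ^ 3) (B ^ 2) b2 G D4
  rw [map_pow iK A, map_pow iK B] at hx hg
  rw [e5, map_mul, map_pow] at e7
  simp only [Finset.prod_mul_distrib, Finset.prod_const] at e7
  set N := (subs (iK A) (iK B) n).card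
  have eq : iK (B ^ (12 * N) * x * g ^ 2)
      = iK ((B ^ 2) ^ (4 * D) * ((n : 𝓞 K) ^ 6 * A ^ 12) ^ N)
        * ∏ D ∈ subs (iK A) (iK B) n, dl D := by
    simp only [map_mul, map_pow, map_natCast, hx, hg]
    rw [div_pow, div_pow, ← mul_div_assoc, eq_div_iff (by positivity)] at e7
    linear_combination ((iK B ^ 2) ^ (4 * D)) * e7
  have l0 : (n : 𝓞 K) ≠ 0 := Nat.cast_ne_zero.2 no.pos.ne'
  have n0 : B ^ (12 * N) * x * g ^ 2 ≠ 0 := fun e => mul_ne_zero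
    ((map_ne_zero_iff _ iK_inj).2 (mul_ne_zero (pow_ne_zero _ b2)
      (pow_ne_zero _ (mul_ne_zero (pow_ne_zero _ l0) (pow_ne_zero _ A0)))))
    (Finset.prod_ne_zero_iff.2 dn) (by rw [← eq, e, map_zero])
  have g0 : g ≠ 0 := by rintro rfl; simp at n0
  have x0 : x ≠ 0 := by rintro rfl; simp at n0
  obtain ⟨P, p1, p3, p4, p5⟩ := hGO K n hK (by
      obtain ⟨c, hc⟩ := (Dvd.intro _ rfl).trans hq
      omega) x (fun r h1 h2 => by
      have hr := mQ r h1 h2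
      obtain ⟨y, hy, -⟩ := Elkies.homog2 (A ^ 3) (B ^ 2) b2 (Rr r) (D2 r hr).1
      obtain ⟨z, hz, -⟩ := Elkies.homog2 (A ^ 3) (B ^ 2) b2 (Zr r) (D2 r hr).2
      rw [map_pow iK A, map_pow iK B] at hy hz
      refine ⟨y, z, iK_inj ?_⟩
      rw [map_add, map_mul, map_pow, hx, hy, hz, e6 r hr, map_add, map_mul, map_pow, eq_intCast,
        map_intCast, map_natCast, Int.cast_natCast]
      ring) (fun τ => by
      have h1 := arch τ Ψ hΨ
      have h2 := tne τ x0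
      have h3 := tne τ g0
      rw [← az_eq, e5, map_mul, map_pow] at h1
      rw [tg] at h3
      refine lt_of_le_of_ne ?_ h2
      rw [tx, pow_mul']
      refine mul_nonpos_of_nonneg_of_nonpos (sq_nonneg _) (not_lt.1 fun h5 => ?_)
      have h6 := right_ne_zero_of_mul h3
      exact absurd h1 (not_le.2 (by positivity)))
    fun r P h1 h2 h3 h4 h5 => by
      have hr := mQ r h1 h2
      obtain ⟨k1, k2, k3⟩ := M3 P r h3 h1 h4 (hQ r hr).2.1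
      obtain ⟨m, rfl, m1, m2, -⟩ := fac r hr
      exact (hQ r hr).2.2 ⟨h1, P, h3, h4, k3, hAt K A B x P r m (2 * (2 * D)) Ψ F G 1 h3 h1
        (by have := (hQ r hr).2.1; omega) h4 m1 m2 k1 k2 k3 hΨ one_ne_zero
        (by rw [C_1, one_mul, e5]) G0 (F0 r hr) sq (by rw [hx, ← pow_mul]) h5⟩
  obtain ⟨q, f, q1, q2, q3⟩ := exists_char p1
  have p4' := p4
  rw [q3] at p3 p4'
  obtain ⟨j1, j2⟩ := jacobi_pow p4'
  have h1 : M < q := lt_of_not_ge fun h1 => by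
    have h2 : (q : ℤ) ∣ n + 1 := by
      exact_mod_cast ((q1.dvd_factorial.2 h1).mul_left 8).trans hq
    have h3 : -(n : ℤ) ≡ 1 [ZMOD q] := Int.modEq_iff_dvd.2 (by rwa [sub_neg_eq_add, add_comm])
    rw [jacobiSym.mod_left' h3, jacobiSym.one_left] at j2
    omega
  obtain ⟨k1, k2, k3⟩ := M3 P q p1 q1 q2 h1
  have h5 : (n : 𝓞 K) ∉ P := fun h => by
    rw [jacobiSym.mod_left, Int.emod_eq_zero_of_dvd (dvd_neg.2 (Int.natCast_dvd_natCast.2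
      (dvd_of_mem p1 q1 q2 h))), jacobiSym.zero_left q1.one_lt] at j2
    omega
  have := p1.isPrime
  exact ⟨P, q, hOC K A B P q n _ _ x g H p1 q1 (by omega) q2 k1 k2 k3 no ns p4
    (P.primeCompl.pow_mem k2 _)
    (P.primeCompl.mul_mem (P.primeCompl.pow_mem (P.primeCompl.pow_mem k2 _) _)
      (P.primeCompl.pow_mem (P.primeCompl.mul_mem (P.primeCompl.pow_mem h5 _)
        (P.primeCompl.pow_mem k1 _)) _)) g0 eq p5⟩

end Pool.Agent.MP_c481b3_nt.H28K
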