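import Pool.Agent.MP_c481b3_nt.H28K.GO2

set_option autoImplicit false

namespace Pool.Agent.MP_c481b3_nt.H28K

open Pool.Agent.MP_c481b3_nt.H28 Pool.Agent.MP_c481b3_nt.H31 NumberField

/-- the norm of an integer that is negative at exactly one real place is not positive -/
theorem GO.norm_one (K : Type) [Field K] [NumberField K] (x : 𝓞 K) (τ₀ : K →+* ℝ)
    (hneg : τ₀ x < 0) (hpos : ∀ τ : K →+* ℝ, τ ≠ τ₀ → 0 < τ x) : Algebra.norm ℤ x ≤ 0 := by
  classical
  have hxK : (x : K) ≠ 0 := fun h => by rw [h, map_zero] at hneg; exact hneg.false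
  have h1 := Algebra.norm_eq_prod_embeddings ℚ ℂ (x : K)
  have h2 : (∏ σ : K →ₐ[ℚ] ℂ, σ (x : K)) = ∏ φ : K →+* ℂ, φ (x : K) :=
    (Fintype.prod_equiv (RingHom.equivRatAlgHom K ℂ) (fun φ : K →+* ℂ => φ (x : K))
      (fun σ : K →ₐ[ℚ] ℂ => σ (x : K)) (fun φ => rfl)).symm
  have hne : ∀ φ : K →+* ℂ, φ (x : K) ≠ 0 := fun φ => (map_ne_zero φ).2 hxK
  have h0 : ∀ φ : K →+* ℂ, ((‖φ (x : K)‖ : ℝ) : ℂ) ≠ 0 := fun φ => by
    exact_mod_cast norm_ne_zero_iff.2 (hne φ)
  set φ₀ : K →+* ℂ := Complex.ofRealHom.comp τ₀ with e0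
  have c0 : ComplexEmbedding.conjugate φ₀ = φ₀ := RingHom.ext fun y => by
    rw [ComplexEmbedding.conjugate_coe_eq]; simp [e0]
  have h3 : (∏ φ ∈ Finset.univ.erase φ₀, (φ (x : K) / ((‖φ (x : K)‖ : ℝ) : ℂ))) = 1 := by
    have hreal : ∀ φ : K →+* ℂ, φ ≠ φ₀ → ComplexEmbedding.IsReal φ →
        φ (x : K) / ((‖φ (x : K)‖ : ℝ) : ℂ) = 1 := fun φ n0 hφ => by
      rw [div_eq_one_iff_eq (h0 φ), ← hφ.coe_embedding_apply, Complex.norm_real, Real.norm_eq_abs,
        abs_of_pos (hpos _ fun e => n0 (RingHom.ext fun y => by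
          rw [← hφ.coe_embedding_apply, e]; rfl))]
    refine Finset.prod_involution (fun φ _ => ComplexEmbedding.conjugate φ) ?_ ?_ ?_ ?_
    · intro φ _
      rw [ComplexEmbedding.conjugate_coe_eq, Complex.norm_conj, div_mul_div_comm,
        Complex.mul_conj, Complex.normSq_eq_norm_sq, div_eq_one_iff_eq (mul_ne_zero (h0 φ) (h0 φ))]
      push_cast
      ring
    · intro φ m h1 h
      exact h1 (hreal φ (Finset.ne_of_mem_erase m) (ComplexEmbedding.isReal_iff.2 h))
    · intro φ m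
      refine Finset.mem_erase.2 ⟨fun e => Finset.ne_of_mem_erase m ?_, Finset.mem_univ _⟩
      rw [← ComplexEmbedding.involutive_conjugate K φ, e, c0]
    · intro φ _
      exact ComplexEmbedding.involutive_conjugate K φ
  rw [Finset.prod_div_distrib, div_eq_one_iff_eq (Finset.prod_ne_zero_iff.2 fun φ _ => h0 φ)] at h3
  rw [h2, ← Finset.mul_prod_erase _ _ (Finset.mem_univ φ₀), h3, ← Algebra.coe_norm_int] at h1
  have h5 : ((Algebra.norm ℤ x : ℤ) : ℝ) = τ₀ x * ∏ φ ∈ Finset.univ.erase φ₀, ‖φ (x : K)‖ := by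
    apply Complex.ofReal_injective
    push_cast
    simpa [e0] using h1
  have h6 : ((Algebra.norm ℤ x : ℤ) : ℝ) ≤ 0 := by
    rw [h5]
    exact mul_nonpos_of_nonpos_of_nonneg hneg.le (Finset.prod_nonneg fun φ _ => norm_nonneg _)
  exact_mod_cast h6

theorem globalOdd3 (K : Type) [Field K] [NumberField K] (n : ℕ) (hl8 : n % 8 = 7) (x : 𝓞 K)
    (hxyz : ∀ l : ℕ, l.Prime → l ∣ n → ∃ y z : 𝓞 K, x = y ^ 2 + l * z) (τ₀ : K →+* ℝ)
    (hneg : τ₀ x < 0) (hpos' : ∀ τ : K →+* ℝ, τ ≠ τ₀ → 0 < τ x)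
    (hxl : ∀ (l : ℕ) (P : Ideal (𝓞 K)), l.Prime → l ∣ n → P.IsMaximal → (l : 𝓞 K) ∈ P → x ∉ P) :
    ∃ P : Ideal (𝓞 K), P.IsMaximal ∧ Odd (Ideal.absNorm P) ∧
      jacobiSym (-(n : ℤ)) (Ideal.absNorm P) = -1 ∧ OddAt P x := by
  classical
  by_contra hcon
  push Not at hcon
  have hl4 : n % 4 = 3 := by omega
  have hlo : Odd n := by
    rw [Nat.odd_iff]
    omega
  have hx0 : x ≠ 0 := by
    rintro rfl
    simp at hneg
  have hsp : Ideal.span {x} ≠ ⊥ := by simpa using hx0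
  let χ : Ideal (𝓞 K) →* ℤ :=
    { toFun := fun I => jacobiSym (Ideal.absNorm I : ℤ) n
      map_one' := by simp
      map_mul' := fun I J => by simp [jacobiSym.mul_left] }
  have hχ : ∀ I, χ I = jacobiSym (Ideal.absNorm I : ℤ) n := fun I => rfl
  have hpos : χ (Ideal.span {x}) ≤ 0 := by
    rw [hχ, Ideal.absNorm_span_singleton, Int.natCast_natAbs,
      abs_of_nonpos (GO.norm_one K x τ₀ hneg hpos'), jacobiSym.neg _ hlo,
      ZMod.χ₄_nat_three_mod_four hl4]
    have h0 := GO.jac_nonneg (Algebra.norm ℤ x) n (by omega) fun l hl hln => by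
      obtain ⟨y, z, hx⟩ := hxyz l hl hln
      have h := H28.GP.norm_mod K l y z
      rw [← hx, ZMod.intCast_eq_intCast_iff'] at h
      rw [jacobiSym.mod_left' h, jacobiSym.pow_left]
      exact sq_nonneg _
    linarith
  have hfac := Ideal.prod_normalizedFactors_eq_self hsp
  set s := UniqueFactorizationMonoid.normalizedFactors (Ideal.span {x}) with hs
  have hprod : χ (Ideal.span {x}) = ∏ P ∈ s.toFinset, χ P ^ s.count P := by
    conv_lhs => rw [← hfac, Finset.prod_multiset_count]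
    rw [map_prod]
    simp only [map_pow]
  have hcount : ∀ P : Ideal (𝓞 K), P.IsMaximal → ∀ m : ℕ, x ∈ P ^ m → x ∉ P ^ (m + 1) →
      s.count P = m := by
    intro P hP m h1 h2
    have := hP.isPrime
    exact Ideal.count_normalizedFactors_eq ((Ideal.span_singleton_le_iff_mem _).2 h1)
      (fun h => h2 ((Ideal.span_singleton_le_iff_mem _).1 h))
  have hrest : ∀ P ∈ s.toFinset, χ P ^ s.count P = 1 := by
    intro P hPs
    rw [Multiset.mem_toFinset, hs, Ideal.mem_normalizedFactors_iff hsp] at hPs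
    obtain ⟨hprime, hle⟩ := hPs
    have hxP : x ∈ P := (Ideal.span_singleton_le_iff_mem _).1 hle
    have hPb : P ≠ ⊥ := by
      rintro rfl
      exact hx0 (by simpa using hxP)
    have hmax : P.IsMaximal := hprime.isMaximal hPb
    obtain ⟨q, f, -, hqP, hq, hN⟩ := Ideal.exists_prime_and_absNorm_eq_pow P
    have hql : ¬q ∣ n := fun h => hxl q P hq h hmax hqP hxP
    by_cases hq2 : q = 2
    · subst hq2
      have : χ P = 1 := by
        rw [hχ, hN]
        push_cast
        rw [jacobiSym.pow_left, jacobiSym.at_two hlo, ZMod.χ₈_nat_eq_if_mod_eight]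
        have h2 : n % 2 = 1 := by omega
        simp [hl8, h2]
      rw [this, one_pow]
    · have hoddN : Odd (Ideal.absNorm P) := by
        rw [hN]
        exact (hq.odd_of_ne_two hq2).pow
      have hcop : (Ideal.absNorm P : ℤ).gcd n = 1 := by
        rw [Int.gcd_natCast_natCast, hN]
        exact Nat.Coprime.pow_left f ((Nat.Prime.coprime_iff_not_dvd hq).2 hql)
      rcases jacobiSym.eq_one_or_neg_one hcop with h | h
      · rw [hχ, h, one_pow]
      · obtain ⟨m, h1, h2⟩ := H28.GP.exists_ord P hmax.ne_top x hx0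
        have hev : Even m := by
          by_contra hn
          exact hcon P hmax hoddN (by rw [H28.GP.recip n _ hl4 hoddN, h])
            ⟨m, Nat.not_even_iff_odd.1 hn, h1, h2⟩
        rw [hχ, h, hcount P hmax m h1 h2, hev.neg_one_pow]
  rw [hprod, Finset.prod_eq_one hrest] at hpos
  omega

end Pool.Agent.MP_c481b3_nt.H28K
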