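import Pool.Agent.MP_c481b3_nt.H28K.SpecG

set_option autoImplicit false

namespace Pool.Agent.MP_c481b3_nt.H28K

open MeasureTheory Set

namespace Mono

theorem Ig_eq (g : ℝ → ℝ) : Ig g = ∫⁻ x, ENNReal.ofReal (1 / √(g x)) := by
  refine setLIntegral_eq_of_support_subset fun x hx => ?_
  by_contra h
  apply hx
  simp only [mem_ofPred_eq, not_lt] at h
  simp [Real.sqrt_eq_zero_of_nonpos h]

theorem Ig_shift (g : ℝ → ℝ) (v : ℝ) : Ig (fun x => g (x + v)) = Ig g := by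
  rw [Ig_eq, Ig_eq]
  exact lintegral_add_right_eq_self (fun x => ENNReal.ofReal (1 / √(g x))) v

theorem lint_mul (F : ℝ → ENNReal) {u : ℝ} (hu : 0 < u) :
    ENNReal.ofReal u * ∫⁻ x, F (u * x) = ∫⁻ x, F x := by
  have h := lintegral_map_equiv (μ := volume) F (Homeomorph.mulLeft₀ u hu.ne').toMeasurableEquiv
  have e : ((Homeomorph.mulLeft₀ u hu.ne').toMeasurableEquiv : ℝ → ℝ) = fun x => u * x := rfl
  rw [e] at h
  rw [← h, ← smul_eq_mul, ← lintegral_smul_measure]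
  have h2 := Real.smul_map_volume_mul_left hu.ne'
  rw [abs_of_pos hu] at h2
  rw [h2]

theorem om_scale (a b t : ℝ) (ht : 0 < t) :
    om (t ^ 4 * a) (t ^ 6 * b) * ENNReal.ofReal t = om a b := by
  rw [om, om, Ig_eq, Ig_eq, ← lint_mul _ (pow_pos ht 2), mul_comm, ← mul_assoc,
    ← ENNReal.ofReal_mul ht.le, ← lintegral_const_mul' _ _ ENNReal.ofReal_ne_top]
  refine lintegral_congr fun x => ?_
  rw [← ENNReal.ofReal_mul (by positivity),
    show (t ^ 2 * x) ^ 3 + t ^ 4 * a * (t ^ 2 * x) + t ^ 6 * b =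
      (t ^ 3) ^ 2 * (x ^ 3 + a * x + b) by ring, Real.sqrt_mul (sq_nonneg _),
    Real.sqrt_sq (pow_pos ht 3).le]
  congr 1
  rw [one_div, one_div, mul_inv]
  field_simp

theorem Lam_scale (a b t : ℝ) (ht : 0 < t) : Lam (t ^ 4 * a) (t ^ 6 * b) = Lam a b := by
  have h : ∀ b : ℝ, (om a b).toReal = (om (t ^ 4 * a) (t ^ 6 * b)).toReal * t := fun b => by
    rw [← om_scale a b t ht, ENNReal.toReal_mul, ENNReal.toReal_ofReal ht.le]
  rw [Lam, Lam, h b, h (-b), mul_div_mul_right _ _ ht.ne', mul_div_mul_right _ _ ht.ne', mul_neg]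

/-- a family of curves with a monotone period -/
structure Fam (A B : ℝ → ℝ) : Prop where
  ev : ∀ k, A (-k) = A k
  od : ∀ k, B (-k) = -B k
  mono : StrictMonoOn (fun k => om (A k) (B k)) (Ioo (-1) 1)
  pos : ∀ k ∈ Ioo (-1 : ℝ) 1, 0 < om (A k) (B k) ∧ om (A k) (B k) ≠ ⊤

theorem neg_mem {k : ℝ} (hk : k ∈ Ioo (-1 : ℝ) 1) : -k ∈ Ioo (-1 : ℝ) 1 :=
  ⟨by linarith [hk.2], by linarith [hk.1]⟩

namespace Fam

variable {A B : ℝ → ℝ} (h : Fam A B)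
include h

theorem wpos {k : ℝ} (hk : k ∈ Ioo (-1 : ℝ) 1) : 0 < (om (A k) (B k)).toReal :=
  ENNReal.toReal_pos (h.pos k hk).1.ne' (h.pos k hk).2

theorem wlt {k l : ℝ} (hk : k ∈ Ioo (-1 : ℝ) 1) (hl : l ∈ Ioo (-1 : ℝ) 1) (hkl : k < l) :
    (om (A k) (B k)).toReal < (om (A l) (B l)).toReal :=
  ENNReal.toReal_strict_mono (h.pos l hl).2 (h.mono hk hl hkl)

theorem wle {k l : ℝ} (hk : k ∈ Ioo (-1 : ℝ) 1) (hl : l ∈ Ioo (-1 : ℝ) 1) (hkl : k ≤ l) :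
    (om (A k) (B k)).toReal ≤ (om (A l) (B l)).toReal := by
  rcases hkl.eq_or_lt with rfl | hkl
  · exact le_rfl
  · exact (h.wlt hk hl hkl).le

theorem lam (k : ℝ) : Lam (A k) (B k) =
    max ((om (A k) (B k)).toReal / (om (A (-k)) (B (-k))).toReal)
      ((om (A (-k)) (B (-k))).toReal / (om (A k) (B k)).toReal) := by
  rw [Lam, h.ev, h.od]

theorem one_lt {k : ℝ} (hk : k ∈ Ioo (-1 : ℝ) 1) (hb : B k ≠ 0) : 1 < Lam (A k) (B k) := by
  rw [h.lam]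
  rcases lt_trichotomy k 0 with h0 | rfl | h0
  · exact lt_max_of_lt_right
      ((one_lt_div (h.wpos hk)).2 (h.wlt hk (neg_mem hk) (by linarith)))
  · have := h.od 0
    rw [neg_zero] at this
    exact absurd (by linarith) hb
  · exact lt_max_of_lt_left
      ((one_lt_div (h.wpos (neg_mem hk))).2 (h.wlt (neg_mem hk) hk (by linarith)))

theorem ratio_le {k l : ℝ} (hk : k ∈ Ioo (-1 : ℝ) 1) (hl : l ∈ Ioo (-1 : ℝ) 1) (hkl : k ≤ l) :
    (om (A k) (B k)).toReal / (om (A (-k)) (B (-k))).toReal ≤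
      (om (A l) (B l)).toReal / (om (A (-l)) (B (-l))).toReal :=
  div_le_div₀ (h.wpos hl).le (h.wle hk hl hkl) (h.wpos (neg_mem hl))
    (h.wle (neg_mem hl) (neg_mem hk) (neg_le_neg hkl))

theorem sq_lt {k l : ℝ} (hk : k ∈ Ioo (-1 : ℝ) 1) (hl : l ∈ Ioo (-1 : ℝ) 1)
    (hlt : Lam (A l) (B l) < Lam (A k) (B k)) : l ^ 2 < k ^ 2 := by
  by_contra hc
  rw [not_lt, sq_le_sq] at hc
  refine absurd hlt (not_lt.2 ?_)
  rw [h.lam, h.lam]
  have h1 := le_abs_self k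
  have h2 := neg_le_abs k
  rcases le_total 0 l with h0 | h0
  · rw [abs_of_nonneg h0] at hc
    have h3 := h.ratio_le (neg_mem hk) hl (h2.trans hc)
    rw [neg_neg] at h3
    exact le_max_of_le_left (max_le (h.ratio_le hk hl (h1.trans hc)) h3)
  · rw [abs_of_nonpos h0] at hc
    have h3 := h.ratio_le (neg_mem hk) (neg_mem hl) (h2.trans hc)
    have h4 := h.ratio_le hk (neg_mem hl) (h1.trans hc)
    simp only [neg_neg] at h3 h4
    exact le_max_of_le_right (max_le h4 h3)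

theorem two {k t : ℝ} (hk : k ∈ Ioo (-1 : ℝ) 1) (ht : 0 < t) :
    0 < om (t ^ 4 * A k) (t ^ 6 * B k) ∧ om (t ^ 4 * A k) (t ^ 6 * B k) ≠ ⊤ ∧
      (t ^ 6 * B k ≠ 0 → 1 < Lam (t ^ 4 * A k) (t ^ 6 * B k)) := by
  have e := om_scale (A k) (B k) t ht
  obtain ⟨h1, h2⟩ := h.pos k hk
  refine ⟨pos_iff_ne_zero.2 fun h0 => ?_, fun h0 => ?_, fun hb => ?_⟩
  · rw [h0, zero_mul] at e
    exact h1.ne e
  · rw [h0, ENNReal.top_mul (ENNReal.ofReal_pos.2 ht).ne'] at e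
    exact h2 e.symm
  · rw [Lam_scale _ _ _ ht]
    exact h.one_lt hk (right_ne_zero_of_mul hb)

end Fam

theorem fam3 (h : UV) : Fam (fun k => -(3 + k ^ 2) / 12) fun k => k * (9 - k ^ 2) / 108 := by
  have e : ∀ k : ℝ, om (-(3 + k ^ 2) / 12) (k * (9 - k ^ 2) / 108) =
      Ig fun x => x * (x - (1 + k) / 2) * (x - 1) := fun k => by
    rw [om, ← Ig_shift _ (-(3 + k) / 6)]
    congr 1
    funext x
    ring
  have m : ∀ k ∈ Ioo (-1 : ℝ) 1, (1 + k) / 2 ∈ Ioo (0 : ℝ) 1 := fun k hk =>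
    ⟨by linarith [hk.1], by linarith [hk.2]⟩
  refine ⟨fun k => by ring, fun k => by ring, fun k hk l hl hkl => ?_, fun k hk => ?_⟩
  · simp only [e]
    exact h.1.1 (m k hk) (m l hl) (by linarith)
  · simp only [e]
    exact h.1.2 _ (m k hk)

theorem fam1 (h : UV) :
    Fam (fun k => (3 - 4 * k ^ 2) / 3) fun k => 2 * k * (9 - 8 * k ^ 2) / 27 := by
  have e : ∀ k : ℝ, om ((3 - 4 * k ^ 2) / 3) (2 * k * (9 - 8 * k ^ 2) / 27) =
      Ig fun x => x * (x ^ 2 - 2 * k * x + 1) := fun k => by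
    rw [om, ← Ig_shift _ (-(2 * k) / 3)]
    congr 1
    funext x
    ring
  refine ⟨fun k => by ring, fun k => by ring, fun k hk l hl hkl => ?_, fun k hk => ?_⟩
  · simp only [e]
    exact h.2.1 hk hl hkl
  · simp only [e]
    exact h.2.2 _ hk

theorem root (a b c : ℝ) (hc : 0 ≤ c ^ 3 + a * c + b) : ∃ e ≤ c, e ^ 3 + a * e + b = 0 := by
  obtain ⟨M, hM⟩ : ∃ M : ℝ, M = |a| + |b| + |c| + 1 := ⟨_, rfl⟩
  have ha := abs_nonneg a
  have hb := abs_nonneg b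
  have hc0 := abs_nonneg c
  have h1 : -M ≤ c := by linarith [neg_abs_le c]
  have h2 : (-M) ^ 3 + a * -M + b ≤ 0 := by
    have h3 : -a * M ≤ |a| * M := mul_le_mul_of_nonneg_right (neg_le_abs a) (by linarith)
    have h4 : M ≤ M ^ 2 := by nlinarith
    have h5 : M * M ≤ M ^ 2 * M := mul_le_mul_of_nonneg_right h4 (by linarith)
    have h6 : (|a| + |b|) * M ≤ M * M := mul_le_mul_of_nonneg_right (by linarith) (by linarith)
    have h7 : |b| * 1 ≤ |b| * M := mul_le_mul_of_nonneg_left (by linarith) hb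
    nlinarith [le_abs_self b]
  obtain ⟨e, he, h⟩ := intermediate_value_Icc h1
    (f := fun x : ℝ => x ^ 3 + a * x + b) (by fun_prop) ⟨h2, hc⟩
  exact ⟨e, he.2, h⟩

theorem exists_pow {h : ℝ} (hh : 0 < h) : ∃ t : ℝ, 0 < t ∧ t ^ 4 = h ^ 2 ∧ t ^ 6 = h ^ 3 := by
  have e := Real.sq_sqrt hh.le
  refine ⟨√h, Real.sqrt_pos.2 hh, ?_, ?_⟩
  · rw [show (4 : ℕ) = 2 * 2 from rfl, pow_mul, e]
  · rw [show (6 : ℕ) = 2 * 3 from rfl, pow_mul, e]

theorem form3 {a b : ℝ} (hd : 4 * a ^ 3 + 27 * b ^ 2 < 0) : ∃ t k : ℝ, 0 < t ∧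
    k ∈ Ioo (-1 : ℝ) 1 ∧ a = t ^ 4 * (-(3 + k ^ 2) / 12) ∧ b = t ^ 6 * (k * (9 - k ^ 2) / 108) := by
  have ha : a < 0 := by
    by_contra h
    have := pow_nonneg (not_lt.1 h) 3
    nlinarith [sq_nonneg b]
  obtain ⟨m, hm0, rfl⟩ : ∃ m : ℝ, 0 < m ∧ a = -3 * m ^ 2 :=
    ⟨√(-a / 3), Real.sqrt_pos.2 (by linarith), by rw [Real.sq_sqrt (by linarith)]; ring⟩
  have hb : -(2 * m ^ 3) < b :=
    (abs_lt.1 (abs_lt_of_sq_lt_sq (by nlinarith) (by positivity))).1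
  obtain ⟨e, he, h⟩ := root (-3 * m ^ 2) b (-m) (by nlinarith)
  have he' : e < -m := he.lt_of_ne fun h0 => by
    rw [h0] at h
    nlinarith
  have h1 : m ^ 2 < e ^ 2 := by nlinarith
  obtain rfl : b = -e ^ 3 + 3 * m ^ 2 * e := by linarith
  have h2 : e ^ 2 < 4 * m ^ 2 := by
    by_contra h3
    have : 0 ≤ (e ^ 2 - m ^ 2) ^ 2 * (e ^ 2 - 4 * m ^ 2) :=
      mul_nonneg (sq_nonneg _) (by linarith)
    nlinarith
  obtain ⟨r, hr0, hr⟩ : ∃ r : ℝ, 0 < r ∧ r ^ 2 = 12 * m ^ 2 - 3 * e ^ 2 :=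
    ⟨√(12 * m ^ 2 - 3 * e ^ 2), Real.sqrt_pos.2 (by linarith), Real.sq_sqrt (by linarith)⟩
  have h4 : r < -3 * e := lt_of_pow_lt_pow_left₀ 2 (by linarith) (by nlinarith)
  have h5 : 0 < r - 3 * e := by linarith
  obtain ⟨t, ht, e4, e6⟩ := exists_pow (half_pos h5)
  have hm : m ^ 2 = (r ^ 2 + 3 * e ^ 2) / 12 := by linarith
  refine ⟨t, (-3 * e - 3 * r) / (r - 3 * e), ht, ⟨?_, ?_⟩, ?_, ?_⟩
  · rw [lt_div_iff₀ h5]
    linarith
  · rw [div_lt_one h5]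
    linarith
  · rw [e4, hm]
    field_simp
    ring
  · obtain ⟨D, rfl⟩ : ∃ D, r = D + 3 * e := ⟨r - 3 * e, by ring⟩
    rw [add_sub_cancel_right] at h5 e6 ⊢
    rw [e6, hm]
    field_simp
    ring

theorem form1 {a b : ℝ} (hd : 0 < 4 * a ^ 3 + 27 * b ^ 2) : ∃ t k : ℝ, 0 < t ∧
    k ∈ Ioo (-1 : ℝ) 1 ∧ a = t ^ 4 * ((3 - 4 * k ^ 2) / 3) ∧
      b = t ^ 6 * (2 * k * (9 - 8 * k ^ 2) / 27) := by
  obtain ⟨e, h⟩ : ∃ e : ℝ, e ^ 3 + a * e + b = 0 := by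
    rcases le_total 0 b with hb | hb
    · obtain ⟨e, -, h⟩ := root a b 0 (by simpa using hb)
      exact ⟨e, h⟩
    · obtain ⟨e, -, h⟩ := root a (-b) 0 (by simpa using hb)
      exact ⟨-e, by linarith⟩
  obtain rfl : b = -e ^ 3 - a * e := by linarith
  have h1 : 0 < 3 * e ^ 2 + 4 * a := by
    by_contra h3
    have : (3 * e ^ 2 + a) ^ 2 * (3 * e ^ 2 + 4 * a) ≤ 0 :=
      mul_nonpos_of_nonneg_of_nonpos (sq_nonneg _) (not_lt.1 h3)
    nlinarith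
  obtain ⟨u, hu0, rfl⟩ : ∃ u : ℝ, 0 < u ∧ a = u ^ 2 - 3 * e ^ 2 := by
    have h2 : 0 < 3 * e ^ 2 + a := by nlinarith [sq_nonneg e]
    exact ⟨√(3 * e ^ 2 + a), Real.sqrt_pos.2 h2, by rw [Real.sq_sqrt h2.le]; ring⟩
  obtain ⟨t, ht, e4, e6⟩ := exists_pow hu0
  have h4 := abs_lt.1 (abs_lt_of_sq_lt_sq (a := 3 * e) (b := 2 * u) (by nlinarith) (by positivity))
  refine ⟨t, -3 * e / (2 * u), ht, ⟨?_, ?_⟩, ?_, ?_⟩
  · rw [lt_div_iff₀ (by positivity)]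
    linarith [h4.2]
  · rw [div_lt_one (by positivity)]
    linarith [h4.1]
  · rw [e4]
    field_simp
    ring
  · rw [e6]
    field_simp
    ring

theorem sq_lt_one {k : ℝ} (hk : k ∈ Ioo (-1 : ℝ) 1) : k ^ 2 < 1 := by nlinarith [hk.1, hk.2]

theorem ineq3 {p q : ℝ} (h0 : 0 ≤ q) (h1 : q < p) (h2 : p < 1) :
    (3 + q) ^ 3 * (1 - p) ^ 2 < (3 + p) ^ 3 * (1 - q) ^ 2 :=
  mul_lt_mul'' (pow_lt_pow_left₀ (by linarith) (by linarith) (by norm_num))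
    (pow_lt_pow_left₀ (by linarith) (by linarith) (by norm_num)) (by positivity) (sq_nonneg _)

theorem ineq1 {x y : ℝ} (h0 : -1 < x) (h1 : x < y) (h2 : y ≤ 3) :
    x ^ 3 * (1 + y) < y ^ 3 * (1 + x) := by
  have h3 : 0 < (1 + x) * (y + x / 2) ^ 2 + x ^ 2 * (3 - x) / 4 := by
    by_cases hx : x = 0
    · subst hx
      simpa using pow_pos h1 2
    · have h4 : 0 ≤ (1 + x) * (y + x / 2) ^ 2 := mul_nonneg (by linarith) (sq_nonneg _)
      have h5 : 0 < x ^ 2 * (3 - x) := mul_pos (by positivity) (by linarith)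
      linarith
  have h6 := mul_pos (sub_pos.2 h1) h3
  nlinarith

end Mono

open Mono in
theorem perMono_of : UV → PerMono := by
  intro h
  refine ⟨om_scale, fun a b hd => ?_, fun a b a' b' hd hl => ?_⟩
  · rcases hd.lt_or_gt with hd | hd
    · obtain ⟨t, k, ht, hk, rfl, rfl⟩ := form3 hd
      exact (fam3 h).two hk ht
    · obtain ⟨t, k, ht, hk, rfl, rfl⟩ := form1 hd
      exact (fam1 h).two hk ht
  · rcases mul_pos_iff.1 hd with ⟨h1, h2⟩ | ⟨h1, h2⟩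
    · refine mul_pos ?_ h1
      obtain ⟨t, k, ht, hk, rfl, rfl⟩ := form1 h1
      obtain ⟨s, l, hs, hl', rfl, rfl⟩ := form1 h2
      rw [Lam_scale _ _ _ ht, Lam_scale _ _ _ hs] at hl
      have h3 := (fam1 h).sq_lt hk hl' hl
      have h4 := ineq1 (x := 3 - 4 * k ^ 2) (y := 3 - 4 * l ^ 2) (by linarith [sq_lt_one hk])
        (by linarith) (by linarith [sq_nonneg l])
      have h5 := mul_pos (div_pos (pow_pos (mul_pos ht hs) 12) (by norm_num : (0 : ℝ) < 729))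
        (sub_pos.2 h4)
      refine h5.trans_eq ?_
      ring
    · refine mul_pos_of_neg_of_neg ?_ h1
      obtain ⟨t, k, ht, hk, rfl, rfl⟩ := form3 h1
      obtain ⟨s, l, hs, hl', rfl, rfl⟩ := form3 h2
      rw [Lam_scale _ _ _ ht, Lam_scale _ _ _ hs] at hl
      have h3 := (fam3 h).sq_lt hk hl' hl
      have h4 := ineq3 (sq_nonneg l) h3 (sq_lt_one hk)
      have h5 := mul_neg_of_pos_of_neg
        (div_pos (pow_pos (mul_pos ht hs) 12) (by norm_num : (0 : ℝ) < 746496)) (sub_neg.2 h4)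
      refine Eq.trans_lt ?_ h5
      ring

end Pool.Agent.MP_c481b3_nt.H28K
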