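import Pool.Agent.MP_c481b3_nt.H28K.SpecG
import Pool.Agent.MP_c481b3_nt.H28.Ord

set_option autoImplicit false

namespace Pool.Agent.MP_c481b3_nt.H28K

open Pool.Agent.MP_c481b3_nt.H81 Pool.Agent.MP_c481b3_nt.H28 Pool.Agent.MP_c481b3_nt.H31
  NumberField

/-- the real period of the quotient by a real point of order two -/
def TwoP : Prop :=
  ∀ a e : ℝ, 3 * e ^ 2 + a ≠ 0 → 3 * e ^ 2 + 4 * a ≠ 0 →
    om a (-e ^ 3 - a * e) = (if 3 * e ^ 2 + a < 0 ∨ (0 < e ∧ 3 * e ^ 2 + 4 * a < 0) then 2 else 1)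
      * om (-4 * a - 15 * e ^ 2) (-8 * a * e - 22 * e ^ 3)

/-- the ratio of the periods of the quotient by a real point of order two -/
def TwoL : Prop :=
  (∀ a b e : ℝ, e ^ 3 + a * e + b = 0 → 4 * a ^ 3 + 27 * b ^ 2 ≠ 0 →
    Lam (-4 * a - 15 * e ^ 2) (-8 * a * e - 22 * e ^ 3) ≤ 2 * Lam a b ∧
    (0 < 4 * a ^ 3 + 27 * b ^ 2 →
      Lam (-4 * a - 15 * e ^ 2) (-8 * a * e - 22 * e ^ 3) = Lam a b)) ∧
  ∀ a b : ℝ, 4 * a ^ 3 + 27 * b ^ 2 < 0 → b ≠ 0 → ∃ e₀ : ℝ, e₀ ^ 3 + a * e₀ + b = 0 ∧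
    Lam (-4 * a - 15 * e₀ ^ 2) (-8 * a * e₀ - 22 * e₀ ^ 3) = 2 * Lam a b ∧
    ∀ e : ℝ, e ^ 3 + a * e + b = 0 → e ≠ e₀ →
      Lam (-4 * a - 15 * e ^ 2) (-8 * a * e - 22 * e ^ 3) < 2 * Lam a b

/-- the ratio of the periods and the sign of the discriminant determine the invariant -/
def PerInj : Prop :=
  ∀ a b a' b' : ℝ, 0 < (4 * a ^ 3 + 27 * b ^ 2) * (4 * a' ^ 3 + 27 * b' ^ 2) →
    Lam a' b' = Lam a b → a' ^ 3 * b ^ 2 = a ^ 3 * b' ^ 2

/-- the second curve is the first one or its quotient by a point of order two -/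
def Two {R : Type} [CommRing R] (a b e A' B' : R) : Prop :=
  (A' = a ∧ B' = b) ∨
    (e ^ 3 + a * e + b = 0 ∧ A' = -4 * a - 15 * e ^ 2 ∧ B' = -8 * a * e - 22 * e ^ 3)

/-- the largest ratio of the periods is taken at exactly one real place -/
def Top {K : Type} [Field K] [NumberField K] (A B : 𝓞 K) : Prop :=
  ∃ τ₀ : K →+* ℝ, ∀ τ : K →+* ℝ, τ ≠ τ₀ → Lam (τ A) (τ B) < Lam (τ₀ A) (τ₀ B)

/-- the data that connect a curve over `K` with a curve over `K'` -/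
structure Lk {K K' : Type} [Field K] [NumberField K] [Field K'] [NumberField K'] (A B : 𝓞 K)
    (a b e A' B' : 𝓞 K') (ι : K' →+* AlgebraicClosure K) : Prop where
  d0 : (Wc A B).Δ ≠ 0
  d1 : (Wc a b).Δ ≠ 0
  d2 : (Wc A' B').Δ ≠ 0
  eq : ι a ^ 3 * iK B ^ 2 = iK A ^ 3 * ι b ^ 2
  two : Two a b e A' B'

/-- the reduction to a curve with one dominant real place -/
def Red : Prop :=
  ∀ (K : Type) [Field K] [NumberField K] (A B : 𝓞 K) (τ : K →+* ℂ) (w : ℝ), (Wc A B).Δ ≠ 0 →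
    A ≠ 0 → B ≠ 0 → τ A ^ 3 = w * τ B ^ 2 →
    ∃ (K' : Type) (_ : Field K') (_ : NumberField K') (a b e A' B' : 𝓞 K')
      (ι : K' →+* AlgebraicClosure K), Lk A B a b e A' B' ι ∧ Top A' B'

/-- the isogeny of degree one or two -/
def IsTwo : Prop :=
  ∀ (k : Type) [Field k] [DecidableEq k] [IsAlgClosed k] (A B a b e A' B' : k), (3 : k) ≠ 0 →
    Good A B → Good a b → Good A' B' → a ^ 3 * B ^ 2 = A ^ 3 * b ^ 2 → Two a b e A' B' →
    ∃ (n : ℕ) (f : Pt A B →+ Pt A' B'), (n = 1 ∨ n = 2) ∧ Is n f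

/-- an isogenous curve has no complex multiplication -/
def NcIs : Prop :=
  ∀ (k : Type) [Field k] [DecidableEq k] [IsAlgClosed k] [CharZero k] (A B A' B' : k) (n : ℕ)
    (f : Pt A B →+ Pt A' B'), Is n f → NoCM A B → NoCM A' B'

open Classical in
/-- the transfer of the absence of complex multiplication -/
def NcT : Prop :=
  ∀ (K K' : Type) [Field K] [NumberField K] [Field K'] [NumberField K'] (A B : 𝓞 K)
    (a b e A' B' : 𝓞 K') (ι : K' →+* AlgebraicClosure K), Lk A B a b e A' B' ι →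
    NoCM (iK A) (iK B) → NoCM (iK A') (iK B')

/-- the transfer of supersingular primes -/
def SsT : Prop :=
  ∀ (K K' : Type) [Field K] [NumberField K] [Field K'] [NumberField K'] (A B : 𝓞 K)
    (a b e A' B' : 𝓞 K') (ι : K' →+* AlgebraicClosure K), Lk A B a b e A' B' ι →
    ∃ M : ℕ, ∀ p : ℕ, M < p → SSp A' B' p → SSp A B p

end Pool.Agent.MP_c481b3_nt.H28K
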