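import Pool.Agent.MP_c481b3_nt.H28K.SpecG
import Pool.Agent.MP_c481b3_nt.H31.GP

set_option autoImplicit false

namespace Pool.Agent.MP_c481b3_nt.H28K

open Pool.Agent.MP_c481b3_nt.H28 Pool.Agent.MP_c481b3_nt.H31 Pool.Agent.MP_c481b3_nt.H31.GPo
  NumberField

namespace GO

theorem jac_nonneg (a : ℤ) (n : ℕ) (hn : n ≠ 0)
    (h : ∀ l : ℕ, l.Prime → l ∣ n → 0 ≤ jacobiSym a l) : 0 ≤ jacobiSym a n := by
  induction n using induction_on_primes with
  | zero => exact absurd rfl hn
  | one => simp
  | prime_mul p m hp ih =>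
    have hm : m ≠ 0 := right_ne_zero_of_mul hn
    rw [jacobiSym.mul_right' a hp.ne_zero hm]
    exact mul_nonneg (h p hp (dvd_mul_right p m))
      (ih hm fun l hl hd => h l hl (hd.mul_left p))

end GO

theorem globalOdd2 : GlobalOdd2 := by
  classical
  intro K _ _ n hK hl8 x hxyz hneg hxl
  by_contra hcon
  push Not at hcon
  have hl4 : n % 4 = 3 := by omega
  have hlo : Odd n := by
    rw [Nat.odd_iff]
    omega
  have hx0 : x ≠ 0 := by
    intro h0
    obtain ⟨l, hl, hln⟩ := Nat.exists_prime_and_dvd (n := n) (by omega)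
    obtain ⟨Q, m, hQ, hlQ, -⟩ := exists_odd K l l hl (by
      have := Fact.mk hl
      rw [show (l : 𝓞 K) = algebraMap ℤ (𝓞 K) l by simp, Algebra.norm_algebraMap,
        RingOfIntegers.rank, Int.natAbs_pow, Int.natAbs_natCast, padicValNat.prime_pow]
      exact hK)
    exact hxl l Q hl hln hQ hlQ (h0 ▸ Q.zero_mem)
  have hsp : Ideal.span {x} ≠ ⊥ := by simpa using hx0
  let χ : Ideal (𝓞 K) →* ℤ :=
    { toFun := fun I => jacobiSym (Ideal.absNorm I : ℤ) n
      map_one' := by simp
      map_mul' := fun I J => by simp [jacobiSym.mul_left] }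
  have hχ : ∀ I, χ I = jacobiSym (Ideal.absNorm I : ℤ) n := fun I => rfl
  have hpos : χ (Ideal.span {x}) ≤ 0 := by
    rw [hχ, Ideal.absNorm_span_singleton, Int.natCast_natAbs,
      abs_of_nonpos (norm_nonpos K hK x hx0 hneg), jacobiSym.neg _ hlo,
      ZMod.χ₄_nat_three_mod_four hl4]
    have h0 := GO.jac_nonneg (Algebra.norm ℤ x) n (by omega) fun l hl hln => by
      obtain ⟨y, z, hx⟩ := hxyz l hl hln
      have h := H28.GP.norm_mod K l y z
      rw [← hx, ZMod.intCast_eq_intCast_iff'] at h
      rw [jacobiSym.mod_left' h, jacobiSym.pow_left]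
      exact sq_nonneg _
    linarith
  have hfac := Ideal.prod_normalizedFactors_eq_self hsp
  set s := UniqueFactorizationMonoid.normalizedFactors (Ideal.span {x}) with hs
  have hprod : χ (Ideal.span {x}) = ∏ P ∈ s.toFinset, χ P ^ s.count P := by
    conv_lhs => rw [← hfac, Finset.prod_multiset_count]
    rw [map_prod]
    simp only [map_pow]
  have hcount : ∀ P : Ideal (𝓞 K), P.IsMaximal → ∀ m : ℕ, x ∈ P ^ m → x ∉ P ^ (m + 1) →
      s.count P = m := by
    intro P hP m h1 h2
    have := hP.isPrime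
    exact Ideal.count_normalizedFactors_eq ((Ideal.span_singleton_le_iff_mem _).2 h1)
      (fun h => h2 ((Ideal.span_singleton_le_iff_mem _).1 h))
  have hrest : ∀ P ∈ s.toFinset, χ P ^ s.count P = 1 := by
    intro P hPs
    rw [Multiset.mem_toFinset, hs, Ideal.mem_normalizedFactors_iff hsp] at hPs
    obtain ⟨hprime, hle⟩ := hPs
    have hxP : x ∈ P := (Ideal.span_singleton_le_iff_mem _).1 hle
    have hPb : P ≠ ⊥ := by
      rintro rfl
      exact hx0 (by simpa using hxP)
    have hmax : P.IsMaximal := hprime.isMaximal hPb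
    obtain ⟨q, f, -, hqP, hq, hN⟩ := Ideal.exists_prime_and_absNorm_eq_pow P
    have hql : ¬q ∣ n := fun h => hxl q P hq h hmax hqP hxP
    by_cases hq2 : q = 2
    · subst hq2
      have : χ P = 1 := by
        rw [hχ, hN]
        push_cast
        rw [jacobiSym.pow_left, jacobiSym.at_two hlo, ZMod.χ₈_nat_eq_if_mod_eight]
        have h2 : n % 2 = 1 := by omega
        simp [hl8, h2]
      rw [this, one_pow]
    · have hoddN : Odd (Ideal.absNorm P) := by
        rw [hN]
        exact (hq.odd_of_ne_two hq2).pow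
      have hcop : (Ideal.absNorm P : ℤ).gcd n = 1 := by
        rw [Int.gcd_natCast_natCast, hN]
        exact Nat.Coprime.pow_left f ((Nat.Prime.coprime_iff_not_dvd hq).2 hql)
      rcases jacobiSym.eq_one_or_neg_one hcop with h | h
      · rw [hχ, h, one_pow]
      · obtain ⟨m, h1, h2⟩ := H28.GP.exists_ord P hmax.ne_top x hx0
        have hev : Even m := by
          by_contra hn
          exact hcon P hmax hoddN (by rw [H28.GP.recip n _ hl4 hoddN, h])
            ⟨m, Nat.not_even_iff_odd.1 hn, h1, h2⟩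
        rw [hχ, h, hcount P hmax m h1 h2, hev.neg_one_pow]
  rw [hprod, Finset.prod_eq_one hrest] at hpos
  omega

end Pool.Agent.MP_c481b3_nt.H28K
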