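import Pool.Agent.MP_c481b3_nt.H28K.SpecG

set_option autoImplicit false

namespace Pool.Agent.MP_c481b3_nt.H28K

open Pool.Agent.MP_c481b3_nt.H81 Pool.Agent.MP_c481b3_nt.H28 Polynomial

namespace GA

/-- a valuation ring with a given prime centre -/
lemma exists_val_prime {R L : Type*} [CommRing R] [IsDomain R] [Field L] (ψ : R →+* L)
    (hψ : Function.Injective ψ) (P : Ideal R) [hP : P.IsPrime] :
    ∃ O : ValuationSubring L, (∀ r, ψ r ∈ O) ∧ ∀ r, O.valuation (ψ r) < 1 ↔ r ∈ P := by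
  have hu : ∀ y : P.primeCompl, IsUnit (ψ y) := fun y =>
    IsUnit.mk0 _ fun h => y.2 (by
      rw [show (y : R) = 0 from hψ (h.trans (map_zero ψ).symm)]
      exact P.zero_mem)
  let ψ' : Localization.AtPrime P →+* L := IsLocalization.lift (M := P.primeCompl) hu
  have e : ∀ r, ψ' (algebraMap R _ r) = ψ r := IsLocalization.lift_eq hu
  have hinj : Function.Injective ψ' :=
    (IsLocalization.lift_injective_iff hu).2 fun x y =>
      ⟨fun h => by rw [← e, ← e, h], fun h => by rw [hψ h]⟩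
  obtain ⟨O, h1, h2⟩ := exists_val ψ' hinj _ (IsLocalRing.maximalIdeal.isMaximal _)
  refine ⟨O, fun r => e r ▸ h1 _, fun r => ?_⟩
  rw [← e, h2, IsLocalization.AtPrime.to_map_mem_maximal_iff (Localization.AtPrime P) P]

lemma zL_inj : Function.Injective zL :=
  ((aL (k := ℚ)).injective.comp ap_inj).comp
    (Polynomial.map_injective (algebraMap ℤ ℚ) (algebraMap ℤ ℚ).injective_int)

lemma alg_zL (a : LL ℚ) : ∃ p : ℤ[X][X], p ≠ 0 ∧ p.eval₂ zL a = 0 := by
  have halg : IsAlgebraic (RatFunc ℚ) a := Algebra.IsAlgebraic.isAlgebraic _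
  rw [← IsFractionRing.isAlgebraic_iff ℚ[X] (RatFunc ℚ) (LL ℚ)] at halg
  let : Algebra ℤ[X] ℚ[X] := Polynomial.algebra ℤ ℚ
  have : Algebra.IsAlgebraic ℤ ℚ := IsLocalization.isAlgebraic ℚ (nonZeroDivisors ℤ)
  obtain ⟨p, hp, hpa⟩ := halg
  obtain ⟨g, hg, c, hc⟩ := Polynomial.exists_dvd_map_of_isAlgebraic (R := ℤ[X]) hp
  refine ⟨g, hg, ?_⟩
  have e : g.eval₂ zL a = (g.map (algebraMap ℤ[X] ℚ[X])).eval₂ (algebraMap ℚ[X] (LL ℚ)) a := by
    rw [eval₂_map]
    rfl
  rw [e, hc, eval₂_mul, ← aeval_def, hpa, zero_mul]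

variable (l : ℕ) [Fact l.Prime]

/-- reduction of integral polynomials -/
noncomputable abbrev rm : ℤ[X] →+* (ZMod l)[X] := mapRingHom (Int.castRingHom (ZMod l))

lemma rm_surj : Function.Surjective (rm l) :=
  Polynomial.map_surjective _ (ZMod.ringHom_surjective _)

lemma rm_eq_zero {g : ℤ[X]} (h : rm l g = 0) : C (l : ℤ) ∣ g :=
  (C_dvd_iff_dvd_coeff _ _).2 fun n => (ZMod.intCast_zmod_eq_zero_iff_dvd _ l).1 (by
    have := congrArg (fun t => coeff t n) h
    simpa using this)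

lemma exists_place :
    ∃ π : Plc (LL ℚ) (LL (ZMod l)), ∀ g : ℤ[X], Ev π (zL g) (aL (ap (rm l g))) := by
  classical
  have : (RingHom.ker (rm l)).IsPrime := RingHom.ker_isPrime _
  obtain ⟨O, h1, h2⟩ := exists_val_prime zL zL_inj (RingHom.ker (rm l))
  set ψ' : ℤ[X] →+* O := zL.codRestrict O.toSubring h1 with hψ'
  set φ : ℤ[X] →+* IsLocalRing.ResidueField O := (IsLocalRing.residue O).comp ψ' with hφ
  have hk : ∀ r, φ r = 0 ↔ rm l r = 0 := fun r => by
    rw [hφ, RingHom.comp_apply, IsLocalRing.residue_eq_zero_iff, O.valuation_lt_one_iff]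
    exact h2 r
  let j0 : (ZMod l)[X] →+* IsLocalRing.ResidueField O :=
    (rm l).liftOfSurjective (rm_surj l) ⟨φ, fun r hr => (hk r).2 hr⟩
  have e0 : ∀ g, j0 (rm l g) = φ g := fun g => RingHom.liftOfRightInverse_comp_apply _ _ _ _ g
  have i0 : Function.Injective j0 := (injective_iff_map_eq_zero j0).2 fun a ha => by
    obtain ⟨g, rfl⟩ := rm_surj l a
    rw [e0] at ha
    exact (hk g).1 ha
  let j : RatFunc (ZMod l) →+* IsLocalRing.ResidueField O := IsFractionRing.lift (g := j0) i0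
  have e1 : ∀ g, j (ap (rm l g)) = φ g := fun g =>
    (IsFractionRing.lift_algebraMap i0 _).trans (e0 g)
  let : Algebra (RatFunc (ZMod l)) (IsLocalRing.ResidueField O) := j.toAlgebra
  have : Algebra.IsAlgebraic (RatFunc (ZMod l)) (IsLocalRing.ResidueField O) := ⟨fun b => by
    obtain ⟨a, rfl⟩ := IsLocalRing.residue_surjective b
    obtain ⟨p, hp, hpa⟩ := alg_zL (a : LL ℚ)
    have hqa : p.primPart.eval₂ zL a = 0 := eval₂_primPart_eq_zero zL_inj hp hpa
    refine ⟨p.primPart.map (ap.comp (rm l)), fun h0 => ?_, ?_⟩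
    · have hu : IsUnit (C (l : ℤ)) := p.isPrimitive_primPart _ ((C_dvd_iff_dvd_coeff _ _).2
        fun n => rm_eq_zero l (ap_inj (by
          have := congrArg (fun t => coeff t n) h0
          simpa only [coeff_map, coeff_zero, RingHom.comp_apply, map_zero] using this)))
      exact (Nat.prime_iff_prime_int.1 (Fact.out : l.Prime)).not_isUnit (isUnit_C.1 hu)
    · have e2 : p.primPart.eval₂ ψ' a = 0 := by
        apply Subtype.val_injective
        exact (hom_eval₂ p.primPart ψ' O.subtype a).trans hqa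
      have e3 := hom_eval₂ p.primPart ψ' (IsLocalRing.residue O) a
      rw [e2, map_zero] at e3
      rw [aeval_def, eval₂_map, show (algebraMap (RatFunc (ZMod l))
        (IsLocalRing.ResidueField O)).comp (ap.comp (rm l)) = φ from RingHom.ext e1]
      exact e3.symm⟩
  let τ : IsLocalRing.ResidueField O →ₐ[RatFunc (ZMod l)] LL (ZMod l) := IsAlgClosed.lift
  let π : Plc (LL ℚ) (LL (ZMod l)) :=
    ⟨O, τ.toRingHom.comp (IsLocalRing.residue O), fun a => by
      rw [← O.valuation_lt_one_iff, ← IsLocalRing.residue_eq_zero_iff, RingHom.comp_apply,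
        map_eq_zero]⟩
  refine ⟨π, fun g => ⟨h1 g, (π.ev_coe (ψ' g)).trans ?_⟩⟩
  change τ (φ g) = _
  rw [← e1]
  exact τ.commutes _

variable {l}

lemma cast_ne (h5 : 5 ≤ l) {a b : ℕ} : ((2 ^ a * 3 ^ b : ℕ) : ZMod l) ≠ 0 := by
  have hl : l.Prime := Fact.out
  rw [Ne, ZMod.natCast_eq_zero_iff]
  intro h
  rcases (Nat.Prime.dvd_mul hl).1 h with h | h
  · have := Nat.le_of_dvd two_pos (hl.dvd_of_dvd_pow h)
    omega
  · have := Nat.le_of_dvd three_pos (hl.dvd_of_dvd_pow h)
    omega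

/-- the generic invariant is not a power of exponent `l` -/
lemma not_pow (h5 : 5 ≤ l) (p q : (ZMod l)[X]) (hq : q ≠ 0) :
    p ^ l * (4 * X + 27) ≠ 6912 * X * q ^ l := by
  intro h
  have d : ∀ r : (ZMod l)[X], derivative (r ^ l) = 0 := fun r => by
    rw [derivative_pow, ZMod.natCast_self, map_zero, zero_mul, zero_mul]
  have h1 := congrArg derivative h
  simp only [derivative_mul, derivative_add, d, derivative_X, derivative_ofNat, zero_mul, zero_add,
    mul_zero, add_zero, mul_one] at h1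
  have h2 : (C ((2 ^ 8 * 3 ^ 6 : ℕ) : ZMod l)) * q ^ l = 0 := by
    rw [map_natCast]
    push_cast
    linear_combination (4 * X + 27) * h1.symm - 4 * h.symm
  exact mul_ne_zero (C_ne_zero.2 (cast_ne h5)) (pow_ne_zero _ hq) h2

lemma good_x (h5 : 5 ≤ l) : Good (aL (ap X) : LL (ZMod l)) (aL (ap X)) := by
  have c2 : ((2 ^ 1 * 3 ^ 0 : ℕ) : ZMod l) ≠ 0 := cast_ne h5
  have c4 : ((2 ^ 2 * 3 ^ 0 : ℕ) : ZMod l) ≠ 0 := cast_ne h5
  refine ⟨?_, ?_⟩
  · have := (_root_.map_ne_zero (cL (k := ZMod l))).2 c2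
    rw [map_natCast] at this
    exact_mod_cast this
  · have e : (4 * (aL (ap X) : LL (ZMod l)) ^ 3 + 27 * (aL (ap X)) ^ 2)
        = aL (ap (C ((2 ^ 2 * 3 ^ 0 : ℕ) : ZMod l) * X ^ 3 + C 27 * X ^ 2)) := by
      simp only [map_add, map_mul, map_pow, map_ofNat, map_natCast]
      norm_num
    rw [e]
    refine (_root_.map_ne_zero _).2 (ap_ne fun h => c4 ?_)
    have := congrArg (fun t => coeff t 3) h
    simpa only [coeff_add, coeff_C_mul, coeff_X_pow, if_true, mul_one, coeff_zero,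
      show ¬(3 = 2) by decide, if_false, mul_zero, add_zero] using this

lemma jj_mem {k : Type} [Field k] [DecidableEq k] {A B : k} {F : Subfield k} (hA : A ∈ F)
    (hB : B ∈ F) {D : Finset (Pt A B)} (h : ∀ P ∈ D.erase 0, xc P ∈ F) :
    jj (vA D) (vB D) ∈ F := by
  have h1 : ∀ P ∈ D.erase 0, ca P ∈ F := fun P hP =>
    add_mem (mul_mem (ofNat_mem F 3) (pow_mem (h P hP) 2)) hA
  have h2 : ∀ P ∈ D.erase 0, cb P ∈ F := fun P hP =>
    mul_mem (ofNat_mem F 2) (add_mem (add_mem (pow_mem (h P hP) 3) (mul_mem hA (h P hP))) hB)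
  have h3 : vA D ∈ F := sub_mem hA (mul_mem (ofNat_mem F 5) (sum_mem h1))
  have h4 : vB D ∈ F := sub_mem hB (mul_mem (ofNat_mem F 7)
    (sum_mem fun P hP => add_mem (mul_mem (h1 P hP) (h P hP)) (h2 P hP)))
  exact div_mem (mul_mem (ofNat_mem F 6912) (pow_mem h3 3))
    (add_mem (mul_mem (ofNat_mem F 4) (pow_mem h3 3)) (mul_mem (ofNat_mem F 27) (pow_mem h4 2)))

/-- the torsion points of order prime to `l` are separable -/
lemma sep_x [DecidableEq (LL (ZMod l))] {π : Plc (LL ℚ) (LL (ZMod l))}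
    (hπ : ∀ g : ℤ[X], Ev π (zL g) (aL (ap (rm l g)))) {m : ℕ}
    (t : Tm (aL (ap X) : LL (ZMod l)) (aL (ap X)) m)
    {P : Pt (aL (ap X) : LL (ZMod l)) (aL (ap X))}
    (hP : P ∈ (tors (aL (ap X) : LL (ZMod l)) (aL (ap X)) m).erase 0) :
    xc P ∈ separableClosure (RatFunc (ZMod l)) (LL (ZMod l)) := by
  classical
  have tT : Tm TT TT m := tm_char good_TT t.pos
  obtain ⟨G, hG⟩ := (mem_lifts (f := zL) (xp TT TT m)).1 ((lifts_iff_coeff_lifts _).2 fun n =>
    exists_zpoly (fun σ => (ev_triv σ.toRingEquiv.toRingHom _).unique (ev_xp (rd_gal σ) tT n))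
      fun O hO => xp_mem tT O hO hO n)
  have a : Ev π TT (aL (ap X)) := (hπ X).congr (by simp [zL]) (by simp)
  have e : (G.map (ap.comp (rm l))).map aL = xp (aL (ap X) : LL (ZMod l)) (aL (ap X)) m := by
    ext n
    have h1 := ev_xp (rd_of a a t.good) t n
    rw [← hG, coeff_map] at h1
    rw [coeff_map, coeff_map]
    exact (hπ (G.coeff n)).unique h1
  have hs : (G.map (ap.comp (rm l))).Separable := by
    rw [← separable_map (aL (k := ZMod l)), e, xp]
    exact separable_prod_X_sub_C_iff'.2 fun x _ y _ h => mul_left_cancel₀ t.ne h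
  have h0 : aeval ((m : LL (ZMod l)) * xc P) (G.map (ap.comp (rm l))) = 0 := by
    rw [aeval_def, ← eval_map, e, xp, eval_prod]
    exact Finset.prod_eq_zero (Finset.mem_image_of_mem xc hP) (by simp)
  have h1 : (m : LL (ZMod l)) * xc P ∈ separableClosure (RatFunc (ZMod l)) (LL (ZMod l)) :=
    mem_separableClosure_iff.2 (hs.of_dvd (minpoly.dvd _ _ h0))
  have h2 := div_mem h1 (natCast_mem (separableClosure (RatFunc (ZMod l)) (LL (ZMod l))) m)
  rwa [mul_div_cancel_left₀ _ t.ne] at h2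

end GA

theorem gauss : Gauss := by
  classical
  intro l _ h5
  obtain ⟨π, hπ⟩ := GA.exists_place l
  refine ⟨π, hπ, fun m hm _ D hD h => ?_⟩
  have g := GA.good_x (l := l) h5
  have t : Tm (aL (ap X) : LL (ZMod l)) (aL (ap X)) m := by
    refine ⟨g, ?_, ?_⟩
    · have := (_root_.map_ne_zero (cL (k := ZMod l))).2 (GA.cast_ne (a := 0) (b := 1) h5)
      rw [map_natCast] at this
      exact_mod_cast this
    · have := (_root_.map_ne_zero (cL (k := ZMod l))).2
        (fun e => hm ((ZMod.natCast_eq_zero_iff m l).1 e))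
      rwa [map_natCast] at this
  obtain ⟨d1, d2⟩ := t.mem_subs.1 hD
  have hx : (aL (ap X) : LL (ZMod l))
      ∈ (separableClosure (RatFunc (ZMod l)) (LL (ZMod l))).toSubfield :=
    IntermediateField.algebraMap_mem _ _
  have h1 := GA.jj_mem hx hx fun P hP =>
    GA.sep_x hπ t (Finset.erase_subset_erase _ (t.subset d1 d2) hP)
  have : ExpChar (RatFunc (ZMod l)) l := ExpChar.prime Fact.out
  have h2 := IntermediateField.adjoin_simple_eq_adjoin_pow_expChar_of_isSeparable
    (RatFunc (ZMod l)) (LL (ZMod l)) (mem_separableClosure_iff.1 h1) l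
  have e : jj (aL (ap X) : LL (ZMod l)) (aL (ap X)) = aL (jj (ap X) (ap X)) := by
    simp only [jj, map_div₀, map_mul, map_add, map_pow, map_ofNat]
  rw [h, e, IntermediateField.adjoin_simple_eq_bot_iff.2 (IntermediateField.algebraMap_mem _ _),
    IntermediateField.adjoin_simple_eq_bot_iff, IntermediateField.mem_bot] at h2
  obtain ⟨r, hr⟩ := h2
  rw [← hr, e, ← map_pow] at h
  have h3 := (aL (k := ZMod l)).injective h
  have x0 : (ap X : RatFunc (ZMod l)) ≠ 0 := ap_ne X_ne_zero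
  have d0 : (4 * ap X ^ 3 + 27 * ap X ^ 2 : RatFunc (ZMod l)) ≠ 0 := fun e0 => g.disc (by
    simpa only [map_add, map_mul, map_pow, map_ofNat, map_zero] using congrArg aL e0)
  rw [jj, eq_div_iff d0] at h3
  refine GA.not_pow h5 r.num r.denom r.denom_ne_zero (ap_inj ?_)
  simp only [map_add, map_mul, map_pow, map_ofNat, num_eq, mul_pow]
  refine mul_left_cancel₀ (pow_ne_zero 2 x0) ?_
  linear_combination ap r.denom ^ l * h3

end Pool.Agent.MP_c481b3_nt.H28K
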