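import Pool.Agent.MP_c481b3_nt.H28K.SpecG
import Pool.Agent.MP_c481b3_nt.H28K.SpecN
import Pool.Agent.MP_c481b3_nt.H31.Glue

set_option autoImplicit false

namespace Pool.Agent.MP_c481b3_nt.H28K

open Pool.Agent.MP_c481b3_nt.H81 Pool.Agent.MP_c481b3_nt.H28 Pool.Agent.MP_c481b3_nt.H31
  NumberField Filter GlueAux

open Classical in
theorem mainK_of (hC : CountK) (hE : Elk2) (h3 : Cov3) (hA : Allow) (hD : DensL) (hH : Ht)
    {K : Type} [Field K] [NumberField K] (hK : Odd (Module.finrank ℚ K)) {A B : 𝓞 K}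
    (hΔ : (Wc A B).Δ ≠ 0) (H : NoCM (iK A) (iK B)) :
    ∃ c : ℝ, 0 < c ∧ ∀ᶠ x : ℕ in atTop,
      Real.exp (c * Real.log (Real.log x) / Real.log (Real.log (Real.log x)) ^ 2)
        ≤ ({p | SSp A B p ∧ p ≤ x} : Set ℕ).ncard := by
  obtain ⟨M, ρ, M2, ρ1, hM⟩ := hE K A B hK hΔ H
  obtain ⟨L, _, _, M', hL⟩ := hA K A B hΔ
  obtain ⟨e, he⟩ := exists_enum (K := K)
  obtain ⟨C, C1, hC1⟩ := hH K A B hΔ H
  refine hC {p | SSp A B p} _ M (Module.finrank ℚ K) ρ (27 * C * (C + 6))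
    (fun q i n => Cv A B (e q i) q n) (fun _ h => h.1)
    (fun r h => ⟨h.1, (le_max_left _ _).trans_lt h.2.1,
      hL r h.1 ((le_max_right _ _).trans_lt h.2.1) h.2.2⟩) (hD L (max M M')) M2 ρ1
    (fun R l R0 hR hl lM lS l1 l2 hq => ?_) fun p i R hR => h3 K A B _ p R hR
  obtain ⟨P, p, d⟩ := hM R l R0 hR hl lM lS l1 l2 hq
  obtain ⟨i, hi, rfl⟩ := he p P d.prime d.max d.mem
  refine ⟨p, ⟨d.prime, _, d.max, d.mem, d.good, d.zero ▸ dvd_zero _⟩, i, hi,
    by have := d.five; omega, d, ?_⟩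
  have l0 : 0 < (∏ r ∈ R, r) * l := Nat.mul_pos (Finset.prod_pos fun r hr => (hR r hr).1.pos) hl.pos
  generalize (∏ r ∈ R, r) * l = n at d l0
  have l1 : (1 : ℝ) ≤ n := by exact_mod_cast l0
  have k1 := hC1 (2 * n) {e p i} (by
    simp only [Finset.mem_singleton, forall_eq]
    exact ⟨_, n, d, l0, by nlinarith⟩)
  rw [Finset.sum_singleton] at k1
  refine ((log_le d.max d.prime d.mem).trans k1).trans ?_
  have k2 : ((2 * n : ℕ) : ℝ) + 1 ≤ 3 * n := by push_cast; linarith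
  have k0 : (1 : ℝ) ≤ ((2 * n : ℕ) : ℝ) + 1 := le_add_of_nonneg_left (Nat.cast_nonneg _)
  generalize ((2 * n : ℕ) : ℝ) + 1 = u at k0 k2
  have k3 : Real.log (C * u ^ 2) ≤ (C + 6) * n := by
    rw [Real.log_mul (by positivity) (by positivity), Real.log_pow]
    have := Real.log_le_sub_one_of_pos (x := C) (by positivity)
    have := Real.log_le_sub_one_of_pos (x := u) (by positivity)
    push_cast
    nlinarith
  have k4 : 0 ≤ Real.log (C * u ^ 2) := Real.log_nonneg (by nlinarith)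
  calc _ ≤ C * (3 * n) ^ 3 * ((C + 6) * n) := by gcongr
    _ = _ := by ring

end Pool.Agent.MP_c481b3_nt.H28K
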