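import Pool.Agent.MP_c481b3_nt.H28K.GlueI
import Pool.Agent.MP_c481b3_nt.H28K.Elk3
import Pool.Agent.MP_c481b3_nt.H28K.CountK3

set_option autoImplicit false

namespace Pool.Agent.MP_c481b3_nt.H28K

open Pool.Agent.MP_c481b3_nt.H81 Pool.Agent.MP_c481b3_nt.H28 Pool.Agent.MP_c481b3_nt.H31
  NumberField Filter GlueAux

open Classical in
theorem mainT_of (hC : CountK3) (hE : Elk3) (h3 : Cov3) (hA : Allow) (hD : DensL) (hH : Ht)
    {K : Type} [Field K] [NumberField K] {A B : 𝓞 K} (hT : Top A B)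
    (hΔ : (Wc A B).Δ ≠ 0) (H : NoCM (iK A) (iK B)) :
    ∃ c : ℝ, 0 < c ∧ ∀ᶠ x : ℕ in atTop,
      Real.exp (c * Real.log (Real.log x) / Real.log (Real.log (Real.log x)) ^ 2)
        ≤ ({p | SSp A B p ∧ p ≤ x} : Set ℕ).ncard := by
  obtain ⟨M, ρ₁, ρ₂, M2, ρ1, ρ2, hM⟩ := hE K A B hΔ H hT
  obtain ⟨L, _, _, M', hL⟩ := hA K A B hΔ
  obtain ⟨e, he⟩ := exists_enum (K := K)
  obtain ⟨C, C1, hC1⟩ := hH K A B hΔ H
  refine hC {p | SSp A B p} _ M (Module.finrank ℚ K) ρ₁ ρ₂ (27 * C * (C + 6))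
    (fun q i n => Cv A B (e q i) q n) (fun _ h => h.1)
    (fun r h => ⟨h.1, (le_max_left _ _).trans_lt h.2.1,
      hL r h.1 ((le_max_right _ _).trans_lt h.2.1) h.2.2⟩) (hD L (max M M')) M2 ρ1 ρ2
    (fun R l R0 hR hl lM lS l1 l2 hq => ?_) fun p i R hR => h3 K A B _ p R hR
  obtain ⟨P, p, d⟩ := hM R l R0 hR hl lM lS l1 l2 hq
  obtain ⟨i, hi, rfl⟩ := he p P d.prime d.max d.mem
  refine ⟨p, ⟨d.prime, _, d.max, d.mem, d.good, d.zero ▸ dvd_zero _⟩, i, hi,
    by have := d.five; omega, d, ?_⟩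
  have l0 : 0 < (∏ r ∈ R, r) * l := Nat.mul_pos (Finset.prod_pos fun r hr => (hR r hr).1.pos) hl.pos
  generalize (∏ r ∈ R, r) * l = n at d l0
  have l1 : (1 : ℝ) ≤ n := by exact_mod_cast l0
  have k1 := hC1 (2 * n) {e p i} (by
    simp only [Finset.mem_singleton, forall_eq]
    exact ⟨_, n, d, l0, by nlinarith⟩)
  rw [Finset.sum_singleton] at k1
  refine ((log_le d.max d.prime d.mem).trans k1).trans ?_
  have k2 : ((2 * n : ℕ) : ℝ) + 1 ≤ 3 * n := by push_cast; linarith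
  have k0 : (1 : ℝ) ≤ ((2 * n : ℕ) : ℝ) + 1 := le_add_of_nonneg_left (Nat.cast_nonneg _)
  generalize ((2 * n : ℕ) : ℝ) + 1 = u at k0 k2
  have k3 : Real.log (C * u ^ 2) ≤ (C + 6) * n := by
    rw [Real.log_mul (by positivity) (by positivity), Real.log_pow]
    have := Real.log_le_sub_one_of_pos (x := C) (by positivity)
    have := Real.log_le_sub_one_of_pos (x := u) (by positivity)
    push_cast
    nlinarith
  have k4 : 0 ≤ Real.log (C * u ^ 2) := Real.log_nonneg (by nlinarith)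
  calc _ ≤ C * (3 * n) ^ 3 * ((C + 6) * n) := by gcongr
    _ = _ := by ring

theorem mainI3 {K : Type} [Field K] [NumberField K] {A B : 𝓞 K}
    (h : ∃ c : ℝ, 0 < c ∧ ∀ᶠ x : ℕ in atTop,
      Real.exp (c * Real.log (Real.log x) / Real.log (Real.log (Real.log x)) ^ 2)
        ≤ ({p | SSp A B p ∧ p ≤ x} : Set ℕ).ncard) :
    ∃ c : ℝ, 0 < c ∧ ∀ᶠ x : ℝ in atTop,
      Real.exp (c * Real.log (Real.log x) / Real.log (Real.log (Real.log x)) ^ 2)
        ≤ (SSI A B x).ncard := by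
  obtain ⟨c, c0, hc⟩ := h
  have hK : 0 < Module.finrank ℚ K := Module.finrank_pos
  set n := Module.finrank ℚ K with hn
  have n1 : (1 : ℝ) ≤ n := by exact_mod_cast hK
  have t1 : Tendsto (fun X : ℝ => X ^ (n : ℝ)⁻¹) atTop atTop := tendsto_rpow_atTop (by positivity)
  have t2 := tendsto_nat_floor_atTop.comp t1
  have t3 := (Real.tendsto_log_atTop.comp (Real.tendsto_log_atTop.comp
    tendsto_natCast_atTop_atTop)).comp t2
  refine ⟨c / 2, by positivity, ?_⟩
  filter_upwards [t2.eventually hc, t3.eventually_gt_atTop 2, t1.eventually_ge_atTop 4,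
    Real.tendsto_log_atTop.eventually_ge_atTop ((2 * n) ^ 2), eventually_ge_atTop 1]
    with X h1 h3 h4 h5 h6
  simp only [Function.comp_apply] at h1 h3
  set x := ⌊X ^ (n : ℝ)⁻¹⌋₊ with hx
  have x1 : (x : ℝ) ≤ X ^ (n : ℝ)⁻¹ := Nat.floor_le (by positivity)
  have x2 : X ^ (n : ℝ)⁻¹ < x + 1 := Nat.lt_floor_add_one _
  have x3 : (x : ℝ) ^ n ≤ X := by
    rw [← Real.rpow_inv_natCast_pow (by positivity : 0 ≤ X) hK.ne']
    gcongr
  have x4 : (x : ℝ) ≤ X := (le_self_pow₀ (by linarith) hK.ne').trans x3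
  refine le_trans (Real.exp_le_exp.2 ?_) (h1.trans (Nat.cast_le.2 (ncard_le' A B x x3)))
  have x5 : Real.log X ≤ 2 * n * Real.log x := by
    have : Real.log (X ^ (n : ℝ)⁻¹) ≤ Real.log ((x : ℝ) ^ 2) :=
      Real.log_le_log (by positivity) (by nlinarith)
    rw [Real.log_rpow (by positivity), Real.log_pow, inv_mul_le_iff₀ (by positivity)] at this
    push_cast at this
    linarith
  have x6 : 0 < Real.log x := Real.log_pos (by linarith)
  have x7 : 0 < Real.log X := Real.log_pos (by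
    have : (1 : ℝ) < x := by linarith
    linarith)
  have x8 : Real.log X ≤ Real.log x ^ 2 := by
    have : 2 * n ≤ Real.log x := le_of_mul_le_mul_left (by nlinarith) (by positivity : 0 < 2 * (n : ℝ))
    nlinarith
  have x9 : Real.log (Real.log X) ≤ 2 * Real.log (Real.log x) := by
    have := Real.log_le_log x7 x8
    rwa [Real.log_pow] at this
  have y1 : Real.log (Real.log x) ≤ Real.log (Real.log X) :=
    Real.log_le_log x6 (Real.log_le_log (by linarith) x4)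
  have y2 : 0 < Real.log (Real.log (Real.log x)) := Real.log_pos (by linarith)
  have y3 : Real.log (Real.log (Real.log x)) ≤ Real.log (Real.log (Real.log X)) :=
    Real.log_le_log (by linarith) y1
  calc _ ≤ c / 2 * (2 * Real.log (Real.log x)) / Real.log (Real.log (Real.log x)) ^ 2 := by gcongr
    _ ≤ _ := div_le_div_of_nonneg_right (by nlinarith) (by positivity)

lemma count_transfer {S S' : ℕ → Prop} {M : ℕ} (hM : ∀ p, M < p → S' p → S p)
    (h : ∃ c : ℝ, 0 < c ∧ ∀ᶠ x : ℕ in atTop,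
      Real.exp (c * Real.log (Real.log x) / Real.log (Real.log (Real.log x)) ^ 2)
        ≤ ({p | S' p ∧ p ≤ x} : Set ℕ).ncard) :
    ∃ c : ℝ, 0 < c ∧ ∀ᶠ x : ℕ in atTop,
      Real.exp (c * Real.log (Real.log x) / Real.log (Real.log (Real.log x)) ^ 2)
        ≤ ({p | S p ∧ p ≤ x} : Set ℕ).ncard := by
  obtain ⟨c, c0, hc⟩ := h
  have t2 : Tendsto (fun x : ℕ => Real.log (Real.log x)) atTop atTop :=
    Real.tendsto_log_atTop.comp (Real.tendsto_log_atTop.comp tendsto_natCast_atTop_atTop)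
  have t5 := ((Real.tendsto_exp_div_pow_atTop 2).const_mul_atTop (half_pos c0)).comp
    (Real.tendsto_log_atTop.comp t2)
  refine ⟨c / 2, half_pos c0, ?_⟩
  filter_upwards [hc, t2.eventually_gt_atTop 0, t5.eventually_ge_atTop (M + 1)] with x h1 h2 h3
  simp only [Function.comp] at h3
  rw [Real.exp_log h2, ← mul_div_assoc] at h3
  have h4 : ({p | S' p ∧ p ≤ x} : Set ℕ).ncard ≤ ({p | S p ∧ p ≤ x} : Set ℕ).ncard + (M + 1) := by
    have f : ({p | S p ∧ p ≤ x} : Set ℕ).Finite := (Set.finite_Iic x).subset fun p hp => hp.2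
    refine le_trans (Set.ncard_le_ncard (t := {p | S p ∧ p ≤ x} ∪ (Finset.range (M + 1) : Set ℕ))
      (fun p hp => ?_) (f.union (Finset.finite_toSet _))) ((Set.ncard_union_le _ _).trans ?_)
    · by_cases g : M < p
      · exact Or.inl ⟨hM p g hp.1, hp.2⟩
      · exact Or.inr (Finset.mem_coe.2 (Finset.mem_range.2 (by omega)))
    · rw [Set.ncard_coe_finset, Finset.card_range]
  have h5 : (({p | S' p ∧ p ≤ x} : Set ℕ).ncard : ℝ)
      ≤ ({p | S p ∧ p ≤ x} : Set ℕ).ncard + (M + 1) := by exact_mod_cast h4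
  rw [show c * Real.log (Real.log x) / Real.log (Real.log (Real.log x)) ^ 2
    = c / 2 * Real.log (Real.log x) / Real.log (Real.log (Real.log x)) ^ 2
      + c / 2 * Real.log (Real.log x) / Real.log (Real.log (Real.log x)) ^ 2 by ring,
    Real.exp_add] at h1
  generalize c / 2 * Real.log (Real.log x) / Real.log (Real.log (Real.log x)) ^ 2 = k at h1 h3 ⊢
  have h6 := Real.add_one_le_exp k
  have h7 : (0 : ℝ) ≤ M := M.cast_nonneg
  nlinarith

open Classical in
theorem mainR_of (hC : CountK3) (hE : Elk3) (h3 : Cov3) (hA : Allow) (hD : DensL) (hH : Ht)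
    (hR : Red) (hN : NcT) (hS : SsT) {K : Type} [Field K] [NumberField K] {A B : 𝓞 K}
    (hw : ∃ (τ : K →+* ℂ) (w : ℝ), τ A ^ 3 = w * τ B ^ 2) (hΔ : (Wc A B).Δ ≠ 0)
    (H : NoCM (iK A) (iK B)) :
    ∃ c : ℝ, 0 < c ∧ ∀ᶠ x : ℝ in atTop,
      Real.exp (c * Real.log (Real.log x) / Real.log (Real.log (Real.log x)) ^ 2)
        ≤ (SSI A B x).ncard := by
  obtain ⟨τ, w, hw⟩ := hw
  obtain ⟨a0, b0⟩ := H.ne (good_of_ne (by
    rw [show Wc (iK A) (iK B) = (Wc A B).map iK by ext <;> simp [Wc], WeierstrassCurve.map_Δ]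
    exact (map_ne_zero_iff _ iK_inj).2 hΔ))
  obtain ⟨K', _, _, a, b, e, A', B', ι, k, top⟩ := hR K A B τ w hΔ
    (fun e => a0 (by rw [e, map_zero])) (fun e => b0 (by rw [e, map_zero])) hw
  obtain ⟨M, hM⟩ := hS K K' A B a b e A' B' ι k
  exact mainI3 (count_transfer hM
    (mainT_of hC hE h3 hA hD hH top k.d2 (hN K K' A B a b e A' B' ι k H)))

end Pool.Agent.MP_c481b3_nt.H28K
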