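import Pool.Agent.MP_c481b3_nt.H28K.Glue

set_option autoImplicit false

namespace Pool.Agent.MP_c481b3_nt.H28K

open Pool.Agent.MP_c481b3_nt.H81 Pool.Agent.MP_c481b3_nt.H28 Pool.Agent.MP_c481b3_nt.H31
  NumberField Filter GlueAux

variable {K : Type} [Field K] [NumberField K]

/-- the good supersingular primes of norm at most `x` -/
def SSI (A B : 𝓞 K) (x : ℝ) : Set (Ideal (𝓞 K)) :=
  {P | P.IsMaximal ∧ (Wc A B).Δ ∉ P ∧
    (∃ p : ℕ, p.Prime ∧ (p : 𝓞 K) ∈ P ∧ (p : ℤ) ∣ aP A B P) ∧ (Ideal.absNorm P : ℝ) ≤ x}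

lemma ncard_le' (A B : 𝓞 K) (x : ℕ) {X : ℝ} (h : (x : ℝ) ^ Module.finrank ℚ K ≤ X) :
    ({p | SSp A B p ∧ p ≤ x} : Set ℕ).ncard ≤ (SSI A B X).ncard := by
  have : ∀ p, SSp A B p → ∃ P : Ideal (𝓞 K), P.IsMaximal ∧ (p : 𝓞 K) ∈ P ∧ (Wc A B).Δ ∉ P ∧
    (p : ℤ) ∣ aP A B P := fun p hp => hp.2
  choose! f h1 h2 h3 h4 using this
  refine Set.ncard_le_ncard_of_injOn f
    (fun p hp => ⟨h1 p hp.1, h3 p hp.1, ⟨p, hp.1.1, h2 p hp.1, h4 p hp.1⟩, ?_⟩)
    (fun p hp q hq e => prime_eq (h1 p hp.1) hp.1.1 hq.1.1 (h2 p hp.1) (e ▸ h2 q hq.1)) ?_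
  · refine (norm_le (h1 p hp.1) hp.1.1 (h2 p hp.1)).trans (le_trans ?_ h)
    have : (p : ℝ) ≤ x := by exact_mod_cast hp.2
    gcongr
  · exact (Ideal.finite_setOfPred_absNorm_le ⌊X⌋₊).subset fun P hP => Nat.le_floor hP.2.2.2

theorem mainI_of (hK : Odd (Module.finrank ℚ K)) {A B : 𝓞 K}
    (h : ∃ c : ℝ, 0 < c ∧ ∀ᶠ x : ℕ in atTop,
      Real.exp (c * Real.log (Real.log x) / Real.log (Real.log (Real.log x)) ^ 2)
        ≤ ({p | SSp A B p ∧ p ≤ x} : Set ℕ).ncard) :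
    ∃ c : ℝ, 0 < c ∧ ∀ᶠ x : ℝ in atTop,
      Real.exp (c * Real.log (Real.log x) / Real.log (Real.log (Real.log x)) ^ 2)
        ≤ (SSI A B x).ncard := by
  obtain ⟨c, c0, hc⟩ := h
  set n := Module.finrank ℚ K with hn
  have n1 : (1 : ℝ) ≤ n := by exact_mod_cast hK.pos
  have t1 : Tendsto (fun X : ℝ => X ^ (n : ℝ)⁻¹) atTop atTop := tendsto_rpow_atTop (by positivity)
  have t2 := tendsto_nat_floor_atTop.comp t1
  have t3 := (Real.tendsto_log_atTop.comp (Real.tendsto_log_atTop.comp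
    tendsto_natCast_atTop_atTop)).comp t2
  refine ⟨c / 2, by positivity, ?_⟩
  filter_upwards [t2.eventually hc, t3.eventually_gt_atTop 2, t1.eventually_ge_atTop 4,
    Real.tendsto_log_atTop.eventually_ge_atTop ((2 * n) ^ 2), eventually_ge_atTop 1]
    with X h1 h3 h4 h5 h6
  simp only [Function.comp_apply] at h1 h3
  set x := ⌊X ^ (n : ℝ)⁻¹⌋₊ with hx
  have x1 : (x : ℝ) ≤ X ^ (n : ℝ)⁻¹ := Nat.floor_le (by positivity)
  have x2 : X ^ (n : ℝ)⁻¹ < x + 1 := Nat.lt_floor_add_one _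
  have x3 : (x : ℝ) ^ n ≤ X := by
    rw [← Real.rpow_inv_natCast_pow (by positivity : 0 ≤ X) hK.pos.ne']
    gcongr
  have x4 : (x : ℝ) ≤ X := (le_self_pow₀ (by linarith) hK.pos.ne').trans x3
  refine le_trans (Real.exp_le_exp.2 ?_) (h1.trans (Nat.cast_le.2 (ncard_le' A B x x3)))
  have x5 : Real.log X ≤ 2 * n * Real.log x := by
    have : Real.log (X ^ (n : ℝ)⁻¹) ≤ Real.log ((x : ℝ) ^ 2) :=
      Real.log_le_log (by positivity) (by nlinarith)
    rw [Real.log_rpow (by positivity), Real.log_pow, inv_mul_le_iff₀ (by positivity)] at this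
    push_cast at this
    linarith
  have x6 : 0 < Real.log x := Real.log_pos (by linarith)
  have x7 : 0 < Real.log X := Real.log_pos (by
    have : (1 : ℝ) < x := by linarith
    linarith)
  have x8 : Real.log X ≤ Real.log x ^ 2 := by
    have : 2 * n ≤ Real.log x := le_of_mul_le_mul_left (by nlinarith) (by positivity : 0 < 2 * (n : ℝ))
    nlinarith
  have x9 : Real.log (Real.log X) ≤ 2 * Real.log (Real.log x) := by
    have := Real.log_le_log x7 x8
    rwa [Real.log_pow] at this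
  have y1 : Real.log (Real.log x) ≤ Real.log (Real.log X) :=
    Real.log_le_log x6 (Real.log_le_log (by linarith) x4)
  have y2 : 0 < Real.log (Real.log (Real.log x)) := Real.log_pos (by linarith)
  have y3 : Real.log (Real.log (Real.log x)) ≤ Real.log (Real.log (Real.log X)) :=
    Real.log_le_log (by linarith) y1
  calc _ ≤ c / 2 * (2 * Real.log (Real.log x)) / Real.log (Real.log (Real.log x)) ^ 2 := by gcongr
    _ ≤ _ := div_le_div_of_nonneg_right (by nlinarith) (by positivity)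

end Pool.Agent.MP_c481b3_nt.H28K
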