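import Pool.Agent.MP_c481b3_nt.H28K.SpecN
import Pool.Agent.MP_c481b3_nt.H63.Siegel

/-! The greedy cover, the numbers in one colour and the exceptional primes. -/

namespace Pool.Agent.MP_c481b3_nt.H28K

open Finset

namespace Grx

open Classical in
theorem pick {T A : Finset ℕ} {w : ℕ → ℝ} {θ : ℝ} {k : ℕ → ℕ → Prop} (hw : ∀ r ∈ A, 0 ≤ w r)
    (hW : 0 < ∑ r ∈ A, w r) (h : ∀ p ∈ T, θ * ∑ r ∈ A, w r ≤ ∑ r ∈ A.filter (k p), w r) :
    ∃ r ∈ A, θ * T.card ≤ (T.filter fun p => k p r).card := by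
  by_contra hc
  push Not at hc
  obtain ⟨r₀, hr₀, h0⟩ : ∃ r ∈ A, 0 < w r := by
    by_contra h1
    push Not at h1
    exact absurd (sum_nonpos h1) hW.not_ge
  have h1 : ∑ r ∈ A, w r * ((T.filter fun p => k p r).card : ℝ) <
      ∑ r ∈ A, w r * (θ * T.card) :=
    sum_lt_sum (fun r hr => mul_le_mul_of_nonneg_left (hc r hr).le (hw r hr))
      ⟨r₀, hr₀, mul_lt_mul_of_pos_left (hc r₀ hr₀) h0⟩
  have h2 : ∑ r ∈ A, w r * ((T.filter fun p => k p r).card : ℝ) =
      ∑ p ∈ T, ∑ r ∈ A.filter (k p), w r := by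
    simp only [sum_filter]
    rw [sum_comm]
    refine sum_congr rfl fun r _ => ?_
    rw [← sum_filter, sum_const, nsmul_eq_mul, mul_comm]
  have h3 := card_nsmul_le_sum T _ _ h
  rw [nsmul_eq_mul] at h3
  rw [h2, ← sum_mul] at h1
  linarith

theorem roots {l : ℕ} (hl : l.Prime) (c : ℕ) :
    ((range (3 * l)).filter fun a => l ∣ a ^ 2 + c).card ≤ 6 := by
  have := Fact.mk hl
  rcases ((range (3 * l)).filter fun a => l ∣ a ^ 2 + c).eq_empty_or_nonempty with h | ⟨x, hx⟩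
  · simp [h]
  have key : ∀ a : ℕ, l ∣ a ^ 2 + c → (a : ZMod l) ^ 2 = -c := by
    intro a ha
    have h1 := (ZMod.natCast_eq_zero_iff _ _).2 ha
    push_cast at h1
    exact eq_neg_of_add_eq_zero_left h1
  have h1 := card_le_card_of_injOn (s := (range (3 * l)).filter fun a => l ∣ a ^ 2 + c)
    (t := range 3 ×ˢ ({(x : ZMod l), -(x : ZMod l)} : Finset (ZMod l)))
    (fun a => (a / l, (a : ZMod l))) (fun a ha => ?_) fun a _ b _ hab => ?_
  · refine h1.trans ?_
    rw [card_product, card_range]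
    have := card_le_two (a := (x : ZMod l)) (b := -(x : ZMod l))
    omega
  · obtain ⟨h2, h3⟩ := mem_filter.1 (mem_coe.1 ha)
    refine mem_coe.2 (mem_product.2 ⟨mem_range.2 ?_, ?_⟩)
    · exact (Nat.div_lt_iff_lt_mul hl.pos).2 (mem_range.1 h2)
    · have h4 := (key a h3).trans (key x (mem_filter.1 hx).2).symm
      simpa using sq_eq_sq_iff_eq_or_eq_neg.1 h4
  · obtain ⟨h2, h3⟩ := Prod.mk.inj hab
    have h4 := (ZMod.natCast_eq_natCast_iff' _ _ _).1 h3
    rw [← Nat.div_add_mod a l, ← Nat.div_add_mod b l, h2, h4]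

open H63

theorem ja_prod (a : ℤ) {ι : Type} (s : Finset ι) (f : ι → ℕ) :
    ja a (∏ i ∈ s, f i) = ∏ i ∈ s, ja a (f i) := by
  classical
  induction s using Finset.induction_on with
  | empty => simp [ja_apply, jz_one]
  | insert i s hi ih =>
    rw [prod_insert hi, prod_insert hi, ← ih]
    simp only [ja_apply, jz_mul, Int.cast_mul]

theorem fibre {A : Finset ℕ} (hA : ∀ r ∈ A, r.Prime) (k n : ℕ) :
    ((Fintype.piFinset fun _ : Fin k => A).filter fun f => ∏ i, f i = n).card ≤ k ^ k := by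
  rcases ((Fintype.piFinset fun _ : Fin k => A).filter
    fun f => ∏ i, f i = n).eq_empty_or_nonempty with h | ⟨g, hg⟩
  · simp [h]
  obtain ⟨hg1, hg2⟩ := mem_filter.1 hg
  have h1 : ((Fintype.piFinset fun _ : Fin k => A).filter fun f => ∏ i, f i = n) ⊆
      Fintype.piFinset fun _ : Fin k => univ.image g := by
    intro f hf
    obtain ⟨hf1, hf2⟩ := mem_filter.1 hf
    refine Fintype.mem_piFinset.2 fun i => ?_
    have hp := hA _ (Fintype.mem_piFinset.1 hf1 i)
    have h2 : f i ∣ ∏ j, g j := by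
      rw [hg2, ← hf2]
      exact dvd_prod_of_mem f (mem_univ i)
    obtain ⟨j, -, hj⟩ := (Prime.dvd_finsetProd_iff hp.prime g).1 h2
    exact mem_image.2 ⟨j, mem_univ j,
      ((Nat.prime_dvd_prime_iff_eq hp (hA _ (Fintype.mem_piFinset.1 hg1 j))).1 hj).symm⟩
  refine (card_le_card h1).trans ?_
  rw [Fintype.card_piFinset, prod_const, card_univ, Fintype.card_fin]
  exact Nat.pow_le_pow_left (card_image_le.trans (by simp)) k

theorem moment {E : Finset ℕ} {y : ℕ} (hE : ∀ p ∈ E, p.Prime ∧ p ≠ 2 ∧ p ≤ y) (N : ℕ) :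
    ∑ n ∈ range N, (∑ p ∈ E, ja (-(p : ℤ)) n) ^ 2 ≤
      E.card * (N + E.card * (4 * (y : ℝ) ^ 2)) := by
  have h1 : ∀ p ∈ E, ∀ r ∈ E, ∑ n ∈ range N, ja (-(p : ℤ)) n * ja (-(r : ℤ)) n ≤
      (if p = r then (N : ℝ) else 0) + 4 * (y : ℝ) ^ 2 := by
    intro p hp r hr
    obtain ⟨p1, p2, p3⟩ := hE p hp
    obtain ⟨r1, r2, r3⟩ := hE r hr
    by_cases h : p = r
    · rw [if_pos h]
      have h2 := sum_le_card_nsmul (range N) (fun n => ja (-(p : ℤ)) n * ja (-(r : ℤ)) n) 1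
        fun n _ => (le_abs_self _).trans (by
          rw [abs_mul]
          exact mul_le_one₀ ((ch_prime p1 p2).abs n) (abs_nonneg _) ((ch_prime r1 r2).abs n))
      rw [card_range, nsmul_eq_mul, mul_one] at h2
      exact h2.trans (le_add_of_nonneg_right (by positivity))
    · rw [if_neg h, zero_add]
      have h2 := (ja_ch (by simp [p1.ne_zero, r1.ne_zero]) (two_primes p1 p2 r1 r2 h)).sum N
      simp only [← ja_mul, ArithmeticFunction.pmul_apply] at h2
      refine (le_abs_self _).trans (h2.trans ?_)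
      rw [neg_mul_neg, ← Nat.cast_mul, Int.natAbs_natCast]
      have h3 : 4 * (p * r) ≤ 4 * y ^ 2 := by
        rw [sq]
        exact Nat.mul_le_mul_left 4 (Nat.mul_le_mul p3 r3)
      exact_mod_cast h3
  simp only [sq (∑ p ∈ E, _), sum_mul_sum]
  rw [sum_comm]
  refine (sum_le_card_nsmul _ _ _ fun p hp => ?_).trans_eq (nsmul_eq_mul _ _)
  rw [sum_comm]
  refine (sum_le_sum fun r hr => h1 p hp r hr).trans_eq ?_
  rw [sum_add_distrib, sum_ite_eq, if_pos hp, sum_const, nsmul_eq_mul]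

end Grx

open Grx

theorem greedy : Greedy := by
  classical
  intro T A w θ k hθ hw hW
  induction hn : T.card using Nat.strong_induction_on generalizing T with
  | _ n ih =>
  intro h
  subst hn
  rcases T.eq_empty_or_nonempty with rfl | hT
  · exact ⟨∅, empty_subset _, by simp, by simp⟩
  obtain ⟨r, hr, h1⟩ := pick hw hW h
  have hT0 : (0 : ℝ) < T.card := by exact_mod_cast hT.card_pos
  have hL : 0 ≤ Real.log T.card / θ := div_nonneg (Real.log_natCast_nonneg _) hθ.le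
  have h2 : ((T.filter fun p => k p r).card : ℝ) + (T.filter fun p => ¬ k p r).card = T.card := by
    exact_mod_cast card_filter_add_card_filter_not (s := T) fun p => k p r
  rcases (T.filter fun p => ¬ k p r).eq_empty_or_nonempty with h3 | h3
  · refine ⟨{r}, singleton_subset_iff.2 hr, by simpa using hL, fun p hp => ⟨r, by simp, ?_⟩⟩
    by_contra h4
    exact notMem_empty p (h3 ▸ mem_filter.2 ⟨hp, h4⟩)
  have h4 : (0 : ℝ) < (T.filter fun p => ¬ k p r).card := by exact_mod_cast h3.card_pos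
  have h5 : ((T.filter fun p => ¬ k p r).card : ℝ) < T.card := by
    have := mul_pos hθ hT0
    linarith
  obtain ⟨R, hR1, hR2, hR3⟩ := ih _ (by exact_mod_cast h5) (T.filter fun p => ¬ k p r) rfl
    fun p hp => h p (mem_filter.1 hp).1
  refine ⟨insert r R, insert_subset hr hR1, ?_, fun p hp => ?_⟩
  · have h6 : ((insert r R).card : ℝ) ≤ R.card + 1 := by exact_mod_cast card_insert_le r R
    have h7 := Real.log_le_sub_one_of_pos (div_pos h4 hT0)
    rw [Real.log_div h4.ne' hT0.ne'] at h7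
    have h8 : ((T.filter fun p => ¬ k p r).card : ℝ) / T.card ≤ 1 - θ := by
      rw [div_le_iff₀ hT0]
      linarith
    have h9 : Real.log (T.filter fun p => ¬ k p r).card / θ ≤ Real.log T.card / θ - 1 := by
      rw [div_le_iff₀ hθ, sub_mul, div_mul_cancel₀ _ hθ.ne']
      linarith
    linarith
  · by_cases h6 : k p r
    · exact ⟨r, mem_insert_self _ _, h6⟩
    · obtain ⟨s, hs, h7⟩ := hR3 p (mem_filter.2 ⟨hp, h6⟩)
      exact ⟨s, mem_insert_of_mem hs, h7⟩

theorem cover2 : Cover2 := by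
  intro p l T hl hp h
  have hp0 : (0 : ℝ) < √p := Real.sqrt_pos.2 (by exact_mod_cast hp)
  set B := ⌊3 * (l / √p : ℝ)⌋₊ with hB
  have h1 : T ⊆ ((range (B + 1)).sigma fun b => (range (3 * l)).filter
      fun a => l ∣ a ^ 2 + p * b ^ 2).image fun x => (x.2 ^ 2 + p * x.1 ^ 2) / (4 * l) := by
    intro m hm
    obtain ⟨h2, a, b, h3⟩ := h m hm
    have h4 : 4 * l * m = a.natAbs ^ 2 + p * b.natAbs ^ 2 := by
      zify
      rw [sq_abs, sq_abs]
      exact h3
    generalize a.natAbs = a at h4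
    generalize b.natAbs = b at h4
    have h5 : 4 * l * m ≤ 8 * l ^ 2 := by nlinarith
    have hl0 := hl.pos
    refine mem_image.2 ⟨⟨b, a⟩, mem_sigma.2 ⟨mem_range.2 (Nat.lt_succ_of_le ?_),
      mem_filter.2 ⟨mem_range.2 ?_, ?_⟩⟩, ?_⟩
    · refine Nat.le_floor ?_
      show (b : ℝ) ≤ _
      rw [← mul_div_assoc, le_div_iff₀ hp0]
      refine le_of_sq_le_sq ?_ (by positivity)
      have h6 : b ^ 2 * p ≤ (3 * l) ^ 2 := by nlinarith [Nat.zero_le (a ^ 2)]
      rw [mul_pow, Real.sq_sqrt (Nat.cast_nonneg p)]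
      exact_mod_cast h6
    · show a < 3 * l
      refine lt_of_pow_lt_pow_left₀ 2 (Nat.zero_le _) ?_
      nlinarith [Nat.zero_le (p * b ^ 2), Nat.pow_pos (n := 2) hl0]
    · show l ∣ a ^ 2 + p * b ^ 2
      exact ⟨4 * m, by rw [← h4]; ring⟩
    · show (a ^ 2 + p * b ^ 2) / (4 * l) = m
      rw [← h4, Nat.mul_div_cancel_left _ (by positivity)]
  have h2 : T.card ≤ (B + 1) * 6 := by
    refine (card_le_card h1).trans (card_image_le.trans ?_)
    rw [card_sigma]
    refine (sum_le_card_nsmul _ _ 6 fun b _ => roots hl _).trans ?_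
    simp
  have h3 : (T.card : ℝ) ≤ (B + 1) * 6 := by exact_mod_cast h2
  have h4 : 0 ≤ (l / √p : ℝ) := by positivity
  have h5 : (B : ℝ) ≤ 3 * (l / √p : ℝ) := Nat.floor_le (by positivity)
  linarith

theorem exc : Exc := by
  intro A E z y k hA hA0 hE hz
  rcases E.eq_empty_or_nonempty with rfl | ⟨p₀, hp₀⟩
  · rw [card_empty, Nat.cast_zero]
    positivity
  have ha : (0 : ℝ) < A.card := by exact_mod_cast hA0.card_pos
  have he : (0 : ℝ) < E.card := by exact_mod_cast card_pos.2 ⟨p₀, hp₀⟩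
  have hy : 1 ≤ y := (hE p₀ hp₀).1.one_le.trans (hE p₀ hp₀).2.2.1
  have hey : E.card ≤ y := by
    refine (card_le_card (t := Icc 1 y) fun p hp =>
      mem_Icc.2 ⟨(hE p hp).1.one_le, (hE p hp).2.2.1⟩).trans (by simp)
  set F := Fintype.piFinset fun _ : Fin k => A with hF
  set S : ℕ → ℝ := fun n => ∑ p ∈ E, H63.ja (-(p : ℤ)) n with hS
  have h1 : E.card * ((A.card : ℝ) / 2) ^ k ≤ ∑ f ∈ F, S (∏ i, f i) := by
    simp only [hS]
    rw [sum_comm, ← nsmul_eq_mul]
    refine card_nsmul_le_sum _ _ _ fun p hp => ?_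
    simp only [ja_prod]
    rw [hF, ← sum_pow' A fun r => H63.ja (-(p : ℤ)) r]
    refine pow_le_pow_left₀ (by positivity) ?_ k
    have h2 : ∑ r ∈ A, H63.ja (-(p : ℤ)) r = ((∑ r ∈ A, jacobiSym (-(p : ℤ)) r : ℤ) : ℝ) := by
      rw [Int.cast_sum]
      refine sum_congr rfl fun r hr => ?_
      rw [H63.ja_apply, H63.jz, if_pos ((hA r hr).1.odd_of_ne_two (hA r hr).2.1)]
    have h3 : (A.card : ℝ) ≤ 2 * ((∑ r ∈ A, jacobiSym (-(p : ℤ)) r : ℤ) : ℝ) := by
      exact_mod_cast (hE p hp).2.2.2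
    rw [h2]
    linarith
  have h2 : (∑ f ∈ F, S (∏ i, f i)) ^ 2 ≤ (A.card : ℝ) ^ k * ∑ f ∈ F, S (∏ i, f i) ^ 2 := by
    have h := sq_sum_le_card_mul_sum_sq (s := F) (f := fun f => S (∏ i, f i))
    rw [hF, Fintype.card_piFinset, prod_const, card_univ, Fintype.card_fin, Nat.cast_pow] at h
    exact h
  have h3 : ∑ f ∈ F, S (∏ i, f i) ^ 2 ≤ (k : ℝ) ^ k * ∑ n ∈ range (z ^ k + 1), S n ^ 2 := by
    rw [← sum_fiberwise_of_maps_to (t := range (z ^ k + 1)) (g := fun f => ∏ i, f i), mul_sum]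
    · refine sum_le_sum fun n _ => ?_
      rw [sum_congr rfl fun f hf => by rw [(mem_filter.1 hf).2], sum_const, nsmul_eq_mul]
      refine mul_le_mul_of_nonneg_right ?_ (sq_nonneg _)
      exact_mod_cast fibre (fun r hr => (hA r hr).1) k n
    · intro f hf
      refine mem_range.2 (Nat.lt_succ_of_le ?_)
      refine (prod_le_pow_card _ _ z fun i _ => (hA _ (Fintype.mem_piFinset.1 hf i)).2.2).trans ?_
      simp
  have h4 := moment (fun p hp => ⟨(hE p hp).1, (hE p hp).2.1, (hE p hp).2.2.1⟩) (z ^ k + 1)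
  have h5 : ((z ^ k + 1 : ℕ) : ℝ) + E.card * (4 * (y : ℝ) ^ 2) ≤ 2 * (z : ℝ) ^ k := by
    have h6 : z ^ k + 1 + E.card * (4 * y ^ 2) ≤ 2 * z ^ k := by
      have h7 : E.card * (4 * y ^ 2) ≤ y * (4 * y ^ 2) := Nat.mul_le_mul_right _ hey
      have h8 : 1 ≤ y ^ 3 := Nat.one_le_pow _ _ hy
      have h9 : y * (4 * y ^ 2) = 4 * y ^ 3 := by ring
      omega
    exact_mod_cast h6
  have h6 : (E.card * ((A.card : ℝ) / 2) ^ k) ^ 2 ≤
      (A.card : ℝ) ^ k * ((k : ℝ) ^ k * (E.card * (2 * (z : ℝ) ^ k))) := by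
    refine (pow_le_pow_left₀ (by positivity) h1 2).trans (h2.trans ?_)
    refine mul_le_mul_of_nonneg_left (h3.trans ?_) (by positivity)
    exact mul_le_mul_of_nonneg_left (h4.trans (mul_le_mul_of_nonneg_left h5 he.le))
      (by positivity)
  have h7 : (0 : ℝ) < (A.card : ℝ) ^ k := by positivity
  have h8 : (0 : ℝ) < (2 : ℝ) ^ k := by positivity
  have h9 : (4 : ℝ) ^ k = 2 ^ k * 2 ^ k := by
    rw [← mul_pow]
    norm_num
  rw [div_pow, mul_pow, mul_pow, h9, ← mul_div_assoc, le_div_iff₀ h7]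
  rw [div_pow] at h6
  generalize (A.card : ℝ) ^ k = a at *
  generalize (2 : ℝ) ^ k = t at *
  have h10 : (E.card * (a / t)) ^ 2 = (a * E.card) * (E.card * a) / (t * t) := by
    field_simp
  rw [h10, div_le_iff₀ (mul_pos h8 h8)] at h6
  refine le_of_mul_le_mul_left (h6.trans_eq (by ring)) (mul_pos h7 he)

end Pool.Agent.MP_c481b3_nt.H28K
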