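import Pool.Agent.MP_c481b3_nt.H28K.SpecN

set_option autoImplicit false

namespace Pool.Agent.MP_c481b3_nt.H28K

namespace KillA

theorem log_nat_le (n : ℕ) (b : ℝ) (hb : 0 ≤ b) (h : (n : ℝ) ≤ Real.exp b) : Real.log n ≤ b := by
  rcases Nat.eq_zero_or_pos n with rfl | hn
  · simpa using hb
  · exact (Real.log_le_iff_le_exp (by exact_mod_cast hn)).2 h

theorem inert_count (F : Finset ℕ) (p : ℕ) (hp : p.Prime) (hF : ∀ r ∈ F, r.Prime ∧ r ≠ p)
    (h : ¬ (F.card : ℤ) ≤ 2 * ∑ r ∈ F, jacobiSym (-(p : ℤ)) r) :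
    (1 / 4 : ℝ) * F.card ≤ (F.filter fun r => jacobiSym (-(p : ℤ)) r = -1).card := by
  have h1 : ∑ r ∈ F, jacobiSym (-(p : ℤ)) r =
      ∑ r ∈ F, ((1 : ℤ) - 2 * if jacobiSym (-(p : ℤ)) r = -1 then 1 else 0) := by
    refine Finset.sum_congr rfl fun r hr => ?_
    have hg : Int.gcd (-(p : ℤ)) r = 1 := by
      rw [Int.neg_gcd, Int.gcd_natCast_natCast]
      exact (Nat.coprime_primes hp (hF r hr).1).2 (hF r hr).2.symm
    rcases jacobiSym.eq_one_or_neg_one hg with h | h <;> simp [h]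
  rw [h1, Finset.sum_sub_distrib, ← Finset.mul_sum, Finset.sum_boole] at h
  simp only [Finset.sum_const, nsmul_eq_mul, mul_one] at h
  have h2 : (F.card : ℤ) ≤ 4 * ((F.filter fun r => jacobiSym (-(p : ℤ)) r = -1).card : ℤ) := by
    omega
  have h3 : (F.card : ℝ) ≤ 4 * ((F.filter fun r => jacobiSym (-(p : ℤ)) r = -1).card : ℝ) := by
    exact_mod_cast h2
  linarith

/-- one stage -/
theorem step (hG : Greedy) (hE : Exc) (A : Set ℕ) (hA : ∀ r ∈ A, r.Prime ∧ r ≠ 2) (C0 : ℝ)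
    (hC0 : 1 ≤ C0)
    (hD : ∀ y : ℝ, C0 ≤ y → ∃ (z : ℕ) (F : Finset ℕ), y ≤ z ∧ (z : ℝ) ≤ y ^ C0 ∧
      (∀ r ∈ F, r ∈ A ∧ r ≤ z) ∧ z / (C0 * Real.log z) ≤ F.card)
    (a : ℕ) (K L M u b : ℝ) (hK : K = Real.exp L) (hL : L = Real.exp M)
    (hM : 4 * C0 ^ 2 * (3 * a + 5) ≤ M) (hu1 : C0 ≤ u) (hu2 : u ≤ 2 * L) (hb : 0 ≤ b)
    (T : Finset ℕ) (hT : (T.card : ℝ) ≤ Real.exp b)
    (hp : ∀ p ∈ T, p.Prime ∧ p ≠ 2 ∧ p ∉ A ∧ (p : ℝ) ≤ K ^ a) :
    ∃ R E : Finset ℕ, E ⊆ T ∧ (E.card : ℝ) ≤ Real.exp ((6 * a + 12) * (L * M) / u) ∧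
      (∀ r ∈ R, r ∈ A ∧ Real.log r ≤ C0 * u) ∧ (R.card : ℝ) ≤ 4 * b + 1 ∧
      ∀ p ∈ T, p ∉ E → ∃ r ∈ R, jacobiSym (-(p : ℤ)) r = -1 := by
  classical
  have ha : (0 : ℝ) ≤ a := Nat.cast_nonneg a
  have hu0 : 0 < u := by linarith
  have hM1 : 1 ≤ M := by nlinarith
  have hML : M ≤ L := by rw [hL]; linarith [Real.add_one_le_exp M]
  have hL1 : 1 ≤ L := by linarith
  obtain ⟨z, F, hz1, hz2, hF, hFc⟩ := hD (Real.exp u) (by linarith [Real.add_one_le_exp u])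
  have hz0 : (0 : ℝ) < z := lt_of_lt_of_le (Real.exp_pos u) hz1
  have hlz1 : u ≤ Real.log z := (Real.le_log_iff_exp_le hz0).2 hz1
  have hlz2 : Real.log z ≤ C0 * u := by
    rw [Real.log_le_iff_le_exp hz0, mul_comm, Real.exp_mul]
    exact hz2
  have hden : 0 < C0 * Real.log z := mul_pos (by linarith) (by linarith)
  have hF0 : (0 : ℝ) < F.card := lt_of_lt_of_le (div_pos hz0 hden) hFc
  have hFn : F.Nonempty := Finset.card_pos.1 (by exact_mod_cast hF0)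
  set k : ℕ := ⌈(3 * a + 3) * L / u⌉₊ with hk
  have hk1 : (3 * a + 3) * L ≤ k * u := by
    have := Nat.le_ceil ((3 * a + 3) * L / u)
    rwa [div_le_iff₀ hu0] at this
  have hk2 : k * u ≤ (3 * a + 5) * L := by
    have := (Nat.ceil_lt_add_one (show (0 : ℝ) ≤ (3 * a + 3) * L / u by positivity)).le
    have h2 : (k : ℝ) * u ≤ ((3 * a + 3) * L / u + 1) * u := mul_le_mul_of_nonneg_right this hu0.le
    rw [add_mul, div_mul_cancel₀ _ hu0.ne'] at h2
    linarith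
  have hK2 : 2 ≤ K := by rw [hK]; linarith [Real.add_one_le_exp L]
  set y : ℕ := ⌊K ^ a⌋₊ with hy
  have hyz : 8 * y ^ 3 ≤ z ^ k := by
    have h1 : (y : ℝ) ≤ K ^ a := Nat.floor_le (by positivity)
    have h2 : (8 : ℝ) * (y : ℝ) ^ 3 ≤ K ^ (3 * a + 3) := by
      have h3 : (8 : ℝ) ≤ K ^ 3 := by
        calc (8 : ℝ) = 2 ^ 3 := by norm_num
          _ ≤ K ^ 3 := pow_le_pow_left₀ (by norm_num) hK2 3
      have h4 : (y : ℝ) ^ 3 ≤ (K ^ a) ^ 3 := pow_le_pow_left₀ (Nat.cast_nonneg y) h1 3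
      calc (8 : ℝ) * (y : ℝ) ^ 3 ≤ K ^ 3 * (K ^ a) ^ 3 :=
            mul_le_mul h3 h4 (by positivity) (by positivity)
        _ = K ^ (3 * a + 3) := by ring
    have h5 : K ^ (3 * a + 3) ≤ (z : ℝ) ^ k := by
      calc K ^ (3 * a + 3) = Real.exp (((3 * a + 3 : ℕ) : ℝ) * L) := by
            rw [Real.exp_nat_mul, hK]
        _ ≤ Real.exp (k * u) := Real.exp_le_exp.2 (by push_cast; exact hk1)
        _ = Real.exp u ^ k := Real.exp_nat_mul u k
        _ ≤ (z : ℝ) ^ k := pow_le_pow_left₀ (Real.exp_pos u).le hz1 k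
    exact_mod_cast h2.trans h5
  set E := T.filter fun p : ℕ => (F.card : ℤ) ≤ 2 * ∑ r ∈ F, jacobiSym (-(p : ℤ)) r with hEd
  have hEc := hE F E z y k (fun r hr => ⟨(hA r (hF r hr).1).1, (hA r (hF r hr).1).2, (hF r hr).2⟩)
    hFn (fun p hpE => by
      obtain ⟨h1, h2⟩ := Finset.mem_filter.1 hpE
      exact ⟨(hp p h1).1, (hp p h1).2.1, Nat.le_floor (hp p h1).2.2.2, h2⟩) hyz
  have hbase : 4 * (k : ℝ) * z / F.card ≤ Real.exp (2 * M) := by
    rw [div_le_iff₀ hden] at hFc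
    rw [div_le_iff₀ hF0]
    have h1 : (k : ℝ) * (C0 * Real.log z) ≤ C0 ^ 2 * ((3 * a + 5) * L) := by
      calc (k : ℝ) * (C0 * Real.log z) ≤ k * (C0 * (C0 * u)) := by gcongr
        _ = C0 ^ 2 * (k * u) := by ring
        _ ≤ _ := by gcongr
    have h2 : 4 * (C0 ^ 2 * ((3 * a + 5) * L)) ≤ Real.exp (2 * M) := by
      calc 4 * (C0 ^ 2 * ((3 * a + 5) * L)) = (4 * C0 ^ 2 * (3 * a + 5)) * L := by ring
        _ ≤ L * L := mul_le_mul_of_nonneg_right (hM.trans hML) (by linarith)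
        _ = Real.exp (2 * M) := by rw [hL, ← Real.exp_add]; ring_nf
    calc 4 * (k : ℝ) * z ≤ 4 * k * (F.card * (C0 * Real.log z)) := by gcongr
      _ = 4 * (k * (C0 * Real.log z)) * F.card := by ring
      _ ≤ Real.exp (2 * M) * F.card := by
        refine mul_le_mul_of_nonneg_right ?_ hF0.le
        linarith
  have hEc2 : (E.card : ℝ) ≤ Real.exp ((6 * a + 12) * (L * M) / u) := by
    have h1 : (4 * (k : ℝ) * z / F.card) ^ k ≤ Real.exp (k * (2 * M)) := by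
      rw [Real.exp_nat_mul]
      exact pow_le_pow_left₀ (by positivity) hbase k
    have h2 : (2 : ℝ) ≤ Real.exp 1 := by linarith [Real.add_one_le_exp (1 : ℝ)]
    have h3 : 1 + k * (2 * M) ≤ (6 * a + 12) * (L * M) / u := by
      rw [le_div_iff₀ hu0]
      have h4 : k * u * (2 * M) ≤ (3 * a + 5) * L * (2 * M) :=
        mul_le_mul_of_nonneg_right hk2 (by linarith)
      have h5 : L ≤ L * M := le_mul_of_one_le_right (by linarith) hM1
      nlinarith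
    calc (E.card : ℝ) ≤ 2 * (4 * (k : ℝ) * z / F.card) ^ k := hEc
      _ ≤ Real.exp 1 * Real.exp (k * (2 * M)) := mul_le_mul h2 h1 (by positivity) (by positivity)
      _ = Real.exp (1 + k * (2 * M)) := (Real.exp_add _ _).symm
      _ ≤ _ := Real.exp_le_exp.2 h3
  obtain ⟨R, hRF, hRc, hRk⟩ := hG (T \ E) F (fun _ => 1) (1 / 4)
    (fun p r => jacobiSym (-(p : ℤ)) r = -1) (by norm_num) (fun _ _ => zero_le_one)
    (by simpa using hFn) (fun p hpT => by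
      obtain ⟨h1, h2⟩ := Finset.mem_sdiff.1 hpT
      have h3 := inert_count F p (hp p h1).1
        (fun r hr => ⟨(hA r (hF r hr).1).1, fun h => (hp p h1).2.2.1 (h ▸ (hF r hr).1)⟩)
        (fun h => h2 (Finset.mem_filter.2 ⟨h1, h⟩))
      simp only [Finset.sum_const, nsmul_eq_mul, mul_one]
      rw [Finset.filter_congr_decidable]
      exact h3)
  refine ⟨R, E, Finset.filter_subset _ _, hEc2, fun r hr => ⟨(hF r (hRF hr)).1, ?_⟩, ?_,
    fun p h1 h2 => hRk p (Finset.mem_sdiff.2 ⟨h1, h2⟩)⟩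
  · refine le_trans (Real.log_le_log ?_ ?_) hlz2
    · exact_mod_cast (hA r (hF r (hRF hr)).1).1.pos
    · exact_mod_cast (hF r (hRF hr)).2
  · have h1 : Real.log ((T \ E).card) ≤ b := by
      refine log_nat_le _ b hb (le_trans ?_ hT)
      exact_mod_cast Finset.card_le_card Finset.sdiff_subset
    linarith

/-- the last stage -/
theorem last (hG : Greedy) (Cw : ℝ)
    (hW : ∀ (y : ℝ) (B : Finset ℕ), Cw ≤ y → (B.card : ℝ) ≤ y →
      ∃ (A : Finset ℕ) (w : ℕ → ℝ),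
        (∀ r ∈ A, r.Prime ∧ y < r ∧ (r : ℝ) ≤ y ^ Cw ∧ r ∉ B ∧ 0 ≤ w r) ∧ 0 < ∑ r ∈ A, w r ∧
        ∀ p : ℕ, p.Prime → p ≠ 2 → (p : ℝ) ≤ y →
          1 / 8 * ∑ r ∈ A, w r ≤ ∑ r ∈ A.filter (fun r => jacobiSym (-(p : ℤ)) r = -1), w r)
    (a : ℕ) (K L b : ℝ) (hK : K = Real.exp L) (hL : 0 ≤ L) (hKC : Cw ≤ K) (hb : 0 ≤ b)
    (T B : Finset ℕ) (hB : (B.card : ℝ) ≤ K) (hT : (T.card : ℝ) ≤ Real.exp b)
    (hp : ∀ p ∈ T, p.Prime ∧ p ≠ 2 ∧ (p : ℝ) ≤ K ^ a) :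
    ∃ R : Finset ℕ, (∀ r ∈ R, r.Prime ∧ K < r ∧ r ∉ B ∧ Real.log r ≤ Cw * ((a + 1) * L)) ∧
      (R.card : ℝ) ≤ 8 * b + 1 ∧ ∀ p ∈ T, ∃ r ∈ R, jacobiSym (-(p : ℤ)) r = -1 := by
  have hK1 : 1 ≤ K := by rw [hK]; exact Real.one_le_exp hL
  have h1 : K ≤ K ^ (a + 1) := le_self_pow₀ hK1 (Nat.succ_ne_zero a)
  have h2 : K ^ a ≤ K ^ (a + 1) := pow_le_pow_right₀ hK1 (Nat.le_succ a)
  obtain ⟨F, w, hF, hw, hk⟩ := hW (K ^ (a + 1)) B (hKC.trans h1) (hB.trans h1)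
  obtain ⟨R, hRF, hRc, hRk⟩ := hG T F w (1 / 8)
    (fun p r => jacobiSym (-(p : ℤ)) r = -1) (by norm_num) (fun r hr => (hF r hr).2.2.2.2) hw
    (fun p hpT => by
      have h3 := hk p (hp p hpT).1 (hp p hpT).2.1 ((hp p hpT).2.2.trans h2)
      convert h3)
  refine ⟨R, fun r hr => ?_, ?_, hRk⟩
  · obtain ⟨h3, h4, h5, h6, -⟩ := hF r (hRF hr)
    refine ⟨h3, h1.trans_lt h4, h6, ?_⟩
    have h7 : (0 : ℝ) < r := by exact_mod_cast h3.pos
    rw [Real.log_le_iff_le_exp h7, mul_comm, Real.exp_mul]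
    have h8 : Real.exp ((a + 1) * L) = K ^ (a + 1) := by
      rw [hK, ← Real.exp_nat_mul]; push_cast; rfl
    rw [h8]
    exact h5
  · have := log_nat_le _ b hb hT
    linarith

theorem sum_log_le (R : Finset ℕ) (c d : ℝ) (hc : 0 ≤ c) (h : ∀ r ∈ R, Real.log r ≤ c)
    (hd : (R.card : ℝ) ≤ d) : ∑ r ∈ R, Real.log r ≤ d * c := by
  calc ∑ r ∈ R, Real.log r ≤ ∑ _r ∈ R, c := Finset.sum_le_sum h
    _ = R.card * c := by rw [Finset.sum_const, nsmul_eq_mul]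
    _ ≤ d * c := mul_le_mul_of_nonneg_right hd hc

end KillA

open KillA in
theorem kill_of : Greedy → Wt → Exc → Kill := by
  classical
  rintro hG ⟨Cw, hCw, hW⟩ hE A a hA ⟨C0, hC0, hD⟩
  have ha : (0 : ℝ) ≤ a := Nat.cast_nonneg a
  set X : ℝ := 4 * C0 ^ 2 * (3 * a + 5) with hX
  set C2 : ℝ := 6 * a + 12 with hC2
  set C3 : ℝ := 10 * C2 * (C0 + Cw * (a + 1)) with hC3
  have hC21 : 1 ≤ C2 := by linarith
  have hC30 : 0 ≤ C3 := by positivity
  have hXC : C0 ≤ X := by nlinarith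
  refine ⟨Real.exp (Real.exp X) + Cw + 4 * C3, by linarith [Real.exp_pos (Real.exp X)],
    fun K T B hCK hT hB hp => ?_⟩
  have hK0 : Real.exp (Real.exp X) ≤ K := by linarith
  have hKpos : 0 < K := lt_of_lt_of_le (Real.exp_pos _) hK0
  have hKw : Cw ≤ K := by linarith [Real.exp_pos (Real.exp X)]
  set L := Real.log K with hLd
  have hL0 : Real.exp X ≤ L := (Real.le_log_iff_exp_le hKpos).2 hK0
  have hLpos : 0 < L := lt_of_lt_of_le (Real.exp_pos _) hL0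
  set M := Real.log L with hMd
  have hM : X ≤ M := (Real.le_log_iff_exp_le hLpos).2 hL0
  have hK : K = Real.exp L := (Real.exp_log hKpos).symm
  have hL : L = Real.exp M := (Real.exp_log hLpos).symm
  have hM1 : 1 ≤ M := by linarith
  have hML : M ≤ L := by linarith [Real.add_one_le_exp M]
  have hLM : L ≤ L * M := le_mul_of_one_le_right hLpos.le hM1
  have hfin : ∀ (u : ℝ) (T : Finset ℕ), L ≤ u → (T.card : ℝ) ≤ Real.exp (C2 * (L * M) / u) →
      (∀ p ∈ T, p.Prime ∧ p ≠ 2 ∧ p ∉ A ∧ (p : ℝ) ≤ K ^ a) →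
      ∃ R : Finset ℕ, (∀ r ∈ R, r.Prime ∧ (r ∈ A ∨ (K < r ∧ r ∉ B))) ∧
        (R.card : ℝ) ≤ 8 * (C2 * (L * M) / u) + 1 ∧ ∑ r ∈ R, Real.log r ≤ C3 * (L * M) ∧
        ∀ p ∈ T, ∃ r ∈ R, jacobiSym (-(p : ℤ)) r = -1 := by
    intro u T hu hT hp
    have hu0 : 0 < u := by linarith
    obtain ⟨R, h1, h2, h3⟩ := last hG Cw hW a K L (C2 * (L * M) / u) hK hLpos.le hKw
      (by positivity) T B hB hT (fun p h => ⟨(hp p h).1, (hp p h).2.1, (hp p h).2.2.2⟩)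
    refine ⟨R, fun r hr => ⟨(h1 r hr).1, Or.inr ⟨(h1 r hr).2.1, (h1 r hr).2.2.1⟩⟩, h2, ?_, h3⟩
    have h4 : C2 * (L * M) / u ≤ C2 * M := by
      rw [div_le_iff₀ hu0]
      calc C2 * (L * M) = C2 * M * L := by ring
        _ ≤ C2 * M * u := by gcongr
    have h5 : 1 ≤ C2 * M := one_le_mul_of_one_le_of_one_le hC21 hM1
    have h6 := sum_log_le R (Cw * ((a + 1) * L)) (10 * (C2 * M)) (by positivity)
      (fun r hr => (h1 r hr).2.2.2) (by linarith)
    calc _ ≤ _ := h6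
      _ = 10 * C2 * (0 + Cw * (a + 1)) * (L * M) := by ring
      _ ≤ _ := by rw [hC3]; gcongr; linarith
  have hind : ∀ (j : ℕ) (u : ℝ) (T : Finset ℕ), C0 ≤ u → L ≤ 2 ^ j * u →
      (T.card : ℝ) ≤ Real.exp (C2 * (L * M) / u) →
      (∀ p ∈ T, p.Prime ∧ p ≠ 2 ∧ p ∉ A ∧ (p : ℝ) ≤ K ^ a) →
      ∃ R : Finset ℕ, (∀ r ∈ R, r.Prime ∧ (r ∈ A ∨ (K < r ∧ r ∉ B))) ∧
        (R.card : ℝ) ≤ 8 * (C2 * (L * M) / u) + j + 1 ∧
        ∑ r ∈ R, Real.log r ≤ (j + 1) * (C3 * (L * M)) ∧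
        ∀ p ∈ T, ∃ r ∈ R, jacobiSym (-(p : ℤ)) r = -1 := by
    intro j
    induction j with
    | zero =>
      intro u T _ hu hT hp
      simpa using hfin u T (by simpa using hu) hT hp
    | succ j ih =>
      intro u T hu1 hu hT hp
      have hu0 : 0 < u := by linarith
      have hj : (0 : ℝ) ≤ j := Nat.cast_nonneg j
      have h0 : 0 ≤ C3 * (L * M) := by positivity
      rcases le_total L u with hLu | hLu
      · obtain ⟨R, h1, h2, h3, h4⟩ := hfin u T hLu hT hp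
        refine ⟨R, h1, by push_cast; linarith, ?_, h4⟩
        push_cast
        nlinarith
      · obtain ⟨R, E, hET, hEc, hR, hRc, hRk⟩ := step hG hE A hA C0 hC0 hD a K L M (2 * u)
          (C2 * (L * M) / u) hK hL hM (by linarith) (by linarith) (by positivity) T hT hp
        obtain ⟨R', h1, h2, h3, h4⟩ := ih (2 * u) E (by linarith)
          (by rw [pow_succ] at hu; linarith) hEc (fun p h => hp p (hET h))
        have he : C2 * (L * M) / (2 * u) = C2 * (L * M) / u / 2 := by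
          rw [div_div, mul_comm u 2]
        refine ⟨R ∪ R', fun r hr => ?_, ?_, ?_, fun p hpT => ?_⟩
        · rcases Finset.mem_union.1 hr with h | h
          · exact ⟨(hA r (hR r h).1).1, Or.inl (hR r h).1⟩
          · exact h1 r h
        · have h5 : ((R ∪ R').card : ℝ) ≤ R.card + R'.card := by
            exact_mod_cast Finset.card_union_le R R'
          push_cast
          linarith
        · have h5 := Finset.sum_union_inter (s₁ := R) (s₂ := R') (f := fun r : ℕ => Real.log r)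
          have h6 : 0 ≤ ∑ r ∈ R ∩ R', Real.log r :=
            Finset.sum_nonneg fun r _ => Real.log_natCast_nonneg r
          have h7 := sum_log_le R (C0 * (2 * u)) _ (by positivity) (fun r hr => (hR r hr).2) hRc
          have h8 : (4 * (C2 * (L * M) / u) + 1) * (C0 * (2 * u)) ≤ C3 * (L * M) := by
            have h9 : (4 * (C2 * (L * M) / u) + 1) * (C0 * (2 * u)) =
                8 * C2 * C0 * (L * M) + 2 * 1 * C0 * u := by
              field_simp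
              ring
            have h10 : 2 * 1 * C0 * u ≤ 2 * C2 * C0 * (L * M) := by
              gcongr
              linarith
            calc _ ≤ 10 * C2 * (C0 + 0) * (L * M) := by linarith
              _ ≤ _ := by rw [hC3]; gcongr; positivity
          push_cast
          linarith
        · by_cases h : p ∈ E
          · obtain ⟨r, hr, h5⟩ := h4 p h
            exact ⟨r, Finset.mem_union_right _ hr, h5⟩
          · obtain ⟨r, hr, h5⟩ := hRk p hpT h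
            exact ⟨r, Finset.mem_union_left _ hr, h5⟩
  have hu : M ≤ C2 * M := le_mul_of_one_le_left (by linarith) hC21
  have hq : C2 * (L * M) / (C2 * M) = L := by
    field_simp
  have hj1 : (⌈2 * M⌉₊ : ℝ) ≤ 2 * M + 1 := (Nat.ceil_lt_add_one (by linarith)).le
  have hj2 : L ≤ 2 ^ ⌈2 * M⌉₊ := by
    have h1 : M ≤ ⌈2 * M⌉₊ * Real.log 2 := by
      have h2 := Nat.le_ceil (2 * M)
      have h3 := Real.log_two_gt_d9
      nlinarith
    calc L = Real.exp M := hL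
      _ ≤ Real.exp (⌈2 * M⌉₊ * Real.log 2) := Real.exp_le_exp.2 h1
      _ = 2 ^ ⌈2 * M⌉₊ := by rw [Real.exp_nat_mul, Real.exp_log two_pos]
  obtain ⟨R, h1, h2, h3, h4⟩ := hind ⌈2 * M⌉₊ (C2 * M) T (by linarith)
    (hj2.trans (le_mul_of_one_le_right (by positivity) (by linarith)))
    (by rw [hq, ← hK]; exact hT) hp
  refine ⟨R, h1, by rw [hq] at h2; linarith, ?_, h4⟩
  have h0 : 0 ≤ C3 * (L * M) := by positivity
  calc _ ≤ _ := h3
    _ ≤ (4 * M) * (C3 * (L * M)) := mul_le_mul_of_nonneg_right (by linarith) h0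
    _ = 4 * C3 * L * M ^ 2 := by ring
    _ ≤ _ := by gcongr; linarith [Real.exp_pos (Real.exp X)]

end Pool.Agent.MP_c481b3_nt.H28K
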