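import Pool.Agent.MP_c481b3_nt.H28K.SpecG
import Pool.Agent.MP_c481b3_nt.H28.Kron
import Pool.Agent.MP_c481b3_nt.H28.SeedGeo
import Pool.Agent.MP_c481b3_nt.H28.LocC

set_option autoImplicit false

namespace Pool.Agent.MP_c481b3_nt.H28K

open Pool.Agent.MP_c481b3_nt.H81 Pool.Agent.MP_c481b3_nt.H28 Polynomial

namespace KR

lemma ev_subs {L κ : Type*} [Field L] [Field κ] [DecidableEq L] [DecidableEq κ] [IsAlgClosed L]
    [IsAlgClosed κ] {π : Plc L κ} {A B : L} {A' B' : κ} {n : ℕ} (r : Rd π A B A' B')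
    (t : Tm A' B' n) (ho : Odd n) (F : L → L → L) (F' : κ → κ → κ)
    (h : ∀ a b a' b', Ev π a a' → Ev π b b' → Good a' b' → Ev π (F a b) (F' a' b')) :
    Ev π (∏ C ∈ subs A B n, F (vA C) (vB C)) (∏ C ∈ subs A' B' n, F' (vA C) (vB C)) := by
  rw [← image_subs r t, Finset.prod_image (subs_inj r t)]
  refine Ev.prod _ fun C hC => ?_
  obtain ⟨c1, c2⟩ := (t.up r).mem_subs.1 hC
  obtain ⟨d1, d2⟩ := t.mem_subs.1 (red_subs r t hC)
  have hf := red_sub_ne r c1 (c2 ▸ t.ne)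
  exact h _ _ _ _ (ev_vA r c1 hf) (ev_vB r c1 hf) (good_velu t.good t.three d1 (d2.symm ▸ ho))

lemma v_mem {L : Type*} [Field L] [DecidableEq L] {A B : L} (O : ValuationSubring L) (hA : A ∈ O)
    (hB : B ∈ O) {C : Finset (Pt A B)} (h : IsSub C) :
    (C.card : L) ^ 2 * vA C ∈ O ∧ (C.card : L) ^ 3 * vB C ∈ O := by
  have hx : ∀ P ∈ C.erase 0, (C.card : L) * xc P ∈ O := fun P hP =>
    (O.valuation_le_one_iff _).1 (torsion_int O.valuation ((O.valuation_le_one_iff _).2 hA)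
      ((O.valuation_le_one_iff _).2 hB) (h.nsmul_card (Finset.mem_of_mem_erase hP)))
  have hN : (C.card : L) ∈ O := natCast_mem O _
  generalize (C.card : L) = N at *
  have n2 : (2 : L) ∈ O := ofNat_mem O 2
  have n3 : (3 : L) ∈ O := ofNat_mem O 3
  constructor
  · rw [vA, mul_sub, mul_left_comm, Finset.mul_sum]
    refine sub_mem (mul_mem (pow_mem hN 2) hA) (mul_mem (ofNat_mem O 5) (sum_mem fun P hP => ?_))
    have := hx P hP
    rw [show N ^ 2 * ca P = 3 * (N * xc P) ^ 2 + N ^ 2 * A by rw [ca]; ring]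
    exact add_mem (mul_mem n3 (pow_mem this 2)) (mul_mem (pow_mem hN 2) hA)
  · rw [vB, mul_sub, mul_left_comm, Finset.mul_sum]
    refine sub_mem (mul_mem (pow_mem hN 3) hB) (mul_mem (ofNat_mem O 7) (sum_mem fun P hP => ?_))
    have := hx P hP
    rw [show N ^ 3 * (ca P * xc P + cb P) = 5 * (N * xc P) ^ 3 + 3 * (N ^ 2 * A * (N * xc P))
      + 2 * (N ^ 3 * B) by rw [ca, cb]; ring]
    exact add_mem (add_mem (mul_mem (ofNat_mem O 5) (pow_mem this 3))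
      (mul_mem n3 (mul_mem (mul_mem (pow_mem hN 2) hA) this)))
      (mul_mem n2 (mul_mem (pow_mem hN 3) hB))

lemma zL_X : zL X = TT := by simp [zL]

lemma az_TT : az TT = zL := by rw [← zL_X, az_hom]

lemma exists_g {κ : Type} [Field κ] [DecidableEq (LL ℚ)] [DecidableEq κ] [IsAlgClosed κ]
    {π : Plc (LL ℚ) κ} {x : κ} (r : Rd π TT TT x x) {m : ℕ} (t : Tm x x m) (ho : Odd m)
    (p q : ℤ[X]) : ∃ g, az x g = (m : κ) ^ (6 * (subs x x m).card) *
      ∏ D ∈ subs x x m, (az x p * vA D ^ 3 + az x q * vB D ^ 2) := by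
  have tT := t.up r
  obtain ⟨g, hg⟩ := exists_zpoly (z := ∏ D ∈ subs TT TT m,
      (zL p * ((m : LL ℚ) ^ 2 * vA D) ^ 3 + zL q * ((m : LL ℚ) ^ 3 * vB D) ^ 2))
    (fun σ => by
      have e : ∀ p, Ev (trivP σ.toRingEquiv.toRingHom) (zL p) (zL p) := fun p =>
        (ev_triv _ _).congr rfl (σ.commutes _)
      exact (ev_triv σ.toRingEquiv.toRingHom _).unique (ev_subs (rd_gal σ) tT ho
        (fun a b => zL p * ((m : LL ℚ) ^ 2 * a) ^ 3 + zL q * ((m : LL ℚ) ^ 3 * b) ^ 2)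
        (fun a b => zL p * ((m : LL ℚ) ^ 2 * a) ^ 3 + zL q * ((m : LL ℚ) ^ 3 * b) ^ 2)
        fun _ _ _ _ a b _ => ((e p).mul ((((Ev.nat _ m).pow 2).mul a).pow 3)).add
          ((e q).mul ((((Ev.nat _ m).pow 3).mul b).pow 2))))
    fun O hO => prod_mem fun D hD => by
      obtain ⟨c1, c2⟩ := tT.mem_subs.1 hD
      obtain ⟨a, b⟩ := v_mem O hO hO c1
      have e : ∀ p, zL p ∈ O := fun p => az_TT ▸ (ev_az p (Ev.of_mem (π := resPlc O) hO)).mem
      rw [c2] at a b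
      exact add_mem (mul_mem (e p) (pow_mem a 3)) (mul_mem (e q) (pow_mem b 2))
  have e : ∀ p, Ev π (zL p) (az x p) := fun p => az_TT ▸ ev_az p (rdA r)
  have h := ev_subs r t ho
    (fun a b => zL p * ((m : LL ℚ) ^ 2 * a) ^ 3 + zL q * ((m : LL ℚ) ^ 3 * b) ^ 2)
    (fun a b => (m : κ) ^ 6 * (az x p * a ^ 3 + az x q * b ^ 2))
    fun _ _ _ _ a b _ => (((e p).mul ((((Ev.nat _ m).pow 2).mul a).pow 3)).add
      ((e q).mul ((((Ev.nat _ m).pow 3).mul b).pow 2))).congr rfl (by ring)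
  rw [← hg, Finset.prod_mul_distrib, Finset.prod_const, ← pow_mul] at h
  exact ⟨g, (e g).unique h⟩

lemma jj_sub {k : Type} [Field k] {a b A B : k} (h : Good a b) (h' : Good A B) :
    (2 ^ 8 * 3 ^ 6) * (a ^ 3 * B ^ 2 - A ^ 3 * b ^ 2) =
      (jj a b - jj A B) * ((4 * a ^ 3 + 27 * b ^ 2) * (4 * A ^ 3 + 27 * B ^ 2)) := by
  rw [jj, jj, div_sub_div _ _ h.disc h'.disc, div_mul_cancel₀ _ (mul_ne_zero h.disc h'.disc)]
  ring

lemma disc_map {k : Type*} [Field k] (φ : k →+* k) (a b : k) :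
    4 * φ a ^ 3 + 27 * φ b ^ 2 = φ (4 * a ^ 3 + 27 * b ^ 2) := by simp [map_ofNat]

lemma alg {κ : Type} [Field κ] [DecidableEq κ] [IsAlgClosed κ] {l k m : ℕ} [Fact l.Prime]
    [CharP κ l] (hk : l = 2 * k + 1) {x : κ} (t : Tm x x m) (ho : Odd m)
    (hs : ∏ D ∈ subs x x m, (jj (vA D) (vB D) - jj (x ^ l) (x ^ l))
      = ∏ D ∈ subs (x ^ l) (x ^ l) m, (jj (vA D) (vB D) - jj x x))
    (hne : ∀ D ∈ subs x x m, jj (vA D) (vB D) ^ l ≠ jj x x) {W : κ}
    (hW : W = ∏ D ∈ subs x x m, ((vA D ^ (3 * l) * x ^ 2 - x ^ 3 * vB D ^ (2 * l))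
        * (vA D ^ 3 * x ^ (2 * l) - x ^ (3 * l) * vB D ^ 2))) :
    W ≠ 0 ∧ W * ((4 * x ^ 3 + 27 * x ^ 2) ^ (k * (subs x x m).card)) ^ 2 =
      ((∏ D ∈ subs x x m, (x ^ (2 * l) * vA D ^ 3 + -x ^ (3 * l) * vB D ^ 2)) *
        (∏ D ∈ subs x x m, (4 * vA D ^ 3 + 27 * vB D ^ 2)) ^ k) ^ 2 := by
  have G : ∀ D ∈ subs x x m, Good (vA D) (vB D) := fun D hD =>
    good_velu t.good t.three (t.mem_subs.1 hD).1 ((t.mem_subs.1 hD).2.symm ▸ ho)
  have g' : Good (x ^ l) (x ^ l) := t.good.map (frobenius κ l)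
  have e1 : ∏ D ∈ subs (x ^ l) (x ^ l) m, (jj (vA D) (vB D) - jj x x)
      = ∏ D ∈ subs x x m, (jj (vA D) (vB D) ^ l - jj x x) := by
    have f : frobenius κ l x = x ^ l := rfl
    rw [tr_prod_subs (Sc.ofHom (frobenius κ l) f f g').map t (t.other g')
      (fun P h0 _ => Sc.map_ne _ h0) fun D => jj (vA D) (vB D) - jj x x]
    refine Finset.prod_congr rfl fun D hD => ?_
    obtain ⟨a, b⟩ := vA_image (frobenius κ l) f f g' (t.mem_subs.1 hD).1
    rw [a, b, ← jj_map, frobenius_def]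
  have h1 : ∏ D ∈ subs x x m, ((2 ^ 8 * 3 ^ 6) * (vA D ^ (3 * l) * x ^ 2 - x ^ 3 * vB D ^ (2 * l)))
      = ∏ D ∈ subs x x m, ((jj (vA D) (vB D) ^ l - jj x x) *
        ((4 * vA D ^ 3 + 27 * vB D ^ 2) ^ l * (4 * x ^ 3 + 27 * x ^ 2))) :=
    Finset.prod_congr rfl fun D hD => by
      have := jj_sub ((G D hD).map (frobenius κ l)) t.good
      rw [disc_map, ← jj_map] at this
      simpa only [frobenius_def, ← pow_mul'] using this
  have h2 : ∏ D ∈ subs x x m, ((2 ^ 8 * 3 ^ 6) * (x ^ (2 * l) * vA D ^ 3 + -x ^ (3 * l) * vB D ^ 2))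
      = ∏ D ∈ subs x x m, ((jj (vA D) (vB D) - jj (x ^ l) (x ^ l)) *
        ((4 * vA D ^ 3 + 27 * vB D ^ 2) * (4 * x ^ 3 + 27 * x ^ 2) ^ l)) :=
    Finset.prod_congr rfl fun D hD => by
      have := jj_sub (G D hD) (t.good.map (frobenius κ l))
      rw [disc_map] at this
      simp only [frobenius_def, ← pow_mul'] at this
      rw [← this]
      ring
  have h3 : W = (∏ D ∈ subs x x m, (vA D ^ (3 * l) * x ^ 2 - x ^ 3 * vB D ^ (2 * l))) *
      ∏ D ∈ subs x x m, (x ^ (2 * l) * vA D ^ 3 + -x ^ (3 * l) * vB D ^ 2) := by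
    rw [hW, ← Finset.prod_mul_distrib]
    exact Finset.prod_congr rfl fun D _ => by ring
  simp only [Finset.prod_mul_distrib, Finset.prod_const, Finset.prod_pow] at h1 h2
  rw [hs, e1] at h2
  have j0 : ∏ D ∈ subs x x m, (jj (vA D) (vB D) ^ l - jj x x) ≠ 0 :=
    Finset.prod_ne_zero_iff.2 fun D hD => sub_ne_zero.2 (hne D hD)
  have e0 : ∏ D ∈ subs x x m, (4 * vA D ^ 3 + 27 * vB D ^ 2) ≠ 0 :=
    Finset.prod_ne_zero_iff.2 fun D hD => (G D hD).disc
  have d0 := t.good.disc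
  have c0 : ((2 : κ) ^ 8 * 3 ^ 6) ^ (subs x x m).card ≠ 0 :=
    pow_ne_zero _ (mul_ne_zero (pow_ne_zero _ t.good.two) (pow_ne_zero _ t.three))
  rw [← mul_pow] at h1 h2
  generalize ∏ D ∈ subs x x m, (jj (vA D) (vB D) ^ l - jj x x) = J at *
  generalize ∏ D ∈ subs x x m, (4 * vA D ^ 3 + 27 * vB D ^ 2) = E at *
  generalize ∏ D ∈ subs x x m, (vA D ^ (3 * l) * x ^ 2 - x ^ 3 * vB D ^ (2 * l)) = a at *
  generalize ∏ D ∈ subs x x m, (x ^ (2 * l) * vA D ^ 3 + -x ^ (3 * l) * vB D ^ 2) = b at *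
  generalize 4 * x ^ 3 + 27 * x ^ 2 = d at *
  generalize ((2 : κ) ^ 8 * 3 ^ 6) ^ (subs x x m).card = c at *
  rw [← pow_mul, mul_comm l, pow_mul] at h2
  rw [mul_comm k, pow_mul d]
  have d1 := pow_ne_zero (subs x x m).card d0
  generalize d ^ (subs x x m).card = e at *
  obtain rfl : a = J * (E ^ l * e) / c := by rw [← h1]; field_simp
  obtain rfl : b = J * (E * e ^ l) / c := by rw [← h2]; field_simp
  rw [h3, hk]
  refine ⟨by positivity, ?_⟩
  field_simp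
  ring

end KR

open KR in
theorem kron2_of (hE : KronEv) (hG : Gauss) : Kron2 := by
  classical
  intro l m Ψ hl h5 hm ho hS hΨ
  have := Fact.mk hl
  obtain ⟨π, hπ, hne⟩ := hG l h5
  set ι : (ZMod l)[X] →+* LL (ZMod l) := aL.comp ap with hι
  have inj : Function.Injective ι := (aL (k := ZMod l)).injective.comp ap_inj
  change ∀ g : ℤ[X], Ev π (zL g) (ι (g.map (Int.castRingHom (ZMod l)))) at hπ
  change ∀ m : ℕ, ¬l ∣ m → Odd m → ∀ D ∈ subs (ι X) (ι X) m,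
    jj (vA D) (vB D) ^ l ≠ jj (ι X) (ι X) at hne
  have : CharP (LL (ZMod l)) l := charP_of_injective_ringHom (f := ι) inj l
  have nz : ∀ n : ℕ, ¬l ∣ n → (n : LL (ZMod l)) ≠ 0 := fun n h e =>
    h ((CharP.cast_eq_zero_iff _ l n).1 e)
  have small : ∀ n : ℕ, 0 < n → n < 5 → (n : LL (ZMod l)) ≠ 0 := fun n a b =>
    nz n fun h => by have := Nat.le_of_dvd a h; omega
  have two : (2 : LL (ZMod l)) ≠ 0 := by simpa using small 2 (by norm_num) (by norm_num)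
  have three : (3 : LL (ZMod l)) ≠ 0 := by simpa using small 3 (by norm_num) (by norm_num)
  have x0 : ι X ≠ 0 := (map_ne_zero_iff _ inj).2 X_ne_zero
  have g : Good (ι X) (ι X) := ⟨two, fun e => by
    have e1 : ι (C 4 * X + C 27) = 0 := mul_left_cancel₀ (pow_ne_zero 2 x0) (by
      rw [map_add, map_mul, map_ofNat C, map_ofNat C, map_ofNat, map_ofNat]
      linear_combination e)
    have e2 := congrArg (coeff · 1) ((map_eq_zero_iff _ inj).1 e1)
    simp only [coeff_add, coeff_C_mul, coeff_X_one, mul_one, coeff_C_succ, add_zero,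
      coeff_zero] at e2
    have e3 := congrArg (ι.comp C) e2
    rw [map_ofNat, map_zero] at e3
    exact pow_ne_zero 2 two (by rw [← e3]; norm_num)⟩
  have ex : Ev π TT (ι X) := (hπ X).congr zL_X (by rw [map_X])
  have ez : ∀ p : ℤ[X], az (ι X) p = ι (p.map (Int.castRingHom (ZMod l))) := fun p =>
    (az_TT ▸ ev_az p ex).unique (hπ p)
  have r : Rd π TT TT (ι X) (ι X) := rd_of ex ex g
  have g' : Good (ι X ^ l) (ι X ^ l) := g.map (frobenius _ l)
  have r' := rd_of (ex.pow l) (ex.pow l) g'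
  have t : Tm (ι X) (ι X) m := ⟨g, three, nz m hm⟩
  have hs := (ev_subs r t ho (fun a b => jj a b - jj (TT ^ l) (TT ^ l))
    (fun a b => jj a b - jj (ι X ^ l) (ι X ^ l))
    fun _ _ _ _ a b c => (ev_jj a b c).sub (ev_jj (ex.pow l) (ex.pow l) g')).unique
    ((ev_subs r' (t.other g') ho (fun a b => jj a b - jj TT TT)
      (fun a b => jj a b - jj (ι X) (ι X))
      fun _ _ _ _ a b c => (ev_jj a b c).sub (ev_jj ex ex g)).congr
      (hS _ _ _ _ _ good_TT (rd_good r')).symm rfl)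
  obtain ⟨k, hk⟩ := hl.odd_of_ne_two (by omega)
  obtain ⟨W0, hW⟩ := alg hk t ho hs (hne m hm ho) rfl
  have l0 : (l : LL (ZMod l)) = 0 := CharP.cast_eq_zero _ l
  have h1 := hE _ _ π _ _ _ _ r l m hl h5 l0 hm ho fun e => by
    rw [← pow_add, ← pow_add, ← map_pow, ← map_pow] at e
    have e1 := congrArg natDegree (inj e)
    rw [natDegree_X_pow, natDegree_X_pow] at e1
    nlinarith
  obtain ⟨g1, hg1⟩ := exists_g r t ho (X ^ (2 * l)) (-X ^ (3 * l))
  obtain ⟨g2, hg2⟩ := exists_g r t ho 4 27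
  have aX : az (ι X) X = ι X := by rw [ez, map_X]
  simp only [map_pow, map_neg, map_ofNat, aX] at hg1 hg2
  rw [ez] at hg1 hg2
  have T0 : TT ≠ 0 := ex.ne_zero x0
  have h2 := hΨ.az good_TT T0 T0
  rw [div_self T0, show TT ^ 3 / TT ^ 2 = TT by field_simp, az_TT] at h2
  simp only [one_pow, mul_one, Finset.prod_mul_distrib, Finset.prod_const] at h2
  set s := (subs (ι X) (ι X) m).card with hs'
  set N := (subs TT TT (l * m)).card with hN
  have h3 := (((Ev.nat π m).pow (3 * N)).pow 2).mul h1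
  have l1 : (l : LL ℚ) ≠ 0 := Nat.cast_ne_zero.2 hl.ne_zero
  have k3 := mul_ne_zero (pow_ne_zero 2 (pow_ne_zero (3 * N) t.ne)) W0
  have h4 : zL Ψ = (l : LL ℚ) ^ (2 * (3 * N + 6 * s)) * (((m : LL ℚ) ^ (3 * N)) ^ 2 *
      ((∏ D ∈ subs TT TT (l * m), dl D) / (l : LL ℚ) ^ (12 * s))) := by
    rw [h2]
    push_cast
    field_simp
    ring
  have hp : Prime (l : ℤ) := Nat.prime_iff_prime_int.1 hl
  have v1 : π.O.valuation (l : LL ℚ) < 1 := ((Ev.nat π l).congr rfl l0).v_lt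
  have Ψ0 : Ψ ≠ 0 := by
    rintro rfl
    rw [map_zero] at h4
    exact mul_ne_zero (pow_ne_zero _ l1) (h3.ne_zero k3) h4.symm
  obtain ⟨a, Ψ₁, n1, n2⟩ := WfDvdMonoid.max_power_factor Ψ0 (prime_C_iff.2 hp).irreducible
  have m0 : Ψ₁.map (Int.castRingHom (ZMod l)) ≠ 0 := fun e =>
    n1 ((C_dvd_iff_dvd_coeff _ _).2 fun n => by
      have := congrArg (coeff · n) e
      simp only [coeff_map, coeff_zero, eq_intCast] at this
      exact (CharP.intCast_eq_zero_iff (ZMod l) l _).1 this)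
  rw [n2, map_mul, map_pow, map_natCast C, map_natCast] at h4
  have k5 := congrArg π.O.valuation h4
  rw [map_mul, map_mul, (hπ Ψ₁).v_one ((map_ne_zero_iff _ inj).2 m0), h3.v_one k3, mul_one, mul_one,
    map_pow, map_pow] at k5
  have k6 : a = 2 * (3 * N + 6 * s) := (pow_right_strictAnti₀
    (zero_lt_iff.2 ((Valuation.ne_zero_iff _).2 l1)) v1).injective k5
  rw [k6] at h4 n2
  have k7 := ((hπ Ψ₁).congr (mul_left_cancel₀ (pow_ne_zero _ l1) h4) rfl).unique h3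
  set U : (ZMod l)[X] := ((m : (ZMod l)[X]) ^ (6 * s)) ^ (k + 1) * (4 * X ^ 3 + 27 * X ^ 2) ^ (k * s)
    with hU
  have U1 : ι U = ((m : LL (ZMod l)) ^ (6 * s)) ^ (k + 1) * (4 * ι X ^ 3 + 27 * ι X ^ 2) ^ (k * s) := by
    simp only [hU, map_mul, map_pow, map_add, map_natCast, map_ofNat]
  have U0 : U ≠ 0 := (map_ne_zero_iff _ inj).1 (U1 ▸ mul_ne_zero
    (pow_ne_zero _ (pow_ne_zero _ t.ne)) (pow_ne_zero _ g.disc))
  have key : ((m : (ZMod l)[X]) ^ (3 * N) * (g1.map (Int.castRingHom (ZMod l)) *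
      g2.map (Int.castRingHom (ZMod l)) ^ k)) ^ 2 = U ^ 2 * Ψ₁.map (Int.castRingHom (ZMod l)) := by
    refine inj ?_
    rw [map_mul, map_pow, map_pow, U1, k7, map_mul, map_mul, map_pow, map_pow, map_natCast, hg1,
      hg2]
    linear_combination (-((m : LL (ZMod l)) ^ (3 * N) * ((m : LL (ZMod l)) ^ (6 * s)) ^ (k + 1)) ^ 2)
      * hW
  obtain ⟨S, hS⟩ := (IsIntegrallyClosed.pow_dvd_pow_iff two_ne_zero).1 ⟨_, key⟩
  rw [hS, mul_pow] at key
  have e := (mul_left_cancel₀ (pow_ne_zero 2 U0) key).symm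
  refine ⟨3 * N + 6 * s, Ψ₁, S, by rw [n2, map_pow], fun h => m0 ?_, e⟩
  rw [e, h, sq, mul_zero]

end Pool.Agent.MP_c481b3_nt.H28K
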