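import Pool.Agent.MP_c481b3_nt.H28K.SpecG
import Pool.Agent.MP_c481b3_nt.H28.Kron

set_option autoImplicit false

namespace Pool.Agent.MP_c481b3_nt.H28K

open Pool.Agent.MP_c481b3_nt.H81 Pool.Agent.MP_c481b3_nt.H28 Pool.Agent.MP_c481b3_nt.H28.KrA
  Pointwise

namespace KE

lemma bez {G : Type*} [AddCommGroup G] {l m : ℕ} (h : l.Coprime m) :
    ∃ a b : ℤ, ∀ P : G, P = l • a • P + m • b • P := by
  obtain ⟨a, b, e⟩ := Nat.isCoprime_iff_coprime.2 h
  refine ⟨a, b, fun P => ?_⟩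
  rw [← natCast_zsmul, ← natCast_zsmul, smul_smul, smul_smul, ← add_smul, mul_comm _ a,
    mul_comm _ b, e, one_smul]

lemma zero_of {G : Type*} [AddCommGroup G] {l m : ℕ} (h : l.Coprime m) {P : G} (h1 : l • P = 0)
    (h2 : m • P = 0) : P = 0 := by
  obtain ⟨a, b, e⟩ := bez (G := G) h
  rw [e P, smul_comm l, smul_comm m, h1, h2, smul_zero, smul_zero, add_zero]

section group
variable {k : Type*} [Field k] [DecidableEq k] {A B : k} {C D : Finset (Pt A B)} {l m : ℕ}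

lemma isSub_add (hC : IsSub C) (hD : IsSub D) : IsSub (C + D) := by
  refine ⟨Finset.mem_add.2 ⟨0, hC.zero, 0, hD.zero, add_zero 0⟩, fun P hP Q hQ => ?_⟩
  obtain ⟨a, ha, b, hb, rfl⟩ := Finset.mem_add.1 hP
  obtain ⟨c, hc, d, hd, rfl⟩ := Finset.mem_add.1 hQ
  exact Finset.mem_add.2 ⟨_, hC.sub a ha c hc, _, hD.sub b hb d hd, by abel⟩

lemma card_add (h : l.Coprime m) (h1 : ∀ P ∈ C, l • P = 0) (h2 : ∀ P ∈ D, m • P = 0) :
    (C + D).card = C.card * D.card := by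
  refine Finset.card_add_iff.2 fun p hp q hq e => ?_
  have e1 : p.1 - q.1 = q.2 - p.2 := by
    rw [sub_eq_sub_iff_add_eq_add, add_comm q.2]; exact e
  have z : p.1 - q.1 = 0 := zero_of h (by rw [nsmul_sub, h1 _ hp.1, h1 _ hq.1, sub_zero])
    (by rw [e1, nsmul_sub, h2 _ hp.2, h2 _ hq.2, sub_zero])
  exact Prod.ext (sub_eq_zero.1 z) (sub_eq_zero.1 (e1 ▸ z)).symm

lemma left_mem (hD : IsSub D) {P : Pt A B} (hP : P ∈ C) : P ∈ C + D :=
  Finset.mem_add.2 ⟨P, hP, 0, hD.zero, add_zero P⟩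

lemma mem_left (h : l.Coprime m) (h1 : ∀ P ∈ C, l • P = 0) (h2 : ∀ P ∈ D, m • P = 0) {P : Pt A B}
    (hP : P ∈ C + D) (e : l • P = 0) : P ∈ C := by
  obtain ⟨a, ha, b, hb, rfl⟩ := Finset.mem_add.1 hP
  rw [nsmul_add, h1 a ha, zero_add] at e
  rwa [zero_of h e (h2 b hb), add_zero]

variable [IsAlgClosed k]

lemma kill (t : Tm A B l) (hC : C ∈ subs A B l) : ∀ P ∈ C, l • P = 0 := fun _ hP =>
  (t.mem_subs.1 hC).2 ▸ (t.mem_subs.1 hC).1.nsmul_card hP

lemma prod_subs (h : l.Coprime m) (t : Tm A B l) (s : Tm A B m) (f : Finset (Pt A B) → k) :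
    ∏ H ∈ subs A B (l * m), f H = ∏ D ∈ subs A B m, ∏ C ∈ subs A B l, f (C + D) := by
  have n : Tm A B (l * m) := ⟨t.good, t.three, by simpa using ⟨t.ne, s.ne⟩⟩
  rw [← Finset.prod_product_right']
  symm
  refine Finset.prod_nbij (fun p => p.1 + p.2) (fun p hp => ?_) (fun p hp q hq e => ?_)
    (fun H hH => ?_) fun _ _ => rfl
  · obtain ⟨p1, p2⟩ := Finset.mem_product.1 hp
    exact n.mem_subs.2 ⟨isSub_add (t.mem_subs.1 p1).1 (s.mem_subs.1 p2).1, by
      rw [card_add h (kill t p1) (kill s p2), (t.mem_subs.1 p1).2, (s.mem_subs.1 p2).2]⟩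
  · have key : ∀ p ∈ subs A B l ×ˢ subs A B m, ∀ q ∈ subs A B l ×ˢ subs A B m,
        p.1 + p.2 = q.1 + q.2 → p.1 ⊆ q.1 ∧ p.2 ⊆ q.2 := fun p hp q hq e => by
      obtain ⟨p1, p2⟩ := Finset.mem_product.1 hp
      obtain ⟨q1, q2⟩ := Finset.mem_product.1 hq
      refine ⟨fun P hP => mem_left h (kill t q1) (kill s q2)
        (e ▸ left_mem (s.mem_subs.1 p2).1 hP) (kill t p1 P hP), fun P hP =>
        mem_left h.symm (kill s q2) (kill t q1) ?_ (kill s p2 P hP)⟩
      rw [add_comm, ← e, add_comm]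
      exact left_mem (t.mem_subs.1 p1).1 hP
    exact Prod.ext ((key p hp q hq e).1.antisymm (key q hq p hp e.symm).1)
      ((key p hp q hq e).2.antisymm (key q hq p hp e.symm).2)
  · obtain ⟨h1, h2⟩ := n.mem_subs.1 hH
    have sb : ∀ j : ℕ, IsSub (H.filter fun P => j • P = 0) := fun j =>
      isSub_ker (nsmulAddMonoidHom j) h1
    have e : H.filter (fun P => l • P = 0) + H.filter (fun P => m • P = 0) = H := by
      obtain ⟨a, b, e⟩ := bez (G := Pt A B) h
      ext P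
      rw [Finset.mem_add]
      refine ⟨?_, fun hP => ?_⟩
      · rintro ⟨a, ha, b, hb, rfl⟩
        exact h1.add (Finset.mem_filter.1 ha).1 (Finset.mem_filter.1 hb).1
      · have z : ∀ c : ℤ, c • P ∈ H := zsmul_mem_sub h1 hP
        have w : ∀ c : ℤ, (l * m) • c • P = 0 := fun c => h2 ▸ h1.nsmul_card (z c)
        exact ⟨_, Finset.mem_filter.2 ⟨nsmul_mem_sub h1 (z b) m, by rw [smul_smul, w]⟩, _,
          Finset.mem_filter.2 ⟨nsmul_mem_sub h1 (z a) l, by rw [smul_smul, mul_comm, w]⟩,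
          by rw [add_comm, ← e]⟩
    have c := card_add h (C := H.filter fun P => l • P = 0) (D := H.filter fun P => m • P = 0)
      (fun P hP => (Finset.mem_filter.1 hP).2) fun P hP => (Finset.mem_filter.1 hP).2
    rw [e, h2] at c
    have d1 := card_dvd (sb l) t.sub fun P hP => t.mem.2 (Finset.mem_filter.1 hP).2
    have d2 := card_dvd (sb m) s.sub fun P hP => s.mem.2 (Finset.mem_filter.1 hP).2
    rw [t.card] at d1
    rw [s.card] at d2
    have c1 : (H.filter fun P => l • P = 0).card = l := Nat.dvd_antisymm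
      (((h.pow_left 2).coprime_dvd_left d1).dvd_of_dvd_mul_right ⟨_, c⟩)
      (((h.pow_right 2).coprime_dvd_right d2).dvd_of_dvd_mul_right ⟨_, c.symm⟩)
    rw [c1] at c
    exact ⟨(_, _), Finset.mem_product.2 ⟨t.mem_subs.2 ⟨sb l, c1⟩, s.mem_subs.2
      ⟨sb m, (Nat.eq_of_mul_eq_mul_left (Nat.pos_of_ne_zero t.pos) c).symm⟩⟩, e⟩

lemma v_add (h : l.Coprime m) (t : Tm A B l) (hD : IsSub D) (h2 : ∀ P ∈ D, m • P = 0) :
    vA (tors A B l + D) = l ^ 4 * vA D ∧ vB (tors A B l + D) = l ^ 6 * vB D := by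
  have e : (tors A B l + D).image (t.vd.hom t.three) = D := by
    obtain ⟨a, b, e⟩ := bez (G := Pt A B) h
    ext P
    simp only [Finset.mem_image, Finset.mem_add, VD.hom_apply, t.vm_eq]
    refine ⟨?_, fun hP => ⟨a • P, ⟨0, t.sub.zero, _, zsmul_mem_sub hD hP a, zero_add _⟩, ?_⟩⟩
    · rintro ⟨_, ⟨a, ha, b, hb, rfl⟩, rfl⟩
      rw [nsmul_add, t.mem.1 ha, zero_add]
      exact nsmul_mem_sub hD hb l
    · conv_rhs => rw [e P, smul_comm m, h2 P hP, smul_zero, add_zero]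
  have := (t.vd.comp_aux t.three (isSub_add t.sub hD) fun P hP => left_mem hD hP).1
  rwa [e] at this

end group

variable {L κ : Type*} [Field L] [Field κ] [DecidableEq L] [DecidableEq κ] {π : Plc L κ}
  {A B : L} {A' B' : κ} (r : Rd π A B A' B') {l m : ℕ}

lemma Kr_add (h : l.Coprime m) (m0 : (m : κ) ≠ 0) {C D : Finset (Pt A B)} (hD : IsSub D)
    (h1 : ∀ P ∈ C, l • P = 0) (h2 : ∀ P ∈ D, m • P = 0) : Kr r (C + D) = Kr r C := by
  ext P
  rw [mem_Kr, mem_Kr, and_congr_left_iff]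
  refine fun e => ⟨fun hP => mem_left h h1 h2 hP ?_, left_mem hD⟩
  obtain ⟨a, ha, b, hb, rfl⟩ := Finset.mem_add.1 hP
  by_contra z
  refine red_tors_ne r m0 z ?_ (by rw [map_nsmul, e, nsmul_zero])
  rw [nsmul_add, h1 a ha, zero_add, smul_comm, h2 b hb, nsmul_zero]

variable [IsAlgClosed L] [IsAlgClosed κ] [Fact l.Prime] [CharP κ l] [CharZero L]

lemma one (h5 : 5 ≤ l) (hne : A' ^ (3 * l ^ 2) * B' ^ 2 ≠ A' ^ 3 * B' ^ (2 * l ^ 2))
    (co : l.Coprime m) (m0 : (m : κ) ≠ 0) (mo : Odd m) {D : Finset (Pt A B)} (hD : IsSub D)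
    (hc : D.card = m) : Ev π ((∏ C ∈ subs A B l, dl (C + D)) / (l : L) ^ 12)
      ((vA (D.image r.red) ^ (3 * l) * B' ^ 2 - A' ^ 3 * vB (D.image r.red) ^ (2 * l))
        * (vA (D.image r.red) ^ 3 * B' ^ (2 * l) - A' ^ (3 * l) * vB (D.image r.red) ^ 2)) := by
  have hl : l.Prime := Fact.out
  have lo : Odd l := hl.odd_of_ne_two (by omega)
  have t : Tm A B l := tm r
  have h2 : ∀ P ∈ D, m • P = 0 := fun P hP => hc ▸ hD.nsmul_card hP
  have hT : ∀ P ∈ tors A B l, l • P = 0 := fun P => t.mem.1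
  obtain ⟨e₁, e₂, e₃, h⟩ := exists_rt A B
  obtain ⟨i, c, hi, hk, c0, c1, c2, c3⟩ := tors_main r h5 h
  set K := Kr r (tors A B l) with hK
  set C₀ := (tors A B l).image r.red with hC
  set D' := D.image r.red with hD'
  rcases hi with rfl | rfl
  swap
  · have e : K = tors A B l :=
      Finset.eq_of_subset_of_card_le (Kr_subset r _) (by rw [hk, t.card])
    obtain ⟨v1, v2⟩ := v_triv r e
    rw [← hC] at v1 v2
    rw [v1] at c2
    rw [v2] at c3
    refine absurd ?_ hne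
    rw [mul_comm 3, mul_comm 2, pow_mul, pow_mul, ← c2, ← c3]
    ring
  have kS : IsSub K := Kr_sub r t.sub
  have kM : K ∈ subs A B l := t.mem_subs.2 ⟨kS, by rw [hk, pow_one]⟩
  have cC : C₀.card = l := by
    have := card_Kr r t.sub
    rw [t.card, ← hK, ← hC, hk, pow_one, sq] at this
    exact (Nat.eq_of_mul_eq_mul_right hl.pos this).symm
  have o1 : ∀ C ∈ (subs A B l).erase K, Ev π (dl (C + D)) (dl (C₀ + D')) := by
    intro C hCm
    obtain ⟨d0, hCm⟩ := Finset.mem_erase.1 hCm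
    obtain ⟨d1, d2⟩ := t.mem_subs.1 hCm
    have hf : ∀ P ∈ (C + D).erase 0, r.red P ≠ 0 := fun P hP e => by
      have y := (mem_Kr r).2 ⟨(Finset.mem_erase.1 hP).2, e⟩
      rw [Kr_add r co m0 hD (kill t hCm) h2, mem_Kr] at y
      exact d0 (eq_of_mem hl d1 d2 kS (by rw [hk, pow_one]) (Finset.mem_erase.1 hP).1 y.1
        ((mem_Kr r).2 ⟨t.subset d1 d2 y.1, e⟩))
    have e : C.image r.red = C₀ := Finset.eq_of_subset_of_card_le
      (Finset.image_subset_image (t.subset d1 d2))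
      (by rw [cC, Finset.card_image_of_injOn (injOn_of_ne r.red d1 fun P hP => hf P
        (Finset.mem_erase.2 ⟨(Finset.mem_erase.1 hP).1, left_mem hD (Finset.mem_erase.1 hP).2⟩)),
        d2])
    have := ev_dl r (isSub_add d1 hD) hf
    rwa [Finset.image_add, e] at this
  have o2 := Ev.prod _ o1
  rw [Finset.prod_const, Finset.card_erase_of_mem kM, t.card_subs hl, Nat.add_sub_cancel] at o2
  have kk : Kr r (K + D) = K := (Kr_add r co m0 hD (kill t kM) h2).trans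
    (Finset.filter_true_of_mem fun P hP => ((mem_Kr r).1 hP).2)
  have ki : (K + D).image r.red = D' := by
    ext Q
    simp only [hD', Finset.mem_image, Finset.mem_add]
    refine ⟨?_, fun ⟨P, hP, e⟩ => ⟨P, ⟨0, kS.zero, P, hP, zero_add P⟩, e⟩⟩
    rintro ⟨_, ⟨a, ha, b, hb, rfl⟩, rfl⟩
    exact ⟨b, hb, by rw [map_add, ((mem_Kr r).1 ha).2, zero_add]⟩
  obtain ⟨a1, a2, -⟩ := ev_main r (three_ne hl h5) h (isSub_add kS hD)
    (by rw [card_add co (kill t kM) h2, hk, hc]; exact lo.pow.mul mo) (i := 1) (by rw [kk, hk])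
  rw [kk, ki, pow_one] at a1 a2
  have kt : Kr r (tors A B l + D) = K := Kr_add r co m0 hD hT h2
  obtain ⟨b1, b2, -⟩ := ev_main r (three_ne hl h5) h (isSub_add t.sub hD)
    (by rw [card_add co hT h2, t.card, hc]; exact lo.pow.mul mo) (i := 1) (by rw [kt, hk])
  rw [kt, Finset.image_add, pow_one, ← hC, ← hD'] at b1 b2
  rw [(v_add co t hD h2).1] at b1
  rw [(v_add co t hD h2).2] at b2
  have hf := red_sub_ne r hD (hc ▸ m0)
  have b3 := ((c1.pow 2).mul (ev_vA r hD hf)).unique (b1.congr (by ring) rfl)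
  have b4 := ((c1.pow 3).mul (ev_vB r hD hf)).unique (b2.congr (by ring) rfl)
  have o3 := (((a1.pow 3).mul ((rdB r).pow 2)).sub (((rdA r).pow 3).mul (a2.pow 2))).div
    (c1.pow 6) (pow_ne_zero 6 c0)
  have l0 := t.ne
  have d0 : Dn K e₁ ≠ 0 := right_ne_zero_of_mul (c1.ne_zero c0)
  refine (o3.mul o2).congr ?_ ?_
  · rw [← Finset.mul_prod_erase _ _ kM, dl]
    field_simp
  · rw [dl, sub_pow_char, mul_pow, mul_pow, ← pow_mul (vA (C₀ + D')), ← pow_mul (vB (C₀ + D')),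
      mul_comm 3 l, mul_comm 2 l, pow_mul (vA (C₀ + D')), pow_mul (vB (C₀ + D')), ← b3, ← b4]
    field_simp
    ring

end KE

theorem kronEv : KronEv := by
  intro L κ _ _ _ _ _ _ _ π A B A' B' r l m hl h5 l0 hm mo hne
  have := Fact.mk hl
  have : CharP κ l := (CharP.charP_iff_prime_eq_zero hl).2 l0
  have co := hl.coprime_iff_not_dvd.2 hm
  have t' : Tm A' B' m :=
    ⟨r.good, three_ne hl h5, fun e => hm ((CharP.cast_eq_zero_iff κ l m).1 e)⟩
  rw [KE.prod_subs co (tm r) (t'.up r), ← image_subs r t', Finset.prod_image (subs_inj r t'),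
    Finset.card_image_of_injOn (subs_inj r t'), pow_mul, ← Finset.prod_const,
    ← Finset.prod_div_distrib]
  refine Ev.prod _ fun D hD => ?_
  obtain ⟨d1, d2⟩ := (t'.up r).mem_subs.1 hD
  exact KE.one r h5 hne co t'.ne mo d1 d2

end Pool.Agent.MP_c481b3_nt.H28K
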