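import Pool.Agent.MP_c481b3_nt.H28K.SpecG

set_option autoImplicit false

namespace Pool.Agent.MP_c481b3_nt.H28K

open Pool.Agent.MP_c481b3_nt.H81 Pool.Agent.MP_c481b3_nt.H28 Polynomial

namespace MP

/-- the polynomial of the invariants of the quotients -/
noncomputable def jp {L : Type} [Field L] [DecidableEq L] (A B : L) (m : ℕ) : L[X] :=
  ∏ D ∈ subs A B m, (X - C (jj (vA D) (vB D)))

section one
variable {k : Type} [Field k] {A B A₁ B₁ : k}

lemma jj_scale (a b : k) {u : k} (hu : u ≠ 0) : jj (a / u ^ 4) (b / u ^ 6) = jj a b := by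
  rw [jj, jj, ← mul_div_mul_right (6912 * (a / u ^ 4) ^ 3) _ (pow_ne_zero 12 hu)]
  congr 1 <;> field_simp

variable [IsAlgClosed k]

lemma exists_u (hG : Good A B) (hG₁ : Good A₁ B₁) (h : A ^ 3 * B₁ ^ 2 = A₁ ^ 3 * B ^ 2) :
    ∃ u : k, u ≠ 0 ∧ A = u ^ 4 * A₁ ∧ B = u ^ 6 * B₁ := by
  have d := hG.disc
  have d₁ := hG₁.disc
  by_cases a : A₁ = 0
  · have b : B₁ ≠ 0 := fun b => d₁ (by simp [a, b])
    have a' : A = 0 := by simpa [a, b] using h
    obtain ⟨u, hu⟩ := IsAlgClosed.exists_pow_nat_eq (B / B₁) (n := 6) (by norm_num)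
    refine ⟨u, ?_, by simp [a, a'], by rw [hu, div_mul_cancel₀ _ b]⟩
    rintro rfl
    exact d (by simp [a', (div_eq_zero_iff.1 (hu.symm.trans (by simp))).resolve_right b])
  by_cases b : B₁ = 0
  · have b' : B = 0 := by simpa [a, b] using h.symm
    obtain ⟨u, hu⟩ := IsAlgClosed.exists_pow_nat_eq (A / A₁) (n := 4) (by norm_num)
    refine ⟨u, ?_, by rw [hu, div_mul_cancel₀ _ a], by simp [b, b']⟩
    rintro rfl
    exact d (by simp [b', (div_eq_zero_iff.1 (hu.symm.trans (by simp))).resolve_right a])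
  have a' : A ≠ 0 := fun e => d (by
    rw [e] at h
    have : B = 0 := by simpa [a] using h.symm
    simp [e, this])
  have b' : B ≠ 0 := fun e => a' (by simpa [e, b] using h)
  obtain ⟨u, hu⟩ := IsAlgClosed.exists_pow_nat_eq (B * A₁ / (A * B₁)) two_pos
  refine ⟨u, ?_, ?_, ?_⟩
  · rintro rfl
    exact div_ne_zero (mul_ne_zero b' a) (mul_ne_zero a' b) (by simpa using hu.symm)
  · rw [show u ^ 4 = (u ^ 2) ^ 2 by ring, hu]
    field_simp
    linear_combination h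
  · rw [show u ^ 6 = (u ^ 2) ^ 3 by ring, hu]
    field_simp
    linear_combination h

lemma exists_one (hG : Good A B) :
    ∃ A₀ B₀ : k, 4 * A₀ ^ 3 + 27 * B₀ ^ 2 = 1 ∧ jj A₀ B₀ = jj A B := by
  obtain ⟨u, hu⟩ := IsAlgClosed.exists_pow_nat_eq (4 * A ^ 3 + 27 * B ^ 2) (n := 12) (by norm_num)
  have u0 : u ≠ 0 := by
    rintro rfl
    exact hG.disc (hu.symm.trans (by simp))
  refine ⟨A / u ^ 4, B / u ^ 6, ?_, jj_scale A B u0⟩
  field_simp
  linear_combination -hu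

lemma jp_congr [DecidableEq k] {m : ℕ} (t : Tm A B m) (hG₁ : Good A₁ B₁)
    (e : jj A B = jj A₁ B₁) : jp A B m = jp A₁ B₁ m := by
  obtain ⟨u, u0, a, b⟩ := exists_u t.good hG₁ (jj_eq t.three t.good hG₁ e)
  let s : Sc A B A₁ B₁ := ⟨RingHom.id k, u, u0, a, b, hG₁⟩
  rw [jp, jp, tr_prod_subs s.map t ⟨hG₁, t.three, t.ne⟩ (fun P h0 _ => s.map_ne h0)
    fun D => X - C (jj (vA D) (vB D))]
  refine Finset.prod_congr rfl fun D _ => ?_
  rw [sc_vA, sc_vB, jj_scale _ _ s.hu]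
  rfl

end one

section red
variable {L κ : Type} [Field L] [Field κ] {π : Plc L κ}

lemma rd_one (h2 : (2 : κ) ≠ 0) (h3 : (3 : κ) ≠ 0) {A B : L} (h : 4 * A ^ 3 + 27 * B ^ 2 = 1)
    (hj : jj A B ∈ π.O) : ∃ A' B', Rd π A B A' B' := by
  have m : ∀ {x : L} {n : ℕ}, n ≠ 0 → x ^ n ∈ π.O → x ∈ π.O := fun hn h => by
    rw [← π.O.valuation_le_one_iff] at h ⊢
    rw [map_pow] at h
    exact (pow_le_one_iff hn).1 h
  have n1 : (6912 : κ) ≠ 0 := by
    convert mul_ne_zero (pow_ne_zero 8 h2) (pow_ne_zero 3 h3) using 1; norm_num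
  have n2 : (27 : κ) ≠ 0 := by convert pow_ne_zero 3 h3 using 1; norm_num
  have l1 := (Ev.ofNat π 6912).ne_zero n1
  have l2 := (Ev.ofNat π 27).ne_zero n2
  have a := Ev.of_mem (m three_ne_zero ((((Ev.of_mem hj).div (Ev.ofNat π 6912) n1).congr
    (show _ = A ^ 3 by rw [jj, h, div_one, mul_div_cancel_left₀ _ l1]) rfl).mem))
  have b := Ev.of_mem (m two_ne_zero (((((Ev.one π).sub ((Ev.ofNat π 4).mul (a.pow 3))).div
    (Ev.ofNat π 27) n2).congr (show _ = B ^ 2 by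
      rw [div_eq_iff l2]; linear_combination -h) rfl).mem))
  refine ⟨_, _, rd_of a b ⟨h2, ?_⟩⟩
  rw [(((Ev.ofNat π 4).mul (a.pow 3)).add ((Ev.ofNat π 27).mul (b.pow 2))).unique
    ((Ev.one π).congr h.symm rfl)]
  exact one_ne_zero

variable [DecidableEq L] [DecidableEq κ] [IsAlgClosed L] [IsAlgClosed κ] {m : ℕ}

lemma ev_jp {A B : L} {A' B' : κ} (r : Rd π A B A' B') (t : Tm A' B' m) (hm : Odd m) (i : ℕ) :
    Ev π ((jp A B m).coeff i) ((jp A' B' m).coeff i) := by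
  rw [jp, jp, tr_prod_subs r.red (t.up r) t (fun P h0 hP => red_tors_ne r t.ne h0 hP)
    fun D => X - C (jj (vA D) (vB D))]
  refine ev_coeff_prod _ (fun D hD => ?_) i
  obtain ⟨c1, c2⟩ := (t.up r).mem_subs.1 hD
  have hn : (D.card : κ) ≠ 0 := c2 ▸ t.ne
  have hf := red_sub_ne r c1 hn
  exact ev_jj (ev_vA r c1 hf) (ev_vB r c1 hf) (good_velu t.good t.three (isSub_image _ c1)
    (by rwa [card_red r c1 hn, c2]))

lemma ev_ex (h2 : (2 : κ) ≠ 0) (h3 : (3 : κ) ≠ 0) (hn : (m : κ) ≠ 0) (hm : Odd m) {A B : L}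
    (hG : Good A B) (hj : jj A B ∈ π.O) : ∃ A' B' : κ, Good A' B' ∧ Ev π (jj A B) (jj A' B') ∧
      ∀ i, Ev π ((jp A B m).coeff i) ((jp A' B' m).coeff i) := by
  obtain ⟨A₀, B₀, e1, e2⟩ := exists_one hG
  obtain ⟨A', B', r⟩ := rd_one (π := π) h2 h3 e1 (e2 ▸ hj)
  have t : Tm A' B' m := ⟨r.good, h3, hn⟩
  refine ⟨A', B', r.good, e2 ▸ ev_jj (rdA r) (rdB r) r.good, fun i => ?_⟩
  rw [← jp_congr (t.up r) hG e2]
  exact ev_jp r t hm i

lemma ev_all (hm : Odd m) {A B : L} {A' B' : κ} (hG : Good A B) (t : Tm A' B' m)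
    (hj : Ev π (jj A B) (jj A' B')) (i : ℕ) :
    Ev π ((jp A B m).coeff i) ((jp A' B' m).coeff i) := by
  obtain ⟨A₁, B₁, g, e, h⟩ := ev_ex t.good.two t.three t.ne hm hG hj.mem
  rw [jp_congr t g (hj.unique e)]
  exact h i

end red

lemma exists_qpoly {z : LL ℚ} (fix : ∀ σ : Gal(LL ℚ/RatFunc ℚ), σ z = z)
    (int : ∀ O : ValuationSubring (LL ℚ), (∀ g : ℚ[X], aL (ap g) ∈ O) → z ∈ O) :
    ∃ g : ℚ[X], (aL.comp ap) g = z := by
  obtain ⟨r, rfl⟩ := (InfiniteGalois.mem_range_algebraMap_iff_fixed z).2 fix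
  set ψ : ℚ[X] →+* LL ℚ := aL.comp ap with hψ
  have h1 : aL r ∈ (integralClosure (Subring.closure (Set.range ψ)) (LL ℚ)).toSubring := by
    rw [← iInf_valuationSubring_superset, Subring.mem_iInf]
    rintro ⟨O, hO⟩
    exact int O fun g => hO ⟨g, rfl⟩
  obtain ⟨p, hp, hpr⟩ := h1
  have hle : Subring.closure (Set.range ψ) ≤ ψ.range := by
    rw [Subring.closure_le]
    exact fun _ h => h
  obtain ⟨q, hq, -, hm⟩ := lifts_and_natDegree_eq_and_monic (f := ψ)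
    (p := p.map (algebraMap _ (LL ℚ))) ((lifts_iff_coeff_lifts _).2 fun m => by
      rw [coeff_map]; exact hle (p.coeff m).2) (hp.map _)
  have e1 : q.eval₂ ψ (aL r) = 0 := by rw [← eval_map, hq, eval_map, hpr]
  have e2 : q.eval₂ ap r = 0 := by
    refine (aL (k := ℚ)).injective ?_
    rw [hom_eval₂, map_zero]
    exact e1
  obtain ⟨g, rfl⟩ := (IsIntegrallyClosed.isIntegral_iff (R := ℚ[X]) (K := RatFunc ℚ) (x := r)).1
    ⟨q, hm, e2⟩
  exact ⟨g, rfl⟩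

lemma exists_gen : ∃ A B : LL ℚ, Good A B ∧ jj A B = TT := by
  have h0 : TT ≠ 0 := (_root_.map_ne_zero _).2 (ap_ne X_ne_zero)
  have h1 : 1728 - TT ≠ 0 := by
    have : (1728 - TT : LL ℚ) = aL (ap (1728 - X)) := by simp only [map_sub, map_ofNat]
    rw [this]
    refine (_root_.map_ne_zero _).2 (ap_ne fun h => ?_)
    have := congrArg (eval 0) h
    norm_num at this
  have g : Good (3 * TT * (1728 - TT)) (2 * TT * (1728 - TT) ^ 2) := ⟨two_ne_zero, by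
    convert mul_ne_zero (by norm_num : (186624 : LL ℚ) ≠ 0) (mul_ne_zero
      (pow_ne_zero 2 h0) (pow_ne_zero 3 h1)) using 1
    ring⟩
  refine ⟨_, _, g, ?_⟩
  rw [jj, div_eq_iff g.disc]
  ring

lemma nat_ne {O : ValuationSubring (LL ℚ)} (hO : ∀ g : ℚ[X], aL (ap g) ∈ O) {n : ℕ} (hn : n ≠ 0) :
    (n : IsLocalRing.ResidueField O) ≠ 0 := by
  have h := (Ev.nat (resPlc O) n).mul (Ev.of_mem (π := resPlc O) (hO (C (n : ℚ)⁻¹)))
  have e : (n : LL ℚ) * aL (ap (C (n : ℚ)⁻¹)) = 1 := by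
    rw [← map_natCast aL, ← map_natCast ap, ← map_natCast C, ← map_mul, ← map_mul, ← map_mul,
      mul_inv_cancel₀ (Nat.cast_ne_zero.2 hn), map_one, map_one, map_one]
  exact left_ne_zero_of_mul_eq_one (h.unique ((Ev.one _).congr e.symm rfl))

end MP

open MP in
theorem modPoly : ModPoly := by
  classical
  intro m hm
  have m0 : m ≠ 0 := hm.pos.ne'
  obtain ⟨A, B, hG, hj⟩ := exists_gen
  obtain ⟨Φ, hΦ, -, hmon⟩ := lifts_and_natDegree_eq_and_monic (f := aL.comp ap) (p := jp A B m)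
    ((lifts_iff_coeff_lifts _).2 fun i => exists_qpoly
      (fun σ => (ev_triv σ.toRingEquiv.toRingHom _).unique (ev_all hm hG (tm_char hG m0)
        ((ev_triv σ.toRingEquiv.toRingHom _).congr rfl (by rw [hj]; exact σ.commutes _)) i))
      fun O hO => by
        have := resid_closed O
        obtain ⟨_, _, -, -, h⟩ := ev_ex (π := resPlc O) (nat_ne hO two_ne_zero)
          (nat_ne hO three_ne_zero) (nat_ne hO m0) hm hG (hj ▸ hO X)
        exact (h i).mem)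
    (monic_prod_of_monic _ _ fun _ _ => monic_X_sub_C _)
  refine ⟨Φ, hmon, fun L _ _ _ _ A' B' h => ?_⟩
  obtain ⟨π, hπ⟩ := univPlace L (jj A' B')
  ext i
  have h1 := ev_all hm hG (tm_char h m0) ((hπ X).congr hj.symm (aeval_X _)) i
  rw [← hΦ, coeff_map] at h1
  rw [coeff_map]
  exact (hπ (Φ.coeff i)).unique h1

end Pool.Agent.MP_c481b3_nt.H28K
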