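import Pool.Agent.MP_c481b3_nt.H28K.SpecR

set_option autoImplicit false

namespace Pool.Agent.MP_c481b3_nt.H28K

open Pool.Agent.MP_c481b3_nt.H81 Pool.Agent.MP_c481b3_nt.H28 Polynomial

namespace NCI

variable {k : Type} [Field k] [DecidableEq (RatFunc k)] {A B A' B' A'' B'' c c' : k}
  {R S R' S' : RatFunc k}

/-- a rational map between two curves, with its action on the invariant differentials -/
structure RM (A B A' B' : k) (R S : RatFunc k) (c : k) : Prop where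
  lt : 1 < vi R
  eq : ff A B * S ^ 2 = R ^ 3 + RatFunc.C A' * R + RatFunc.C B'
  dd : DD R = RatFunc.C c * S

lemma RM.comp (a : RM A B A' B' R S c) (b : RM A' B' A'' B'' R' S' c') :
    RM A B A'' B'' (subst a.lt R') (subst a.lt S' * S) (c' * c) := by
  refine ⟨vi_subst _ b.lt, ?_, ?_⟩
  · have := congrArg (subst a.lt) b.eq
    simp only [map_add, map_mul, map_pow, subst_C, subst_ff, ← a.eq] at this
    linear_combination this
  · rw [DD_subst, b.dd, a.dd, map_mul, subst_C, map_mul]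
    ring

lemma RM.tw (a : RM A B A B R S c) (hG : Good A B) :
    ∃ h ∈ Hinf A B, h ≠ 0 ∧ cc h = RatFunc.C c := by
  obtain ⟨g0, gR, gS⟩ := tw_spec hG a.eq
  have gm : H81.tw A B R S ∈ Hinf A B := Or.inr (by rw [gR]; exact a.lt)
  refine ⟨_, gm, g0, ?_⟩
  rw [cc, div_eq_iff (Hinf.S_ne gm g0), gR, gS, a.dd]

lemma cc_inj [CharZero k] {h : Tw A B} (hh : h ∈ Hinf A B) (e : cc h = 0) : h = 0 := by
  by_contra h0
  have d := Hinf.deg_lt hh h0
  rw [cc, div_eq_zero_iff, or_iff_left (Hinf.S_ne hh h0), DD, div_eq_zero_iff,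
    or_iff_left (pow_ne_zero _ (ap_ne (Rr h).denom_ne_zero)), map_eq_zero_iff _ ap_inj,
    sub_eq_zero] at e
  have k1 : (Rr h).num ∣ derivative (Rr h).num :=
    (Rr h).isCoprime_num_denom.dvd_of_dvd_mul_right ⟨_, e⟩
  have k2 := eq_zero_of_dvd_of_natDegree_lt k1 (natDegree_derivative_lt (by omega))
  have := derivative_eq_zero.1 k2
  omega

variable [DecidableEq k] [IsAlgClosed k]

lemma of_vd {C : Finset (Pt A B)} (d : VD C c A' B') :
    RM A B A' B' (RatFunc.C (c ^ 2)⁻¹ * vX C RatFunc.C RatFunc.X)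
      (RatFunc.C (c ^ 3)⁻¹ * vS C RatFunc.C RatFunc.X) c := by
  classical
  have u0 : RatFunc.C c ≠ 0 := (_root_.map_ne_zero _).2 d.hu
  refine ⟨?_, ?_, ?_⟩
  · rw [map_mul, show vi (RatFunc.C (c ^ 2)⁻¹) = 1 from
      RatFunc.inftyValuation.C k (inv_ne_zero (pow_ne_zero 2 d.hu)), one_mul, vi_vX]
    exact one_lt_vi_X
  · have := velu_ode d.good d.sub
    rw [d.hA, d.hB] at this
    simp only [map_mul, map_pow, map_inv₀] at this ⊢
    field_simp
    linear_combination this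
  · rw [DD_C_mul, DD_vX]
    simp only [map_pow, map_inv₀]
    field_simp

omit [DecidableEq k] in
lemma dg_smul (hG : Good A B) {h : Tw A B} (hh : h ∈ Hinf A B) (t : ℤ) :
    (dg (t • h) : ℤ) = t ^ 2 * dg h := by
  have := dg_quad hG (zero_mem _) hh (-t)
  have z : dg (0 : Tw A B) = 0 := by simp [dg]
  have ng : dg (-h) = dg h := by simp only [dg, Rr_neg]
  rw [neg_smul, zero_sub, neg_neg, zero_sub, z, ng] at this
  rw [this]
  push_cast
  ring

lemma of_eq (hG : Good A B) (H : ∀ h ∈ Hinf A B, h ≠ 0 → ∃ n : ℤ, h = n • g1 A B) :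
    NoCM A B := by
  classical
  intro r₁ r₂ s₁ s₂ r0 s0 dr e
  have r1 : r₁ ≠ 0 := by rintro rfl; simp at dr
  obtain ⟨g0, gR, gS⟩ := tw_spec hG (R := ap r₁ / ap r₂) (S := ap s₁ / ap s₂) (by
    have := congrArg ap e
    change ap (fp A B * _ * _) = _ at this
    rw [map_mul, map_mul, ap_fp] at this
    simp only [map_add, map_mul, map_pow, RatFunc.algebraMap_C] at this
    have r2 := ap_ne r0
    have s2 := ap_ne s0
    field_simp
    linear_combination this)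
  obtain ⟨n, hn⟩ := H _ (Or.inr (by
    rw [gR, map_div₀, vi_ap r1, vi_ap r0, ← WithZero.exp_sub, ← WithZero.exp_zero,
      WithZero.exp_lt_exp]
    omega)) g0
  refine ⟨n, fun x y h d1 d2 => ?_⟩
  obtain ⟨π, a⟩ := exists_at x
  obtain ⟨n0, x1⟩ := red_G0 hG a
  have mx : xc ((G0 A B).pt hG) ∈ π.O := by rw [Gp.xc_pt]; exact a.x_mem
  have my := (a.rd hG).y_mem mx
  have y1 := (a.rd hG).yc_red (Gp.pt_ne _ hG) mx
  rw [Gp.yc_pt] at my y1
  have k1 : ∀ p q : k[X], q.eval x ≠ 0 → aL (ap p / ap q) ∈ π.O ∧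
      π.ev (aL (ap p / ap q)) = p.eval x / q.eval x := fun p q hq => by
    rw [map_div₀]
    exact ⟨π.div_mem (a.mem _) (a.mem _) (by rwa [a.ev]), by
      rw [π.ev_div (a.mem _) (a.mem _) (by rwa [a.ev]), a.ev, a.ev]⟩
  have m1 : xc ((G0 A B).ev hG (tw A B (ap r₁ / ap r₂) (ap s₁ / ap s₂))) ∈ π.O := by
    rw [Gp.xc_ev, gR]; exact (k1 _ _ d1).1
  have k2 := (a.rd hG).red_ne (Gp.ev_ne _ hG g0) m1
  have k3 := (a.rd hG).xc_red (Gp.ev_ne _ hG g0) m1
  have k4 := (a.rd hG).yc_red (Gp.ev_ne _ hG g0) m1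
  rw [Gp.xc_ev, gR, G0_σ, (k1 _ _ d1).2] at k3
  rw [Gp.yc_ev, gS, G0_σ, π.ev_mul my (k1 _ _ d2).1, (k1 _ _ d2).2, ← y1] at k4
  rw [hn, map_zsmul, map_zsmul] at k2 k3 k4
  change n • (a.rd hG).red ((G0 A B).pt hG) ≠ 0 at k2
  change xc (n • (a.rd hG).red ((G0 A B).pt hG)) = _ at k3
  change yc (n • (a.rd hG).red ((G0 A B).pt hG)) = _ at k4
  have k5 : ∀ P : Pt A B, n • P ≠ 0 → xc (n • P) = r₁.eval x / r₂.eval x →
      yc (n • P) = y * (s₁.eval x / s₂.eval x) → ∃ h' : (Wc A B).toAffine.Nonsingular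
        (r₁.eval x / r₂.eval x) (y * (s₁.eval x / s₂.eval x)), n • P = .some _ _ h' := by
    intro P p0 p1 p2
    refine ⟨(ns_iff hG _ _).2 (by rw [← p1, ← p2]; exact eqn p0), ?_⟩
    rw [← pt_some, ← p1, ← p2, pt_self p0]
  rcases eq_or_neg (Q := .some x y h) n0 (WeierstrassCurve.Affine.Point.some_ne_zero _) x1
    with e1 | e1 <;> rw [e1] at k2 k3 k4
  · exact k5 _ k2 k3 k4
  · rw [smul_neg] at k2 k3 k4
    rw [yc_neg, yc_neg, neg_mul, neg_inj] at k4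
    exact k5 _ (neg_ne_zero.1 k2) (by rwa [xc_neg] at k3) k4

end NCI

open NCI in
theorem ncIs : NcIs := by
  intro k _ _ _ _ A B A' B' n f ⟨C, u, d, hc, _⟩ H
  classical
  have n0 : (n : k) ≠ 0 := Nat.cast_ne_zero.2 (hc ▸ (Finset.card_pos.2 ⟨0, d.sub.zero⟩).ne')
  have t : Tm A B n := ⟨d.good, three_ne_zero, n0⟩
  refine of_eq d.good' fun h hh h0 => ?_
  obtain ⟨c, e⟩ := cc_const d.good' hh
  have a : RM A' B' A' B' (Rr h) (Ss h) c :=
    ⟨Hinf.lt hh h0, eqnT h0, by rw [← e, cc, div_mul_cancel₀ _ (Hinf.S_ne hh h0)]⟩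
  obtain ⟨g, gm, g0, gc⟩ := (((of_vd d).comp a).comp (of_vd (d.dual t hc))).tw d.good
  obtain ⟨m, rfl⟩ := H.eq d.good gm g0
  rw [cc_zsmul d.good] at gc
  have k1 : (m : k) = n * c := by
    rw [(RatFunc.C (K := k)).injective gc, mul_comm c, ← mul_assoc, div_mul_cancel₀ _ d.hu]
  have k2 : (m • g1 A' B') - (n : ℤ) • h = 0 :=
    cc_inj (sub_mem (zsmul_mem (g1_mem d.good') _) (zsmul_mem hh _)) (by
      rw [cc_sub_zsmul (zsmul_mem (g1_mem d.good') _) hh, cc_zsmul d.good', e, k1]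
      simp)
  have k3 := dg_zsmul d.good' m
  rw [sub_eq_zero.1 k2, dg_smul d.good' hh] at k3
  obtain ⟨j, rfl⟩ : (n : ℤ) ∣ m := (Int.pow_dvd_pow_iff two_ne_zero).1 ⟨_, k3.symm⟩
  refine ⟨j, sub_eq_zero.1 (cc_inj (sub_mem hh (zsmul_mem (g1_mem d.good') _)) ?_)⟩
  push_cast at k1
  rw [cc_sub_zsmul hh (g1_mem d.good'), cc_g1 d.good', e, ← mul_left_cancel₀ n0 k1]
  simp

end Pool.Agent.MP_c481b3_nt.H28K
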