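import Pool.Agent.MP_c481b3_nt.H28K.SpecR

set_option autoImplicit false

namespace Pool.Agent.MP_c481b3_nt.H28K

open Pool.Agent.MP_c481b3_nt.H81 Pool.Agent.MP_c481b3_nt.H28 Pool.Agent.MP_c481b3_nt.H31
  NumberField Polynomial

namespace NcT

theorem vd_two {k : Type} [Field k] [DecidableEq k] {a b e A' B' : k} (hG : Good a b)
    (hG' : Good A' B') (he : e ^ 3 + a * e + b = 0) (hA : A' = -4 * a - 15 * e ^ 2)
    (hB : B' = -8 * a * e - 22 * e ^ 3) :
    ∃ C : Finset (Pt a b), VD C 1 A' B' ∧ C.card = 2 := by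
  have h0 : (0 : k) ^ 2 = e ^ 3 + a * e + b := by rw [he]; ring
  have T0 := pt_ne hG h0
  have Tx := xc_pt hG h0
  have Ty := yc_pt hG h0
  generalize pt a b e 0 = T at T0 Tx Ty
  have hT : -T = T := pt_ext (neg_ne_zero.2 T0) T0 (xc_neg T) (by rw [yc_neg, Ty, neg_zero])
  have er : ({0, T} : Finset (Pt a b)).erase 0 = {T} :=
    Finset.erase_insert (by simpa using T0.symm)
  refine ⟨{0, T}, ⟨hG, ⟨by simp, ?_⟩, one_ne_zero, ?_, ?_, hG'⟩, Finset.card_pair T0.symm⟩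
  · intro P hP Q hQ
    simp only [Finset.mem_insert, Finset.mem_singleton] at hP hQ ⊢
    rcases hP with rfl | rfl <;> rcases hQ with rfl | rfl <;> simp [hT]
  · rw [vA, er, Finset.sum_singleton, ca, Tx, hA]
    ring
  · rw [vB, er, Finset.sum_singleton, ca, cb, Tx, hB]
    linear_combination (-13) * he

theorem pull {L M : Type} [Field L] [Field M] [DecidableEq L] [DecidableEq M] (σ : L →+* M)
    {A B : L} (hG : Good A B) (H : NoCM (σ A) (σ B)) : NoCM A B := by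
  intro r₁ r₂ s₁ s₂ hr hs hd e
  obtain ⟨n, hn⟩ := H (r₁.map σ) (r₂.map σ) (s₁.map σ) (s₂.map σ) (Polynomial.map_ne_zero hr)
    (Polynomial.map_ne_zero hs) (by simpa using hd)
    (by simpa using congrArg (Polynomial.map σ) e)
  refine ⟨n, fun x y h h1 h2 => ?_⟩
  have ev : ∀ p : L[X], (p.map σ).eval (σ x) = σ (p.eval x) := fun p => by
    rw [eval_map, eval₂_hom]
  have tr : ∀ u v : L, (Wc (σ A) (σ B)).toAffine.Nonsingular (σ u) (σ v) ↔
      (Wc A B).toAffine.Nonsingular u v := fun u v => by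
    rw [ns_iff hG, ns_iff (hG.map σ), ← σ.injective.eq_iff]
    simp
  have mp : ∀ (u v : L) (h : (Wc A B).toAffine.Nonsingular u v),
      (Sc.ofHom σ rfl rfl (hG.map σ)).map (.some u v h) = .some (σ u) (σ v) ((tr u v).2 h) :=
    fun u v h => pt_ext (Sc.map_ne _ (WeierstrassCurve.Affine.Point.some_ne_zero _))
      (WeierstrassCurve.Affine.Point.some_ne_zero _) (xc_ofHom _ _ _ _ _) (yc_ofHom _ _ _ _ _)
  have key := hn (σ x) (σ y) ((tr x y).2 h) (by rw [ev]; exact (_root_.map_ne_zero σ).2 h1)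
    (by rw [ev]; exact (_root_.map_ne_zero σ).2 h2)
  rw [ev, ev, ev, ev, ← map_div₀, ← map_div₀, ← map_mul] at key
  obtain ⟨h', e'⟩ := key
  refine ⟨(tr _ _).1 h', (Sc.ofHom σ rfl rfl (hG.map σ)).injective ?_⟩
  rw [map_zsmul, mp, mp]
  exact e'

theorem good {R L : Type} [CommRing R] [Field L] (φ : R →+* L) (hφ : Function.Injective φ)
    {A B : R} (h : (Wc A B).Δ ≠ 0) : Good (φ A) (φ B) := good_of_ne (by
  rw [show Wc (φ A) (φ B) = (Wc A B).map φ by ext <;> simp [Wc], WeierstrassCurve.map_Δ]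
  exact (map_ne_zero_iff _ hφ).2 h)

theorem two_map {R S : Type} [CommRing R] [CommRing S] (φ : R →+* S) {a b e A' B' : R}
    (h : Two a b e A' B') : Two (φ a) (φ b) (φ e) (φ A') (φ B') := by
  rcases h with ⟨rfl, rfl⟩ | ⟨h, rfl, rfl⟩
  · exact Or.inl ⟨rfl, rfl⟩
  · exact Or.inr ⟨by simpa using congrArg φ h, by simp [map_ofNat], by simp [map_ofNat]⟩

end NcT

theorem isTwo : IsTwo := by
  intro k _ _ _ A B a b e A' B' h3 hG hg hG' h ht
  obtain ⟨f, hf⟩ := is_iso h3 hG hg h.symm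
  rcases ht with ⟨rfl, rfl⟩ | ⟨he, hA, hB⟩
  · exact ⟨1, f, Or.inl rfl, hf⟩
  · obtain ⟨C, d, hC⟩ := NcT.vd_two hg hG' he hA hB
    have := hf.comp h3 (d.is h3)
    rw [hC] at this
    exact ⟨2, _, Or.inr rfl, this⟩

theorem ncT_of : NcIs → NcT := by
  classical
  intro hN K K' _ _ _ _ A B a b e A' B' ι lk H
  let φ : 𝓞 K' →+* AlgebraicClosure K := ι.comp (algebraMap (𝓞 K') K')
  have hφ : Function.Injective φ := ι.injective.comp RingOfIntegers.coe_injective
  obtain ⟨n, f, -, hf⟩ := isTwo (AlgebraicClosure K) (iK A) (iK B) (φ a) (φ b) (φ e) (φ A') (φ B')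
    three_ne_zero (NcT.good iK iK_inj lk.d0) (NcT.good φ hφ lk.d1) (NcT.good φ hφ lk.d2) lk.eq
    (NcT.two_map φ lk.two)
  have H' := hN _ _ _ _ _ n f hf H
  let _ : Algebra K' (AlgebraicClosure K) := ι.toAlgebra
  let σ : AlgebraicClosure K' →ₐ[K'] AlgebraicClosure K := IsAlgClosed.lift
  have hσ : ∀ r : 𝓞 K', σ.toRingHom (iK r) = φ r := fun r => σ.commutes (r : K')
  refine NcT.pull σ.toRingHom (NcT.good iK iK_inj lk.d2) ?_
  rw [hσ, hσ]
  exact H'

end Pool.Agent.MP_c481b3_nt.H28K
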