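import Pool.Agent.MP_c481b3_nt.H28K.SpecG
import Pool.Agent.MP_c481b3_nt.H31.Loc2

set_option autoImplicit false

namespace Pool.Agent.MP_c481b3_nt.H28K

open Pool.Agent.MP_c481b3_nt.H81 Pool.Agent.MP_c481b3_nt.H28 Pool.Agent.MP_c481b3_nt.H31
  Polynomial NumberField

namespace Par

lemma ne0 {l : ℕ} (hl : Odd l) : l ≠ 0 := hl.pos.ne'

lemma sq_ne {R : Type*} [Ring R] {N : R → ℤ} (h : CompRing R N) {x : R} {l : ℕ}
    (hl : ¬IsSquare l) (hx : N x = l) : x * x ≠ l := by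
  intro e
  have a := h.char x
  rw [e, hx] at a
  have b : ((2 * l : ℤ) : R) = pol N x 1 * x := by
    rw [← sub_add_cancel (pol N x 1 * x) (l : ℤ), ← a]; push_cast; rw [two_mul]
  have c := congrArg N b
  rw [h.int, h.int_mul, hx] at c
  have l0 : (l : ℤ) ≠ 0 := by
    have : l ≠ 0 := fun e => hl (e ▸ IsSquare.zero)
    exact_mod_cast this
  have d : pol N x 1 ^ 2 = 4 * l := mul_right_cancel₀ l0 (by linear_combination -c)
  obtain ⟨s, hs⟩ : (2 : ℤ) ∣ pol N x 1 := Int.prime_two.dvd_of_dvd_pow (n := 2) ⟨2 * l, by rw [d]; ring⟩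
  have : (l : ℤ) = s * s := by rw [hs] at d; linarith
  have : l = s.natAbs * s.natAbs := by
    have := congrArg Int.natAbs this
    rwa [Int.natAbs_natCast, Int.natAbs_mul] at this
  exact hl ⟨_, this⟩

lemma du_iff_sd {k : Type} [Field k] [DecidableEq k] {A B : k} [IsAlgClosed k] {l : ℕ}
    (t : Tm A B l) {D : Finset (Pt A B)} (hl : ¬IsSquare l) (a0 : A ≠ 0) (b0 : B ≠ 0)
    (hc : D.card = l) : Du l D D ↔ SD l D := by
  classical
  constructor
  · rintro ⟨u, d, e⟩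
    have e' : (tors A B l).image (d.hom t.three) = D := e.symm
    have d' : VD D (l / u) A B := e' ▸ VD.dual t d hc
    have h1 : ∀ P, vm D (l / u) A B (vm D u A B P) = l • P := fun P => by
      have := VD.dual_comp t d hc P
      rw [VD.hom_apply, e'] at this
      exact this
    rcases d.u_eq d' a0 b0 with h | h
    · obtain ⟨φ, h2, -, h3⟩ := d.exists_end (hG := t.good) t.three
      refine absurd (EE_ext fun P => ?_) 
        (sq_ne (compRing t.three t.good) hl (h3.trans (by rw [hc])))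
      rw [EE_mul, EE_nat, h2, ← h1 P, h]
      rfl
    · refine ⟨u, d, ?_, fun P => ?_⟩
      · rw [div_eq_iff d.hu] at h
        linear_combination h
      · rw [← h1 P, h, d.vm_neg_u, neg_neg]
  · rintro ⟨u, d, -, h⟩
    refine ⟨u, d, (Finset.eq_of_subset_of_card_le (fun Q hQ => ?_) ?_).symm⟩
    · obtain ⟨P, hP, rfl⟩ := Finset.mem_image.1 hQ
      rw [← d.eq_zero, h, t.mem.1 hP, neg_zero]
    · rw [hc]
      exact (VD.dual_card t d hc).ge

open Classical in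
/-- the parity of the order of the product over the subgroups of order `l` -/
def Parity2 : Prop :=
  ∀ (L κ : Type) [Field L] [Field κ] [DecidableEq L] [DecidableEq κ] [IsAlgClosed L]
    [IsAlgClosed κ] [CharZero L] (π : Plc L κ) (A B : L) (A' B' : κ) (r : Rd π A B A' B') (l : ℕ),
    ¬IsSquare l → Odd l → Tm A' B' l → A' ≠ 0 → B' ≠ 0 →
    ∀ (F : Subfield L) (w : L), A ∈ F → B ∈ F → w ∈ F → w ≠ 0 → π.O.valuation w < 1 →
    Discrete π.O F w →
    ∀ (σ : L →+* L) (τ : κ →+* κ) (hA : τ A' = A') (hB : τ B' = B'), σ A = A → σ B = B → σ w = w →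
    (∀ x, σ x ∈ π.O ↔ x ∈ π.O) → (∀ x y, Ev π x y → Ev π (σ x) (τ y)) →
    (∀ D ∈ subs A B l, dl D ≠ 0) →
    (∀ D ∈ subs A B l, ∃ j : ℕ, π.O.valuation (dl D) = π.O.valuation w ^ j) ∧
    ∀ n : ℕ, π.O.valuation (∏ D ∈ subs A B l, dl D) = π.O.valuation w ^ n →
      ∃ m : ℕ, Odd m ∧ n % 2 = ((subs A B l).filter fun D =>
        (∃ j, Odd j ∧ π.O.valuation (dl D) = π.O.valuation w ^ j) ∧ SD l (D.image r.red) ∧
          ∀ P ∈ D.image r.red, ((Sc.ofHom τ hA hB r.good).map)^[m] P ∈ D.image r.red).card % 2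

theorem parity2 : Parity2 := by
  classical
  have hU := univ
  have hR := unram
  intro L κ _ _ _ _ _ _ _ π A B A' B' r l hl l2 t a0 b0 F w hA hB hw w0 w1 hd σ τ tA tB sA sB sw hσ
    hτ h0
  obtain ⟨⟨G, hG⟩, -⟩ := hU l t.pos
  have t' := t.up r
  have h1 : ∀ D ∈ subs A B l, ∃ j : ℕ, π.O.valuation (dl D) = π.O.valuation w ^ j :=
    fun D hD => dl_val r t hR a0 b0 hG hA hB hw w0 w1 hd hD (h0 D hD)
  refine ⟨h1, fun n hn => ?_⟩
  choose! j hj using h1
  have inj := pow_right_injective₀ (zero_lt_iff.2 ((Valuation.ne_zero_iff _).2 w0)) w1.ne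
  have h2 : n = ∑ D ∈ subs A B l, j D := inj (by
    beta_reduce
    rw [← hn, map_prod, Finset.prod_congr rfl hj, Finset.prod_pow_eq_pow_sum])
  set S := (Sc.ofHom σ sA sB (rd_good r)).map with hS
  set T := (Sc.ofHom τ tA tB r.good).map with hT
  have sc : Function.Semiconj r.red S T := red_semiconj r tA tB sA sB hσ hτ
  have cr : ∀ D ∈ subs A B l, (D.image r.red).card = l := fun D hD =>
    (t.mem_subs.1 (red_subs r t hD)).2
  have mS : ∀ D ∈ subs A B l, D.image S ∈ subs A B l ∧ j (D.image S) = j D := fun D hD => by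
    obtain ⟨d1, d2⟩ := t'.mem_subs.1 hD
    obtain ⟨c1, c2, c3⟩ := map_sub_data σ sA sB (rd_good r) d1
    have m := t'.mem_subs.2 ⟨c1, c2.trans d2⟩
    exact ⟨m, inj (by
      beta_reduce
      rw [← hj _ m, c3, v_map π.O σ hσ w0 sw (hj D hD)])⟩
  have rS : ∀ (D : Finset (Pt A B)) (m : ℕ),
      (D.image S^[m]).image r.red = (D.image r.red).image T^[m] := fun D m => by
    rw [Finset.image_image, Finset.image_image]
    exact Finset.image_congr fun P _ => sc.iterate_right m P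
  set s₁ := (subs A B l).filter fun D => Odd (j D) with hs₁
  have p1 : n % 2 = s₁.card % 2 := by
    have := Finset.even_sum_iff_even_card_odd (s := subs A B l) j
    rw [← h2, Nat.even_iff, Nat.even_iff] at this
    rw [hs₁]
    omega
  have p2 := card_rel s₁ (fun D E => Du l (D.image r.red) (E.image r.red))
    (fun D hD => by
      obtain ⟨d0, d3⟩ := Finset.mem_filter.1 hD
      obtain ⟨d1, d2⟩ := t'.mem_subs.1 d0
      have e1 : dl (D.image r.red) = 0 := by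
        refine (ev_dl r d1 (red_sub_ne r d1 (d2 ▸ t.ne))).unique (Ev.of_lt ?_)
        rw [hj D d0]
        exact pow_lt_one₀ zero_le w1 d3.pos.ne'
      obtain ⟨u, d⟩ := vd_of_dl r.good t.three a0 b0 (isSub_image _ d1)
        (by rw [cr D d0]; exact l2) e1
      have e2 : Du l (D.image r.red) _ := ⟨u, d, rfl⟩
      obtain ⟨E, e3, e4⟩ := exists_lift_sub r t (e2.mem t (cr D d0))
      rw [← e4] at e2
      refine ⟨E, Finset.mem_filter.2 ⟨e3, ?_⟩, e2⟩
      rwa [show j E = j D from inj (by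
        beta_reduce
        rw [← hj E e3, ← hj D d0]
        exact le_antisymm (du_le r t a0 b0 hG d0 e3 e2)
          (du_le r t a0 b0 hG e3 d0 (e2.symm t (cr D d0))))])
    (fun D hD E _ h => h.symm t (cr D (Finset.mem_filter.1 hD).1))
    (fun D _ E hE E' hE' h h' => subs_inj r t (Finset.mem_filter.1 hE).1
      (Finset.mem_filter.1 hE').1 (h.uniq t a0 b0 h'))
  obtain ⟨m, hm, p3⟩ := exists_odd (s₁.filter fun D => Du l (D.image r.red) (D.image r.red))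
    (Finset.image S)
    (fun D hD => by
      obtain ⟨d0, d4⟩ := Finset.mem_filter.1 hD
      obtain ⟨d0, d3⟩ := Finset.mem_filter.1 d0
      refine Finset.mem_filter.2 ⟨Finset.mem_filter.2 ⟨(mS D d0).1, (mS D d0).2 ▸ d3⟩, ?_⟩
      rw [show (D.image S).image r.red = (D.image r.red).image T from rS D 1]
      exact du_map t tA tB (cr D d0) d4)
    (Finset.image_injective (Sc.injective _)).injOn
  refine ⟨m, hm, ?_⟩
  rw [p1, p2, p3]
  congr 2
  ext D
  simp only [hs₁, Finset.mem_filter, Finset.iterate_image, and_assoc]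
  refine and_congr_right fun hD => and_congr ?_ (and_congr (du_iff_sd t hl a0 b0 (cr D hD)) ?_)
  · refine ⟨fun h => ⟨_, h, hj D hD⟩, ?_⟩
    rintro ⟨i, h, e⟩
    rwa [show j D = i from inj ((hj D hD).symm.trans e)]
  · refine ⟨fun e P hP => ?_, fun h => ?_⟩
    · have := Finset.mem_image_of_mem T^[m] hP
      rwa [← rS, e] at this
    · have m1 : D.image S^[m] ∈ subs A B l := by
        rw [← Finset.iterate_image]
        exact Set.MapsTo.iterate (s := (subs A B l : Set _)) (fun D hD => (mS D hD).1) m hD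
      refine subs_inj r t m1 hD ?_
      refine Finset.eq_of_subset_of_card_le ?_ (by rw [cr _ m1, cr _ hD])
      beta_reduce
      rw [rS]
      exact Finset.image_subset_iff.2 h

/-- a root of the odd part is the invariant of a curve with an endomorphism of square `-l` -/
theorem root_sd {L : Type} [Field L] [DecidableEq L] [IsAlgClosed L] [CharZero L]
    {l : ℕ} (hl : ¬IsSquare l) (h2 : Odd l) {Ψ F G : ℤ[X]} (hΨ : IsUnivPsi l Ψ) {c : ℤ}
    (c0 : c ≠ 0)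
    (e : Ψ = C c * (G ^ 2 * F)) (G0 : G ≠ 0) (F0 : F ≠ 0)
    (sq : ∀ m : ℚ[X], 0 < m.natDegree → ¬m ^ 2 ∣ F.map (algebraMap ℤ ℚ)) {w : L} (hw : Good w w)
    (hr : az w F = 0) : ∃ D ∈ subs w w l, SD l D := by
  classical
  have inj := (algebraMap ℤ ℚ).injective_int
  have w0 : w ≠ 0 := fun h => hw.disc (by simp [h])
  have r1 : aeval w (F.map (algebraMap ℤ ℚ)) = 0 := by rwa [aeval_map_algebraMap]
  have wi : IsIntegral ℚ w := IsAlgebraic.isIntegral ⟨_, (Polynomial.map_ne_zero_iff inj).2 F0, r1⟩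
  obtain ⟨π, hπ⟩ := univPlace L w
  obtain ⟨d1, d2⟩ := univDisc L w wi π hπ
  have tw : Ev π TT w := (hπ X).congr rfl (aeval_X _)
  have r : Rd π TT TT w w := rd_of tw tw hw
  have T0 : TT ≠ 0 := tw.ne_zero w0
  have m0 : aL (ap (minpoly ℚ w)) ≠ 0 := (_root_.map_ne_zero _).2 (ap_ne (minpoly.ne_zero wi))
  have m1 : π.O.valuation (aL (ap (minpoly ℚ w))) < 1 :=
    Ev.v_lt ((hπ _).congr rfl (minpoly.aeval ℚ w))
  have zl : ∀ g : ℤ[X], az TT g = aL (ap (g.map (algebraMap ℤ ℚ))) := fun g => by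
    rw [show TT = zL X by simp [zL], az_hom]
    rfl
  have e1 := hΨ.az good_TT T0 T0
  rw [show TT ^ 3 / TT ^ 2 = TT by field_simp, div_self T0, e, map_mul, map_mul, map_pow,
    eq_intCast, map_intCast, zl, zl] at e1
  simp only [one_pow, mul_one, Finset.prod_mul_distrib, Finset.prod_const] at e1
  obtain ⟨i, i1, i2⟩ : ∃ i, minpoly ℚ w ^ i ∣ G.map (algebraMap ℤ ℚ) ∧
      ¬minpoly ℚ w ^ (i + 1) ∣ G.map (algebraMap ℤ ℚ) := by
    have := FiniteMultiplicity.of_not_isUnit (minpoly.irreducible wi).not_isUnit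
      ((Polynomial.map_ne_zero_iff inj).2 G0)
    exact ⟨_, pow_multiplicity_dvd _ _, this.not_pow_dvd_of_multiplicity_lt (Nat.lt_succ_self _)⟩
  have v1 := d2 _ i i1 i2
  have v2 := d2 _ 1 (by rw [pow_one]; exact minpoly.dvd ℚ w r1) (sq _ (minpoly.natDegree_pos wi))
  have e2 := congrArg π.O.valuation e1
  have l0 : (l : L) ≠ 0 := Nat.cast_ne_zero.2 (ne0 h2)
  rw [map_mul, map_mul, map_mul, map_pow, map_pow, map_pow, v1, v2, (Ev.nat π l).v_one l0,
    (Ev.int π c).v_one (Int.cast_ne_zero.2 c0), one_pow, one_pow, one_mul, one_mul,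
    ← pow_mul, ← pow_add] at e2
  have t : Tm w w l := ⟨hw, three_ne_zero, l0⟩
  obtain ⟨m, -, hm⟩ := (parity2 _ _ π TT TT w w r l hl h2 t w0 w0 (aL (k := ℚ)).fieldRange _ ⟨_, rfl⟩
    ⟨_, rfl⟩ ⟨_, rfl⟩ m0 m1 d1 (RingHom.id _) (RingHom.id _) rfl rfl rfl rfl rfl (fun _ => Iff.rfl)
    (fun _ _ h => h) (fun D hD h => by
      rw [Finset.prod_eq_zero hD h, map_zero] at e2
      exact pow_ne_zero _ ((Valuation.ne_zero_iff _).2 m0) e2)).2 _ e2.symm
  obtain ⟨D, hD⟩ := Finset.card_pos.1 (Nat.pos_of_ne_zero fun e => by rw [e] at hm; omega)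
  obtain ⟨a, -, b, -⟩ := Finset.mem_filter.1 hD
  exact ⟨_, red_subs r t a, b⟩

lemma dl_ne_of_noCM {L : Type*} [Field L] [DecidableEq L] [IsAlgClosed L] [CharZero L] {A B : L}
    (H : NoCM A B) (hG : Good A B) {l : ℕ} (hl : ¬IsSquare l) (h2 : Odd l) :
    ∀ D ∈ subs A B l, dl D ≠ 0 := by
  intro D hD
  have t : Tm A B l := ⟨hG, three_ne_zero, Nat.cast_ne_zero.2 (ne0 h2)⟩
  obtain ⟨c1, c2⟩ := t.mem_subs.1 hD
  refine H.dl_ne hG c1 (c2 ▸ hl) fun h => ?_
  have := (good_velu hG three_ne_zero c1 (c2 ▸ h2)).disc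
  simp [h.1, h.2] at this

section loc
variable {K : Type} [Field K] [NumberField K] [DecidableEq (AlgebraicClosure K)]
  {A B : 𝓞 K} {P : Ideal (𝓞 K)} {O : ValuationSubring (AlgebraicClosure K)} {q n : ℕ}
  (c : Loc A B P O q n) [Fact q.Prime] [CharP (IsLocalRing.ResidueField O) q]
  [DecidableEq (IsLocalRing.ResidueField O)]
include c

open Classical in
lemma par (H : NoCM (iK A) (iK B)) (h5 : 5 ≤ q) (hA : A ∉ P) (hB : B ∉ P) {l : ℕ}
    (hl : ¬IsSquare l) (h2 : Odd l) (hq : ¬q ∣ l) {w : 𝓞 K} (w1 : w ∈ P) (w2 : w ∉ P ^ 2) :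
    (∀ D ∈ subs (iK A) (iK B) l, ∃ j : ℕ, O.valuation (dl D) = O.valuation (iK w) ^ j) ∧
    ∀ s : ℕ, O.valuation (∏ D ∈ subs (iK A) (iK B) l, dl D) = O.valuation (iK w) ^ s →
      ∃ m : ℕ, Odd m ∧ s % 2 = ((subs (iK A) (iK B) l).filter fun D =>
        (∃ j, Odd j ∧ O.valuation (dl D) = O.valuation (iK w) ^ j) ∧ SD l (D.image c.rd.red) ∧
          ∀ Q ∈ D.image c.rd.red,
            (frP c.good q n (c.fix A) (c.fix B))^[m] Q ∈ D.image c.rd.red).card % 2 := by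
  obtain ⟨σ, s1, s2⟩ := c.exists_sigma
  have w0 : iK w ≠ 0 := (map_ne_zero_iff _ iK_inj).2 fun e => w2 (e ▸ zero_mem _)
  exact parity2 _ _ (resPlc O) (iK A) (iK B) _ _ c.rd l hl h2
    ⟨c.good, c.three h5, c.nat_ne fun e => hq (c.nat_mem.1 e)⟩ (c.rs_ne hA) (c.rs_ne hB)
    (algebraMap K (AlgebraicClosure K)).fieldRange (iK w) ⟨A, rfl⟩ ⟨B, rfl⟩ ⟨w, rfl⟩ w0
    ((c.lt w).2 w1) ((discreteAt K P c.max O c.mem c.lt).2.2 w w1 w2).1
    σ.toRingEquiv.toRingHom (iterateFrobenius _ q n) (c.fix A) (c.fix B) (σ.commutes (A : K))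
    (σ.commutes (B : K)) (σ.commutes (w : K)) s1 s2 (dl_ne_of_noCM H (rd_good c.rd) hl h2)

/-- a prime of odd order at which `-l` is not a square has trace zero -/
theorem odd_zero (H : NoCM (iK A) (iK B)) (h5 : 5 ≤ q) (hA : A ∉ P) (hB : B ∉ P)
    {l : ℕ} (hl : ¬IsSquare l) (h2 : Odd l) (hJ : jacobiSym (-(l : ℤ)) (Ideal.absNorm P) = -1)
    {s s' x g : 𝓞 K} (hs : s ∉ P) (hs' : s' ∉ P) (g0 : g ≠ 0)
    (e : iK (s * x * g ^ 2) = iK s' * ∏ D ∈ subs (iK A) (iK B) l, dl D) (hx : OddAt P x) :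
    aP A B P = 0 := by
  classical
  rw [c.norm] at hJ
  obtain ⟨no, hJ⟩ := jacobi_pow hJ
  have hq : ¬q ∣ l := fun h => by
    rw [jacobiSym.mod_left, Int.emod_eq_zero_of_dvd ((dvd_neg).2 (Int.natCast_dvd_natCast.2 h)),
      jacobiSym.zero_left c.prime.one_lt] at hJ
    omega
  obtain ⟨⟨w, w1, w2⟩, -⟩ := discreteAt K P c.max O c.mem c.lt
  obtain ⟨a, ao, a1, a2⟩ := hx
  obtain ⟨b, hb⟩ := c.val w1 w2 hs hs' g0 e a1 a2
  obtain ⟨m, mo, hm⟩ := (par c H h5 hA hB hl h2 hq w1 w2).2 _ hb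
  obtain ⟨D, hD⟩ := Finset.card_pos.1 (Nat.pos_of_ne_zero fun e => by
    rw [e] at hm
    obtain ⟨a, rfl⟩ := ao
    omega)
  obtain ⟨-, -, ⟨u, d, hu, -⟩, st⟩ := Finset.mem_filter.1 hD
  have h3 := c.three h5
  have cr := compRing h3 c.good
  obtain ⟨φ, f1, f2, -⟩ := d.exists_end (hG := c.good) h3
  obtain ⟨e1, e2⟩ := frE_pow c.good q n (c.fix A) (c.fix B) m
  have an := anti_of_stab c.good h3 q (n * m) _ _ (c.rs_ne hA) (c.rs_ne hB) d f1
    (fun Q hQ => e2 Q ▸ st Q hQ)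
    (pow_ne_self q c.good.two hJ (by simpa using hu) (no.mul mo))
  rw [← e1] at an
  have φ0 : φ ≠ 0 := fun e => d.hu (by rw [← f2, e, map_zero])
  rw [← c.tr h5]
  exact cr.tr_pow c.prime h5 no mo (NE_frE _ _ _ _ _)
    (cr.tr_anti φ0 (neg_eq_iff_eq_neg.1 an.symm))

end loc

end Par

theorem rootSD2 : RootSD2 := by
  intro L _ _ _ _ n Ψ F G c w h2 hl hΨ c0 e G0 F0 sq hw hr
  exact Par.root_sd hl h2 hΨ c0 e G0 F0 sq hw hr

theorem oddCov2 : OddCov2 := by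
  classical
  intro K _ _ A B P p l s s' x g H hm pp h5 hp hA hB hΔ h2 hl hJ hs hs' g0 e hx
  have z : aP A B P = 0 ∧ ∃ n, Odd n ∧ Ideal.absNorm P = p ^ n := by
    obtain ⟨O, q, n, c⟩ := exists_loc hm hΔ
    obtain rfl := (Nat.prime_dvd_prime_iff_eq c.prime pp).1 (c.nat_mem.1 hp)
    have := Fact.mk pp
    have := c.char
    exact ⟨Par.odd_zero c H h5 hA hB hl h2 hJ hs hs' g0 e hx, n, (jacobi_pow (c.norm ▸ hJ)).1,
      c.norm⟩
  refine ⟨hm, pp, h5, hp, z.2, hA, hB, hΔ, z.1, fun O q n c _ _ => ?_⟩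
  obtain rfl := (Nat.prime_dvd_prime_iff_eq c.prime pp).1 (c.nat_mem.1 hp)
  rw [c.norm] at hJ
  obtain ⟨no, hJ⟩ := jacobi_pow hJ
  have hq : ¬q ∣ l := fun h => by
    rw [jacobiSym.mod_left, Int.emod_eq_zero_of_dvd ((dvd_neg).2 (Int.natCast_dvd_natCast.2 h)),
      jacobiSym.zero_left c.prime.one_lt] at hJ
    omega
  obtain ⟨⟨w, w1, w2⟩, -⟩ := discreteAt K P c.max O c.mem c.lt
  obtain ⟨a, ao, a1, a2⟩ := hx
  obtain ⟨b, hb⟩ := c.val w1 w2 hs hs' g0 e a1 a2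
  obtain ⟨m, mo, hm'⟩ := (Par.par c H h5 hA hB hl h2 hq w1 w2).2 _ hb
  obtain ⟨D, hD⟩ := Finset.card_pos.1 (Nat.pos_of_ne_zero fun e => by
    rw [e] at hm'
    obtain ⟨a, rfl⟩ := ao
    omega)
  obtain ⟨m1, -, ⟨u, d, hu, -⟩, st⟩ := Finset.mem_filter.1 hD
  have h3 := c.three h5
  have cr := compRing h3 c.good
  have t : Tm (rs O A) (rs O B) l := ⟨c.good, h3, c.nat_ne fun e => hq (c.nat_mem.1 e)⟩
  obtain ⟨φ, f1, -, f3⟩ := d.exists_end (hG := c.good) h3
  obtain ⟨e1, e2⟩ := frE_pow c.good q n (c.fix A) (c.fix B) m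
  have an := anti_of_stab c.good h3 q (n * m) _ _ (c.rs_ne hA) (c.rs_ne hB) d f1
    (fun Q hQ => e2 Q ▸ st Q hQ)
    (pow_ne_self q c.good.two hJ (by simpa using hu) (no.mul mo))
  rw [← e1] at an
  obtain ⟨i, rfl⟩ := mo
  refine ⟨φ, by rw [f3, (t.mem_subs.1 (red_subs c.rd t m1)).2], ?_⟩
  rw [pow_succ, pow_mul, sq, Loc2.sq_of_tr c.good h3 q _ _ ((c.tr h5).trans z.1), ← Int.cast_neg,
    ← Int.cast_pow] at an
  refine cr.cancel (cr.int_ne (n := (-(q : ℤ) ^ n) ^ i) (pow_ne_zero _ (neg_ne_zero.2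
    (pow_ne_zero _ (Int.natCast_ne_zero.2 pp.ne_zero))))) ?_
  rw [mul_neg, ← mul_assoc, ← mul_assoc, ← an, Int.cast_comm, mul_assoc]

end Pool.Agent.MP_c481b3_nt.H28K
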