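import Pool.Agent.MP_c481b3_nt.H28K.SpecG

set_option autoImplicit false

namespace Pool.Agent.MP_c481b3_nt.H28K

open Pool.Agent.MP_c481b3_nt.H81 Pool.Agent.MP_c481b3_nt.H28 MeasureTheory ComplexConjugate

namespace Prel

variable {a b : ℝ} (h : Good (a : ℂ) (b : ℂ))

lemma cx (P : Pt (a : ℂ) (b : ℂ)) : xc (cj h P) = conj (xc P) := xc_ofHom _ _ _ _ P

lemma cy (P : Pt (a : ℂ) (b : ℂ)) : yc (cj h P) = conj (yc P) := yc_ofHom _ _ _ _ P

lemma cne {P : Pt (a : ℂ) (b : ℂ)} (hP : P ≠ 0) : cj h P ≠ 0 := Sc.map_ne _ hP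

lemma cc (P : Pt (a : ℂ) (b : ℂ)) : cj h (cj h P) = P := by
  by_cases hP : P = 0
  · simp [hP]
  exact pt_ext (cne h (cne h hP)) hP (by rw [cx, cx, Complex.conj_conj])
    (by rw [cy, cy, Complex.conj_conj])

variable {D : Finset (Pt (a : ℂ) (b : ℂ))}

lemma conj_X (hs : ∀ P ∈ D, cj h P ∈ D) (ξ : ℂ) :
    conj (X1 D ξ) = X1 D (conj ξ) ∧ conj (S1 D ξ) = S1 D (conj ξ) := by
  have e : D.image (cj h) = D := by
    ext P
    rw [Finset.mem_image]
    exact ⟨fun ⟨Q, h1, h2⟩ => h2 ▸ hs Q h1, fun hP => ⟨_, hs P hP, cc h P⟩⟩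
  have := vX_image (starRingEnd ℂ) (Complex.conj_ofReal a) (Complex.conj_ofReal b) h D (conj ξ)
  rw [show D.image (Sc.ofHom (starRingEnd ℂ) (Complex.conj_ofReal a) (Complex.conj_ofReal b)
    h).map = D from e] at this
  exact ⟨(map_vX _ _ _ _).trans this.1.symm, (map_vS _ _ _ _).trans this.2.symm⟩

lemma re_X (hs : ∀ P ∈ D, cj h P ∈ D) (x : ℝ) :
    ((X1 D x).re : ℂ) = X1 D x ∧ ((S1 D x).re : ℂ) = S1 D x := by
  have := conj_X h hs x
  rw [Complex.conj_ofReal] at this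
  exact ⟨Complex.conj_eq_iff_re.1 this.1, Complex.conj_eq_iff_re.1 this.2⟩

lemma deriv_X {ξ : ℂ} (hξ : ∀ P ∈ D.erase 0, ξ ≠ xc P) : HasStrictDerivAt (X1 D) (S1 D ξ) ξ := by
  have h1 : ∀ P ∈ D.erase 0, HasStrictDerivAt
      (fun ξ : ℂ => ca P / (ξ - xc P) + cb P / (ξ - xc P) ^ 2)
      (-(ca P / (ξ - xc P) ^ 2 + 2 * cb P / (ξ - xc P) ^ 3)) ξ := by
    intro P hP
    have h0 := sub_ne_zero.2 (hξ P hP)
    have h2 : HasStrictDerivAt (fun ξ => ξ - xc P) 1 ξ := (hasStrictDerivAt_id ξ).sub_const (xc P)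
    have h3 := ((hasStrictDerivAt_const ξ (ca P)).fun_div h2 h0).fun_add
      ((hasStrictDerivAt_const ξ (cb P)).fun_div (h2.fun_mul h2) (mul_ne_zero h0 h0))
    simp only [sq (_ - xc P)]
    refine h3.congr_deriv ?_
    field_simp
    ring
  refine ((hasStrictDerivAt_id ξ).fun_add (HasStrictDerivAt.fun_sum h1)).congr_deriv ?_
  rw [Finset.sum_neg_distrib, ← sub_eq_add_neg]
  rfl

/-- the real point above a real number -/
lemma real_pt {x : ℝ} (hx : 0 < x ^ 3 + a * x + b) : ∃ P : Pt (a : ℂ) (b : ℂ),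
    P ≠ 0 ∧ P ≠ -P ∧ xc P = x ∧ cj h P = P := by
  have e : ((√(x ^ 3 + a * x + b) : ℝ) : ℂ) ^ 2 = (x : ℂ) ^ 3 + a * x + b := by
    rw [← Complex.ofReal_pow, Real.sq_sqrt hx.le]; push_cast; rfl
  refine ⟨_, pt_ne h e, fun e' => ?_, xc_pt h e, pt_ext (cne h (pt_ne h e)) (pt_ne h e)
    (by rw [cx, xc_pt h e, Complex.conj_ofReal]) (by rw [cy, yc_pt h e, Complex.conj_ofReal])⟩
  have h1 := congrArg (fun P => (yc P).re) e'
  simp only [yc_neg, yc_pt h e, Complex.neg_re, Complex.ofReal_re] at h1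
  linarith [Real.sqrt_pos.2 hx]

variable {a' b' : ℝ} (d : VD D 1 (a' : ℂ) (b' : ℂ)) (hs : ∀ P ∈ D, cj h P ∈ D)
include d hs

lemma vm_cj (h3 : (3 : ℂ) ≠ 0) (P : Pt (a : ℂ) (b : ℂ)) :
    d.hom h3 (cj h P) = cj d.good' (d.hom h3 P) := by
  by_cases hP : P ∈ D
  · rw [(d.hom_eq_zero h3).2 hP, (d.hom_eq_zero h3).2 (hs P hP), map_zero]
  have hP' : cj h P ∉ D := fun e => hP (cc h P ▸ hs _ e)
  obtain ⟨a1, a2, a3⟩ := d.spec hP
  obtain ⟨b1, b2, b3⟩ := d.spec hP'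
  refine pt_ext b1 (cne _ a1) ?_ ?_
  · rw [cx, d.hom_apply, d.hom_apply, a2, b2, cx, ← (conj_X h hs _).1]; simp
  · rw [cy, d.hom_apply, d.hom_apply, a3, b3, cx, cy, ← (conj_X h hs _).2]; simp

open Classical in
lemma card_fib (h3 : (3 : ℂ) ≠ 0) (ho : Odd D.card) {Q : Pt (a' : ℂ) (b' : ℂ)}
    (hQ : cj d.good' Q = Q) :
    {P | d.hom h3 P = Q ∧ cj h P = P}.encard = (D.filter fun P => cj h P = P).card := by
  obtain ⟨P, rfl⟩ := d.surj h3 Q
  obtain ⟨m, hm⟩ := ho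
  have he : cj h P - P ∈ D := (d.hom_eq_zero h3).1 (by rw [map_sub, vm_cj h d hs, hQ, sub_self])
  have h1 := d.sub.nsmul_card he
  rw [hm] at h1
  have h2 : cj h (P + (m + 1) • (cj h P - P)) = P + (m + 1) • (cj h P - P) := by
    rw [map_add, map_nsmul, map_sub, cc]
    rw [← sub_eq_zero, ← neg_eq_zero, ← h1]
    module
  have h4 : d.hom h3 (P + (m + 1) • (cj h P - P)) = d.hom h3 P := by
    rw [map_add, map_nsmul, (d.hom_eq_zero h3).2 he, nsmul_zero, add_zero]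
  generalize P + (m + 1) • (cj h P - P) = R at h2 h4
  rw [← Set.encard_coe_eq_coe_finsetCard,
    ← (add_right_injective R).encard_image (D.filter fun P => cj h P = P)]
  congr 1
  ext S
  simp only [Set.mem_ofPred_eq, Set.mem_image, Finset.coe_filter]
  constructor
  · rintro ⟨e1, e2⟩
    exact ⟨S - R, ⟨(d.hom_eq_zero h3).1 (by rw [map_sub, e1, h4, sub_self]),
      by rw [map_sub, e2, h2]⟩, add_sub_cancel _ _⟩
  · rintro ⟨T, ⟨e1, e2⟩, rfl⟩
    exact ⟨by rw [map_add, h4, (d.hom_eq_zero h3).2 e1, add_zero], by rw [map_add, h2, e2]⟩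

lemma ode {x : ℝ} (hx : ∀ P ∈ D.erase 0, (x : ℂ) ≠ xc P) :
    (x ^ 3 + a * x + b) * (S1 D x).re ^ 2 = (X1 D x).re ^ 3 + a' * (X1 D x).re + b' := by
  have := velu_eq h d.sub hx
  rw [d.hA, d.hB] at this
  apply Complex.ofReal_injective
  push_cast
  rw [(re_X h hs x).1, (re_X h hs x).2]
  linear_combination this

open Classical in
lemma fib (ho : Odd D.card) {y : ℝ} (hy : 0 < y ^ 3 + a' * y + b') :
    (({x : ℝ | 0 < x ^ 3 + a * x + b} ∩ {x : ℝ | (∀ P ∈ D.erase 0, (x : ℂ) ≠ xc P) ∧ S1 D x ≠ 0}) ∩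
      (fun x : ℝ => (X1 D x).re) ⁻¹' {y}).encard = (D.filter fun P => cj h P = P).card := by
  have h3 : (3 : ℂ) ≠ 0 := by norm_num
  obtain ⟨Q, q0, q1, q2, q3⟩ := real_pt d.good' hy
  have rx : ∀ P, cj h P = P → ((xc P).re : ℂ) = xc P := fun P e =>
    Complex.conj_eq_iff_re.1 (by rw [← cx h, e])
  have nD : ∀ P, d.hom h3 P = Q → P ∉ D := fun P e hP => q0 (e ▸ (d.hom_eq_zero h3).2 hP)
  rw [← card_fib h d hs h3 ho q3, ← Set.InjOn.encard_image
    (s := {P | d.hom h3 P = Q ∧ cj h P = P}) (f := fun P => (xc P).re)]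
  · congr 1
    ext x
    simp only [Set.mem_inter_iff, Set.mem_ofPred_eq, Set.mem_preimage, Set.mem_singleton_iff,
      Set.mem_image]
    constructor
    · rintro ⟨⟨h1, h2, -⟩, rfl⟩
      obtain ⟨P, p0, -, p2, p3⟩ := real_pt h h1
      have hP : P ∉ D := fun e => h2 P (Finset.mem_erase.2 ⟨p0, e⟩) p2.symm
      obtain ⟨a1, a2, -⟩ := d.spec hP
      rcases eq_or_neg a1 q0 (by rw [a2, q2, p2, (re_X h hs x).1]; simp) with e | e
      · exact ⟨P, ⟨e, p3⟩, by rw [p2, Complex.ofReal_re]⟩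
      · exact ⟨-P, ⟨by rw [map_neg, d.hom_apply, e, neg_neg], by rw [map_neg, p3]⟩,
          by rw [xc_neg, p2, Complex.ofReal_re]⟩
    · rintro ⟨P, ⟨e1, e2⟩, rfl⟩
      obtain ⟨p0, p1⟩ := off1 d.sub (nD P e1)
      obtain ⟨-, a2, a3⟩ := d.spec (nD P e1)
      rw [← d.hom_apply h3, e1] at a2 a3
      have y0 : yc Q ≠ 0 := fun e => q1 (pt_ext q0 (neg_ne_zero.2 q0) (xc_neg Q).symm
        (by rw [yc_neg, e, neg_zero]))
      have ry : ((yc P).re : ℂ) = yc P := Complex.conj_eq_iff_re.1 (by rw [← cy h, e2])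
      have y1 : (yc P).re ≠ 0 := fun e => y0 (by rw [a3, ← ry, e]; simp)
      have y2 : (yc P).re ^ 2 = (xc P).re ^ 3 + a * (xc P).re + b := by
        apply Complex.ofReal_injective
        push_cast
        rw [ry, rx P e2, eqn p0]
      rw [rx P e2, ← y2]
      refine ⟨⟨by positivity, p1, fun e => y0 (by rw [a3, e]; simp)⟩, ?_⟩
      rw [one_pow, div_one] at a2
      rw [← a2, q2, Complex.ofReal_re]
  · rintro P ⟨e1, e2⟩ P' ⟨e3, e4⟩ e
    rcases eq_or_neg (off1 d.sub (nD P e1)).1 (off1 d.sub (nD P' e3)).1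
      (by rw [← rx P e2, ← rx P' e4]; exact congrArg _ e) with e | e
    · exact e
    · rw [e, map_neg, e3] at e1
      exact absurd e1.symm q1

omit hs in
lemma fin_bad : {x : ℝ | (∀ P ∈ D.erase 0, (x : ℂ) ≠ xc P) ∧ S1 D x ≠ 0}ᶜ.Finite := by
  refine ((d.finite_bad (by norm_num)).image fun P => (xc P).re).subset fun x hx => ?_
  obtain ⟨P, p0, p1⟩ := exists_pt d.good (x : ℂ)
  refine ⟨P, ?_, by simp only [p1, Complex.ofReal_re]⟩
  by_cases hP : P ∈ D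
  · exact Or.inl (d.sub.add hP hP)
  refine Or.inr ?_
  have h1 := (off1 d.sub hP).2
  rw [p1] at h1
  rw [(d.spec hP).2.2, p1, not_not.1 fun e => hx ⟨h1, e⟩]
  simp

end Prel

open Prel in
theorem perRel_of (hA : Area) : PerRel := by
  intro a b a' b' h D hD ho hs ea eb
  have d : VD D 1 (a' : ℂ) (b' : ℂ) := by
    rw [← ea, ← eb]
    exact vd_one h (by norm_num) hD ho
  have fb := fin_bad d
  have m1 : ∀ a b : ℝ, MeasurableSet {x : ℝ | 0 < x ^ 3 + a * x + b} := fun a b =>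
    measurableSet_lt measurable_const (by fun_prop)
  have m2 := (m1 a b).inter fb.measurableSet.of_compl
  have key := hA _ _ (fun x : ℝ => (X1 D x).re) (fun x : ℝ => (S1 D x).re)
    (fun y => ENNReal.ofReal (1 / √(y ^ 3 + a' * y + b'))) _ m2 (m1 a' b') (by fun_prop) ?_
    fun y hy => fib h d hs ho hy
  · rw [om, om, Ig, Ig, ← key, ← setLIntegral_congr (inter_ae_eq_left_of_ae_eq_univ
      (ae_eq_univ.2 (fb.measure_zero volume)))]
    refine setLIntegral_congr_fun m2 ?_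
    rintro x ⟨h1, h2, h3⟩
    have h4 : (S1 D x).re ≠ 0 := fun e => h3 (by rw [← (re_X h hs x).2, e]; simp)
    have h5 := Real.sqrt_pos.2 h1
    simp only
    rw [← ode h d hs h2, ← ENNReal.ofReal_mul (abs_nonneg _), Real.sqrt_mul (le_of_lt h1),
      Real.sqrt_sq_eq_abs]
    congr 1
    field_simp
  · rintro x ⟨h1, h2, h3⟩
    have h4 : (S1 D x).re ≠ 0 := fun e => h3 (by rw [← (re_X h hs x).2, e]; simp)
    refine ⟨(deriv_X h2).real_of_complex, h4, ?_⟩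
    rw [Set.mem_ofPred_eq, ← ode h d hs h2]
    exact mul_pos h1 (by positivity)

end Pool.Agent.MP_c481b3_nt.H28K
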