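import Pool.Agent.MP_c481b3_nt.H28K.SpecR
import Pool.Agent.MP_c481b3_nt.H28K.Mono

set_option autoImplicit false

namespace Pool.Agent.MP_c481b3_nt.H28K

open Pool.Agent.MP_c481b3_nt.H81 Pool.Agent.MP_c481b3_nt.H28 Pool.Agent.MP_c481b3_nt.H31
  NumberField Polynomial

namespace Red

lemma sel (h2 : TwoL) (hi : PerInj) (hm : PerMono) {W : Set ℝ} (fin : W.Finite) (ne : W.Nonempty)
    (h0 : ∀ w ∈ W, w ≠ 0 ∧ 4 * w + 27 ≠ 0) : ∃ w ∈ W, ∀ t : ℝ, 0 < t →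
      (∀ w' ∈ W, w' ≠ w → Lam (t ^ 4 * w') (t ^ 6 * w') < Lam (t ^ 4 * w) (t ^ 6 * w)) ∨
      ∃ e : ℝ, e ^ 3 + t ^ 4 * w * e + t ^ 6 * w = 0 ∧ ∀ w' ∈ W, ∀ e' : ℝ,
        e' ^ 3 + t ^ 4 * w' * e' + t ^ 6 * w' = 0 → (w' = w → e' ≠ e) →
        Lam (-4 * (t ^ 4 * w') - 15 * e' ^ 2) (-8 * (t ^ 4 * w') * e' - 22 * e' ^ 3) <
          Lam (-4 * (t ^ 4 * w) - 15 * e ^ 2) (-8 * (t ^ 4 * w) * e - 22 * e ^ 3) := by
  have d0 : ∀ w ∈ W, 4 * w ^ 3 + 27 * w ^ 2 ≠ 0 := fun w hw e =>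
    mul_ne_zero (pow_ne_zero 2 (h0 w hw).1) (h0 w hw).2 (by linear_combination e)
  have inj : ∀ w ∈ W, ∀ w' ∈ W, 0 < (4 * w ^ 3 + 27 * w ^ 2) * (4 * w' ^ 3 + 27 * w' ^ 2) →
      Lam w' w' = Lam w w → w' = w := fun w hw w' hw' s e =>
    mul_left_cancel₀ (mul_ne_zero (pow_ne_zero 2 (h0 w hw).1) (pow_ne_zero 2 (h0 w' hw').1))
      (by linear_combination hi w w w' w' s e)
  obtain ⟨u, hu, mx⟩ := Set.exists_max_image W (fun w => Lam w w) fin ne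
  by_cases hc : ∃ w ∈ W, Lam w w = Lam u u ∧ 4 * w ^ 3 + 27 * w ^ 2 < 0
  swap
  · push Not at hc
    refine ⟨u, hu, fun t ht => Or.inl fun w hw n => ?_⟩
    rw [Mono.Lam_scale _ _ _ ht, Mono.Lam_scale _ _ _ ht]
    exact (mx w hw).lt_of_ne fun e => n (inj u hu w hw (mul_pos
      ((hc u hu rfl).lt_of_ne' (d0 u hu)) ((hc w hw e).lt_of_ne' (d0 w hw))) e)
  obtain ⟨w, hw, e1, neg⟩ := hc
  rw [← e1] at mx
  refine ⟨w, hw, fun t ht => Or.inr ?_⟩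
  have sc : ∀ x : ℝ, 4 * (t ^ 4 * x) ^ 3 + 27 * (t ^ 6 * x) ^ 2
      = t ^ 12 * (4 * x ^ 3 + 27 * x ^ 2) := fun x => by ring
  have t12 : 0 < t ^ 12 := pow_pos ht 12
  obtain ⟨e, a1, a2, a3⟩ := h2.2 (t ^ 4 * w) (t ^ 6 * w) (sc w ▸ mul_neg_of_pos_of_neg t12 neg)
    (mul_ne_zero (pow_pos ht 6).ne' (h0 w hw).1)
  refine ⟨e, a1, fun w' hw' e' b1 b2 => ?_⟩
  rw [a2]
  by_cases ew : w' = w
  · subst ew
    exact a3 e' b1 (b2 rfl)
  obtain ⟨c1, c2⟩ := h2.1 _ _ e' b1 (sc w' ▸ mul_ne_zero t12.ne' (d0 w' hw'))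
  rw [Mono.Lam_scale _ _ _ ht] at c1 c2 ⊢
  have l1 := mx w' hw'
  rcases (d0 w' hw').lt_or_gt with s | s
  · have := l1.lt_of_ne fun e => ew (inj w hw w' hw' (mul_pos_of_neg_of_neg neg s) e)
    linarith
  · have := (hm.2.1 w w neg.ne).2.2 (h0 w hw).1
    rw [c2 (sc w' ▸ mul_pos t12 s)]
    linarith

lemma int_root {a b e : ℝ} (ha : IsIntegral ℤ a) (hb : IsIntegral ℤ b)
    (h : e ^ 3 + a * e + b = 0) : IsIntegral ℤ e :=
  isIntegral_trans (A := integralClosure ℤ ℝ) e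
    ⟨X ^ 3 + C ⟨a, ha⟩ * X + C ⟨b, hb⟩, by monicity!, by simpa [eval₂_add, eval₂_mul] using h⟩

lemma field {m : ℚ[X]} (irr : Irreducible m) (mo : m.Monic) {w e : ℝ} (hw : aeval w m = 0)
    (he : IsIntegral ℤ e) : ∃ (F : Type) (_ : Field F) (_ : NumberField F) (x : F) (y : 𝓞 F)
      (τ₀ : F →+* ℝ), τ₀ x = w ∧ τ₀ y = e ∧ minpoly ℚ x = m ∧
        ∀ τ : F →+* ℝ, τ x = w → τ y = e → τ = τ₀ := by
  let F := IntermediateField.adjoin ℚ ({w, e} : Set ℝ)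
  have : FiniteDimensional ℚ F :=
    IntermediateField.finiteDimensional_adjoin_pair ⟨m, mo, hw⟩ he.tower_top
  have : NumberField F := {}
  let x : F := ⟨w, IntermediateField.subset_adjoin _ _ (by simp)⟩
  let y : F := ⟨e, IntermediateField.subset_adjoin _ _ (by simp)⟩
  refine ⟨F, inferInstance, this, x, ⟨y, (isIntegral_algebraMap_iff (algebraMap F ℝ).injective).1
    he⟩, algebraMap F ℝ, rfl, rfl, (minpoly.eq_of_irreducible_of_monic irr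
      ((aeval_algebraMap_eq_zero_iff ℝ x m).1 hw) mo).symm, fun τ h1 h2 => ?_⟩
  have := IntermediateField.adjoin_algHom_ext ℚ (φ₁ := τ.toRatAlgHom) (φ₂ := F.val) (by
    rintro _ (rfl | rfl)
    exacts [h1, h2])
  exact RingHom.ext fun z => DFunLike.congr_fun this z

lemma disc {F : Type} [Field F] (τ : F →+* ℝ) {a b : 𝓞 F} (h : 4 * τ a ^ 3 + 27 * τ b ^ 2 ≠ 0) :
    (Wc a b).Δ ≠ 0 := fun e => by
  have := congrArg (τ.comp (algebraMap (𝓞 F) F)) e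
  rw [Wc_disc] at this
  simp only [map_mul, map_add, map_pow, map_neg, map_ofNat, map_zero] at this
  exact mul_ne_zero (by norm_num) h this

end Red

theorem red_of : TwoL → PerInj → PerMono → Red := by
  intro h2 hi hm K _ _ A B τ w hΔ A0 B0 hw
  have b0 : (B : K) ≠ 0 := by simpa using B0
  set u : K := A ^ 3 / B ^ 2 with hu
  have iu : IsIntegral ℚ u := Algebra.IsIntegral.isIntegral u
  have irr := minpoly.irreducible iu
  have mo := minpoly.monic iu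
  have tr : ∀ x : ℝ, aeval x (minpoly ℚ u) = 0 → ∀ p : ℚ[X], aeval x p = 0 → aeval u p = 0 :=
    fun x hx p hp => aeval_eq_zero_of_dvd_aeval_eq_zero
      (minpoly.eq_of_irreducible_of_monic irr hx mo ▸ minpoly.dvd ℚ x hp) (minpoly.aeval ℚ u)
  have h0 : ∀ x ∈ {x : ℝ | aeval x (minpoly ℚ u) = 0}, x ≠ 0 ∧ 4 * x + 27 ≠ 0 := fun x hx => by
    refine ⟨fun e => ?_, fun e => hΔ ?_⟩
    · have := tr x hx X (by simpa using e)
      simp [hu, A0, B0] at this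
    · have := tr x hx (4 * X + 27) (by simpa [map_ofNat] using e)
      simp only [map_add, map_mul, map_ofNat, aeval_X, hu] at this
      rw [Wc_disc]
      refine mul_eq_zero_of_right _ (RingOfIntegers.ext ?_)
      simp only [map_add, map_mul, map_ofNat, map_pow, map_zero]
      field_simp at this
      linear_combination this
  obtain ⟨x, hx, H⟩ := Red.sel h2 hi hm (W := {x : ℝ | aeval x (minpoly ℚ u) = 0})
    (((minpoly ℚ u).rootSet_finite ℝ).subset fun x hx => (mem_rootSet_of_ne mo.ne_zero).2 hx)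
    ⟨w, (aeval_algebraMap_eq_zero_iff ℂ w _).1 (by
      have e : algebraMap ℝ ℂ w = τ.toRatAlgHom u := by
        change (w : ℂ) = τ u
        rw [hu, map_div₀, map_pow, map_pow, hw,
          mul_div_cancel_right₀ _ (pow_ne_zero 2 ((_root_.map_ne_zero τ).2 b0))]
      rw [e, aeval_algHom_apply, minpoly.aeval, map_zero])⟩ h0
  obtain ⟨n, n0, hn⟩ := ((IsFractionRing.isAlgebraic_iff ℤ ℚ ℝ).2
    ⟨_, mo.ne_zero, hx⟩).exists_integral_multiple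
  have t0 : (0 : ℝ) < (n : ℝ) ^ 2 := by positivity
  have ia : IsIntegral ℤ (((n : ℝ) ^ 2) ^ 4 * x) := by
    rw [show ((n : ℝ) ^ 2) ^ 4 * x = n ^ 7 • n • x by simp; ring]
    exact hn.zsmul _
  have ib : IsIntegral ℤ (((n : ℝ) ^ 2) ^ 6 * x) := by
    rw [show ((n : ℝ) ^ 2) ^ 6 * x = n ^ 11 • n • x by simp; ring]
    exact hn.zsmul _
  have key : ∀ e : ℝ, IsIntegral ℤ e → ∃ (F : Type) (_ : Field F) (_ : NumberField F)
      (a b y : 𝓞 F) (z : F) (τ₀ : F →+* ℝ) (ι : F →+* AlgebraicClosure K), τ₀ z = x ∧ τ₀ y = e ∧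
      ι a ^ 3 * iK B ^ 2 = iK A ^ 3 * ι b ^ 2 ∧ ∀ σ : F →+* ℝ, aeval (σ z) (minpoly ℚ u) = 0 ∧
        σ a = ((n : ℝ) ^ 2) ^ 4 * σ z ∧ σ b = ((n : ℝ) ^ 2) ^ 6 * σ z ∧
        (σ z = x → σ y = e → σ = τ₀) := by
    intro e he
    obtain ⟨F, _, _, z, y, τ₀, f1, f2, f3, f4⟩ := Red.field irr mo hx he
    obtain ⟨ι, hι⟩ : algebraMap K _ u ∈ Set.range fun φ : F →+* AlgebraicClosure K => φ z := by
      rw [Embeddings.range_eval_eq_rootSet_minpoly, f3, mem_rootSet_of_ne mo.ne_zero,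
        aeval_algebraMap_apply, minpoly.aeval, map_zero]
    have li : ∀ k : ℕ, IsIntegral ℤ (((n : ℝ) ^ 2) ^ k * x) →
        ∃ a : 𝓞 F, (a : F) = ((n : F) ^ 2) ^ k * z := fun k h =>
      ⟨⟨((n : F) ^ 2) ^ k * z, (isIntegral_algHom_iff (x := ((n : F) ^ 2) ^ k * z) τ₀.toIntAlgHom
        τ₀.injective).1 (by simpa [f1] using h)⟩, rfl⟩
    obtain ⟨a, ha⟩ := li 4 ia
    obtain ⟨b, hb⟩ := li 6 ib
    refine ⟨F, inferInstance, inferInstance, a, b, y, z, τ₀, ι, f1, f2, ?_,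
      fun σ => ⟨?_, by simp [ha], by simp [hb], f4 σ⟩⟩
    · have e1 : ι z * iK B ^ 2 = iK A ^ 3 := by
        rw [show ι z = _ from hι, iK_eq, iK_eq, hu, map_div₀, map_pow, map_pow,
          div_mul_cancel₀ _ (pow_ne_zero 2 ((_root_.map_ne_zero _).2 b0))]
      simp only [ha, hb, map_mul, map_pow, map_intCast, ← e1]
      ring
    · rw [← f3]
      exact (aeval_algHom_apply σ.toRatAlgHom z _).trans (by rw [minpoly.aeval, map_zero])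
  have dx : 4 * (((n : ℝ) ^ 2) ^ 4 * x) ^ 3 + 27 * (((n : ℝ) ^ 2) ^ 6 * x) ^ 2 ≠ 0 := fun e =>
    mul_ne_zero (pow_pos t0 12).ne' (mul_ne_zero (pow_ne_zero 2 (h0 x hx).1) (h0 x hx).2)
      (by linear_combination e)
  rcases H _ t0 with H | ⟨e, he, H⟩
  · obtain ⟨F, _, _, a, b, y, z, τ₀, ι, f1, f2, f3, f4⟩ := key 0 isIntegral_zero
    have d := Red.disc τ₀ (a := a) (b := b) (by rwa [(f4 τ₀).2.1, (f4 τ₀).2.2.1, f1])
    refine ⟨F, inferInstance, inferInstance, a, b, y, a, b, ι, ⟨hΔ, d, d, f3, Or.inl ⟨rfl, rfl⟩⟩,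
      τ₀, fun σ hσ => ?_⟩
    rw [(f4 τ₀).2.1, (f4 τ₀).2.2.1, f1, (f4 σ).2.1, (f4 σ).2.2.1]
    exact H _ (f4 σ).1 fun e => hσ ((f4 σ).2.2.2 e (by
      rw [(map_eq_zero τ₀).1 f2, map_zero]))
  · obtain ⟨F, _, _, a, b, y, z, τ₀, ι, f1, f2, f3, f4⟩ := key e (Red.int_root ia ib he)
    have d := Red.disc τ₀ (a := a) (b := b) (by rwa [(f4 τ₀).2.1, (f4 τ₀).2.2.1, f1])
    have q : ∀ σ : F →+* ℝ, σ (-4 * a - 15 * y ^ 2 : 𝓞 F) = -4 * σ a - 15 * σ y ^ 2 ∧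
        σ (-8 * a * y - 22 * y ^ 3 : 𝓞 F) = -8 * σ a * σ y - 22 * σ y ^ 3 ∧
        σ (y ^ 3 + a * y + b : 𝓞 F) = σ y ^ 3 + σ a * σ y + σ b := fun σ => by
      simp only [map_sub, map_mul, map_neg, map_pow, map_ofNat, map_add, and_self]
    have c : y ^ 3 + a * y + b = 0 := RingOfIntegers.ext ((map_eq_zero τ₀).1 (by
      rw [(q τ₀).2.2, (f4 τ₀).2.1, (f4 τ₀).2.2.1, f1, f2, he]))
    refine ⟨F, inferInstance, inferInstance, a, b, y, _, _, ι,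
      ⟨hΔ, d, Red.disc τ₀ ?_, f3, Or.inr ⟨c, rfl, rfl⟩⟩, τ₀, fun σ hσ => ?_⟩
    · rw [(q τ₀).1, (q τ₀).2.1, (f4 τ₀).2.1, f1, f2]
      generalize ((n : ℝ) ^ 2) ^ 4 * x = r at he dx ⊢
      generalize ((n : ℝ) ^ 2) ^ 6 * x = s at he dx
      obtain rfl : s = -e ^ 3 - r * e := by linear_combination he
      rw [show 4 * r ^ 3 + 27 * (-e ^ 3 - r * e) ^ 2 = (3 * e ^ 2 + r) ^ 2 * (3 * e ^ 2 + 4 * r) by
        ring] at dx
      rw [show 4 * (-4 * r - 15 * e ^ 2) ^ 3 + 27 * (-8 * r * e - 22 * e ^ 3) ^ 2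
        = -16 * ((3 * e ^ 2 + r) * (3 * e ^ 2 + 4 * r) ^ 2) by ring]
      exact mul_ne_zero (by norm_num) (mul_ne_zero (ne_zero_pow two_ne_zero
        (left_ne_zero_of_mul dx)) (pow_ne_zero 2 (right_ne_zero_of_mul dx)))
    · rw [(q τ₀).1, (q τ₀).2.1, (q σ).1, (q σ).2.1, (f4 τ₀).2.1, f1, f2, (f4 σ).2.1]
      refine H _ (f4 σ).1 _ ?_ fun e1 e2 => hσ ((f4 σ).2.2.2 e1 e2)
      rw [← (f4 σ).2.1, ← (f4 σ).2.2.1, ← (q σ).2.2, c]
      simp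

end Pool.Agent.MP_c481b3_nt.H28K
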