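import Pool.Agent.MP_c481b3_nt.H28K.SpecG

set_option autoImplicit false

namespace Pool.Agent.MP_c481b3_nt.H28K

open Pool.Agent.MP_c481b3_nt.H81 Pool.Agent.MP_c481b3_nt.H28 Pool.Agent.MP_c481b3_nt.H31
  Polynomial

namespace SGN

/-- the real inequality behind the sign -/
lemma core {μ Λ x : ℝ} (hμ : 1 < μ) {u v : ℕ} (hu : 0 < u) (hv : 0 < v)
    (hΛ : Λ = max (μ * v / u) (u / (μ * v))) (h1 : Λ < μ → 0 < x) (h2 : μ < Λ → x < 0) :
    Sg (μ ^ 2) u v x := by
  have hu' : (0 : ℝ) < u := by exact_mod_cast hu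
  have hv' : (0 : ℝ) < v := by exact_mod_cast hv
  have h0 : 0 < μ := by linarith
  refine ⟨fun a b => h1 ?_, fun a => h2 ?_⟩
  · have a' : (v : ℝ) < u := by exact_mod_cast a
    rw [hΛ, max_lt_iff, div_lt_iff₀ hu', div_lt_iff₀ (mul_pos h0 hv')]
    exact ⟨mul_lt_mul_of_pos_left a' h0, by nlinarith⟩
  · rw [hΛ, lt_max_iff, lt_div_iff₀ hu', lt_div_iff₀ (mul_pos h0 hv')]
    rcases a with a | a
    · have a' : (u : ℝ) < v := by exact_mod_cast a
      exact Or.inl (mul_lt_mul_of_pos_left a' h0)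
    · exact Or.inr (by nlinarith)

variable {a b : ℝ}

lemma xc_cj (h : Good (a : ℂ) (b : ℂ)) (P : Pt (a : ℂ) (b : ℂ)) :
    xc (cj h P) = starRingEnd ℂ (xc P) := xc_ofHom _ _ _ _ P

lemma yc_cj (h : Good (a : ℂ) (b : ℂ)) (P : Pt (a : ℂ) (b : ℂ)) :
    yc (cj h P) = starRingEnd ℂ (yc P) := yc_ofHom _ _ _ _ P

lemma cj_ne (h : Good (a : ℂ) (b : ℂ)) {P : Pt (a : ℂ) (b : ℂ)} (hP : P ≠ 0) : cj h P ≠ 0 :=
  Sc.map_ne _ hP

lemma good_neg (h : Good (a : ℂ) (b : ℂ)) : Good (a : ℂ) ((-b : ℝ) : ℂ) :=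
  ⟨h.two, by have := h.disc; push_cast; rwa [neg_sq]⟩

/-- the quadratic twist by `-1` -/
noncomputable def tw (h : Good (a : ℂ) (b : ℂ)) : Sc (a : ℂ) (b : ℂ) (a : ℂ) ((-b : ℝ) : ℂ) :=
  ⟨RingHom.id ℂ, Complex.I, Complex.I_ne_zero, by simp, by
    have : Complex.I ^ 6 = -1 := by
      rw [show 6 = 4 + 2 from rfl, pow_add, Complex.I_pow_four, Complex.I_sq, one_mul]
    rw [this]; simp, good_neg h⟩

lemma cj_tw (h : Good (a : ℂ) (b : ℂ)) (P : Pt (a : ℂ) (b : ℂ)) :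
    cj (good_neg h) ((tw h).map P) = (tw h).map (-cj h P) := by
  by_cases hP : P = 0
  · simp [hP]
  refine pt_ext (cj_ne _ (Sc.map_ne _ hP)) (Sc.map_ne _ (neg_ne_zero.2 (cj_ne h hP))) ?_ ?_
  · rw [xc_cj, Sc.xc_map, Sc.xc_map, xc_neg, xc_cj]
    simp [tw]
  · rw [yc_cj, Sc.yc_map, Sc.yc_map, yc_neg, yc_cj]
    simp [tw, Complex.I_pow_three, div_neg, neg_div]

lemma image_cj (h : Good (a : ℂ) (b : ℂ)) {D : Finset (Pt (a : ℂ) (b : ℂ))}
    (hs : ∀ P ∈ D, cj h P ∈ D) : D.image (cj h) = D := by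
  refine Finset.eq_of_subset_of_card_le (fun Q hQ => ?_) ?_
  · obtain ⟨P, hP, rfl⟩ := Finset.mem_image.1 hQ
    exact hs P hP
  · exact (Finset.card_image_of_injective D (Sc.injective _)).ge

lemma real_v (h : Good (a : ℂ) (b : ℂ)) {D : Finset (Pt (a : ℂ) (b : ℂ))}
    (hs : ∀ P ∈ D, cj h P ∈ D) : ∃ a' b' : ℝ, vA D = a' ∧ vB D = b' := by
  have h1 := sc_vA (Sc.ofHom (starRingEnd ℂ) (Complex.conj_ofReal a) (Complex.conj_ofReal b) h) D
  have h2 := sc_vB (Sc.ofHom (starRingEnd ℂ) (Complex.conj_ofReal a) (Complex.conj_ofReal b) h) D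
  have e := image_cj h hs
  rw [cj] at e
  rw [e] at h1 h2
  simp only [Sc.ofHom, one_pow, div_one] at h1 h2
  obtain ⟨a', ha⟩ := Complex.conj_eq_iff_real.1 h1.symm
  obtain ⟨b', hb⟩ := Complex.conj_eq_iff_real.1 h2.symm
  exact ⟨a', b', ha, hb⟩

open Classical in
lemma twist (H : PerRel) (h : Good (a : ℂ) (b : ℂ)) {D : Finset (Pt (a : ℂ) (b : ℂ))}
    (hD : IsSub D) (ho : Odd D.card) (hs : ∀ P ∈ D, cj h P ∈ D) {a' b' : ℝ} (ha : vA D = a')
    (hb : vB D = b') :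
    om a (-b) = (D.filter fun P => cj h P = -P).card * om a' (-b') := by
  have hi := (tw h).injective
  have key := H a (-b) a' (-b') (good_neg h) (D.image (tw h).map) (isSub_image _ hD)
    (by rwa [Finset.card_image_of_injective D hi])
    (by
      intro Q hQ
      obtain ⟨P, hP, rfl⟩ := Finset.mem_image.1 hQ
      rw [cj_tw]
      exact Finset.mem_image_of_mem _ (hD.neg (hs P hP)))
    (by rw [sc_vA, ha]; simp [tw])
    (by
      have : Complex.I ^ 6 = -1 := by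
        rw [show 6 = 4 + 2 from rfl, pow_add, Complex.I_pow_four, Complex.I_sq, one_mul]
      rw [sc_vB, hb]
      simp [tw, this, div_neg])
  rw [key, Finset.filter_image, Finset.card_image_of_injective _ hi]
  congr 3
  ext P
  rw [Finset.mem_filter, Finset.mem_filter, cj_tw, hi.eq_iff, neg_eq_iff_eq_neg]

end SGN

open SGN in
theorem signD_of : PerRel → DiscSign → PerMono → SignD := by
  classical
  intro H1 H2 H3 a b h hb
  obtain ⟨-, H4, H5⟩ := H3
  have hd : 4 * a ^ 3 + 27 * b ^ 2 ≠ 0 := fun e => h.disc (by exact_mod_cast e)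
  have pos : ∀ a b : ℝ, 4 * a ^ 3 + 27 * b ^ 2 ≠ 0 → 0 < (om a b).toReal := fun a b e =>
    ENNReal.toReal_pos (H4 a b e).1.ne' (H4 a b e).2.1
  have hp := pos a b hd
  have hq := pos a (-b) (by rwa [neg_sq])
  have hL := (H4 a b hd).2.2 hb
  have main : ∀ D : Finset (Pt (a : ℂ) (b : ℂ)), IsSub D → Odd D.card →
      (∀ P ∈ D, cj h P ∈ D) → ∃ d p' q' : ℝ, dl D = d ∧ 0 < p' ∧ 0 < q' ∧
        0 < (D.filter fun P => cj h P = P).card ∧ 0 < (D.filter fun P => cj h P = -P).card ∧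
        (om a b).toReal = (D.filter fun P => cj h P = P).card * p' ∧
        (om a (-b)).toReal = (D.filter fun P => cj h P = -P).card * q' ∧
        (max (p' / q') (q' / p') < Lam a b → 0 < d * (4 * a ^ 3 + 27 * b ^ 2)) ∧
        (Lam a b < max (p' / q') (q' / p') → d * (4 * a ^ 3 + 27 * b ^ 2) < 0) := by
    intro D hD ho hs
    obtain ⟨a', b', ha', hb'⟩ := real_v h hs
    have s := H2 a b a' b' h D hD ho hs ha' hb'
    have hd' : 4 * a' ^ 3 + 27 * b' ^ 2 ≠ 0 := fun e => by rw [e, mul_zero] at s; exact s.false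
    have e1 := H1 a b a' b' h D hD ho hs ha' hb'
    have e2 := twist H1 h hD ho hs ha' hb'
    refine ⟨a' ^ 3 * b ^ 2 - a ^ 3 * b' ^ 2, (om a' b').toReal, (om a' (-b')).toReal, ?_,
      pos a' b' hd', pos a' (-b') (by rwa [neg_sq]), ?_, ?_, ?_, ?_, H5 a b a' b' s, fun hl => ?_⟩
    · rw [dl, ha', hb']; push_cast; ring
    · exact Finset.card_pos.2 ⟨0, Finset.mem_filter.2 ⟨hD.zero, map_zero _⟩⟩
    · exact Finset.card_pos.2 ⟨0, Finset.mem_filter.2 ⟨hD.zero, by simp⟩⟩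
    · rw [e1, ENNReal.toReal_mul, ENNReal.toReal_natCast]
    · rw [e2, ENNReal.toReal_mul, ENNReal.toReal_natCast]
    · have t := H5 a' b' a b (by rwa [mul_comm]) hl
      have t2 := mul_pos t s
      have t3 : 0 < (4 * a' ^ 3 + 27 * b' ^ 2) ^ 2 := by positivity
      by_contra hn
      have t4 := mul_nonneg (not_lt.1 hn) t3.le
      nlinarith
  refine ⟨Lam a b ^ 2, by nlinarith, ?_⟩
  rcases le_total ((om a (-b)).toReal / (om a b).toReal)
    ((om a b).toReal / (om a (-b)).toReal) with c | c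
  · have eL : Lam a b = (om a b).toReal / (om a (-b)).toReal := max_eq_left c
    refine Or.inl fun D hD ho hs => ?_
    obtain ⟨d, p', q', e, hp', hq', hi, hj, e1, e2, k1, k2⟩ := main D hD ho hs
    refine ⟨d, e, core hL hi hj ?_ k1 k2⟩
    have hi' : (0 : ℝ) < (D.filter fun P => cj h P = P).card := by exact_mod_cast hi
    have hj' : (0 : ℝ) < (D.filter fun P => cj h P = -P).card := by exact_mod_cast hj
    rw [eL, e1, e2]
    congr 1 <;> field_simp
  · have eL : Lam a b = (om a (-b)).toReal / (om a b).toReal := max_eq_right c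
    refine Or.inr fun D hD ho hs => ?_
    obtain ⟨d, p', q', e, hp', hq', hi, hj, e1, e2, k1, k2⟩ := main D hD ho hs
    refine ⟨d, e, core hL hj hi ?_ k1 k2⟩
    have hi' : (0 : ℝ) < (D.filter fun P => cj h P = P).card := by exact_mod_cast hi
    have hj' : (0 : ℝ) < (D.filter fun P => cj h P = -P).card := by exact_mod_cast hj
    rw [eL, e1, e2, max_comm]
    congr 1 <;> field_simp

end Pool.Agent.MP_c481b3_nt.H28K
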