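import Pool.Agent.MP_c481b3_nt.H31.SpecG
import Pool.Agent.MP_c481b3_nt.H28.GRed

set_option autoImplicit false

namespace Pool.Agent.MP_c481b3_nt.H28K

open Pool.Agent.MP_c481b3_nt.H81 Pool.Agent.MP_c481b3_nt.H28 Pool.Agent.MP_c481b3_nt.H31
  Polynomial NumberField MeasureTheory

/-- the rational prime `p` lies below a good prime whose trace is divisible by `p` -/
def SSp {K : Type} [Field K] [NumberField K] (A B : 𝓞 K) (p : ℕ) : Prop :=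
  p.Prime ∧ ∃ P : Ideal (𝓞 K), P.IsMaximal ∧ (p : 𝓞 K) ∈ P ∧ (Wc A B).Δ ∉ P ∧ (p : ℤ) ∣ aP A B P

/-! ### parity for composite degree -/

/-- a root of the odd part is the invariant of a curve with an endomorphism of square `-n` -/
def RootSD2 : Prop :=
  ∀ (L : Type) [Field L] [DecidableEq L] [IsAlgClosed L] [CharZero L] (n : ℕ) (Ψ F G : ℤ[X])
    (c : ℤ) (w : L), Odd n → ¬IsSquare n → IsUnivPsi n Ψ → c ≠ 0 → Ψ = C c * (G ^ 2 * F) → G ≠ 0 →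
    F ≠ 0 → (∀ m : ℚ[X], 0 < m.natDegree → ¬m ^ 2 ∣ F.map (algebraMap ℤ ℚ)) → Good w w →
    az w F = 0 → ∃ D ∈ subs w w n, SD n D

open Classical in
/-- a prime of odd order at which `-n` is not a square covers `n` -/
def OddCov2 : Prop :=
  ∀ (K : Type) [Field K] [NumberField K] (A B : 𝓞 K) (P : Ideal (𝓞 K)) (p n : ℕ)
    (s s' x g : 𝓞 K), NoCM (iK A) (iK B) → P.IsMaximal → p.Prime → 5 ≤ p → (p : 𝓞 K) ∈ P →
    A ∉ P → B ∉ P → (Wc A B).Δ ∉ P → Odd n → ¬IsSquare n →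
    jacobiSym (-(n : ℤ)) (Ideal.absNorm P) = -1 → s ∉ P → s' ∉ P → g ≠ 0 →
    iK (s * x * g ^ 2) = iK s' * ∏ D ∈ subs (iK A) (iK B) n, dl D → OddAt P x → Cv A B P p n

/-! ### the congruence of Kronecker for composite degree -/

/-- the modular polynomial -/
def ModPoly : Prop :=
  ∀ m : ℕ, Odd m → ∃ Φ : ℚ[X][X], Φ.Monic ∧ ∀ (L : Type) [Field L] [DecidableEq L] [IsAlgClosed L]
    [CharZero L] (A B : L), Good A B → Φ.map (eval₂RingHom (algebraMap ℚ L) (jj A B))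
      = ∏ D ∈ subs A B m, (X - C (jj (vA D) (vB D)))

/-- without complex multiplication the quotients are pairwise different -/
def DistinctJ : Prop :=
  ∀ (L : Type) [Field L] [DecidableEq L] [IsAlgClosed L] [CharZero L] (A B : L) (m : ℕ),
    Good A B → NoCM A B → Odd m →
    (∀ D ∈ subs A B m, ∀ E ∈ subs A B m, jj (vA D) (vB D) = jj (vA E) (vB E) → D = E) ∧
    (¬IsSquare m → ∀ D ∈ subs A B m, jj (vA D) (vB D) ≠ jj A B)

/-- the symmetry of the modular polynomial -/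
def Sym (m : ℕ) : Prop :=
  ∀ (L : Type) [Field L] [DecidableEq L] [IsAlgClosed L] [CharZero L] (A B A' B' : L), Good A B →
    Good A' B' → ∏ D ∈ subs A B m, (jj (vA D) (vB D) - jj A' B')
      = ∏ D ∈ subs A' B' m, (jj (vA D) (vB D) - jj A B)

/-- the symmetry holds as soon as one curve has no complex multiplication -/
def SymJ : Prop :=
  ∀ (L : Type) [Field L] [DecidableEq L] [IsAlgClosed L] [CharZero L] (A B : L), Good A B →
    NoCM A B → ∀ m : ℕ, Odd m → ¬IsSquare m → Sym m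

/-- the product over the subgroups of order `l m` at an ordinary place above `l` -/
def KronEv : Prop :=
  ∀ (L κ : Type) [Field L] [Field κ] [DecidableEq L] [DecidableEq κ] [IsAlgClosed L]
    [IsAlgClosed κ] [CharZero L] (π : Plc L κ) (A B : L) (A' B' : κ), Rd π A B A' B' →
    ∀ l m : ℕ, l.Prime → 5 ≤ l → (l : κ) = 0 → ¬l ∣ m → Odd m →
    A' ^ (3 * l ^ 2) * B' ^ 2 ≠ A' ^ 3 * B' ^ (2 * l ^ 2) →
    Ev π ((∏ D ∈ subs A B (l * m), dl D) / (l : L) ^ (12 * (subs A' B' m).card))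
      (∏ D ∈ subs A' B' m, ((vA D ^ (3 * l) * B' ^ 2 - A' ^ 3 * vB D ^ (2 * l))
        * (vA D ^ 3 * B' ^ (2 * l) - A' ^ (3 * l) * vB D ^ 2)))

open Classical in
/-- the generic point in characteristic `l` -/
def Gauss : Prop :=
  ∀ (l : ℕ) [Fact l.Prime], 5 ≤ l → ∃ π : Plc (LL ℚ) (LL (ZMod l)),
    (∀ g : ℤ[X], Ev π (zL g) (aL (ap (g.map (Int.castRingHom (ZMod l)))))) ∧
    ∀ m : ℕ, ¬l ∣ m → Odd m → ∀ D ∈ subs (aL (ap X) : LL (ZMod l)) (aL (ap X)) m,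
      jj (vA D) (vB D) ^ l ≠ jj (aL (ap X) : LL (ZMod l)) (aL (ap X))

/-- the universal polynomial is a square modulo each prime factor of the degree -/
def Kron2 : Prop :=
  ∀ (l m : ℕ) (Ψ : ℤ[X]), l.Prime → 5 ≤ l → ¬l ∣ m → Odd m → Sym m → IsUnivPsi (l * m) Ψ →
    ∃ (a : ℕ) (Ψ₁ : ℤ[X]) (S : (ZMod l)[X]), Ψ = C ((l : ℤ) ^ (2 * a)) * Ψ₁ ∧ S ≠ 0 ∧
      Ψ₁.map (Int.castRingHom (ZMod l)) = S ^ 2

/-- a root of the odd part modulo a prime above `l` gives supersingular reduction -/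
def AtL2 : Prop :=
  ∀ (K : Type) [Field K] [NumberField K] (A B x : 𝓞 K) (P : Ideal (𝓞 K)) (l m e : ℕ)
    (Ψ F G : ℤ[X]) (c : ℤ), P.IsMaximal → l.Prime → 5 ≤ l → (l : 𝓞 K) ∈ P → ¬l ∣ m → Odd m →
    A ∉ P → B ∉ P → (Wc A B).Δ ∉ P → IsUnivPsi (l * m) Ψ → c ≠ 0 → Ψ = C c * (G ^ 2 * F) → G ≠ 0 →
    F.map (Int.castRingHom (ZMod l)) ≠ 0 →
    (∀ m : ℚ[X], 0 < m.natDegree → ¬m ^ 2 ∣ F.map (algebraMap ℤ ℚ)) →
    iK x = iK B ^ e * az (iK A ^ 3 / iK B ^ 2) F → x ∈ P → (l : ℤ) ∣ aP A B P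

/-- quadratic reciprocity for an element that is negative at the real places -/
def GlobalOdd2 : Prop :=
  ∀ (K : Type) [Field K] [NumberField K] (n : ℕ), Odd (Module.finrank ℚ K) → n % 8 = 7 →
    ∀ x : 𝓞 K, (∀ l : ℕ, l.Prime → l ∣ n → ∃ y z : 𝓞 K, x = y ^ 2 + l * z) →
    (∀ τ : K →+* ℝ, τ x < 0) →
    (∀ (l : ℕ) (P : Ideal (𝓞 K)), l.Prime → l ∣ n → P.IsMaximal → (l : 𝓞 K) ∈ P → x ∉ P) →
    ∃ P : Ideal (𝓞 K), P.IsMaximal ∧ Odd (Ideal.absNorm P) ∧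
      jacobiSym (-(n : ℤ)) (Ideal.absNorm P) = -1 ∧ OddAt P x

/-- a covering prime splits at the small factors, and the colours -/
def Cov3 : Prop :=
  ∀ (K : Type) [Field K] [NumberField K] (A B : 𝓞 K) (P : Ideal (𝓞 K)) (p : ℕ) (R : Finset ℕ),
    (∀ r ∈ R, r.Prime ∧ r ≠ 2 ∧ r ≠ p) → ∃ col : ℕ → Finset ℕ, (∀ l, col l ⊆ R) ∧
      (∀ l, (∏ r ∈ R, r).Coprime l → Cv A B P p ((∏ r ∈ R, r) * l) →
        ∀ r ∈ R, jacobiSym (-(p : ℤ)) r = 1) ∧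
      ∀ l l', (∏ r ∈ R, r).Coprime l → (∏ r ∈ R, r).Coprime l' → Cv A B P p ((∏ r ∈ R, r) * l) →
        Cv A B P p ((∏ r ∈ R, r) * l') → col l = col l' →
        ∃ a b : ℤ, 4 * (l : ℤ) * l' = a ^ 2 + p * b ^ 2

/-! ### the real place -/

/-- the formula for the area for a map with fibres of constant size -/
def Area : Prop :=
  ∀ (s t : Set ℝ) (φ φ' : ℝ → ℝ) (g : ℝ → ENNReal) (k : ℕ), MeasurableSet s → MeasurableSet t →
    Measurable g → (∀ x ∈ s, HasStrictDerivAt φ (φ' x) x ∧ φ' x ≠ 0 ∧ φ x ∈ t) →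
    (∀ y ∈ t, (s ∩ φ ⁻¹' {y}).encard = k) →
    ∫⁻ x in s, ENNReal.ofReal |φ' x| * g (φ x) = k * ∫⁻ y in t, g y

/-- the integral of `1 / √g` over the set where `g` is positive -/
noncomputable def Ig (g : ℝ → ℝ) : ENNReal := ∫⁻ x in {x | 0 < g x}, ENNReal.ofReal (1 / √(g x))

/-- the real period -/
noncomputable def om (a b : ℝ) : ENNReal := Ig fun x => x ^ 3 + a * x + b

/-- complex conjugation on the points of a real curve -/
noncomputable def cj {a b : ℝ} (h : Good (a : ℂ) (b : ℂ)) :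
    Pt (a : ℂ) (b : ℂ) →+ Pt (a : ℂ) (b : ℂ) :=
  (Sc.ofHom (starRingEnd ℂ) (Complex.conj_ofReal a) (Complex.conj_ofReal b) h).map

open Classical in
/-- the real period of the quotient by a stable subgroup of odd order -/
def PerRel : Prop :=
  ∀ (a b a' b' : ℝ) (h : Good (a : ℂ) (b : ℂ)) (D : Finset (Pt (a : ℂ) (b : ℂ))), IsSub D →
    Odd D.card → (∀ P ∈ D, cj h P ∈ D) → vA D = a' → vB D = b' →
    om a b = (D.filter fun P => cj h P = P).card * om a' b'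

open Classical in
/-- the sign of the discriminant of the quotient -/
def DiscSign : Prop :=
  ∀ (a b a' b' : ℝ) (h : Good (a : ℂ) (b : ℂ)) (D : Finset (Pt (a : ℂ) (b : ℂ))), IsSub D →
    Odd D.card → (∀ P ∈ D, cj h P ∈ D) → vA D = a' → vB D = b' →
    0 < (4 * a ^ 3 + 27 * b ^ 2) * (4 * a' ^ 3 + 27 * b' ^ 2)

/-- monotonicity of the periods of the two normal forms -/
def UV : Prop :=
  (StrictMonoOn (fun s : ℝ => Ig fun x => x * (x - s) * (x - 1)) (Set.Ioo 0 1) ∧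
    ∀ s ∈ Set.Ioo (0 : ℝ) 1, (0 < Ig fun x => x * (x - s) * (x - 1)) ∧
      (Ig fun x => x * (x - s) * (x - 1)) ≠ ⊤) ∧
  (StrictMonoOn (fun κ : ℝ => Ig fun x => x * (x ^ 2 - 2 * κ * x + 1)) (Set.Ioo (-1) 1) ∧
    ∀ κ ∈ Set.Ioo (-1 : ℝ) 1, (0 < Ig fun x => x * (x ^ 2 - 2 * κ * x + 1)) ∧
      (Ig fun x => x * (x ^ 2 - 2 * κ * x + 1)) ≠ ⊤)

/-- the ratio of the periods, at least one -/
noncomputable def Lam (a b : ℝ) : ℝ :=
  max ((om a b).toReal / (om a (-b)).toReal) ((om a (-b)).toReal / (om a b).toReal)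

/-- the invariant is monotone in the ratio of the periods -/
def PerMono : Prop :=
  (∀ a b t : ℝ, 0 < t → om (t ^ 4 * a) (t ^ 6 * b) * ENNReal.ofReal t = om a b) ∧
  (∀ a b : ℝ, 4 * a ^ 3 + 27 * b ^ 2 ≠ 0 → 0 < om a b ∧ om a b ≠ ⊤ ∧ (b ≠ 0 → 1 < Lam a b)) ∧
  ∀ a b a' b' : ℝ, 0 < (4 * a ^ 3 + 27 * b ^ 2) * (4 * a' ^ 3 + 27 * b' ^ 2) →
    Lam a' b' < Lam a b → 0 < (a' ^ 3 * b ^ 2 - a ^ 3 * b' ^ 2) * (4 * a ^ 3 + 27 * b ^ 2)

open Classical in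
/-- the stable subgroups correspond to the divisors -/
def Stab : Prop :=
  ∀ (a b : ℝ) (h : Good (a : ℂ) (b : ℂ)) (n : ℕ), Odd n →
    (∀ D ∈ subs (a : ℂ) (b : ℂ) n, (∀ P ∈ D, cj h P ∈ D) →
      (D.filter fun P => cj h P = P).card * (D.filter fun P => cj h P = -P).card = n) ∧
    ∀ i, i ∣ n → ∃! D, D ∈ subs (a : ℂ) (b : ℂ) n ∧ (∀ P ∈ D, cj h P ∈ D) ∧
      (D.filter fun P => cj h P = P).card = i

/-- the sign is positive exactly for a ratio between one and `ρ` -/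
def Sg (ρ : ℝ) (u v : ℕ) (x : ℝ) : Prop :=
  (v < u → (u : ℝ) < ρ * v → 0 < x) ∧ (u < v ∨ ρ * v < u → x < 0)

open Classical in
/-- the sign of the factor of one stable subgroup -/
def SignD : Prop :=
  ∀ (a b : ℝ) (h : Good (a : ℂ) (b : ℂ)), b ≠ 0 → ∃ ρ : ℝ, 1 < ρ ∧
    ((∀ D : Finset (Pt (a : ℂ) (b : ℂ)), IsSub D → Odd D.card → (∀ P ∈ D, cj h P ∈ D) →
      ∃ d : ℝ, dl D = d ∧ Sg ρ (D.filter fun P => cj h P = P).card
        (D.filter fun P => cj h P = -P).card (d * (4 * a ^ 3 + 27 * b ^ 2))) ∨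
    ∀ D : Finset (Pt (a : ℂ) (b : ℂ)), IsSub D → Odd D.card → (∀ P ∈ D, cj h P ∈ D) →
      ∃ d : ℝ, dl D = d ∧ Sg ρ (D.filter fun P => cj h P = -P).card
        (D.filter fun P => cj h P = P).card (d * (4 * a ^ 3 + 27 * b ^ 2)))

/-- the sign of the universal polynomial at a real point -/
def Arch2 : Prop :=
  ∀ w : ℝ, w ≠ 0 → 4 * w + 27 ≠ 0 → ∃ (ρ : ℝ) (M : ℕ), 1 < ρ ∧
    ∀ (R : Finset ℕ) (l : ℕ) (Ψ : ℤ[X]), (∀ r ∈ R, r.Prime ∧ M < r) → l.Prime → M < l →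
      ∏ r ∈ R, r < l → (l : ℝ) < ρ * (∏ r ∈ R, r : ℕ) → IsUnivPsi ((∏ r ∈ R, r) * l) Ψ →
      aeval w Ψ ≤ 0

open Classical in
/-- the argument of Elkies for composite degree -/
def Elk2 : Prop :=
  ∀ (K : Type) [Field K] [NumberField K] (A B : 𝓞 K), Odd (Module.finrank ℚ K) →
    (Wc A B).Δ ≠ 0 → NoCM (iK A) (iK B) → ∃ (M : ℕ) (ρ : ℝ), 2 ≤ M ∧ 1 < ρ ∧
      ∀ (R : Finset ℕ) (l : ℕ), R.Nonempty → (∀ r ∈ R, r.Prime ∧ M < r ∧ ¬SSp A B r) → l.Prime →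
        M < l → ¬SSp A B l → ∏ r ∈ R, r < l → (l : ℝ) < ρ * (∏ r ∈ R, r : ℕ) →
        8 * M.factorial ∣ (∏ r ∈ R, r) * l + 1 →
        ∃ (P : Ideal (𝓞 K)) (p : ℕ), Cv A B P p ((∏ r ∈ R, r) * l)

/-- primes with a factor of degree one in a suitable field are not supersingular -/
def Allow : Prop :=
  ∀ (K : Type) [Field K] [NumberField K] (A B : 𝓞 K), (Wc A B).Δ ≠ 0 →
    ∃ (L : Type) (_ : Field L) (_ : NumberField L) (M : ℕ), ∀ r : ℕ, r.Prime → M < r →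
      (∃ Q : Ideal (𝓞 L), Q.IsMaximal ∧ Ideal.absNorm Q = r) → ¬SSp A B r

end Pool.Agent.MP_c481b3_nt.H28K
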