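import Pool.Agent.MP_c481b3_nt.H28K.SpecR

set_option autoImplicit false

namespace Pool.Agent.MP_c481b3_nt.H28K

open Pool.Agent.MP_c481b3_nt.H81 Pool.Agent.MP_c481b3_nt.H28 Pool.Agent.MP_c481b3_nt.H31
  NumberField

namespace SST

variable {K κ : Type} [Field K] [NumberField K] [Field κ] {A B : 𝓞 K} {P : Ideal (𝓞 K)}

omit [NumberField K] in
theorem good_of (ψ : 𝓞 K →+* κ) (hψ : ∀ r, ψ r = 0 ↔ r ∈ P) (hΔ : (Wc A B).Δ ∉ P) :
    Good (ψ A) (ψ B) := good_of_ne (by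
  rw [show Wc (ψ A) (ψ B) = (Wc A B).map ψ by ext <;> simp [Wc], WeierstrassCurve.map_Δ, Ne, hψ]
  exact hΔ)

/-- the trace is divisible by `p` exactly if there is no point of order `p` -/
theorem ss_iff [DecidableEq κ] [IsAlgClosed κ] (hP : P.IsMaximal) {p : ℕ} (hp : p.Prime)
    (h3 : (3 : κ) ≠ 0) (hpP : (p : 𝓞 K) ∈ P) (ψ : 𝓞 K →+* κ) (hψ : ∀ r, ψ r = 0 ↔ r ∈ P)
    (hΔ : (Wc A B).Δ ∉ P) :
    (p : ℤ) ∣ aP A B P ↔ ∀ Q : Pt (ψ A) (ψ B), p • Q = 0 → Q = 0 := by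
  classical
  have : Finite (𝓞 K ⧸ P) := P.finiteQuotientOfFreeOfNeBot (Ring.ne_bot_of_isMaximal_of_not_isField
    hP (RingOfIntegers.not_isField K))
  let := Ideal.Quotient.field P
  let := Fintype.ofFinite (𝓞 K ⧸ P)
  let j : 𝓞 K ⧸ P →+* κ := Ideal.Quotient.lift P ψ fun r hr => (hψ r).2 hr
  have ej : ∀ r, j (Ideal.Quotient.mk P r) = ψ r := fun r => rfl
  have eW : (Wc A B).map (Ideal.Quotient.mk P)
      = Wc (Ideal.Quotient.mk P A) (Ideal.Quotient.mk P B) := by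
    ext <;> simp [Wc]
  have g1 := good_of ψ hψ hΔ
  obtain ⟨q, hq, n, qq, hc⟩ := FiniteField.card' (𝓞 K ⧸ P)
  have cf := card_fixed j (ej A) (ej B) g1
  rw [hc] at cf
  have ch : CharP κ q := charP_of_injective_ringHom j.injective q
  obtain rfl : q = p := (Nat.prime_dvd_prime_iff_eq qq hp).1
    ((CharP.cast_eq_zero_iff κ q p).1 (by simpa using (hψ p).2 hpP))
  have := Fact.mk hp
  have fx : ∀ r, ψ r ^ q ^ (n : ℕ) = ψ r := fun r => by
    rw [← ej, ← map_pow, ← hc, FiniteField.pow_card]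
  have cr := compRing h3 g1
  set π := frE g1 q n (fx A) (fx B) with hπ
  have tr : pol NE π 1 = aP A B P := by
    rw [hπ, tr_frE g1 q n _ _ n.ne_zero h3, cf, aP, eW, Ideal.absNorm_apply,
      Submodule.cardQuot_apply, Nat.card_eq_fintype_card (α := 𝓞 K ⧸ P), hc, Nat.cast_pow]
  have nπ : NE π = q ^ (n : ℕ) := by rw [hπ, NE_frE]
  refine ⟨fun ⟨c, h⟩ Q hQ => by_contra fun q0 => ?_, fun h => by_contra fun hd => ?_⟩
  · have e := congrArg (fun φ : EE g1 => φ.1 Q) (cr.char π)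
    simp only [EE_mul, EE_sub, EE_int] at e
    obtain ⟨m, hm⟩ := Nat.exists_eq_succ_of_ne_zero n.ne_zero
    have h1 : aP A B P • π.1 Q = 0 := by
      rw [h, mul_comm, mul_zsmul, natCast_zsmul, ← map_nsmul, hQ, map_zero, zsmul_zero]
    have h2 : NE π • Q = 0 := by
      rw [nπ, hm, pow_succ, mul_zsmul, natCast_zsmul, hQ, zsmul_zero]
    rw [tr, h1, h2, sub_zero] at e
    exact Sc.map_ne _ (Sc.map_ne _ q0) e
  · obtain ⟨Q, q0, hQ⟩ := exists_tors h3 g1 (π - ((aP A B P : ℤ) : EE g1)) (by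
      rw [map_sub, cE_frE _ _ _ _ _ n.ne_zero, map_intCast, zero_sub, neg_ne_zero, Ne,
        CharP.intCast_eq_zero_iff _ q]
      exact hd) hp (by
      rw [cr.sub, nπ, ← mul_one (aP A B P : EE g1), cr.pol_int', tr, mul_one, cr.int, sq,
        sub_add_cancel]
      exact dvd_pow_self _ n.ne_zero)
    exact q0 (h Q hQ)

theorem not_mem {x : 𝓞 K} (hx : x ≠ 0) (hP : P.IsMaximal) {p : ℕ} (hp : p.Prime)
    (hpP : (p : 𝓞 K) ∈ P) (h : Ideal.absNorm (Ideal.span {x}) < p) : x ∉ P := fun h1 =>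
  (le_norm hP hp hpP (Ideal.span_singleton_eq_bot.not.2 hx)
    ((Ideal.span_singleton_le_iff_mem P).2 h1)).not_gt h

end SST

open SST in
theorem ssT_of : IsTwo → SsT := by
  classical
  intro hT K K' _ _ _ _ A B a b e A' B' ι lk
  refine ⟨Ideal.absNorm (Ideal.span {(Wc A B).Δ}) + Ideal.absNorm (Ideal.span {(Wc a b).Δ}) + 5,
    fun p hM ⟨hp, P', m', p', d', t'⟩ => ⟨hp, ?_⟩⟩
  obtain ⟨O, o1, o2⟩ := exists_val (ι.comp (algebraMap (𝓞 K') K'))
    (ι.injective.comp RingOfIntegers.coe_injective) P' m'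
  have o3 : ∀ r : 𝓞 K, iK r ∈ O := fun r => by
    have h1 : IsIntegral O (iK r) := (map_isIntegral_int iK (RingOfIntegers.isIntegral r)).tower_top
    obtain ⟨y, hy⟩ := IsIntegrallyClosed.isIntegral_iff.1 h1
    exact hy ▸ y.2
  let ψ' : 𝓞 K' →+* IsLocalRing.ResidueField O :=
    (resPlc O).ρ.comp ((ι.comp (algebraMap (𝓞 K') K')).codRestrict O.toSubring o1)
  let ψ : 𝓞 K →+* IsLocalRing.ResidueField O := (resPlc O).ρ.comp (iK.codRestrict O.toSubring o3)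
  have k' : ∀ r, ψ' r = 0 ↔ r ∈ P' := fun r => ((resPlc O).loc ⟨_, o1 r⟩).trans (o2 r)
  have k : ∀ r, ψ r = 0 ↔ r ∈ RingHom.ker ψ := fun r => Iff.rfl
  have p0 : (p : IsLocalRing.ResidueField O) = 0 := by simpa using (k' p).2 p'
  have pP : (p : 𝓞 K) ∈ RingHom.ker ψ := (k p).1 (by simpa using p0)
  have m : (RingHom.ker ψ).IsMaximal := (RingHom.ker_isPrime ψ).isMaximal fun h => by
    rw [h, Ideal.mem_bot, Nat.cast_eq_zero] at pP
    exact hp.ne_zero pP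
  have := Fact.mk hp
  have ch : CharP (IsLocalRing.ResidueField O) p := (CharP.charP_iff_prime_eq_zero hp).2 p0
  have nz : ∀ n : ℕ, 0 < n → n ≤ 3 → (n : IsLocalRing.ResidueField O) ≠ 0 := fun n h1 h2 h => by
    have := Nat.le_of_dvd h1 ((CharP.cast_eq_zero_iff _ p n).1 h)
    omega
  have h3 : (3 : IsLocalRing.ResidueField O) ≠ 0 := by simpa using nz 3 (by omega) le_rfl
  have d := not_mem lk.d0 m hp pP (by omega)
  have e1 : ψ' a ^ 3 * ψ B ^ 2 = ψ A ^ 3 * ψ' b ^ 2 := by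
    have h : (⟨_, o1 a⟩ : O) ^ 3 * ⟨_, o3 B⟩ ^ 2 = ⟨_, o3 A⟩ ^ 3 * ⟨_, o1 b⟩ ^ 2 :=
      Subtype.ext lk.eq
    have h1 := congrArg (IsLocalRing.residue O) h
    rw [map_mul, map_mul, map_pow, map_pow, map_pow, map_pow] at h1
    exact h1
  have e2 : Two (ψ' a) (ψ' b) (ψ' e) (ψ' A') (ψ' B') := by
    rcases lk.two with ⟨h1, h2⟩ | ⟨h1, h2, h4⟩
    · exact Or.inl ⟨congrArg ψ' h1, congrArg ψ' h2⟩
    · refine Or.inr ⟨?_, ?_, ?_⟩
      · simpa using congrArg ψ' h1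
      · simpa [map_ofNat] using congrArg ψ' h2
      · simpa [map_ofNat] using congrArg ψ' h4
  obtain ⟨n, f, hn, hf⟩ := hT _ _ _ _ _ _ _ _ h3 (good_of ψ k d)
    (good_of ψ' k' (not_mem lk.d1 m' hp p' (by omega))) (good_of ψ' k' d') e1 e2
  refine ⟨RingHom.ker ψ, m, pP, d, (ss_iff m hp h3 pP ψ k d).2 fun Q hQ => ?_⟩
  have h1 := hf.ker ((ss_iff m' hp h3 p' ψ' k' d').1 t' (f Q) (by rw [← map_nsmul, hQ, map_zero]))
  have h2 : p.Coprime n := (Nat.Prime.coprime_iff_not_dvd hp).2 fun h => by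
    have := Nat.le_of_dvd (by omega) h
    omega
  exact AddMonoid.addOrderOf_eq_one_iff.1 (Nat.eq_one_of_dvd_coprimes h2
    (addOrderOf_dvd_of_nsmul_eq_zero hQ) (addOrderOf_dvd_of_nsmul_eq_zero h1))

end Pool.Agent.MP_c481b3_nt.H28K
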