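import Pool.Agent.MP_c481b3_nt.H28K.SpecG

set_option autoImplicit false

namespace Pool.Agent.MP_c481b3_nt.H28K

open Pool.Agent.MP_c481b3_nt.H81 Pool.Agent.MP_c481b3_nt.H28

namespace StabAux

open Classical

variable {A B : ℂ} (c : Pt A B →+ Pt A B)

lemma half {n : ℕ} (hn : Odd n) {P : Pt A B} (h : n • P = 0) (h2 : P + P = 0) : P = 0 := by
  obtain ⟨k, rfl⟩ := hn
  rwa [add_nsmul, one_nsmul, mul_comm, mul_nsmul', two_nsmul, h2, nsmul_zero, zero_add] at h

lemma sub_plus {D : Finset (Pt A B)} (h : IsSub D) : IsSub (D.filter fun P => c P = P) :=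
  ⟨Finset.mem_filter.2 ⟨h.zero, map_zero c⟩, fun P hP Q hQ => Finset.mem_filter.2
    ⟨h.sub P (Finset.mem_filter.1 hP).1 Q (Finset.mem_filter.1 hQ).1, by
      rw [map_sub, (Finset.mem_filter.1 hP).2, (Finset.mem_filter.1 hQ).2]⟩⟩

lemma sub_minus {D : Finset (Pt A B)} (h : IsSub D) : IsSub (D.filter fun P => c P = -P) :=
  ⟨Finset.mem_filter.2 ⟨h.zero, by simp⟩, fun P hP Q hQ => Finset.mem_filter.2
    ⟨h.sub P (Finset.mem_filter.1 hP).1 Q (Finset.mem_filter.1 hQ).1, by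
      rw [map_sub, (Finset.mem_filter.1 hP).2, (Finset.mem_filter.1 hQ).2]; abel⟩⟩

lemma split (cc : ∀ P, c (c P) = P) {D : Finset (Pt A B)} (h : IsSub D) (ho : Odd D.card)
    (st : ∀ P ∈ D, c P ∈ D) :
    (D.filter fun P => c P = P).card * (D.filter fun P => c P = -P).card = D.card := by
  rw [card_hom (AddMonoidHom.id _ + c) h]
  congr 2
  · ext Q
    simp only [Finset.mem_filter, Finset.mem_image, AddMonoidHom.add_apply, AddMonoidHom.id_apply]
    constructor
    · rintro ⟨h1, h2⟩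
      obtain ⟨k, hk⟩ := ho
      refine ⟨(k + 1) • Q, nsmul_mem_sub h h1 _, ?_⟩
      have h3 := h.nsmul_card h1
      rw [map_nsmul, h2, ← add_nsmul, show k + 1 + (k + 1) = D.card + 1 by omega, add_nsmul, h3,
        zero_add, one_nsmul]
    · rintro ⟨P, hP, rfl⟩
      exact ⟨h.add hP (st P hP), by rw [map_add, cc, add_comm]⟩
  · ext Q
    simp only [Finset.mem_filter, AddMonoidHom.add_apply, AddMonoidHom.id_apply,
      eq_neg_iff_add_eq_zero, add_comm]

lemma tm (h : Good A B) {n : ℕ} (hn : Odd n) : Tm A B n :=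
  ⟨h, by norm_num, by exact_mod_cast hn.pos.ne'⟩

lemma main (h : Good A B) (cc : ∀ P, c (c P) = P)
    (hf : ∀ i, Odd i → ((tors A B i).filter fun P => c P = P).card = i) {i j : ℕ}
    (hn : Odd (i * j)) : ∃! D, D ∈ subs A B (i * j) ∧ (∀ P ∈ D, c P ∈ D) ∧
      (D.filter fun P => c P = P).card = i := by
  have hi : Odd i := Nat.Odd.of_mul_left hn
  have hj : Odd j := Nat.Odd.of_mul_right hn
  have t := tm h hn
  have st : ∀ m, Odd m → ∀ P ∈ tors A B m, c P ∈ tors A B m := fun m hm P hP =>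
    (tm h hm).mem.2 (by rw [← map_nsmul, (tm h hm).mem.1 hP, map_zero])
  have hm : ((tors A B j).filter fun P => c P = -P).card = j := by
    have := split c cc (tm h hj).sub (by rw [(tm h hj).card]; exact hj.pow) (st j hj)
    rw [hf j hj, (tm h hj).card, pow_two] at this
    exact Nat.eq_of_mul_eq_mul_left hj.pos this
  let D := (tors A B (i * j)).filter fun P => i • (P + c P) = 0 ∧ j • (P - c P) = 0
  have mem : ∀ P, P ∈ D ↔ (i * j) • P = 0 ∧ i • (P + c P) = 0 ∧ j • (P - c P) = 0 := fun P => by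
    rw [Finset.mem_filter, t.mem]
  have hs : IsSub D := by
    refine ⟨(mem _).2 (by simp), fun P hP Q hQ => ?_⟩
    obtain ⟨a1, a2, a3⟩ := (mem _).1 hP
    obtain ⟨b1, b2, b3⟩ := (mem _).1 hQ
    refine (mem _).2 ⟨by rw [nsmul_sub, a1, b1, sub_zero], ?_, ?_⟩
    · rw [map_sub, show P - Q + (c P - c Q) = P + c P - (Q + c Q) by abel, nsmul_sub, a2, b2,
        sub_zero]
    · rw [map_sub, show P - Q - (c P - c Q) = P - c P - (Q - c Q) by abel, nsmul_sub, a3, b3,
        sub_zero]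
  have hst : ∀ P ∈ D, c P ∈ D := by
    intro P hP
    obtain ⟨a1, a2, a3⟩ := (mem _).1 hP
    refine (mem _).2 ⟨by rw [← map_nsmul, a1, map_zero], by rw [cc, add_comm, a2], ?_⟩
    rw [cc, ← neg_sub, neg_nsmul, a3, neg_zero]
  have e1 : (D.filter fun P => c P = P) = (tors A B i).filter fun P => c P = P := by
    ext P
    rw [Finset.mem_filter, mem, Finset.mem_filter, (tm h hi).mem]
    refine and_congr_left fun e => ?_
    rw [e, sub_self, nsmul_zero, nsmul_add]
    exact ⟨fun ⟨a1, a2, _⟩ => half hn (by rw [smul_comm, a1, nsmul_zero]) a2,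
      fun a => ⟨by rw [mul_nsmul, a, nsmul_zero], by rw [a, add_zero], rfl⟩⟩
  have e2 : (D.filter fun P => c P = -P) = (tors A B j).filter fun P => c P = -P := by
    ext P
    rw [Finset.mem_filter, mem, Finset.mem_filter, (tm h hj).mem]
    refine and_congr_left fun e => ?_
    rw [e, add_neg_cancel, nsmul_zero, sub_neg_eq_add, nsmul_add]
    exact ⟨fun ⟨a1, _, a2⟩ => half hn (by rw [smul_comm, a1, nsmul_zero]) a2,
      fun a => ⟨by rw [mul_nsmul', a, nsmul_zero], rfl, by rw [a, add_zero]⟩⟩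
  have ho : Odd D.card := by
    have := card_dvd hs t.sub (Finset.filter_subset _ _)
    rw [t.card] at this
    exact Odd.of_dvd_nat hn.pow this
  have hc : D.card = i * j := by rw [← split c cc hs ho hst, e1, e2, hf i hi, hm]
  refine ⟨D, ⟨t.mem_subs.2 ⟨hs, hc⟩, hst, by rw [e1, hf i hi]⟩, ?_⟩
  rintro E ⟨hE, sE, cE⟩
  obtain ⟨s1, s2⟩ := t.mem_subs.1 hE
  have s3 := split c cc s1 (s2 ▸ hn) sE
  rw [cE, s2] at s3
  have s4 := Nat.eq_of_mul_eq_mul_left hi.pos s3
  refine Finset.eq_of_subset_of_card_le (fun P hP => (mem _).2 ⟨s2 ▸ s1.nsmul_card hP, ?_, ?_⟩)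
    (by rw [hc, s2])
  · exact cE ▸ (sub_plus c s1).nsmul_card (Finset.mem_filter.2
      ⟨s1.add hP (sE P hP), by rw [map_add, cc, add_comm]⟩)
  · exact s4 ▸ (sub_minus c s1).nsmul_card (Finset.mem_filter.2
      ⟨s1.sub _ hP _ (sE P hP), by rw [map_sub, cc, neg_sub]⟩)

lemma cj_cj {a b : ℝ} (h : Good (a : ℂ) (b : ℂ)) (P : Pt (a : ℂ) (b : ℂ)) :
    cj h (cj h P) = P := by
  by_cases hP : P = 0
  · simp [hP]
  exact pt_ext (Sc.map_ne _ (Sc.map_ne _ hP)) hP
    (by rw [cj, xc_ofHom, xc_ofHom, Complex.conj_conj])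
    (by rw [cj, yc_ofHom, yc_ofHom, Complex.conj_conj])

end StabAux

open StabAux Classical in
theorem stab_of : PerRel → PerMono → Stab := by
  intro hR hM a b h n hn
  refine ⟨fun D hD st => ?_, ?_⟩
  · obtain ⟨s1, s2⟩ := (tm h hn).mem_subs.1 hD
    rw [split _ (cj_cj h) s1 (s2 ▸ hn) st, s2]
  rintro i ⟨j, rfl⟩
  refine main _ h (cj_cj h) (fun m hm => ?_) hn
  have t := tm h hm
  have h0 : (0 : ℝ) < m := by exact_mod_cast hm.pos
  have h1 := hR a b (m ^ 4 * a) (m ^ 6 * b) h (tors (a : ℂ) b m) t.sub (by rw [t.card]; exact hm.pow)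
    (fun P hP => t.mem.2 (by rw [← map_nsmul, t.mem.1 hP, map_zero]))
    (by rw [t.vd.hA]; push_cast; rfl) (by rw [t.vd.hB]; push_cast; rfl)
  have h2 := hM.1 a b m h0
  obtain ⟨h3, h4, -⟩ := hM.2.1 a b fun e => h.disc (by exact_mod_cast e)
  rw [ENNReal.ofReal_natCast, mul_comm] at h2
  have h5 : om (m ^ 4 * a) (m ^ 6 * b) ≠ 0 := fun e => by
    rw [e, mul_zero] at h2
    exact h3.ne h2
  have h6 : om (m ^ 4 * a) (m ^ 6 * b) ≠ ⊤ := fun e => by
    rw [e, ENNReal.mul_top (by exact_mod_cast hm.pos.ne')] at h2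
    exact h4 h2.symm
  have h7 := (ENNReal.mul_left_inj h5 h6).1 (h1.symm.trans h2.symm)
  exact_mod_cast h7

end Pool.Agent.MP_c481b3_nt.H28K
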