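import Pool.Agent.MP_c481b3_nt.H28K.SpecG

set_option autoImplicit false

namespace Pool.Agent.MP_c481b3_nt.H28K

open Pool.Agent.MP_c481b3_nt.H81 Pool.Agent.MP_c481b3_nt.H28 Pool.Agent.MP_c481b3_nt.H31
  Polynomial

namespace SY

lemma sep_transfer {R K K' : Type} [CommRing R] [Field K] [Field K'] (φ : R →+* K)
    (ψ : R →+* K') (hψ : Function.Injective ψ) {Φ : R[X]} (hm : Φ.Monic)
    (h : (Φ.map φ).Separable) : (Φ.map ψ).Separable := by
  by_cases h0 : Φ.natDegree = 0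
  · rw [eq_one_of_monic_natDegree_zero hm h0, Polynomial.map_one]
    exact separable_one
  have hr : resultant Φ (derivative Φ) ≠ 0 := fun e => by
    have h1 := resultant_map_map Φ (derivative Φ) Φ.natDegree (derivative Φ).natDegree φ
    obtain ⟨k, hk⟩ := Nat.exists_eq_add_of_le (natDegree_map_le (f := φ) (p := derivative Φ))
    rw [e, map_zero, hk, resultant_add_right_deg _ _ _ _ _ le_rfl, ← hm.natDegree_map φ,
      coeff_natDegree, (hm.map φ).leadingCoeff, one_pow, one_mul, ← derivative_map] at h1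
    exact resultant_ne_zero _ _ h h1
  obtain ⟨p, q, -, -, e⟩ :=
    exists_mul_add_mul_eq_C_resultant Φ (derivative Φ) le_rfl le_rfl (Or.inl h0)
  have h2 : ψ (resultant Φ (derivative Φ)) ≠ 0 := (map_ne_zero_iff _ hψ).2 hr
  have h3 := congrArg (Polynomial.map ψ) e
  rw [Polynomial.map_add, Polynomial.map_mul, Polynomial.map_mul, map_C, ← derivative_map] at h3
  refine ⟨C (ψ (resultant Φ (derivative Φ)))⁻¹ * p.map ψ,
    C (ψ (resultant Φ (derivative Φ)))⁻¹ * q.map ψ, ?_⟩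
  rw [mul_assoc, mul_assoc, ← mul_add, mul_comm (p.map ψ), mul_comm (q.map ψ), h3, ← map_mul,
    inv_mul_cancel₀ h2, map_one]

lemma ev_eq {L : Type} [Field L] [CharZero L] (x y : L) (Φ : ℚ[X][X]) :
    (Φ.map (eval₂RingHom (algebraMap ℚ L) x)).eval y = aevalAeval x y Φ := by
  have : (evalRingHom y).comp (mapRingHom (eval₂RingHom (algebraMap ℚ L) x)) =
      (aevalAeval x y : ℚ[X][X] →ₐ[ℚ] L).toRingHom := by
    ext <;> simp
  exact RingHom.congr_fun this Φ

lemma jj_scale {L : Type} [Field L] {u : L} (hu : u ≠ 0) (A B : L) :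
    jj (u ^ 4 * A) (u ^ 6 * B) = jj A B := by
  rw [jj, jj, ← mul_div_mul_left (6912 * A ^ 3) _ (pow_ne_zero 12 hu)]
  congr 1 <;> ring

lemma model {L : Type} [Field L] [CharZero L] {c : L} (h0 : c ≠ 0) (h1 : c ≠ 1728) :
    ∃ A B : L, Good A B ∧ jj A B = c := by
  have g : Good (3 * c * (1728 - c)) (2 * c * (1728 - c) ^ 2) := ⟨two_ne_zero, by
    convert mul_ne_zero (show (186624 : L) ≠ 0 by norm_num) (mul_ne_zero
      (pow_ne_zero 2 h0) (pow_ne_zero 3 (sub_ne_zero.2 (Ne.symm h1)))) using 1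
    ring⟩
  refine ⟨_, _, g, ?_⟩
  rw [jj, div_eq_iff g.disc]
  ring

lemma inj_TT : Function.Injective (eval₂RingHom (algebraMap ℚ (LL ℚ)) TT) := by
  have : eval₂RingHom (algebraMap ℚ (LL ℚ)) TT = aL.comp ap :=
    Polynomial.ringHom_ext' (Subsingleton.elim _ _) (by simp)
  rw [this]
  exact (aL (k := ℚ)).injective.comp ap_inj

end SY

open SY in
theorem symJ_of : ModPoly → DistinctJ → SymJ := by
  classical
  intro hM hD L _ _ _ _ A B hG hN m hm hs
  obtain ⟨Φ, hmon, hΦ⟩ := hM m hm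
  obtain ⟨d1, d2⟩ := hD L A B m hG hN hm
  have hm0 : m ≠ 0 := hm.pos.ne'
  have key : ∀ (L : Type) [Field L] [DecidableEq L] [IsAlgClosed L] [CharZero L] (A B y : L),
      Good A B → aevalAeval (jj A B) y Φ = ∏ D ∈ subs A B m, (y - jj (vA D) (vB D)) := by
    intro L _ _ _ _ A B y h
    rw [← ev_eq, hΦ L A B h, eval_prod]
    simp
  have s0 : (Φ.map (eval₂RingHom (algebraMap ℚ L) (jj A B))).Separable := by
    rw [hΦ L A B hG]
    exact separable_prod_X_sub_C_iff'.2 d1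
  have n0 : aevalAeval (jj A B) (jj A B) Φ ≠ 0 := by
    rw [key L A B _ hG]
    exact Finset.prod_ne_zero_iff.2 fun D h => sub_ne_zero.2 (d2 hs D h).symm
  obtain ⟨A₁, B₁, g1, e1⟩ := model (c := TT)
    (fun e => X_ne_zero (inj_TT (a₁ := X) (a₂ := 0) (by simpa using e)))
    (fun e => X_ne_C (1728 : ℚ) (inj_TT (a₁ := X) (a₂ := C 1728) (by simpa using e)))
  have t1 : Tm A₁ B₁ m := tm_char g1 hm0
  have p1 := hΦ (LL ℚ) A₁ B₁ g1
  rw [e1] at p1
  have s1 := sep_transfer _ _ inj_TT hmon s0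
  rw [p1] at s1
  have hdvd : Φ ∣ Bivariate.swap Φ := by
    rw [← map_dvd_map _ inj_TT hmon, p1]
    refine Finset.prod_dvd_of_coprime (fun D h E h' hne => ?_) fun D h => ?_
    · exact isCoprime_X_sub_C_of_isUnit_sub
        (sub_ne_zero.2 fun e => hne (separable_prod_X_sub_C_iff'.1 s1 D h E h' e)).isUnit
    · obtain ⟨c1, c2⟩ := t1.mem_subs.1 h
      have d := vd_one g1 three_ne_zero c1 (c2 ▸ hm)
      have d' := d.dual t1 c2
      rw [dvd_iff_isRoot, IsRoot, ev_eq, Bivariate.aevalAeval_swap, key _ _ _ _ d.good']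
      refine Finset.prod_eq_zero
        ((t1.other d.good').mem_subs.2 ⟨d'.sub, d.dual_card t1 c2⟩) ?_
      rw [d'.hA, d'.hB, jj_scale d'.hu, e1, sub_self]
  obtain ⟨G, hGe⟩ := hdvd
  have hu : IsUnit G := by
    have h1 := Bivariate.swap_swap_apply Φ
    rw [hGe, map_mul, hGe, mul_assoc] at h1
    exact IsUnit.of_mul_eq_one _ (mul_left_cancel₀ hmon.ne_zero (h1.trans (mul_one _).symm))
  obtain ⟨r, hr, rfl⟩ := Polynomial.isUnit_iff.1 hu
  obtain ⟨g, -, rfl⟩ := Polynomial.isUnit_iff.1 hr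
  have hg : g = 1 := by
    have h1 := Bivariate.aevalAeval_swap (jj A B) (jj A B) Φ
    rw [hGe, map_mul, aevalAeval_C, aeval_C] at h1
    exact (algebraMap ℚ L).injective
      ((mul_left_cancel₀ n0 (h1.trans (mul_one _).symm)).trans (map_one _).symm)
  rw [hg, map_one, map_one, mul_one] at hGe
  have fin : ∀ (L : Type) [Field L] [DecidableEq L] [IsAlgClosed L] [CharZero L] (A B y : L),
      Good A B → ∏ D ∈ subs A B m, (jj (vA D) (vB D) - y) =
        (-1) ^ Φ.natDegree * aevalAeval (jj A B) y Φ := by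
    intro L _ _ _ _ A B y h
    have h1 := hmon.natDegree_map (eval₂RingHom (algebraMap ℚ L) (jj A B))
    rw [hΦ L A B h, natDegree_prod_of_monic _ _ fun _ _ => monic_X_sub_C _] at h1
    simp only [natDegree_X_sub_C, Finset.sum_const, smul_eq_mul, mul_one] at h1
    rw [key L A B y h, ← h1, ← Finset.prod_const, ← Finset.prod_mul_distrib]
    exact Finset.prod_congr rfl fun D _ => by ring
  intro L' _ _ _ _ A₁ B₁ A₂ B₂ h1 h2
  rw [fin L' _ _ _ h1, fin L' _ _ _ h2, ← Bivariate.aevalAeval_swap, hGe]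

end Pool.Agent.MP_c481b3_nt.H28K
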