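import Pool.Agent.MP_c481b3_nt.H28K.SpecR
import Pool.Agent.MP_c481b3_nt.H28K.Mono

set_option autoImplicit false

namespace Pool.Agent.MP_c481b3_nt.H28K

open Set

namespace TWOL

/-- the ratio of the two periods -/
noncomputable def mu (a b : ℝ) : ℝ := (om a b).toReal / (om a (-b)).toReal

theorem Lam_eq (a b : ℝ) : Lam a b = max (mu a b) (mu a b)⁻¹ := by rw [Lam, mu, inv_div]

theorem mu_pos (hM : PerMono) {a b : ℝ} (hd : 4 * a ^ 3 + 27 * b ^ 2 ≠ 0) : 0 < mu a b := by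
  obtain ⟨h1, h2, -⟩ := hM.2.1 a b hd
  obtain ⟨h3, h4, -⟩ := hM.2.1 a (-b) (by rwa [neg_sq])
  exact div_pos (ENNReal.toReal_pos h1.ne' h2) (ENNReal.toReal_pos h3.ne' h4)

theorem disc {a b e : ℝ} (h : e ^ 3 + a * e + b = 0) :
    4 * a ^ 3 + 27 * b ^ 2 = (3 * e ^ 2 + a) ^ 2 * (3 * e ^ 2 + 4 * a) := by
  obtain rfl : b = -e ^ 3 - a * e := by linarith
  ring

theorem mu_two (hP : TwoP) {a b e : ℝ} (h : e ^ 3 + a * e + b = 0)
    (hd : 4 * a ^ 3 + 27 * b ^ 2 ≠ 0) :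
    (3 * e ^ 2 + a < 0 ∨ e = 0 ∨ 0 < 3 * e ^ 2 + 4 * a →
      mu (-4 * a - 15 * e ^ 2) (-8 * a * e - 22 * e ^ 3) = mu a b) ∧
    (0 < 3 * e ^ 2 + a → 3 * e ^ 2 + 4 * a < 0 →
      (0 < e → mu (-4 * a - 15 * e ^ 2) (-8 * a * e - 22 * e ^ 3) = mu a b / 2) ∧
      (e < 0 → mu (-4 * a - 15 * e ^ 2) (-8 * a * e - 22 * e ^ 3) = 2 * mu a b)) := by
  rw [disc h] at hd
  have ht : 3 * e ^ 2 + a ≠ 0 := fun h0 => hd (by simp [h0])
  have hs := right_ne_zero_of_mul hd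
  obtain rfl : b = -e ^ 3 - a * e := by linarith
  have h1 := congrArg ENNReal.toReal (hP a e ht hs)
  have h2 := congrArg ENNReal.toReal (hP a (-e) (by rwa [neg_sq]) (by rwa [neg_sq]))
  rw [neg_sq, show -(-e) ^ 3 - a * -e = -(-e ^ 3 - a * e) by ring,
    show -8 * a * -e - 22 * (-e) ^ 3 = -(-8 * a * e - 22 * e ^ 3) by ring] at h2
  rw [ENNReal.toReal_mul] at h1 h2
  unfold mu
  rw [h1, h2, mul_div_mul_comm]
  refine ⟨fun h0 => ?_, fun h3 h4 => ⟨fun h5 => ?_, fun h5 => ?_⟩⟩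
  · rcases h0 with h0 | h0 | h0
    · simp [h0]
    · by_cases h6 : a < 0 <;> simp [h0, h6]
    · by_cases h6 : 3 * e ^ 2 + a < 0 <;> simp [h0.not_gt, h6]
  · rw [if_pos (Or.inr ⟨h5, h4⟩), if_neg (by rintro (h6 | h6) <;> linarith [h6])]
    simp
  · rw [if_neg (by rintro (h6 | h6) <;> linarith [h6]), if_pos (Or.inr ⟨by linarith, h4⟩)]
    simp only [ENNReal.toReal_one, ENNReal.toReal_ofNat]
    ring

theorem neg_root {a b : ℝ} (hd : 4 * a ^ 3 + 27 * b ^ 2 < 0) :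
    ∃ e : ℝ, e < 0 ∧ e ^ 3 + a * e + b = 0 ∧ 0 < 3 * e ^ 2 + a := by
  obtain ⟨t, k, ht, hk, rfl, rfl⟩ := Mono.form3 hd
  refine ⟨-(t ^ 2 * ((3 + k) / 6)), neg_lt_zero.2 (mul_pos (pow_pos ht 2) (by linarith [hk.1])),
    by ring, ?_⟩
  refine (mul_pos (pow_pos ht 4) (show 0 < (1 + k) / 2 by linarith [hk.1])).trans_eq ?_
  ring

theorem uniq {a b e f : ℝ} (he : e ^ 3 + a * e + b = 0) (hf : f ^ 3 + a * f + b = 0) (e0 : e < 0)
    (f0 : f < 0) (e1 : 0 < 3 * e ^ 2 + a) (f1 : 0 < 3 * f ^ 2 + a) : e = f := by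
  by_contra hne
  have h : e ^ 2 + e * f + f ^ 2 + a = 0 :=
    mul_left_cancel₀ (sub_ne_zero.2 hne) (by linear_combination he - hf)
  rcases lt_or_gt_of_ne hne with h1 | h1
  · nlinarith [mul_pos (sub_pos.2 h1) (show 0 < -(2 * f + e) by linarith)]
  · nlinarith [mul_pos (sub_pos.2 h1) (show 0 < -(2 * e + f) by linarith)]

theorem s_neg {a b e : ℝ} (h : e ^ 3 + a * e + b = 0) (hd : 4 * a ^ 3 + 27 * b ^ 2 < 0) :
    3 * e ^ 2 + a ≠ 0 ∧ 3 * e ^ 2 + 4 * a < 0 := by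
  rw [disc h] at hd
  exact ⟨fun h0 => by simp [h0] at hd, neg_of_mul_neg_right hd (sq_nonneg _)⟩

theorem lam_lt {A B : ℝ → ℝ} (h : Mono.Fam A B) {k l : ℝ} (hk : k ∈ Ioo (-1 : ℝ) 1)
    (hl : l ∈ Ioo (-1 : ℝ) 1) (hkl : k ^ 2 < l ^ 2) : Lam (A k) (B k) < Lam (A l) (B l) := by
  have key : ∀ {x y : ℝ}, x ∈ Ioo (-1 : ℝ) 1 → y ∈ Ioo (-1 : ℝ) 1 → x < y →
      (om (A x) (B x)).toReal / (om (A (-x)) (B (-x))).toReal <
        (om (A y) (B y)).toReal / (om (A (-y)) (B (-y))).toReal := fun hx hy hxy =>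
    div_lt_div₀ (h.wlt hx hy hxy) (h.wle (Mono.neg_mem hy) (Mono.neg_mem hx) (neg_le_neg hxy.le))
      (h.wpos hy).le (h.wpos (Mono.neg_mem hy))
  rw [sq_lt_sq] at hkl
  rw [h.lam, h.lam]
  have h1 := le_abs_self k
  have h2 := neg_le_abs k
  rcases le_total 0 l with h0 | h0
  · rw [abs_of_nonneg h0] at hkl
    have h3 := key (Mono.neg_mem hk) hl (h2.trans_lt hkl)
    rw [neg_neg] at h3
    exact lt_max_of_lt_left (max_lt (key hk hl (h1.trans_lt hkl)) h3)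
  · rw [abs_of_nonpos h0] at hkl
    have h3 := key (Mono.neg_mem hk) (Mono.neg_mem hl) (h2.trans_lt hkl)
    have h4 := key hk (Mono.neg_mem hl) (h1.trans_lt hkl)
    simp only [neg_neg] at h3 h4
    exact lt_max_of_lt_right (max_lt h4 h3)

theorem lam_inj {A B : ℝ → ℝ} (h : Mono.Fam A B) {k l : ℝ} (hk : k ∈ Ioo (-1 : ℝ) 1)
    (hl : l ∈ Ioo (-1 : ℝ) 1) (e : Lam (A l) (B l) = Lam (A k) (B k)) : l = k ∨ l = -k :=
  sq_eq_sq_iff_eq_or_eq_neg.1 (le_antisymm (not_lt.1 fun h1 => (lam_lt h hk hl h1).ne' e)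
    (not_lt.1 fun h1 => (lam_lt h hl hk h1).ne e))

end TWOL

open TWOL in
theorem twoL_of : TwoP → PerMono → TwoL := by
  intro hP hM
  refine ⟨fun a b e h hd => ?_, fun a b hd hb => ?_⟩
  · obtain ⟨h1, h2⟩ := mu_two hP h hd
    have h0 := mu_pos hM hd
    have hi := inv_pos.2 h0
    have m1 := le_max_left (mu a b) (mu a b)⁻¹
    have m2 := le_max_right (mu a b) (mu a b)⁻¹
    have hd' := hd
    rw [disc h] at hd'
    rw [Lam_eq, Lam_eq]
    refine ⟨?_, fun h3 => ?_⟩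
    · by_cases h4 : 3 * e ^ 2 + a < 0 ∨ e = 0 ∨ 0 < 3 * e ^ 2 + 4 * a
      · rw [h1 h4]
        linarith
      · push Not at h4
        obtain ⟨h5, h6⟩ := h2 (h4.1.lt_of_ne' fun h0 => hd' (by simp [h0]))
          (h4.2.2.lt_of_ne (right_ne_zero_of_mul hd'))
        rcases lt_or_gt_of_ne h4.2.1 with h7 | h7
        · rw [h6 h7, mul_inv]
          exact max_le (by linarith) (by linarith)
        · rw [h5 h7, inv_div, div_eq_mul_inv 2]
          exact max_le (by linarith) (by linarith)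
    · rw [disc h] at h3
      rw [h1 (Or.inr (Or.inr (pos_of_mul_pos_right h3 (sq_nonneg _))))]
  · have h0 := mu_pos hM hd.ne
    have hi := inv_pos.2 h0
    have hL := (hM.2.1 a b hd.ne).2.2 hb
    simp only [Lam_eq] at hL ⊢
    rcases lt_max_iff.1 hL with h1 | h1
    · have h2 : (mu a b)⁻¹ < 1 := inv_lt_one_of_one_lt₀ h1
      obtain ⟨f, f0, hf, f1⟩ := neg_root hd
      rw [max_eq_left (h2.trans h1).le]
      refine ⟨f, hf, ?_, fun e he hne => ?_⟩
      · rw [((mu_two hP hf hd.ne).2 f1 (s_neg hf hd).2).2 f0, mul_inv]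
        exact max_eq_left (by linarith)
      · obtain ⟨h3, h4⟩ := mu_two hP he hd.ne
        obtain ⟨h5, h6⟩ := s_neg he hd
        rcases h5.lt_or_gt with h5 | h5
        · rw [h3 (Or.inl h5)]
          exact max_lt (by linarith) (by linarith)
        rcases lt_trichotomy e 0 with h7 | h7 | h7
        · exact absurd (uniq he hf h7 f0 h5 f1) hne
        · rw [h3 (Or.inr (Or.inl h7))]
          exact max_lt (by linarith) (by linarith)
        · rw [(h4 h5 h6).1 h7, inv_div, div_eq_mul_inv 2]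
          exact max_lt (by linarith) (by linarith)
    · have h2 : mu a b < 1 := (one_lt_inv₀ h0).1 h1
      obtain ⟨f, f0, hf, f1⟩ := neg_root (a := a) (b := -b) (by rwa [neg_sq])
      have hf' : (-f) ^ 3 + a * -f + b = 0 := by linarith
      rw [max_eq_right (h2.trans h1).le]
      refine ⟨-f, hf', ?_, fun e he hne => ?_⟩
      · rw [((mu_two hP hf' hd.ne).2 (by rwa [neg_sq]) (s_neg hf' hd).2).1 (neg_pos.2 f0), inv_div,
          div_eq_mul_inv 2]
        exact max_eq_right (by linarith)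
      · obtain ⟨h3, h4⟩ := mu_two hP he hd.ne
        obtain ⟨h5, h6⟩ := s_neg he hd
        rcases h5.lt_or_gt with h5 | h5
        · rw [h3 (Or.inl h5)]
          exact max_lt (by linarith) (by linarith)
        rcases lt_trichotomy e 0 with h7 | h7 | h7
        · rw [(h4 h5 h6).2 h7, mul_inv]
          exact max_lt (by linarith) (by linarith)
        · rw [h3 (Or.inr (Or.inl h7))]
          exact max_lt (by linarith) (by linarith)
        · exact absurd (neg_eq_iff_eq_neg.1 (uniq (a := a) (b := -b) (by linarith) hf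
            (neg_lt_zero.2 h7) f0 (by rwa [neg_sq]) f1)) hne

open TWOL Mono in
theorem perInj_of : UV → PerInj := by
  intro h a b a' b' hd hl
  rcases mul_pos_iff.1 hd with ⟨h1, h2⟩ | ⟨h1, h2⟩
  · obtain ⟨t, k, ht, hk, rfl, rfl⟩ := form1 h1
    obtain ⟨s, l, hs, hl', rfl, rfl⟩ := form1 h2
    rw [Lam_scale _ _ _ ht, Lam_scale _ _ _ hs] at hl
    rcases lam_inj (fam1 h) hk hl' hl with rfl | rfl <;> ring
  · obtain ⟨t, k, ht, hk, rfl, rfl⟩ := form3 h1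
    obtain ⟨s, l, hs, hl', rfl, rfl⟩ := form3 h2
    rw [Lam_scale _ _ _ ht, Lam_scale _ _ _ hs] at hl
    rcases lam_inj (fam3 h) hk hl' hl with rfl | rfl <;> ring

end Pool.Agent.MP_c481b3_nt.H28K
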