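import Pool.Agent.MP_c481b3_nt.H28K.SpecR
import Pool.Agent.MP_c481b3_nt.H28K.Mono

set_option autoImplicit false

namespace Pool.Agent.MP_c481b3_nt.H28K

open MeasureTheory Set

namespace TwoPAux

theorem dens {u v w : ℝ} (hw : w ≠ 0) (h : u = v * w ^ 2) :
    ENNReal.ofReal |w| * ENNReal.ofReal (1 / √u) = ENNReal.ofReal (1 / √v) := by
  rw [← ENNReal.ofReal_mul (abs_nonneg w), h, Real.sqrt_mul' _ (sq_nonneg w), Real.sqrt_sq_eq_abs]
  congr 1
  have : |w| ≠ 0 := abs_ne_zero.2 hw
  rw [one_div, one_div, mul_inv]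
  field_simp

theorem meas (g : ℝ → ℝ) (hg : Continuous g) :
    Measurable fun x => ENNReal.ofReal (1 / √(g x)) :=
  ENNReal.measurable_ofReal.comp (measurable_const.div hg.sqrt.measurable)

/-- the two real components have the same period -/
theorem comp (hA : Area) {c₁ c₂ c₃ : ℝ} (h12 : c₁ < c₂) (h23 : c₂ < c₃) :
    ∫⁻ y in Ioi c₃, ENNReal.ofReal (1 / √((y - c₁) * (y - c₂) * (y - c₃))) =
      ∫⁻ y in Ioo c₁ c₂, ENNReal.ofReal (1 / √((y - c₁) * (y - c₂) * (y - c₃))) := by
  have h13 : c₁ < c₃ := h12.trans h23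
  have hK : 0 < (c₂ - c₁) * (c₃ - c₁) := mul_pos (sub_pos.2 h12) (sub_pos.2 h13)
  have h := hA (Ioi c₃) (Ioo c₁ c₂) (fun y => c₁ + (c₂ - c₁) * (c₃ - c₁) / (y - c₁))
    (fun y => -((c₂ - c₁) * (c₃ - c₁)) / (y - c₁) ^ 2)
    (fun y => ENNReal.ofReal (1 / √((y - c₁) * (y - c₂) * (y - c₃)))) 1 measurableSet_Ioi
    measurableSet_Ioo (meas _ (by fun_prop)) (fun y hy => by
      have hy' : c₃ < y := hy
      have h1 : 0 < y - c₁ := by linarith
      refine ⟨?_, div_ne_zero (neg_ne_zero.2 hK.ne') (pow_ne_zero _ h1.ne'), ?_, ?_⟩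
      · have := ((hasStrictDerivAt_const y ((c₂ - c₁) * (c₃ - c₁))).div
          ((hasStrictDerivAt_id y).sub_const c₁) h1.ne').const_add c₁
        refine this.congr_deriv ?_
        simp
      · have := div_pos hK h1
        linarith
      · have : (c₂ - c₁) * (c₃ - c₁) / (y - c₁) < c₂ - c₁ := by
          rw [div_lt_iff₀ h1]
          exact mul_lt_mul_of_pos_left (by linarith) (sub_pos.2 h12)
        linarith) (fun z hz => by
      have h1 : 0 < z - c₁ := sub_pos.2 hz.1
      have : Ioi c₃ ∩ (fun y => c₁ + (c₂ - c₁) * (c₃ - c₁) / (y - c₁)) ⁻¹' {z}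
          = {c₁ + (c₂ - c₁) * (c₃ - c₁) / (z - c₁)} := by
        ext y
        simp only [mem_inter_iff, mem_Ioi, mem_preimage, mem_singleton_iff]
        constructor
        · rintro ⟨hy, rfl⟩
          have h2 : y - c₁ ≠ 0 := by linarith
          have h3 : c₂ - c₁ ≠ 0 := by linarith
          have h4 : c₃ - c₁ ≠ 0 := by linarith
          rw [add_sub_cancel_left]
          field_simp
          ring
        · rintro rfl
          constructor
          · have : c₃ - c₁ < (c₂ - c₁) * (c₃ - c₁) / (z - c₁) := by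
              rw [lt_div_iff₀ h1, mul_comm]
              exact mul_lt_mul_of_pos_right (by linarith [hz.2]) (sub_pos.2 h13)
            linarith
          · have h3 : c₂ - c₁ ≠ 0 := by linarith
            have h4 : c₃ - c₁ ≠ 0 := by linarith
            rw [add_sub_cancel_left]
            field_simp
            ring
      rw [this, encard_singleton, Nat.cast_one])
  rw [Nat.cast_one, one_mul] at h
  rw [← h]
  refine setLIntegral_congr_fun measurableSet_Ioi fun y hy => ?_
  have hy' : c₃ < y := hy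
  have h1 : y - c₁ ≠ 0 := by linarith
  refine (dens (div_ne_zero (neg_ne_zero.2 hK.ne') (pow_ne_zero _ h1)) ?_).symm
  field_simp
  ring

/-- the isogeny is a double cover of its image -/
theorem cover (hA : Area) {l t : ℝ} (ht : t ≠ 0) :
    Ig (fun x => x * (x ^ 2 + l * x + t)) =
      2 * ∫⁻ y in {y | 0 < y + l ∧ 4 * t < y ^ 2}, ENNReal.ofReal (1 / √((y + l) * (y ^ 2 - 4 * t))) := by
  have hs : MeasurableSet {x : ℝ | 0 < x * (x ^ 2 + l * x + t) ∧ x ^ 2 ≠ t} := by
    measurability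
  have hx0 : ∀ x : ℝ, 0 < x * (x ^ 2 + l * x + t) → x ≠ 0 := by
    rintro x h rfl
    simp at h
  have hd : ∀ x : ℝ, x ≠ 0 → x ^ 2 ≠ t → 1 - t / x ^ 2 ≠ 0 := fun x h0 h1 h => by
    apply h1
    field_simp at h
    linarith
  have h := hA {x | 0 < x * (x ^ 2 + l * x + t) ∧ x ^ 2 ≠ t} {y | 0 < y + l ∧ 4 * t < y ^ 2}
    (fun x => x + t / x) (fun x => 1 - t / x ^ 2)
    (fun y => ENNReal.ofReal (1 / √((y + l) * (y ^ 2 - 4 * t)))) 2 hs
    (by measurability)
    (meas _ (by fun_prop)) (fun x hx => by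
      have h0 := hx0 x hx.1
      refine ⟨?_, hd x h0 hx.2, ?_, ?_⟩
      · have := (hasStrictDerivAt_id x).add
          ((hasStrictDerivAt_const x t).div (hasStrictDerivAt_id x) h0)
        refine this.congr_deriv ?_
        simp only [id]
        ring
      · have e : x * (x ^ 2 + l * x + t) = x ^ 2 * (x + t / x + l) := by
          field_simp
          ring
        have h1 := hx.1
        rw [e] at h1
        exact (mul_pos_iff_of_pos_left (sq_pos_of_ne_zero h0)).1 h1
      · have e : (x + t / x) ^ 2 = 4 * t + (x * (1 - t / x ^ 2)) ^ 2 := by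
          field_simp
          ring
        have := sq_pos_of_ne_zero (mul_ne_zero h0 (hd x h0 hx.2))
        show 4 * t < (x + t / x) ^ 2
        linarith) (fun y hy => by
      obtain ⟨hy1, hy2⟩ := hy
      obtain ⟨r, hr0, hr⟩ : ∃ r : ℝ, 0 < r ∧ r ^ 2 = y ^ 2 - 4 * t :=
        ⟨√(y ^ 2 - 4 * t), Real.sqrt_pos.2 (by linarith), Real.sq_sqrt (by linarith)⟩
      have key : ∀ x x' : ℝ, x + x' = y → x * x' = t → x ≠ x' →
          (0 < x * (x ^ 2 + l * x + t) ∧ x ^ 2 ≠ t) ∧ x + t / x = y := by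
        intro x x' h1 h2 h3
        have h0 : x ≠ 0 := by
          rintro rfl
          exact ht (by linarith)
        refine ⟨⟨?_, fun h => h3 (mul_left_cancel₀ h0 (by linarith))⟩, ?_⟩
        · have e : x * (x ^ 2 + l * x + t) = x ^ 2 * (y + l) := by
            rw [← h1, ← h2]; ring
          rw [e]
          exact mul_pos (sq_pos_of_ne_zero h0) hy1
        · rw [← h2, mul_div_cancel_left₀ _ h0, h1]
      have : {x | 0 < x * (x ^ 2 + l * x + t) ∧ x ^ 2 ≠ t} ∩ (fun x => x + t / x) ⁻¹' {y}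
          = {(y + r) / 2, (y - r) / 2} := by
        ext x
        simp only [mem_inter_iff, mem_ofPred_eq, mem_preimage, mem_singleton_iff, mem_insert_iff]
        constructor
        · rintro ⟨hx, hxy⟩
          have h0 := hx0 x hx.1
          have h1 : x ^ 2 - y * x + t = 0 := by
            rw [← hxy]
            field_simp
            ring
          have h2 : (x - (y + r) / 2) * (x - (y - r) / 2) = 0 := by
            linear_combination h1 - (1 / 4 : ℝ) * hr
          rcases mul_eq_zero.1 h2 with h | h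
          · exact Or.inl (by linarith)
          · exact Or.inr (by linarith)
        · rintro (rfl | rfl)
          · exact key _ ((y - r) / 2) (by ring) (by linear_combination (-1 / 4 : ℝ) * hr)
              (by linarith)
          · exact key _ ((y + r) / 2) (by ring) (by linear_combination (-1 / 4 : ℝ) * hr)
              (by linarith)
      rw [this, encard_pair (by linarith)]
      rfl)
  rw [Nat.cast_ofNat] at h
  rw [← h, Ig]
  have hfin : volume {x : ℝ | x ^ 2 = t} = 0 := by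
    refine Set.Finite.measure_zero ((Set.toFinite {√t, -√t}).subset fun x hx => ?_) _
    have hx' : x ^ 2 = t := hx
    rw [← hx', Real.sqrt_sq_eq_abs]
    rcases abs_choice x with h | h <;> simp [h]
  have hae : {x : ℝ | 0 < x * (x ^ 2 + l * x + t)} =ᵐ[volume]
      {x : ℝ | 0 < x * (x ^ 2 + l * x + t) ∧ x ^ 2 ≠ t} := by
    filter_upwards [measure_eq_zero_iff_ae_notMem.1 hfin] with x hx
    exact propext ⟨fun h => ⟨h, hx⟩, fun h => h.1⟩
  rw [setLIntegral_congr hae]
  refine setLIntegral_congr_fun hs fun x hx => ?_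
  have h0 := hx0 x hx.1
  refine (dens (hd x h0 hx.2) ?_).symm
  field_simp
  ring

theorem split (l t : ℝ) : Ig (fun y => (y + l) * (y ^ 2 - 4 * t)) =
    (∫⁻ y in {y | 0 < y + l ∧ 4 * t < y ^ 2}, ENNReal.ofReal (1 / √((y + l) * (y ^ 2 - 4 * t)))) +
      ∫⁻ y in {y | y + l < 0 ∧ y ^ 2 < 4 * t}, ENNReal.ofReal (1 / √((y + l) * (y ^ 2 - 4 * t))) := by
  rw [Ig, ← lintegral_union]
  · congr 2
    ext y
    simp only [mem_ofPred_eq, mem_union, mul_pos_iff, sub_pos, sub_neg]
  · measurability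
  · exact Set.disjoint_left.2 fun y h1 h2 => lt_asymm h1.1 h2.1

theorem main (hA : Area) {l t : ℝ} (ht : t ≠ 0) (hl : l ^ 2 ≠ 4 * t) :
    Ig (fun x => x * (x ^ 2 + l * x + t)) =
      (if t < 0 ∨ (0 < l ∧ 4 * t < l ^ 2) then 2 else 1) *
        Ig (fun y => (y + l) * (y ^ 2 - 4 * t)) := by
  rw [cover hA ht, split]
  split_ifs with hc
  · have : {y : ℝ | y + l < 0 ∧ y ^ 2 < 4 * t} = ∅ := by
      refine eq_empty_of_forall_notMem fun y hy => ?_
      obtain ⟨h1, h2⟩ := hy
      rcases hc with h | ⟨h3, h4⟩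
      · nlinarith [sq_nonneg y]
      · nlinarith
    rw [this, Measure.restrict_empty, lintegral_zero_measure, add_zero]
  · rw [not_or, not_lt, not_and_or, not_lt, not_lt] at hc
    have ht0 : 0 < t := lt_of_le_of_ne hc.1 ht.symm
    obtain ⟨r, hr0, hr⟩ : ∃ r : ℝ, 0 < r ∧ r ^ 2 = 4 * t :=
      ⟨√(4 * t), Real.sqrt_pos.2 (by linarith), Real.sq_sqrt (by linarith)⟩
    rw [one_mul, two_mul, ← hr]
    congr 1
    rcases lt_or_gt_of_ne hl with h | h
    · have h1 : -r < l ∧ l < r := abs_lt.1 (abs_lt_of_sq_lt_sq (by linarith) hr0.le)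
      have e1 : {y : ℝ | 0 < y + l ∧ r ^ 2 < y ^ 2} = Ioi r := by
        ext y
        simp only [mem_ofPred_eq, mem_Ioi]
        exact ⟨fun ⟨a, b⟩ => by nlinarith [h1.1, h1.2], fun a => ⟨by linarith [h1.1], by nlinarith⟩⟩
      have e2 : {y : ℝ | y + l < 0 ∧ y ^ 2 < r ^ 2} = Ioo (-r) (-l) := by
        ext y
        simp only [mem_ofPred_eq, mem_Ioo]
        exact ⟨fun ⟨a, b⟩ => ⟨by nlinarith, by linarith⟩,
          fun ⟨a, b⟩ => ⟨by linarith, by nlinarith [h1.1]⟩⟩
      have e3 : ∀ y : ℝ, (y + l) * (y ^ 2 - r ^ 2) = (y - -r) * (y - -l) * (y - r) := fun y => by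
        ring
      rw [e1, e2]
      simp only [e3]
      exact comp hA (by linarith [h1.2]) (by linarith [h1.1])
    · have hl0 : l ≤ 0 := hc.2.resolve_right (not_le.2 h)
      have h1 : r < -l := by nlinarith
      have e1 : {y : ℝ | 0 < y + l ∧ r ^ 2 < y ^ 2} = Ioi (-l) := by
        ext y
        simp only [mem_ofPred_eq, mem_Ioi]
        exact ⟨fun ⟨a, _⟩ => by linarith, fun a => ⟨by linarith, by nlinarith⟩⟩
      have e2 : {y : ℝ | y + l < 0 ∧ y ^ 2 < r ^ 2} = Ioo (-r) r := by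
        ext y
        simp only [mem_ofPred_eq, mem_Ioo]
        exact ⟨fun ⟨_, b⟩ => ⟨by nlinarith, by nlinarith⟩,
          fun ⟨a, b⟩ => ⟨by linarith, by nlinarith⟩⟩
      have e3 : ∀ y : ℝ, (y + l) * (y ^ 2 - r ^ 2) = (y - -r) * (y - r) * (y - -l) := fun y => by
        ring
      rw [e1, e2]
      simp only [e3]
      exact comp hA (by linarith) h1

end TwoPAux

theorem twoP_of (hA : Area) : TwoP := by
  intro a e h1 h2
  have h := TwoPAux.main hA (l := 3 * e) (t := 3 * e ^ 2 + a) h1 (fun h => h2 (by linarith))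
  rw [om, om, ← Mono.Ig_shift _ e,
    ← Mono.Ig_shift (fun x => x ^ 3 + (-4 * a - 15 * e ^ 2) * x + (-8 * a * e - 22 * e ^ 3)) e]
  have e1 : (fun x : ℝ => (x + e) ^ 3 + a * (x + e) + (-e ^ 3 - a * e)) =
      fun x => x * (x ^ 2 + 3 * e * x + (3 * e ^ 2 + a)) := by
    funext x; ring
  have e2 : (fun x : ℝ => (x + e) ^ 3 + (-4 * a - 15 * e ^ 2) * (x + e) +
      (-8 * a * e - 22 * e ^ 3)) = fun y => (y + 3 * e) * (y ^ 2 - 4 * (3 * e ^ 2 + a)) := by
    funext x; ring
  rw [e1, e2, h]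
  congr 1
  refine if_congr (or_congr Iff.rfl (and_congr ?_ ?_)) rfl rfl
  · constructor <;> intro h <;> linarith
  · constructor <;> intro h <;> linarith

end Pool.Agent.MP_c481b3_nt.H28K
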