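import Pool.Agent.MP_c481b3_nt.H28K.SpecG

set_option autoImplicit false

namespace Pool.Agent.MP_c481b3_nt.H28K

open MeasureTheory Set

namespace UVa

theorem fin_of_le {S : Set ℝ} (hS : MeasurableSet S) {f g : ℝ → ℝ} (hg : IntegrableOn g S)
    (h : ∀ x ∈ S, f x ≤ g x) : ∫⁻ x in S, ENNReal.ofReal (f x) ≠ ⊤ :=
  ((setLIntegral_mono' hS fun x hx => ENNReal.ofReal_le_ofReal (h x hx)).trans_lt
    hg.lintegral_lt_top).ne

theorem int0 : IntegrableOn (fun y : ℝ => 1 / √y) (Ioo 0 1) := by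
  have h := (intervalIntegral.intervalIntegrable_rpow' (a := 0) (b := 1)
    (by norm_num : (-1 : ℝ) < -(1 / 2))).1
  refine (h.mono_set Ioo_subset_Ioc_self).congr_fun (fun y hy => ?_) measurableSet_Ioo
  simp only
  rw [Real.rpow_neg hy.1.le, Real.sqrt_eq_rpow, one_div (y ^ _)]

theorem int1 : IntegrableOn (fun y : ℝ => 1 / √(1 - y)) (Ioo 0 1) := by
  have h : IntervalIntegrable (fun y : ℝ => 1 / √y) volume 0 1 :=
    (intervalIntegrable_iff_integrableOn_Ioo_of_le zero_le_one).2 int0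
  have h2 := (h.comp_sub_left 1).symm
  rw [sub_self, sub_zero] at h2
  exact (intervalIntegrable_iff_integrableOn_Ioo_of_le zero_le_one).1 h2

theorem int2 : IntegrableOn (fun y : ℝ => 1 / ((y + 1) * √y)) (Ioi 0) := by
  have hm : Measurable fun y : ℝ => 1 / ((y + 1) * √y) := by fun_prop
  rw [← Ioc_union_Ioi_eq_Ioi zero_le_one]
  refine IntegrableOn.union ?_ ?_
  · rw [integrableOn_Ioc_iff_integrableOn_Ioo]
    refine Integrable.mono' int0 hm.aestronglyMeasurable ?_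
    refine (ae_restrict_iff' measurableSet_Ioo).2 (Filter.Eventually.of_forall fun y hy => ?_)
    have h0 := Real.sqrt_pos.2 hy.1
    have h1 := hy.1
    rw [Real.norm_of_nonneg (by positivity)]
    exact one_div_le_one_div_of_le h0 (by nlinarith)
  · refine Integrable.mono' (integrableOn_Ioi_rpow_of_lt (a := -(3 / 2)) (by norm_num)
      zero_lt_one) hm.aestronglyMeasurable ?_
    refine (ae_restrict_iff' measurableSet_Ioi).2 (Filter.Eventually.of_forall fun y hy => ?_)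
    have h1 : 0 < y := zero_lt_one.trans hy
    have h0 := Real.sqrt_pos.2 h1
    rw [Real.norm_of_nonneg (by positivity), Real.rpow_neg h1.le, ← one_div,
      show (3 / 2 : ℝ) = 1 + 1 / 2 by norm_num, Real.rpow_add h1, Real.rpow_one,
      ← Real.sqrt_eq_rpow]
    exact one_div_le_one_div_of_le (by positivity) (by nlinarith)

theorem int3 : IntegrableOn (fun y : ℝ => 1 / (y * √(y - 1))) (Ioi 1) := by
  have h := ((measurePreserving_add_right volume (1 : ℝ)).integrableOn_comp_preimage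
    (measurableEmbedding_addRight 1) (f := fun y : ℝ => 1 / (y * √(y - 1))) (s := Ioi 1)).1
  refine h ?_
  rw [preimage_add_const_Ioi, sub_self]
  simpa [Function.comp_def] using int2

theorem inv_le {a b c : ℝ} (hb : 0 < b) (hc : 0 < c) (h : (c * b) ^ 2 ≤ a) :
    1 / √a ≤ 1 / c * (1 / b) := by
  rw [one_div_mul_one_div]
  exact one_div_le_one_div_of_le (by positivity) (Real.le_sqrt_of_sq_le h)

theorem inv_lt {a b : ℝ} (ha : 0 < a) (h : a < b) :
    ENNReal.ofReal (1 / √b) < ENNReal.ofReal (1 / √a) := by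
  have h0 := Real.sqrt_pos.2 ha
  rw [ENNReal.ofReal_lt_ofReal_iff (by positivity)]
  exact one_div_lt_one_div_of_lt h0 (Real.sqrt_lt_sqrt ha.le h)

/-- the bounded part -/
noncomputable def PA (s : ℝ) : ENNReal :=
  ∫⁻ t in Ioo (0 : ℝ) 1, ENNReal.ofReal (1 / √(t * (1 - t) * (1 - s * t)))

/-- the unbounded part -/
noncomputable def PB (s : ℝ) : ENNReal :=
  ∫⁻ x in Ioi (1 : ℝ), ENNReal.ofReal (1 / √(x * (x - s) * (x - 1)))

theorem set1 {s : ℝ} (hs : s ∈ Ioo (0 : ℝ) 1) :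
    {x : ℝ | 0 < x * (x - s) * (x - 1)} = Ioo 0 s ∪ Ioi 1 := by
  obtain ⟨h0, h1⟩ := hs
  ext x
  simp only [mem_ofPred_eq, mem_union, mem_Ioo, mem_Ioi]
  constructor
  · intro h
    by_contra hc
    push Not at hc
    obtain ⟨h2, h3⟩ := hc
    rcases le_or_gt x 0 with h4 | h4
    · have : 0 ≤ (x - s) * (x - 1) := mul_nonneg_of_nonpos_of_nonpos (by linarith) (by linarith)
      nlinarith
    · have : 0 ≤ x * (x - s) := mul_nonneg h4.le (by linarith [h2 h4])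
      nlinarith
  · rintro (⟨h2, h3⟩ | h2)
    · rw [mul_assoc]
      exact mul_pos h2 (mul_pos_of_neg_of_neg (by linarith) (by linarith))
    · exact mul_pos (mul_pos (by linarith) (by linarith)) (by linarith)

theorem split {s : ℝ} (hs : s ∈ Ioo (0 : ℝ) 1) :
    (Ig fun x => x * (x - s) * (x - 1)) = PA s + PB s := by
  unfold Ig PA PB
  rw [set1 hs, lintegral_union measurableSet_Ioi
    (disjoint_left.2 fun x h1 h2 => lt_irrefl x (h1.2.trans (hs.2.trans h2)))]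
  congr 1
  have e : Ioo 0 s = (fun t : ℝ => s * t) '' Ioo 0 1 := by
    rw [image_mul_left_Ioo hs.1]
    simp
  rw [e, lintegral_image_eq_lintegral_abs_deriv_mul measurableSet_Ioo (f' := fun _ => s)
    (fun x _ => by simpa using ((hasDerivAt_id x).const_mul s).hasDerivWithinAt)
    fun x _ y _ h => mul_left_cancel₀ hs.1.ne' h]
  refine setLIntegral_congr_fun measurableSet_Ioo fun t ht => ?_
  simp only
  rw [abs_of_pos hs.1, ← ENNReal.ofReal_mul hs.1.le,
    show s * t * (s * t - s) * (s * t - 1) = s ^ 2 * (t * (1 - t) * (1 - s * t)) by ring,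
    Real.sqrt_mul (sq_nonneg s), Real.sqrt_sq hs.1.le, ← one_div_mul_one_div, ← mul_assoc,
    mul_one_div_cancel hs.1.ne', one_mul]

theorem PA_ne {s : ℝ} (hs : s ∈ Ioo (0 : ℝ) 1) : PA s ≠ ⊤ := by
  have hc := Real.sqrt_pos.2 (sub_pos.2 hs.2)
  refine fin_of_le measurableSet_Ioo ((int0.add int1).const_mul (1 / √(1 - s))) fun t ht => ?_
  have h0 := Real.sqrt_pos.2 ht.1
  have h1 := Real.sqrt_pos.2 (sub_pos.2 ht.2)
  have e0 := Real.sq_sqrt ht.1.le
  have e1 := Real.sq_sqrt (sub_pos.2 ht.2).le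
  refine (inv_le (mul_pos h0 h1) hc ?_).trans (mul_le_mul_of_nonneg_left ?_ (by positivity))
  · rw [mul_pow, mul_pow, e0, e1, Real.sq_sqrt (sub_pos.2 hs.2).le, mul_comm]
    exact mul_le_mul_of_nonneg_left (by nlinarith [hs.1, ht.2])
      (mul_pos ht.1 (sub_pos.2 ht.2)).le
  · simp only [Pi.add_apply]
    rw [div_add_div _ _ h0.ne' h1.ne']
    refine div_le_div_of_nonneg_right ?_ (by positivity)
    nlinarith [mul_pos h0 h1]

theorem PB_ne {s : ℝ} (hs : s ∈ Ioo (0 : ℝ) 1) : PB s ≠ ⊤ := by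
  have hc := Real.sqrt_pos.2 (sub_pos.2 hs.2)
  refine fin_of_le measurableSet_Ioi (int3.const_mul (1 / √(1 - s))) fun x hx => ?_
  have h1 : 0 < x - 1 := sub_pos.2 hx
  have h0 : 0 < x := by linarith
  refine inv_le (mul_pos h0 (Real.sqrt_pos.2 h1)) hc ?_
  rw [mul_pow, mul_pow, Real.sq_sqrt h1.le, Real.sq_sqrt (sub_pos.2 hs.2).le, ← mul_assoc]
  refine mul_le_mul_of_nonneg_right ?_ h1.le
  nlinarith [mul_pos (mul_pos hs.1 h0) h1]

theorem PA_le {s s' : ℝ} (hs' : s' ∈ Ioo (0 : ℝ) 1) (h : s < s') : PA s ≤ PA s' := by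
  refine setLIntegral_mono' measurableSet_Ioo fun t ht => (inv_lt ?_ ?_).le
  · exact mul_pos (mul_pos ht.1 (sub_pos.2 ht.2)) (by nlinarith [hs'.1, hs'.2, ht.1, ht.2])
  · exact mul_lt_mul_of_pos_left (by nlinarith [ht.1]) (mul_pos ht.1 (sub_pos.2 ht.2))

theorem PB_lt {s s' : ℝ} (hs : s ∈ Ioo (0 : ℝ) 1) (hs' : s' ∈ Ioo (0 : ℝ) 1) (h : s < s') :
    PB s < PB s' := by
  refine setLIntegral_strict_mono measurableSet_Ioi (by simp) (by fun_prop) (PB_ne hs)
    (Filter.Eventually.of_forall fun x hx => ?_)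
  have h1 : 0 < x - 1 := sub_pos.2 hx
  have h0 : 0 < x := by linarith
  exact inv_lt (mul_pos (mul_pos h0 (by linarith [hs'.2])) h1)
    (mul_lt_mul_of_pos_right (mul_lt_mul_of_pos_left (by linarith) h0) h1)

theorem quad {κ : ℝ} (hκ : κ ∈ Ioo (-1 : ℝ) 1) (x : ℝ) : 0 < x ^ 2 - 2 * κ * x + 1 := by
  nlinarith [sq_nonneg (x - κ), hκ.1, hκ.2]

theorem set2 {κ : ℝ} (hκ : κ ∈ Ioo (-1 : ℝ) 1) :
    {x : ℝ | 0 < x * (x ^ 2 - 2 * κ * x + 1)} = Ioi 0 := by
  ext x
  exact mul_pos_iff_of_pos_right (quad hκ x)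

theorem PC_ne {κ : ℝ} (hκ : κ ∈ Ioo (-1 : ℝ) 1) :
    ∫⁻ x in Ioi (0 : ℝ), ENNReal.ofReal (1 / √(x * (x ^ 2 - 2 * κ * x + 1))) ≠ ⊤ := by
  have h1 : 0 < (1 - κ) / 2 := by linarith [hκ.2]
  have hc := Real.sqrt_pos.2 h1
  refine fin_of_le measurableSet_Ioi (int2.const_mul (1 / √((1 - κ) / 2))) fun x hx => ?_
  have h0 : 0 < x := hx
  refine inv_le (mul_pos (by linarith) (Real.sqrt_pos.2 h0)) hc ?_
  rw [mul_pow, mul_pow, Real.sq_sqrt h1.le, Real.sq_sqrt h0.le, ← mul_assoc, mul_comm x]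
  refine mul_le_mul_of_nonneg_right ?_ h0.le
  nlinarith [mul_nonneg (by linarith [hκ.1] : 0 ≤ 1 + κ) (sq_nonneg (x - 1))]

theorem PC_lt {κ κ' : ℝ} (hκ : κ ∈ Ioo (-1 : ℝ) 1) (hκ' : κ' ∈ Ioo (-1 : ℝ) 1) (h : κ < κ') :
    (Ig fun x => x * (x ^ 2 - 2 * κ * x + 1)) < Ig fun x => x * (x ^ 2 - 2 * κ' * x + 1) := by
  unfold Ig
  rw [set2 hκ, set2 hκ']
  refine setLIntegral_strict_mono measurableSet_Ioi (by simp) (by fun_prop) (PC_ne hκ)
    (Filter.Eventually.of_forall fun x hx => ?_)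
  have h0 : 0 < x := hx
  exact inv_lt (mul_pos h0 (quad hκ' x)) (mul_lt_mul_of_pos_left (by nlinarith) h0)

end UVa

open UVa

theorem uv : UV := by
  refine ⟨⟨fun s hs s' hs' h => ?_, fun s hs => ⟨?_, ?_⟩⟩,
    fun κ hκ κ' hκ' h => PC_lt hκ hκ' h, fun κ hκ => ⟨?_, ?_⟩⟩
  · simp only
    rw [split hs, split hs']
    exact ENNReal.add_lt_add_of_le_of_lt (PA_ne hs) (PA_le hs' h) (PB_lt hs hs' h)
  · rw [split hs]
    exact (zero_le.trans_lt (PB_lt (s := s / 2) ⟨by linarith [hs.1], by linarith [hs.2]⟩ hs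
      (by linarith [hs.1]))).trans_le le_add_self
  · rw [split hs]
    exact ENNReal.add_ne_top.2 ⟨PA_ne hs, PB_ne hs⟩
  · exact zero_le.trans_lt (PC_lt (κ := (κ - 1) / 2)
      ⟨by linarith [hκ.1], by linarith [hκ.2]⟩ hκ (by linarith [hκ.1]))
  · unfold Ig
    rw [set2 hκ]
    exact PC_ne hκ

end Pool.Agent.MP_c481b3_nt.H28K
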