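import Pool.Agent.MP_c481b3_nt.H28K.SpecN
import Pool.Agent.MP_c481b3_nt.H31.Repel
import Pool.Agent.MP_c481b3_nt.H31.LocFac
import Pool.Agent.MP_c481b3_nt.H31.LS

set_option autoImplicit false

namespace Pool.Agent.MP_c481b3_nt.H28K

open Pool.Agent.MP_c481b3_nt.H31 Pool.Agent.MP_c481b3_nt.H63 ArithmeticFunction Finset

namespace WT

/-- the terms of the Dirichlet series -/
noncomputable def a (σ : ℝ) (n : ℕ) : ℝ := vonMangoldt n / (n : ℝ) ^ σ

lemma a_nonneg (σ : ℝ) (n : ℕ) : 0 ≤ a σ n := div_nonneg vonMangoldt_nonneg (by positivity)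

lemma hs {w : ℕ → ℝ} (hw : ∀ n, |w n| ≤ 1) {σ : ℝ} (hσ : 1 < σ) :
    HasSum (fun n => a σ n * w n) (Mo w 0 σ) := by
  have h := (Repl.mo_sum hw 0 hσ).hasSum
  rw [Mo]
  convert h using 2 with n
  rw [a]
  ring

lemma ind (s : Finset ℕ) (f : ℕ → ℝ) : HasSum (fun n => if n ∈ s then f n else 0) (∑ n ∈ s, f n) := by
  have h := hasSum_sum_of_ne_finset_zero (L := SummationFilter.unconditional ℕ)
    (f := fun n => if n ∈ s then f n else 0) (s := s) fun n hn => if_neg hn
  rwa [sum_congr rfl fun n hn => if_pos hn] at h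

lemma np : Summable fun n : ℕ => (if n.Prime then 0 else vonMangoldt n) / (n : ℝ) := by
  refine (vonMangoldt.summable_residueClass_non_primes_div (0 : ZMod 1)).congr fun n => ?_
  rw [vonMangoldt.residueClass, Set.indicator_of_mem (by exact Subsingleton.elim _ _)]

lemma a_le {σ : ℝ} (hσ : 1 ≤ σ) (n : ℕ) : a σ n ≤ vonMangoldt n / n := by
  rcases Nat.eq_zero_or_pos n with rfl | h
  · simp [a]
  have h1 : (1 : ℝ) ≤ n := by exact_mod_cast h
  refine div_le_div_of_nonneg_left vonMangoldt_nonneg (by positivity) ?_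
  simpa using Real.rpow_le_rpow_of_exponent_le h1 hσ

lemma small {y : ℝ} (hy : 0 < y) {n : ℕ} (h : y ^ 2 < n) : vonMangoldt n / (n : ℝ) ≤ 2 / y := by
  have n0 : (0 : ℝ) < n := lt_trans (by positivity) h
  have h1 : y ≤ √(n : ℝ) := Real.le_sqrt_of_sq_le h.le
  have h2 : Real.log n ≤ 2 * √(n : ℝ) := by
    have := Real.log_le_sub_one_of_pos (Real.sqrt_pos.2 n0)
    rw [Real.log_sqrt n0.le] at this
    linarith
  rw [div_le_div_iff₀ n0 hy]
  have h3 := Real.mul_self_sqrt n0.le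
  have h4 : vonMangoldt n ≤ Real.log n := vonMangoldt_le_log
  nlinarith [mul_le_mul (h4.trans h2) h1 hy.le (by positivity)]

lemma large {δ X : ℝ} (hδ : 0 < δ) (hX : 0 < X) {n : ℕ} (h : X < n) :
    a (1 + δ) n ≤ X ^ (-(δ / 2)) * a (1 + δ / 2) n := by
  have n0 : (0 : ℝ) < n := hX.trans h
  have e : a (1 + δ) n = (n : ℝ) ^ (-(δ / 2)) * a (1 + δ / 2) n := by
    rw [a, a, show 1 + δ = (1 + δ / 2) + δ / 2 by ring, Real.rpow_add n0, Real.rpow_neg n0.le]
    field_simp
  rw [e]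
  exact mul_le_mul_of_nonneg_right (Real.rpow_le_rpow_of_nonpos hX h.le (by linarith))
    (a_nonneg _ _)

lemma two {t x c : ℝ} (h : 0 ≤ t) (hc : |c| ≤ 1) (hx : t ≤ x) : t * 1 - t * c ≤ 2 * x := by
  nlinarith [abs_le.1 hc]

end WT

open WT

theorem wt : Wt := by
  classical
  obtain ⟨K, hK, hz⟩ := Repl.zero_le locFac
  obtain ⟨δ₀, C, d0, C0, ht⟩ := Repl.triv 1 (fun _ => 1) (by simp)
    fun n => by rw [MulChar.one_apply (isUnit_of_subsingleton _)]; simp
  set C₂ := ∑' n : ℕ, (if n.Prime then 0 else vonMangoldt n) / (n : ℝ) with hC₂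
  have np0 : ∀ n : ℕ, 0 ≤ (if n.Prime then 0 else vonMangoldt n) / (n : ℝ) := fun n =>
    div_nonneg (by split_ifs; exacts [le_rfl, vonMangoldt_nonneg]) (by positivity)
  have c2 : 0 ≤ C₂ := tsum_nonneg np0
  have i0 : 0 < 1 / δ₀ := by positivity
  set C₁ := 4 * (C + K + 74 + C₂) + 1 / δ₀ with hC₁
  have c1 : 16 ≤ C₁ := by linarith
  refine ⟨30 * C₁, by linarith, fun y B hy hB => ?_⟩
  have y8 : 8 ≤ y := by linarith
  have y0 : 0 < y := by linarith
  have yy : y < y ^ 2 := by nlinarith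
  have l8 : Real.log 8 ≤ Real.log y := Real.log_le_log (by norm_num) y8
  have l1 : 1 ≤ Real.log y := by
    rw [Real.le_log_iff_exp_le y0]
    linarith [Real.exp_one_lt_d9]
  set ℓ := Real.log y with hℓ
  set u := C₁ * ℓ with hu
  have u1 : C₁ ≤ u := le_mul_of_one_le_right (by linarith) l1
  have u0 : 0 < u := by linarith
  set δ := 1 / u with hδ
  have δ0 : 0 < δ := by positivity
  have δ1 : δ ≤ 1 / 16 := one_div_le_one_div_of_le (by norm_num) (by linarith)
  have δ2 : δ ≤ δ₀ := by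
    rw [hδ, ← one_div_one_div δ₀]
    exact one_div_le_one_div_of_le i0 (by linarith)
  have m1 := abs_le.1 (ht δ 0 δ0 δ2)
  have m2 := abs_le.1 (ht (δ / 2) 0 (by positivity) (by linarith))
  have e1 : ((0 : ℕ).factorial : ℝ) / δ ^ (0 + 1) = u := by simp [hδ]
  have e2 : ((0 : ℕ).factorial : ℝ) / (δ / 2) ^ (0 + 1) = 2 * u := by
    simp [hδ]
  rw [e1] at m1
  rw [e2] at m2
  simp only [Nat.factorial_zero, Nat.cast_one, pow_zero, div_one, mul_one] at m1 m2
  set X := y ^ (30 * C₁) with hX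
  have X0 : 0 < X := by positivity
  have ε1 : X ^ (-(δ / 2)) ≤ 1 / 16 := by
    rw [hX, ← Real.rpow_mul y0.le, Real.rpow_def_of_pos y0, ← hℓ,
      show ℓ * (30 * C₁ * -(δ / 2)) = -15 by rw [hδ, hu]; field_simp; ring, Real.exp_neg,
      one_div]
    exact inv_anti₀ (by norm_num) (by linarith [Real.add_one_le_exp 15])
  set A := (range (⌊X⌋₊ + 1)).filter fun r : ℕ => r.Prime ∧ y ^ 2 < r ∧ r ∉ B with hA
  set bad : ℕ → ℝ := fun n => (if n ∈ Ioc 0 ⌊y ^ 2⌋₊ then vonMangoldt n / n else 0)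
    + (if n.Prime then 0 else vonMangoldt n) / n + (if n ∈ B then 2 / y else 0)
    + 1 / 16 * (a (1 + δ / 2) n * 1) with hbad
  have hb : HasSum bad _ := (((ind (Ioc 0 ⌊y ^ 2⌋₊) fun n => vonMangoldt n / n).add np.hasSum).add
    (ind B fun _ => 2 / y)).add
      ((hs (w := fun _ => 1) (by simp) (σ := 1 + δ / 2) (by linarith)).mul_left (1 / 16))
  have b1 : ∑ n ∈ Ioc 0 ⌊y ^ 2⌋₊, vonMangoldt n / (n : ℝ) ≤ 72 * ℓ := by
    refine (LSA.mertens _).trans ?_
    have f1 : (0 : ℝ) < ⌊y ^ 2⌋₊ := by exact_mod_cast Nat.floor_pos.2 (by linarith)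
    have := Real.log_le_log f1 (Nat.floor_le (by positivity))
    rw [Real.log_pow] at this
    push_cast at this
    linarith
  have b2 : ∑ _n ∈ B, 2 / y ≤ 2 := by
    rw [sum_const, nsmul_eq_mul, ← mul_div_assoc, div_le_iff₀ y0]
    linarith
  have hle : ∀ n, 0 ≤ bad n ∧ (n ∉ A → a (1 + δ) n ≤ bad n) := fun n => by
    have t1 : 0 ≤ (if n ∈ Ioc 0 ⌊y ^ 2⌋₊ then vonMangoldt n / (n : ℝ) else 0) := by
      split_ifs
      exacts [div_nonneg vonMangoldt_nonneg (by positivity), le_rfl]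
    have t2 := np0 n
    have t3 : 0 ≤ (if n ∈ B then 2 / y else 0) := by split_ifs <;> positivity
    have t4 := a_nonneg (1 + δ / 2) n
    have t5 := a_le (σ := 1 + δ) (by linarith) n
    refine ⟨by simp only [hbad]; linarith, fun hn => ?_⟩
    simp only [hbad]
    by_cases p1 : n.Prime
    swap
    · rw [if_neg p1]
      linarith
    by_cases p2 : y ^ 2 < n
    swap
    · rw [if_pos (mem_Ioc.2 ⟨p1.pos, Nat.le_floor (not_lt.1 p2)⟩)]
      linarith
    by_cases p3 : n ∈ B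
    · rw [if_pos p3]
      linarith [small y0 p2]
    have p4 : X < n := by
      by_contra h
      exact hn (mem_filter.2 ⟨mem_range.2 (Nat.lt_succ_of_le (Nat.le_floor (not_lt.1 h))),
        p1, p2, p3⟩)
    have := (large δ0 X0 p4).trans (mul_le_mul_of_nonneg_right ε1 t4)
    linarith
  have h1 := hs (w := fun _ => 1) (by simp) (σ := 1 + δ) (by linarith)
  have up : ∑ r ∈ A, a (1 + δ) r ≤ u + C := by
    have := hasSum_le (fun n => (by
      split_ifs
      exacts [(mul_one _).ge, mul_nonneg (a_nonneg _ _) zero_le_one] :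
      (if n ∈ A then a (1 + δ) n else 0) ≤ a (1 + δ) n * 1)) (ind A (a (1 + δ))) h1
    linarith [m1.2]
  have k1 : C ≤ C * ℓ := le_mul_of_one_le_right C0.le l1
  have k2 : C₂ ≤ C₂ * ℓ := le_mul_of_one_le_right c2 l1
  have k3 : 4 * (C * ℓ + K * ℓ + 74 * ℓ + C₂ * ℓ) ≤ u := by
    rw [hu, hC₁, add_mul]
    linarith [mul_pos i0 (by linarith : 0 < ℓ)]
  have k4 : 0 ≤ K * ℓ := by positivity
  refine ⟨A, a (1 + δ), fun r hr => ?_, ?_, fun p hp hp2 hpy => ?_⟩
  · obtain ⟨r1, r2, r3, r4⟩ := mem_filter.1 hr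
    refine ⟨r2, yy.trans r3, ?_, r4, a_nonneg _ _⟩
    exact (Nat.le_floor_iff X0.le).1 (Nat.lt_succ_iff.1 (mem_range.1 r1))
  · have := hasSum_le (fun n => (by
      split_ifs with h
      exacts [by linarith [(hle n).1], by linarith [(hle n).2 h]] :
      a (1 + δ) n * 1 ≤ (if n ∈ A then a (1 + δ) n else 0) + bad n)) h1
        ((ind A (a (1 + δ))).add hb)
    linarith [m1.1, m2.2]
  have hc := ch_prime hp hp2
  have p0 : (0 : ℝ) < p := by exact_mod_cast hp.pos
  have z1 := (hz _ _ (2 * ℓ) δ hc (by linarith) (by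
    rw [← mul_assoc, Real.log_mul (by norm_num) p0.ne']
    have := Real.log_le_log p0 hpy
    norm_num
    linarith) δ0 δ1).1
  set A' := A.filter fun r : ℕ => jacobiSym (-(p : ℤ)) r = -1 with hA'
  have := hasSum_le (fun n => (by
      have t2 := a_nonneg (1 + δ) n
      have t3 := (hle n).1
      split_ifs with h
      · linarith [two t2 (hc.abs n) le_rfl]
      by_cases hn : n ∈ A
      · obtain ⟨-, r2, r3, -⟩ := mem_filter.1 hn
        have r4 : p < n := by
          exact_mod_cast hpy.trans_lt (yy.trans r3)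
        have r5 : jacobiSym (-(p : ℤ)) n = 1 := by
          refine (jacobiSym.eq_one_or_neg_one ?_).resolve_right fun e => h (mem_filter.2 ⟨hn, e⟩)
          rw [Int.neg_gcd, Int.gcd_natCast_natCast]
          exact (Nat.coprime_primes hp r2).2 r4.ne
        rw [ja_apply, jz, if_pos (r2.odd_of_ne_two (by have := hp.two_le; omega)), r5]
        push_cast
        linarith
      · linarith [two t2 (hc.abs n) ((hle n).2 hn)] :
      a (1 + δ) n * 1 - a (1 + δ) n * ja (-p) n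
        ≤ 2 * (if n ∈ A' then a (1 + δ) n else 0) + 2 * bad n))
    (h1.sub (hs hc.abs (σ := 1 + δ) (by linarith)))
    (((ind A' (a (1 + δ))).mul_left 2).add (hb.mul_left 2))
  linarith [m1.1, m2.2]

end Pool.Agent.MP_c481b3_nt.H28K
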